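import Pool.Agent.Q41.AB.Pl

/-!
The change of the chart.
-/

set_option autoImplicit false
set_option linter.overlappingInstances false
set_option linter.unusedSectionVars false

open FF MvPolynomial IntermediateField Pool.Agent.W603.LV Pool.Agent.W619.PQ
open Pool.Agent.W619.TW Pool.Agent.W602.GT Pool.Agent.TH122.AB Pool.Agent.TH756.PN

namespace Pool.Agent.Q41.AB

open Pool.Agent.Q41.RC (MH IsPt SNC DatK IsCov CovK bwK)

/-- new generators -/
theorem gens_of {k E : Type} [Field k] [Field E] [Algebra k E] {d : ℕ} {X X' : Fin d → E}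
    (hX : Gens (k := k) X)
    (h : ∀ b, X b ∈ IntermediateField.adjoin k (Set.range X')) : Gens (k := k) X' := by
  classical
  have hall : ∀ x : E, x ∈ IntermediateField.adjoin k (Set.range X') := by
    intro x
    obtain ⟨P, Q, -, rfl⟩ := hX.gen x
    have h1 : ∀ P : MvPolynomial (Fin d) k,
        aeval X P ∈ IntermediateField.adjoin k (Set.range X') := by
      intro P
      induction P using MvPolynomial.induction_on with
      | C a => rw [aeval_C]; exact IntermediateField.algebraMap_mem _ a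
      | add p q hp hq => rw [map_add]; exact add_mem hp hq
      | mul_X p i hp => rw [map_mul, aeval_X]; exact mul_mem hp (h i)
    exact div_mem (h1 P) (h1 Q)
  have hgen : ∀ x : E, ∃ P Q : MvPolynomial (Fin d) k, Q ≠ 0 ∧ aeval X' Q ≠ 0 ∧
      x = aeval X' P / aeval X' Q := by
    intro x
    obtain ⟨r, s, hrs⟩ := (IntermediateField.mem_adjoin_range_iff k X' x).1 (hall x)
    by_cases hs : aeval X' s = 0
    · refine ⟨0, 1, one_ne_zero, by rw [map_one]; exact one_ne_zero, ?_⟩
      rw [hrs, hs, div_zero, map_zero, zero_div]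
    · exact ⟨r, s, fun h0 => hs (by rw [h0, map_zero]), hs, hrs⟩
  have halg : Algebra.IsAlgebraic (Algebra.adjoin k (Set.range X')) E := by
    refine ⟨fun x => ?_⟩
    obtain ⟨P, Q, -, hQ, hx⟩ := hgen x
    have hmem : ∀ P : MvPolynomial (Fin d) k, aeval X' P ∈ Algebra.adjoin k (Set.range X') := by
      intro P
      rw [Algebra.adjoin_range_eq_range_aeval]
      exact ⟨P, rfl⟩
    refine ⟨Polynomial.C ⟨aeval X' Q, hmem Q⟩ * Polynomial.X - Polynomial.C ⟨aeval X' P, hmem P⟩,
      ?_, ?_⟩
    · intro h0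
      have h1 := congrArg (fun p => Polynomial.coeff p 1) h0
      simp only [Polynomial.coeff_sub, Polynomial.coeff_C_mul, Polynomial.coeff_X_one, mul_one,
        Polynomial.coeff_C, one_ne_zero, if_false, sub_zero, Polynomial.coeff_zero] at h1
      exact hQ (congrArg Subtype.val h1)
    · rw [map_sub, map_mul, Polynomial.aeval_X, Polynomial.aeval_C, Polynomial.aeval_C, hx]
      change aeval X' Q * (aeval X' P / aeval X' Q) - aeval X' P = 0
      rw [mul_div_cancel₀ _ hQ, sub_self]
  have htr : Algebra.trdeg k E = d := by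
    have h1 : IsTranscendenceBasis k X := by
      refine (hX.ind.isTranscendenceBasis_iff_isAlgebraic).2 ⟨fun x => ?_⟩
      obtain ⟨P, Q, hQ0, hx⟩ := hX.gen x
      have hQ := hX.ne hQ0
      have hmem : ∀ P : MvPolynomial (Fin d) k, aeval X P ∈ Algebra.adjoin k (Set.range X) := by
        intro P
        rw [Algebra.adjoin_range_eq_range_aeval]
        exact ⟨P, rfl⟩
      refine ⟨Polynomial.C ⟨aeval X Q, hmem Q⟩ * Polynomial.X - Polynomial.C ⟨aeval X P, hmem P⟩,
        ?_, ?_⟩
      · intro h0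
        have h1 := congrArg (fun p => Polynomial.coeff p 1) h0
        simp only [Polynomial.coeff_sub, Polynomial.coeff_C_mul, Polynomial.coeff_X_one, mul_one,
          Polynomial.coeff_C, one_ne_zero, if_false, sub_zero, Polynomial.coeff_zero] at h1
        exact hQ (congrArg Subtype.val h1)
      · rw [map_sub, map_mul, Polynomial.aeval_X, Polynomial.aeval_C, Polynomial.aeval_C, hx]
        change aeval X Q * (aeval X P / aeval X Q) - aeval X P = 0
        rw [mul_div_cancel₀ _ hQ, sub_self]
    rw [← h1.cardinalMk_eq_trdeg]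
    simp
  have hb : IsTranscendenceBasis k X' :=
    Algebra.IsAlgebraic.isTranscendenceBasis_of_le_trdeg_of_finite k X' (by rw [htr]; simp)
  refine ⟨hb.1, fun x => ?_⟩
  obtain ⟨P, Q, hQ, -, hx⟩ := hgen x
  exact ⟨P, Q, hQ, hx⟩

/-- the chart -/
theorem exists_chart {ρ σ : Type} [Fintype ρ] [Fintype σ] {n : ℕ} {pr : σ → ρ}
    (ε : ρ ⊕ Fin n ≃ σ) {j : ρ → σ} (hj : ∀ l, pr (j l) = l) :
    ∃ ε' : ρ ⊕ Fin n ≃ σ, ∀ l, ε' (Sum.inl l) = j l := by
  classical
  let e2 : ρ ≃ {i : σ // ¬ i ≠ j (pr i)} :=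
    { toFun := fun l => ⟨j l, by rw [hj]; exact fun h1 => h1 rfl⟩
      invFun := fun i => pr i.1
      left_inv := fun l => hj l
      right_inv := fun i => Subtype.ext (not_not.1 i.2).symm }
  have hcard : Fintype.card {i : σ // i ≠ j (pr i)} = n := by
    have h1 := Fintype.card_subtype_compl fun i : σ => ¬ i ≠ j (pr i)
    have h2 := Fintype.card_congr e2
    have h3 := Fintype.card_congr ε
    rw [Fintype.card_sum, Fintype.card_fin] at h3
    have h4 : Fintype.card {i : σ // ¬ ¬ i ≠ j (pr i)} = Fintype.card {i : σ // i ≠ j (pr i)} :=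
      Fintype.card_congr (Equiv.subtypeEquivRight fun i => not_not)
    omega
  let e1 : Fin n ≃ {i : σ // i ≠ j (pr i)} := (Fintype.equivFinOfCardEq hcard).symm
  let ε' : ρ ⊕ Fin n ≃ σ := ((Equiv.sumComm _ _).trans (Equiv.sumCongr e1 e2)).trans
    (Equiv.sumCompl fun i : σ => i ≠ j (pr i))
  exact ⟨ε', fun l => rfl⟩

end Pool.Agent.Q41.AB
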