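import Pool.Agent.Q41.AB.Stm3
import Pool.Agent.Q296.AB.Comb

/-!
From the inequality for integral combinations to the exponents, with explicit constants (a version of
`Pool.Agent.Q296.AB.combJob`).
-/

set_option autoImplicit false

namespace Pool.Agent.Q41.AB

open Pool.Agent.Q296.AB (denom)

theorem combx (lpx : S_LPX) : S_CombX := by
  intro κ ρ _ _ δ s A B hB hδ hA hex
  classical
  have hpwo : A.IsPWO := Set.isPWO_of_wellQuasiOrderedLE A
  have hfin : {x | Minimal (· ∈ A) x}.Finite :=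
    (setOfPred_minimal_antichain _).finite_of_partiallyWellOrderedOn
      (hpwo.mono (setOfPred_minimal_subset _))
  set R : Finset (κ → ℕ) := hfin.toFinset with hR
  have hRA : ∀ w ∈ R, w ∈ A := by
    intro w hw
    rw [hR, Set.Finite.mem_toFinset] at hw
    exact hw.1
  have hAR : ∀ v ∈ A, ∃ w ∈ R, w ≤ v := by
    intro v hv
    obtain ⟨w, hwv, hw⟩ := hpwo.exists_le_minimal hv
    exact ⟨w, by rw [hR, Set.Finite.mem_toFinset]; exact hw, hwv⟩
  set AA : ({w // w ∈ R} ⊕ ρ) → κ → ℤ :=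
    fun r c => Sum.elim (fun w => ((w.1 c : ℕ) : ℤ)) (fun l => -((δ c l : ℕ) : ℤ)) r with hAA
  set bb : ({w // w ∈ R} ⊕ ρ) → ℤ := Sum.elim (fun _ => 1) (fun l => -((s l : ℕ) : ℤ)) with hbb
  have hiff : ∀ e : κ → ℚ, (∀ c, 0 ≤ e c) →
      ((∀ r, (bb r : ℚ) ≤ ∑ c, (AA r c : ℚ) * e c) ↔
        ((∀ v ∈ A, 1 ≤ ∑ c, (v c : ℚ) * e c) ∧ ∀ l, ∑ c, (δ c l : ℚ) * e c ≤ s l)) := by
    intro e he
    constructor
    · intro h
      constructor
      · intro v hv
        obtain ⟨w, hw, hwv⟩ := hAR v hv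
        have h1 := h (Sum.inl ⟨w, hw⟩)
        simp only [hAA, hbb, Sum.elim_inl, Int.cast_one, Int.cast_natCast] at h1
        refine h1.trans (Finset.sum_le_sum fun c _ => ?_)
        have h2 : (w c : ℚ) ≤ v c := by exact_mod_cast hwv c
        exact mul_le_mul_of_nonneg_right h2 (he c)
      · intro l
        have h1 := h (Sum.inr l)
        simp only [hAA, hbb, Sum.elim_inr, Int.cast_neg, Int.cast_natCast, neg_mul,
          Finset.sum_neg_distrib] at h1
        linarith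
    · rintro ⟨h1, h2⟩ r
      rcases r with w | l
      · simp only [hAA, hbb, Sum.elim_inl, Int.cast_one, Int.cast_natCast]
        exact h1 _ (hRA _ w.2)
      · simp only [hAA, hbb, Sum.elim_inr, Int.cast_neg, Int.cast_natCast, neg_mul,
          Finset.sum_neg_distrib]
        linarith [h2 l]
  obtain ⟨e0, he0, he1⟩ := hex
  have hAB : ∀ r c, |AA r c| ≤ B := by
    intro r c
    rcases r with w | l
    · simp only [hAA, Sum.elim_inl, Nat.abs_cast]
      have h1 : ∀ w ∈ R, Minimal (· ∈ A) w := by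
        intro w hw
        rw [hR, Set.Finite.mem_toFinset] at hw
        exact hw
      exact_mod_cast hA _ (h1 _ w.2) c
    · simp only [hAA, Sum.elim_inr, abs_neg, Nat.abs_cast]
      exact_mod_cast hδ c l
  obtain ⟨S, hS1, C, hS2⟩ := lpx AA bb B hB hAB ⟨e0, he0, (hiff e0 he0).2 he1⟩
  refine ⟨S, fun e he => ⟨(hS1 e he).1, ((hiff e (hS1 e he).1).1 (hS1 e he).2.1).1,
    ((hiff e (hS1 e he).1).1 (hS1 e he).2.1).2, (hS1 e he).2.2⟩, C, fun v => ?_⟩
  obtain ⟨e, heS, y, hyC, hy1, hy2⟩ := hS2 v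
  have hy0 : ∀ r, 0 ≤ y r := fun r => (hyC r).1
  refine ⟨e, heS, fun l => y (Sum.inr l), fun l => hyC _, fun Q m j r H => ?_⟩
  obtain ⟨M, Z, hM, hZ⟩ := denom y hy0
  have hMQ : (0 : ℚ) < M := by exact_mod_cast hM
  have H1 := H M (ι := Σ w : {w // w ∈ R}, Fin (Z (Sum.inl w))) (fun i => i.1.1)
    (fun l => Z (Sum.inr l)) hM (fun i => hRA _ i.1.2) (fun c => by
      have h1 := hy1 c
      rw [Fintype.sum_sum_type] at h1
      simp only [hAA, Sum.elim_inl, Sum.elim_inr, Int.cast_neg, Int.cast_natCast, mul_neg,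
        Finset.sum_neg_distrib] at h1
      have h2 : ∑ i : (Σ w : {w // w ∈ R}, Fin (Z (Sum.inl w))), i.1.1 c =
          ∑ w : {w // w ∈ R}, Z (Sum.inl w) * w.1 c := by
        rw [Fintype.sum_sigma]
        refine Finset.sum_congr rfl fun w _ => ?_
        simp
      rw [h2]
      have h3 : ((∑ w : {w // w ∈ R}, Z (Sum.inl w) * w.1 c : ℕ) : ℚ) ≤
          ((M * v c + ∑ l, Z (Sum.inr l) * δ c l : ℕ) : ℚ) := by
        push_cast
        simp only [hZ]
        have h4 : ∀ w : {w // w ∈ R}, (M : ℚ) * y (Sum.inl w) * (w.1 c : ℚ) =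
            M * (y (Sum.inl w) * (w.1 c : ℚ)) := fun w => by ring
        have h5 : ∀ l, (M : ℚ) * y (Sum.inr l) * (δ c l : ℚ) =
            M * (y (Sum.inr l) * (δ c l : ℚ)) := fun l => by ring
        simp only [h4, h5]
        rw [← Finset.mul_sum, ← Finset.mul_sum, ← mul_add]
        apply mul_le_mul_of_nonneg_left _ hMQ.le
        linarith
      exact_mod_cast h3)
  have hcard : Fintype.card (Σ w : {w // w ∈ R}, Fin (Z (Sum.inl w))) =
      ∑ w : {w // w ∈ R}, Z (Sum.inl w) := by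
    rw [Fintype.card_sigma]
    exact Finset.sum_congr rfl fun w _ => Fintype.card_fin _
  rw [hcard] at H1
  have H2 : ((m * ∑ w : {w // w ∈ R}, Z (Sum.inl w) : ℕ) : ℚ) ≤
      ((∑ l, (m * s l + Q l * (j + 1)) * Z (Sum.inr l) + M * r : ℕ) : ℚ) := by exact_mod_cast H1
  push_cast at H2
  simp only [hZ] at H2
  have e1 : ∑ w : {w // w ∈ R}, (M : ℚ) * y (Sum.inl w) = M * ∑ w : {w // w ∈ R}, y (Sum.inl w) := by
    rw [Finset.mul_sum]
  have e2 : ∑ l, ((m : ℚ) * s l + Q l * (j + 1)) * (M * y (Sum.inr l)) =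
      M * (m * ∑ l, y (Sum.inr l) * s l + (j + 1) * ∑ l, (Q l : ℚ) * y (Sum.inr l)) := by
    rw [Finset.mul_sum, Finset.mul_sum, ← Finset.sum_add_distrib, Finset.mul_sum]
    exact Finset.sum_congr rfl fun l _ => by ring
  rw [e1, e2] at H2
  have H3 : (m : ℚ) * ∑ w : {w // w ∈ R}, y (Sum.inl w) ≤
      m * ∑ l, y (Sum.inr l) * s l + (j + 1) * ∑ l, (Q l : ℚ) * y (Sum.inr l) + r := by
    have : (M : ℚ) * (m * ∑ w : {w // w ∈ R}, y (Sum.inl w)) ≤
        M * (m * ∑ l, y (Sum.inr l) * s l + (j + 1) * ∑ l, (Q l : ℚ) * y (Sum.inr l) + r) := by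
      linarith
    exact le_of_mul_le_mul_left this hMQ
  rw [Fintype.sum_sum_type] at hy2
  simp only [hbb, Sum.elim_inl, Sum.elim_inr, Int.cast_one, Int.cast_neg, Int.cast_natCast,
    mul_neg, mul_one, Finset.sum_neg_distrib] at hy2
  have H4 := mul_le_mul_of_nonneg_left hy2 (Nat.cast_nonneg m : (0:ℚ) ≤ m)
  linarith

end Pool.Agent.Q41.AB
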