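import Pool.Agent.Q41.AB.Fin

/-!
Good minimal models for abelian covers of products of projective spaces.
-/

set_option autoImplicit false

open FF MvPolynomial

namespace Pool.Agent.Q41.AB

open Pool.Agent.Q41.RC Pool.Agent.Q41.RC.Def
open Pool.Agent.Q57.TP (BSec BPsef)
open Pool.Agent.Q57.GM (BGood BNef BSemi semi_of_good)

section

variable {r N R : ℕ} {n : Fin r → ℕ} {d : Fin N → Fin r → ℕ}
  {F : Fin N → MvPolynomial (Def.Coord n) ℂ} {m : Fin R → ℕ} {a : Fin R → Fin N → ℕ} {K : Type}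
  [Field K] [Algebra ℂ K] {x : Def.Coord n → K} {z : Fin R → K} {S : Set (Fin N)}
  {δb : Place ℂ K → ℚ}

theorem bd_of_boundary (h1 : ∀ P, Boundary d F S x P → δb P = 1)
    (h0 : ∀ P, ¬ Boundary d F S x P → δb P = 0) :
    Bd (Sigma.fst : Def.Coord n → Fin r) d F x (· ∈ S) δb := by
  refine ⟨fun P α v hd hb => h1 P ?_, fun P α v hd hb => h0 P ?_⟩
  · rw [← overS_eq]
    exact (overS_iff hd).2 hb
  · rw [← overS_eq]
    intro h2
    obtain ⟨c, hc, hv⟩ := (overS_iff hd).1 h2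
    exact hv (hb c hc)

theorem sum_pos (h : IsCover d F m a x z) (hr : 0 < r) : ∃ e, ∑ l, n l = e + 1 := by
  have h1 : 1 ≤ n ⟨0, hr⟩ := h.dim _
  have h2 : n ⟨0, hr⟩ ≤ ∑ l, n l :=
    Finset.single_le_sum (f := fun l => n l) (fun _ _ => Nat.zero_le _) (Finset.mem_univ _)
  exact ⟨∑ l, n l - 1, by omega⟩

/-- **Good minimal models.** -/
theorem final_good (h : IsCover d F m a x z) (hF : NormalCrossings F) (hr : 0 < r)
    (h1 : ∀ P, Boundary d F S x P → δb P = 1) (h0 : ∀ P, ¬ Boundary d F S x P → δb P = 0)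
    (hps : BPsef (∑ l, n l) δb) : BGood (∑ l, n l) δb := by
  classical
  obtain ⟨e, he⟩ := sum_pos h hr
  have htr := trdeg_cover h
  rw [he] at hps htr ⊢
  exact good_cov (cov_of_cover h) htr (snc_of_nc hF) (bd_of_boundary h1 h0) hps

end

end Pool.Agent.Q41.AB
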