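import Pool.Agent.Q41.AB.Gd
import Pool.Agent.Q296.AB.ChS
import Pool.Agent.Q296.AB.S2
import Pool.Agent.Q20.AB.Inter
import Pool.Agent.Q285.AB.Gen
import Pool.Agent.Q95.AB.Arc
import Pool.Agent.Q95.AB.Curve
import Pool.Agent.Q95.AB.Den
import Pool.Agent.Q95.AB.LocC
import Pool.Agent.Q277.AB.Ext
import Pool.Agent.Q213.AB.LP
import Pool.Agent.Q275.AB.Hom
import Pool.Agent.Q210.AB.Low
import Pool.Agent.Q210.AB.Ram
import Pool.Agent.Q43.AB.Gal

/-!
Good minimal models for abelian covers: the theorem.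
-/

set_option autoImplicit false
set_option linter.overlappingInstances false
set_option linter.unusedSectionVars false
set_option maxHeartbeats 1000000

open FF MvPolynomial IntermediateField

namespace Pool.Agent.Q41.AB

open Pool.Agent.Q41.RC (MH IsPt SNC DatK IsCov CovK bwK IsVec IsExp)
open Pool.Agent.Q57.TP (SecD BSec BPsef bsec_sec)
open Pool.Agent.Q57.GM (BGood BNef BSemi semi_of_good)

variable {K ρ σ κ J : Type} [Field K] [Algebra ℂ K] [Fintype ρ] [Fintype σ] [Fintype κ] [Fintype J]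
  {pr : σ → ρ} {o : ρ → σ} {δ : κ → ρ → ℕ} {F : κ → MvPolynomial σ ℂ} {m : J → ℕ}
    {a : J → κ → ℕ} {y : σ → K} {z : J → K} {n : ℕ} {S : κ → Prop} {δb : Place ℂ K → ℚ}

/-- **Good minimal models.** -/
theorem good_cov (h : IsCov pr o δ F m a y z) (htr : Algebra.trdeg ℂ K = ((n + 1 : ℕ) : Cardinal))
    (hS : SNC pr F) (hB : Bd pr δ F y S δb) (hps : BPsef (n + 1) δb) : BGood (n + 1) δb := by
  classical
  obtain ⟨ε, hε, hbas⟩ := h.exists_equiv htr
  obtain ⟨G, hG, X, hX, hXy⟩ := Q43.AB.gal h ε hε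
  choose D0 hD0 using fun i : Fin (n + 1) => Pool.Agent.W602.GT.exists_der
    (fun i => y (ε (Sum.inr i))) hbas (fun j => if i = j then (1 : K) else 0)
  have hSu : Su pr o δ F m a y z ε G X D0 := ⟨h, hε, hbas, hX, hXy, hD0⟩
  have hch : S_CH := Pool.Agent.Q296.AB.chS
  exact good_su (Pool.Agent.Q296.AB.tor Pool.Agent.Q296.AB.e) Pool.Agent.Q95.AB.locC
    Pool.Agent.Q210.AB.ram (Pool.Agent.Q285.AB.gen hch Pool.Agent.Q20.AB.krull)
    Pool.Agent.Q95.AB.den Pool.Agent.Q275.AB.hom Pool.Agent.Q210.AB.low Pool.Agent.Q20.AB.fin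
    (Pool.Agent.Q296.AB.comb Pool.Agent.Q213.AB.lp) Pool.Agent.Q277.AB.ext
    (Pool.Agent.Q20.AB.inter hch) Pool.Agent.Q95.AB.arc Pool.Agent.Q95.AB.curve hSu hS hB
    (exp_of_psef h htr hS hB hps)

end Pool.Agent.Q41.AB
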