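import Pool.Agent.Q41.AB.Sf

/-!
The sections which are given by the exponents.
-/

set_option autoImplicit false
set_option linter.overlappingInstances false
set_option linter.unusedSectionVars false
set_option maxHeartbeats 1000000

open FF MvPolynomial IntermediateField Pool.Agent.W603.LV Pool.Agent.W619.PQ
open Pool.Agent.W619.TW Pool.Agent.W602.GT Pool.Agent.TH122.AB Pool.Agent.TH756.PN

namespace Pool.Agent.Q41.AB

open Pool.Agent.Q41.RC (MH IsPt SNC DatK IsCov CovK bwK IsVec IsExp)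
open Pool.Agent.Q57.TP (SecD BSec BPsef bsec_sec)

section

variable {K ρ σ κ J : Type} [Field K] [Algebra ℂ K] [Fintype ρ] [Fintype σ] [Fintype κ]
  {pr : σ → ρ} {o : ρ → σ} {δ : κ → ρ → ℕ} {F : κ → MvPolynomial σ ℂ} {m : J → ℕ}
    {a : J → κ → ℕ} {y : σ → K} {z : J → K} {n : ℕ} {ε : ρ ⊕ Fin (n + 1) ≃ σ}
    {G : Subgroup (K ≃ₐ[ℂ] K)} {X : Fin (n + 1) → IntermediateField.fixedField G}
    {D0 : Fin (n + 1) → Derivation ℂ K K} [DecidableEq ρ] [DecidableEq σ]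

/-- the section of the exponents `w / T` and of the coordinates `zz` -/
noncomputable def om (ε : ρ ⊕ Fin (n + 1) ≃ σ) (pr : σ → ρ) (F : κ → MvPolynomial σ ℂ) (y : σ → K)
    (T : ℕ) (w : κ → ℤ) (dd : ρ → ℕ) (zz : ρ → σ) (D : Fin (n + 1) → Derivation ℂ K K) : K :=
  bwK ε pr D y ^ T * ((∏ c, aeval y (F c) ^ (w c - T : ℤ)) * ∏ l, y (zz l) ^ dd l)

theorem om_pluri {T : ℕ} {w : κ → ℤ} {dd : ρ → ℕ} {zz : ρ → σ} :
    IsPluriForm ℂ K (n + 1) T (om ε pr F y T w dd zz) := by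
  intro A D
  unfold om
  rw [Pool.Agent.Q41.RC.bwK_lin, mul_pow]
  ring

theorem om_ne (h : Su pr o δ F m a y z ε G X D0) {T : ℕ} {w : κ → ℤ} {dd : ρ → ℕ} {zz : ρ → σ} :
    ((∏ c, aeval y (F c) ^ (w c - T : ℤ)) * ∏ l, y (zz l) ^ dd l) ≠ 0 :=
  mul_ne_zero (Finset.prod_ne_zero_iff.2 fun c _ => zpow_ne_zero _ (h.cov.hFy c))
    (Finset.prod_ne_zero_iff.2 fun l _ => pow_ne_zero _ (h.cov.y_ne _))

theorem om_D0 (h : Su pr o δ F m a y z ε G X D0) {T : ℕ} {w : κ → ℤ} {dd : ρ → ℕ} {zz : ρ → σ} :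
    om ε pr F y T w dd zz D0 = (∏ c, aeval y (F c) ^ (w c - T : ℤ)) * ∏ l, y (zz l) ^ dd l := by
  unfold om
  rw [Pool.Agent.Q41.RC.bw_oneK ε h.cov.ho h.eps h.cov.hy h.dual, one_pow, one_mul]

/-- the degrees -/
def DegOk (pr : σ → ρ) (δ : κ → ρ → ℕ) (T : ℕ) (w : κ → ℤ) (dd : ρ → ℕ) : Prop :=
  ∀ l, (dd l : ℤ) = T * sg pr δ l - ∑ c, w c * (δ c l : ℤ)

/-- the order of the factor -/
theorem om_ord (h : Su pr o δ F m a y z ε G X D0) {T : ℕ} {w : κ → ℤ} {dd : ρ → ℕ} {zz : ρ → σ}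
    (hdd : DegOk pr δ T w dd) {P : Place ℂ K} {α : ρ → ℤ} {v : κ → ℕ} (hd : DatK P pr F δ y α v) :
    P.ord ((∏ c, aeval y (F c) ^ (w c - T : ℤ)) * ∏ l, y (zz l) ^ dd l) =
      ∑ c, (w c - T) * (v c : ℤ) - T * ∑ i, α (pr i) +
        ∑ l, (dd l : ℤ) * (P.ord (y (zz l)) - α l) := by
  rw [P.ord_mul (Finset.prod_ne_zero_iff.2 fun c _ => zpow_ne_zero _ (h.cov.hFy c))
    (Finset.prod_ne_zero_iff.2 fun l _ => pow_ne_zero _ (h.cov.y_ne _)),
    ord_prod' P Finset.univ _ fun c _ => zpow_ne_zero _ (h.cov.hFy c),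
    ord_prod' P Finset.univ _ fun l _ => pow_ne_zero _ (h.cov.y_ne _)]
  have h1 : ∑ c, P.ord (aeval y (F c) ^ (w c - T : ℤ)) =
      ∑ l, (∑ c, (w c - T : ℤ) * (δ c l : ℤ)) * α l + ∑ c, (w c - T) * (v c : ℤ) := by
    have h3 : ∀ c, P.ord (aeval y (F c) ^ (w c - T : ℤ)) =
        ∑ l, (w c - T : ℤ) * (δ c l : ℤ) * α l + (w c - T) * (v c : ℤ) := by
      intro c
      rw [P.ord_zpow, hd.hv, mul_add, Finset.mul_sum]
      congr 1
      exact Finset.sum_congr rfl fun l _ => by ring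
    rw [Finset.sum_congr rfl fun c _ => h3 c, Finset.sum_add_distrib, Finset.sum_comm]
    congr 1
    exact Finset.sum_congr rfl fun l _ => by rw [Finset.sum_mul]
  have h2 : ∑ l, P.ord (y (zz l) ^ dd l) = ∑ l, (dd l : ℤ) * (P.ord (y (zz l)) - α l) +
      ∑ l, (dd l : ℤ) * α l := by
    rw [← Finset.sum_add_distrib]
    exact Finset.sum_congr rfl fun l _ => by rw [P.ord_pow]; ring
  have h4 : ∑ l, (∑ c, (w c - T : ℤ) * (δ c l : ℤ)) * α l + ∑ l, (dd l : ℤ) * α l =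
      - (T * ∑ i, α (pr i)) := by
    rw [sum_alpha pr α, Finset.mul_sum, ← Finset.sum_neg_distrib, ← Finset.sum_add_distrib]
    refine Finset.sum_congr rfl fun l _ => ?_
    rw [hdd l]
    unfold sg
    have h5 : ∑ c, (w c - T : ℤ) * (δ c l : ℤ) = ∑ c, w c * (δ c l : ℤ) - T * ∑ c, (δ c l : ℤ) := by
      rw [Finset.mul_sum, ← Finset.sum_sub_distrib]
      exact Finset.sum_congr rfl fun c _ => by ring
    rw [h5]
    ring
  rw [h1, h2]
  linarith

/-- **The sections.** -/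
theorem om_sec [Fintype J] (h : Su pr o δ F m a y z ε G X D0) (hS : SNC pr F) {S : κ → Prop}
    {δb : Place ℂ K → ℚ} (hB : Bd pr δ F y S δb) {T : ℕ} {w : κ → ℤ} {dd : ρ → ℕ} {zz : ρ → σ}
    (hzz : ∀ l, pr (zz l) = l) (hw0 : ∀ c, 0 ≤ w c)
    (hw1 : ∀ v, IsVec pr m a S F v → (T : ℤ) ≤ ∑ c, w c * (v c : ℤ))
    (hdd : DegOk pr δ T w dd) : BSec (n + 1) δb {1} T 1 (om ε pr F y T w dd zz) := by
  refine ⟨om_pluri, fun P hP D hD => ?_⟩
  by_cases hωD : om ε pr F y T w dd zz D = 0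
  · exact Or.inl hωD
  refine Or.inr ⟨1, Finset.mem_singleton_self _, one_ne_zero, ?_⟩
  rw [P.ord_one]
  obtain ⟨α, v, hd⟩ := h.cov.exists_dat P
  have hbw : ∀ X : ℤ, ∀ D : Fin (n + 1) → Derivation ℂ K K,
      Ge P (∑ i, α (pr i) + X) (bwK ε pr D y) →
        Ge P (T * X + ∑ c, (w c - T) * (v c : ℤ)) (om ε pr F y T w dd zz D) := by
    intro X D hD
    have h1 := (hD.pow T).mul (ge_ord P ((∏ c, aeval y (F c) ^ (w c - T : ℤ)) *
      ∏ l, y (zz l) ^ dd l))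
    refine h1.mono ?_
    rw [om_ord h hdd hd]
    have h2 : 0 ≤ ∑ l, (dd l : ℤ) * (P.ord (y (zz l)) - α l) := by
      refine Finset.sum_nonneg fun l _ => mul_nonneg (by positivity) ?_
      have h3 := hd.ha1 (zz l)
      rw [hzz] at h3
      linarith
    linarith
  by_cases hv : v = 0
  · have h2 := hbw 0 D (by simpa using Pool.Agent.Q41.RC.bw_regK ε h.cov.hF hd hD)
    rw [hv] at h2
    simp only [Pi.zero_apply, Nat.cast_zero, mul_zero, Finset.sum_const_zero, add_zero] at h2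
    have h3 := h2.resolve_left hωD
    rw [hB.zero P α v hd fun c _ => by rw [hv]; rfl]
    have h4 : ((0 : ℤ) : ℚ) ≤ (P.ord (om ε pr F y T w dd zz D) : ℚ) := by exact_mod_cast h3
    push_cast at h4 ⊢
    linarith
  · have h2 := Pool.Agent.Q41.RC.reg_of_log (trdeg_su h) (fun y' hy' => fin_su h y' hy') hP
        (om_pluri (ε := ε) (pr := pr) (F := F) (y := y) (T := T) (w := w) (dd := dd) (zz := zz))
        (X := T * ∑ c, (v c : ℤ) + ∑ c, (w c - T) * (v c : ℤ))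
        (fun D' hD' => hbw _ D' (Pool.Agent.Q41.RC.bw_logK ε hS h.cov.hF hd hD')) D hD
    have h3 := h2.resolve_left hωD
    have h5 : (T : ℤ) * ∑ c, (v c : ℤ) + ∑ c, (w c - T) * (v c : ℤ) = ∑ c, w c * (v c : ℤ) := by
      rw [Finset.mul_sum, ← Finset.sum_add_distrib]
      exact Finset.sum_congr rfl fun c _ => by ring
    rw [h5] at h3
    by_cases hb : ∃ c, S c ∧ v c ≠ 0
    · rw [hB.one P α v hd hb]
      have h6 : 0 ≤ ∑ c, w c * (v c : ℤ) :=
        Finset.sum_nonneg fun c _ => mul_nonneg (hw0 c) (by positivity)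
      have h7 : - (T : ℤ) ≤ P.ord (om ε pr F y T w dd zz D) := by linarith
      have h8 : ((- (T : ℤ) : ℤ) : ℚ) ≤ (P.ord (om ε pr F y T w dd zz D) : ℚ) := by
        exact_mod_cast h7
      push_cast at h8 ⊢
      linarith
    · push Not at hb
      rw [hB.zero P α v hd hb]
      have hvec : IsVec pr m a S F v := by
        obtain ⟨j, u, hj1, hj2, hyu, hu0, hu1, hureg, hFu, hFv⟩ := hd.norm h.cov.hF
        refine ⟨hv, hb, h.cov.dvd hd, ?_⟩
        obtain ⟨x, hx, hx0⟩ := Pool.Agent.Q41.RC.exists_pt (F := F) P hureg hj1 hu1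
          (Finset.univ.filter fun c => v c ≠ 0) (fun c hc => by
            right
            rw [hFv]
            have := (Finset.mem_filter.1 hc).2
            omega)
        exact ⟨x, hx, fun c hc => hx0 c (Finset.mem_filter.2 ⟨Finset.mem_univ _, hc⟩)⟩
      have h6 := hw1 v hvec
      have h7 : 0 ≤ P.ord (om ε pr F y T w dd zz D) := by linarith
      have h8 : ((0 : ℤ) : ℚ) ≤ (P.ord (om ε pr F y T w dd zz D) : ℚ) := by exact_mod_cast h7
      push_cast at h8 ⊢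
      linarith

end

end Pool.Agent.Q41.AB
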