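import Pool.Agent.Q41.AB.Gy

/-!
Finite generation of the log canonical ring if good minimal models exist.
-/

set_option autoImplicit false
set_option linter.overlappingInstances false
set_option linter.unusedSectionVars false
set_option maxHeartbeats 1000000

open FF MvPolynomial Pool.Agent.W603.LV Pool.Agent.W619.PQ
open Pool.Agent.W619.TW Pool.Agent.W602.GT

namespace Pool.Agent.Q41.AB

open Pool.Agent.Q57.TP (SecD BSec BPsef BKod BNum bsec_sec)
open Pool.Agent.Q57.GM (BGood BNef BSemi semi_of_good)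

section

variable {N : ℕ} {K : Type} [Field K] [Algebra ℂ K] {δ : Place ℂ K → ℚ}

/-- the log canonical ring is finitely generated -/
def BFin (N : ℕ) (δ : Place ℂ K → ℚ) : Prop :=
  ∃ (s : ℕ) (w : Fin s → ℕ) (ω : Fin s → (Fin N → Derivation ℂ K K) → K),
    (∀ i, 1 ≤ w i ∧ BSec N δ {1} (w i) 1 (ω i)) ∧ ∀ (m : ℕ) (η : (Fin N → Derivation ℂ K K) → K),
      BSec N δ {1} m 1 η → η ∈ Submodule.span ℂ {p | ∃ a : Fin s → ℕ, ∑ i, a i * w i = m ∧
        p = fun D => ∏ i, ω i D ^ a i}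

theorem bsec_add {m : ℕ} {ω ω' : (Fin N → Derivation ℂ K K) → K} (h : BSec N δ {1} m 1 ω)
    (h' : BSec N δ {1} m 1 ω') : BSec N δ {1} m 1 (ω + ω') := by
  refine ⟨fun A D => ?_, fun P hP D hD => ?_⟩
  · rw [Pi.add_apply, Pi.add_apply, h.1 A D, h'.1 A D, mul_add]
  · by_cases h0 : (ω + ω') D = 0
    · exact Or.inl h0
    refine Or.inr ⟨1, Finset.mem_singleton_self _, one_ne_zero, ?_⟩
    rw [P.ord_one]
    have h1 : ∀ {ω : (Fin N → Derivation ℂ K K) → K}, BSec N δ {1} m 1 ω → ω D ≠ 0 →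
        ((1 : ℕ) : ℚ) * ((0 : ℤ) : ℚ) - m * δ P ≤ P.ord (ω D) := by
      intro ω h hne
      obtain ⟨s, hs, -, hle⟩ := (h.2 P hP D hD).resolve_left hne
      rw [Finset.mem_singleton] at hs
      subst hs
      rw [P.ord_one] at hle
      exact hle
    rw [Pi.add_apply] at h0 ⊢
    by_cases hz : ω D = 0
    · rw [hz, zero_add] at h0 ⊢
      exact h1 h' h0
    by_cases hz' : ω' D = 0
    · rw [hz', add_zero] at h0 ⊢
      exact h1 h h0
    have h2 := P.ord_add hz hz' h0
    have h3 := h1 h hz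
    have h4 := h1 h' hz'
    rcases min_le_iff.1 h2 with h5 | h5
    · have h6 : ((P.ord (ω D) : ℤ) : ℚ) ≤ P.ord (ω D + ω' D) := by exact_mod_cast h5
      linarith
    · have h6 : ((P.ord (ω' D) : ℤ) : ℚ) ≤ P.ord (ω D + ω' D) := by exact_mod_cast h5
      linarith

theorem bsec_smul {m : ℕ} {ω : (Fin N → Derivation ℂ K K) → K} (h : BSec N δ {1} m 1 ω) (c : ℂ) :
    BSec N δ {1} m 1 (c • ω) := by
  refine ⟨fun A D => ?_, fun P hP D hD => ?_⟩
  · rw [Pi.smul_apply, Pi.smul_apply, h.1 A D, mul_smul_comm]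
  · by_cases hc : c = 0
    · left
      rw [hc, zero_smul, Pi.zero_apply]
    refine (h.2 P hP D hD).imp (fun h1 => by rw [Pi.smul_apply, h1, smul_zero]) ?_
    rintro ⟨s, hs, hs0, hle⟩
    refine ⟨s, hs, hs0, ?_⟩
    by_cases h0 : ω D = 0
    · rw [Pi.smul_apply, h0, smul_zero]
      rw [h0] at hle
      exact hle
    have hc' : algebraMap ℂ K c ≠ 0 := by simpa using hc
    rw [Pi.smul_apply, Algebra.smul_def, P.ord_mul hc' h0, P.ord_const hc, zero_add]
    exact hle

theorem bsec_zero {m : ℕ} : BSec N δ {1} m 1 (0 : (Fin N → Derivation ℂ K K) → K) :=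
  ⟨fun A D => by simp, fun P hP D hD => Or.inl rfl⟩

theorem bsec_mul {m m' : ℕ} {ω ω' : (Fin N → Derivation ℂ K K) → K} (h : BSec N δ {1} m 1 ω)
    (h' : BSec N δ {1} m' 1 ω') : BSec N δ {1} (m + m') 1 (ω * ω') := by
  refine ⟨fun A D => ?_, fun P hP D hD => ?_⟩
  · rw [Pi.mul_apply, Pi.mul_apply, h.1 A D, h'.1 A D]
    ring
  · by_cases hz : ω D = 0
    · left
      rw [Pi.mul_apply, hz, zero_mul]
    by_cases hz' : ω' D = 0
    · left
      rw [Pi.mul_apply, hz', mul_zero]
    refine Or.inr ⟨1, Finset.mem_singleton_self _, one_ne_zero, ?_⟩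
    obtain ⟨s, hs, -, hle⟩ := (h.2 P hP D hD).resolve_left hz
    obtain ⟨s', hs', -, hle'⟩ := (h'.2 P hP D hD).resolve_left hz'
    rw [Finset.mem_singleton] at hs hs'
    subst hs
    subst hs'
    rw [P.ord_one] at hle hle' ⊢
    rw [Pi.mul_apply, P.ord_mul hz hz']
    push_cast at hle hle' ⊢
    linarith

theorem bsec_pow {m : ℕ} {ω : (Fin N → Derivation ℂ K K) → K} (h : BSec N δ {1} m 1 ω) {q : ℕ}
    (hq : 1 ≤ q) : BSec N δ {1} (q * m) 1 (ω ^ q) := by
  induction q, hq using Nat.le_induction with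
  | base =>
    rw [one_mul, pow_one]
    exact h
  | succ q hq ih =>
    rw [pow_succ, add_mul, one_mul]
    exact bsec_mul ih h

end

section

variable {n : ℕ} {K : Type} [Field K] [Algebra ℂ K] {δ : Place ℂ K → ℚ}

/-- the form with the value `f` on the frame -/
noncomputable def fm (X : Fin n → K) (m : ℕ) (f : K) (D : Fin n → Derivation ℂ K K) : K :=
  dt X D ^ m * f

/-- the sections, as functions -/
noncomputable def VV (X : Fin n → K) (δ : Place ℂ K → ℚ) (m : ℕ) : Submodule ℂ K where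
  carrier := {f | BSec n δ {1} m 1 (fm X m f)}
  add_mem' := by
    intro f g hf hg
    have h1 : fm X m (f + g) = fm X m f + fm X m g := by
      funext D
      rw [Pi.add_apply]
      unfold fm
      rw [mul_add]
    change BSec n δ {1} m 1 (fm X m (f + g))
    rw [h1]
    exact bsec_add hf hg
  zero_mem' := by
    have h1 : fm X m (0 : K) = 0 := by
      funext D
      unfold fm
      rw [mul_zero]
      rfl
    change BSec n δ {1} m 1 (fm X m 0)
    rw [h1]
    exact bsec_zero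
  smul_mem' := by
    intro c f hf
    have h1 : fm X m (c • f) = c • fm X m f := by
      funext D
      rw [Pi.smul_apply]
      unfold fm
      rw [mul_smul_comm]
    change BSec n δ {1} m 1 (fm X m (c • f))
    rw [h1]
    exact bsec_smul hf c

theorem mem_VV {X : Fin n → K} {m : ℕ} {f : K} : f ∈ VV X δ m ↔ BSec n δ {1} m 1 (fm X m f) :=
  Iff.rfl

theorem fm_eq {X : Fin n → K} (hX : IsTranscendenceBasis ℂ X)
    {D0 : Fin n → Derivation ℂ K K} (hD0 : ∀ i j, D0 i (X j) = if i = j then 1 else 0) {m : ℕ}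
    {ω : (Fin n → Derivation ℂ K K) → K} (hω : IsPluri m ω) : fm X m (ω D0) = ω := by
  funext D
  exact (pluri_frame hX hD0 hω D).symm

theorem fm_D0 {X : Fin n → K} {D0 : Fin n → Derivation ℂ K K}
    (hD0 : ∀ i j, D0 i (X j) = if i = j then 1 else 0) {m : ℕ} (f : K) : fm X m f D0 = f := by
  unfold fm
  rw [dt_D0 hD0, one_pow, one_mul]

theorem VV_mul {X : Fin n → K} (m m' : ℕ) (f f' : K) (hf : f ∈ VV X δ m) (hf' : f' ∈ VV X δ m') :
    f * f' ∈ VV X δ (m + m') := by
  rw [mem_VV] at *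
  have h1 : fm X (m + m') (f * f') = fm X m f * fm X m' f' := by
    funext D
    rw [Pi.mul_apply]
    unfold fm
    rw [pow_add]
    ring
  rw [h1]
  exact bsec_mul hf hf'

end

section

variable {n : ℕ} {K : Type} [Field K] [Algebra ℂ K] {δ : Place ℂ K → ℚ}

/-- **Finite generation.** -/
theorem fin_of_good (int : S_Int) (fg : S_FG) [Algebra.EssFiniteType ℂ K]
    (htr : Algebra.trdeg ℂ K = ((n + 1 : ℕ) : Cardinal)) {X : Fin (n + 1) → K}
    (hX : IsTranscendenceBasis ℂ X) {D0 : Fin (n + 1) → Derivation ℂ K K}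
    (hD0 : ∀ i j, D0 i (X j) = if i = j then 1 else 0)
    (hdiv : ∃ P : Place ℂ K, Divisorial (n + 1) P)
    (hg : BGood (n + 1) δ) : BFin (n + 1) δ := by
  classical
  obtain ⟨T, r, ω, hT, hω, hgood⟩ := hg
  have h1V : (1 : K) ∈ VV X δ 0 := by
    rw [mem_VV]
    refine ⟨fun A D => ?_, fun P hP D hD => ?_⟩
    · unfold fm
      rw [pow_zero, pow_zero, pow_zero]
      ring
    · refine Or.inr ⟨1, Finset.mem_singleton_self _, one_ne_zero, ?_⟩
      unfold fm
      rw [pow_zero, one_mul, P.ord_one]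
      simp
  -- the asymptotic inequality without the constant
  have hkey : ∀ P : Place ℂ K, Divisorial (n + 1) P → ∃ i, ∀ m, 1 ≤ m → ∀ f ∈ VV X δ m, f ≠ 0 →
      ω i D0 ≠ 0 ∧ (m : ℤ) * P.ord (ω i D0) ≤ T * P.ord f := by
    intro P hP
    obtain ⟨i, hi⟩ := hgood P hP
    obtain ⟨C, hC⟩ := hi {1}
    refine ⟨i, fun m hm f hf hf0 => ?_⟩
    rw [mem_VV] at hf
    have h1 : ∀ q : ℕ, 1 ≤ q → ω i D0 ≠ 0 ∧
        (q : ℤ) * (m * P.ord (ω i D0) - T * P.ord f) ≤ 2 * C := by
      intro q hq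
      have h2 := hC (q * m) 1 (fm X m f ^ q) (Nat.mul_pos hq hm) (bsec_pow hf hq) D0
      rw [Pi.pow_apply, fm_D0 hD0] at h2
      obtain ⟨h3, h4⟩ := h2.resolve_left (pow_ne_zero _ hf0)
      refine ⟨h3, ?_⟩
      rw [P.ord_pow] at h4
      push_cast at h4
      linarith
    refine ⟨(h1 1 le_rfl).1, ?_⟩
    by_contra hcon
    push Not at hcon
    obtain ⟨d, hd⟩ : ∃ d : ℤ, d = m * P.ord (ω i D0) - T * P.ord f := ⟨_, rfl⟩
    have hd1 : 1 ≤ d := by omega
    have h2 := (h1 ((2 * C).toNat + 1) (by omega)).2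
    rw [← hd] at h2
    push_cast at h2
    have h3 : 2 * C ≤ ((2 * C).toNat : ℤ) := Int.self_le_toNat _
    have h4 : (((2 * C).toNat : ℤ) + 1) * 1 ≤ (((2 * C).toNat : ℤ) + 1) * d :=
      mul_le_mul_of_nonneg_left hd1 (by positivity)
    linarith
  have hcst : ∀ f ∈ VV X δ 0, IsAlgebraic ℂ f := by
    intro f hf
    have h1 : IsIntegral (Algebra.adjoin ℂ (Set.range (Fin.elim0 : Fin 0 → K))) f := by
      refine int htr (Fin.elim0 : Fin 0 → K) f fun P hP _ => ?_
      rw [mem_VV] at hf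
      have h2 := hf.2 P hP (fun _ => 0) fun c g _ => by
        rw [Derivation.zero_apply]
        exact P.reg_zero
      unfold fm at h2
      rw [pow_zero, one_mul] at h2
      refine h2.imp id ?_
      rintro ⟨s, hs, -, hle⟩
      rw [Finset.mem_singleton] at hs
      subst hs
      rw [P.ord_one] at hle
      have h3 : ((0 : ℤ) : ℚ) ≤ P.ord f := by
        push_cast at hle ⊢
        linarith
      exact_mod_cast h3
    have h2 : Algebra.adjoin ℂ (Set.range (Fin.elim0 : Fin 0 → K)) = ⊥ := by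
      rw [Set.range_eq_empty, Algebra.adjoin_empty]
    rw [h2] at h1
    have h3 : IsIntegral ℂ f := by
      have h4 : Algebra.IsIntegral ℂ (⊥ : Subalgebra ℂ K) := by
        refine ⟨fun z => ?_⟩
        obtain ⟨c, hc⟩ := Algebra.mem_bot.1 z.2
        have h5 : z = algebraMap ℂ (⊥ : Subalgebra ℂ K) c := Subtype.ext hc.symm
        rw [h5]
        exact isIntegral_algebraMap
      exact isIntegral_trans f h1
    exact h3.isAlgebraic
  have hωV : ∀ i, ω i D0 ∈ VV X δ T := by
    intro i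
    rw [mem_VV, fm_eq hX hD0 (hω i).1]
    exact hω i
  have hne : ∀ m, 1 ≤ m → ∀ f ∈ VV X δ m, f ≠ 0 → ∃ i, ω i D0 ≠ 0 := by
    intro m hm f hf hf0
    obtain ⟨P, hP⟩ := hdiv
    obtain ⟨i, hi⟩ := hkey P hP
    exact ⟨i, (hi m hm f hf hf0).1⟩
  have hint : ∀ m, 1 ≤ m → ∀ f ∈ VV X δ m, ∀ i, ω i D0 ≠ 0 →
      IsIntegral (Algebra.adjoin ℂ (Set.range fun j => ω j D0 / ω i D0))
        (f ^ T / ω i D0 ^ m) := by
    intro m hm f hf i hi
    refine int htr (fun j => ω j D0 / ω i D0) _ fun P hP hreg => ?_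
    by_cases hf0 : f = 0
    · left
      rw [hf0, zero_pow (by omega), zero_div]
    right
    obtain ⟨i1, hi1⟩ := hkey P hP
    obtain ⟨h1, h2⟩ := hi1 m hm f hf hf0
    have h3 := (hreg i1).resolve_left (div_ne_zero h1 hi)
    rw [P.ord_div h1 hi] at h3
    rw [P.ord_div (pow_ne_zero _ hf0) (pow_ne_zero _ hi), P.ord_pow, P.ord_pow]
    have h4 : (m : ℤ) * P.ord (ω i D0) ≤ m * P.ord (ω i1 D0) :=
      mul_le_mul_of_nonneg_left (by linarith) (by positivity)
    linarith
  obtain ⟨s, w, x, hx, hspan⟩ := fg (VV X δ) VV_mul h1V hcst (fun i => ω i D0) hT hωV hne hint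
  refine ⟨s, w, fun i => fm X (w i) (x i), fun i => ⟨(hx i).1, (hx i).2⟩, fun m η hη => ?_⟩
  have h1 : η D0 ∈ VV X δ m := by
    rw [mem_VV, fm_eq hX hD0 hη.1]
    exact hη
  have h2 := hspan m _ h1
  let Λ : K →ₗ[ℂ] ((Fin (n + 1) → Derivation ℂ K K) → K) :=
    { toFun := fm X m
      map_add' := by
        intro f g
        funext D
        rw [Pi.add_apply]
        unfold fm
        rw [mul_add]
      map_smul' := by
        intro c f
        funext D
        rw [Pi.smul_apply]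
        unfold fm
        rw [mul_smul_comm]
        rfl }
  have h3 : Λ (η D0) ∈ (Submodule.span ℂ
      {p | ∃ a : Fin s → ℕ, ∑ i, a i * w i = m ∧ p = ∏ i, x i ^ a i}).map Λ :=
    Submodule.mem_map_of_mem h2
  rw [Submodule.map_span] at h3
  have h4 : Λ (η D0) = η := fm_eq hX hD0 hη.1
  rw [h4] at h3
  refine Submodule.span_mono ?_ h3
  rintro _ ⟨p, ⟨a, ha, rfl⟩, rfl⟩
  refine ⟨a, ha, ?_⟩
  funext D
  change fm X m (∏ i, x i ^ a i) D = _
  unfold fm
  have h5 : ∀ i, (dt X D ^ w i * x i) ^ a i = dt X D ^ (a i * w i) * x i ^ a i := by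
    intro i
    rw [mul_pow, ← pow_mul, mul_comm (w i)]
  rw [Finset.prod_congr rfl fun i _ => h5 i, Finset.prod_mul_distrib, Finset.prod_pow_eq_pow_sum,
    ha]

/-- **Finite generation, if the divisor is not pseudo-effective.** -/
theorem fin_of_not_psef (int : S_Int) [Algebra.EssFiniteType ℂ K]
    (htr : Algebra.trdeg ℂ K = ((n + 1 : ℕ) : Cardinal)) {X : Fin (n + 1) → K}
    (hX : IsTranscendenceBasis ℂ X) {D0 : Fin (n + 1) → Derivation ℂ K K}
    (hD0 : ∀ i j, D0 i (X j) = if i = j then 1 else 0) (hps : ¬ BPsef (n + 1) δ) :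
    BFin (n + 1) δ := by
  classical
  refine ⟨0, Fin.elim0, Fin.elim0, fun i => i.elim0, fun m η hη => ?_⟩
  by_cases hm : m = 0
  · subst hm
    have hη0 : η = fun _ => η D0 := by
      funext D
      rw [pluri_frame hX hD0 hη.1 D, pow_zero, one_mul]
    have h1 : IsIntegral (Algebra.adjoin ℂ (Set.range (Fin.elim0 : Fin 0 → K))) (η D0) := by
      refine int htr (Fin.elim0 : Fin 0 → K) (η D0) fun P hP _ => ?_
      have h2 := hη.2 P hP (fun _ => 0) fun c g _ => by
        rw [Derivation.zero_apply]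
        exact P.reg_zero
      rw [hη0] at h2
      refine h2.imp id ?_
      rintro ⟨s, hs, -, hle⟩
      rw [Finset.mem_singleton] at hs
      subst hs
      rw [P.ord_one] at hle
      have h3 : ((0 : ℤ) : ℚ) ≤ P.ord (η D0) := by
        push_cast at hle ⊢
        linarith
      exact_mod_cast h3
    have h2 : Algebra.adjoin ℂ (Set.range (Fin.elim0 : Fin 0 → K)) = ⊥ := by
      rw [Set.range_eq_empty, Algebra.adjoin_empty]
    rw [h2] at h1
    have h3 : IsIntegral ℂ (η D0) := by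
      have h4 : Algebra.IsIntegral ℂ (⊥ : Subalgebra ℂ K) := by
        refine ⟨fun z => ?_⟩
        obtain ⟨c, hc⟩ := Algebra.mem_bot.1 z.2
        have h5 : z = algebraMap ℂ (⊥ : Subalgebra ℂ K) c := Subtype.ext hc.symm
        rw [h5]
        exact isIntegral_algebraMap
      exact isIntegral_trans (η D0) h1
    obtain ⟨c, hc'⟩ : ∃ c : ℂ, algebraMap ℂ K c = η D0 :=
      minpoly.mem_range_of_degree_eq_one ℂ (η D0)
        (IsAlgClosed.degree_eq_one_of_irreducible ℂ (minpoly.irreducible h3))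
    have h5 : η = c • (fun _ : Fin (n + 1) → Derivation ℂ K K => (1 : K)) := by
      rw [hη0]
      funext D
      rw [Pi.smul_apply, Algebra.smul_def, mul_one, hc']
    rw [h5]
    refine Submodule.smul_mem _ _ (Submodule.subset_span ⟨fun i => i.elim0, by simp, ?_⟩)
    funext D
    simp
  · have h1 : η = 0 := by
      by_contra hne
      obtain ⟨D, hD⟩ : ∃ D, η D ≠ 0 := by
        by_contra hcon
        push Not at hcon
        exact hne (funext hcon)
      apply hps
      refine Pool.Agent.Q57.TP.bpsef_of_kod (h := 0) ⟨m, Nat.pos_of_ne_zero hm, fun _ => η,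
        fun _ => hη, D, hD, ?_⟩
      rw [algebraicIndependent_empty_type_iff]
      exact (algebraMap ℂ K).injective
    rw [h1]
    exact Submodule.zero_mem _

end

end Pool.Agent.Q41.AB
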