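import Pool.Agent.Q41.AB.Gy

/-!
Models: all models of the log smooth pair, with arbitrary singularities.
-/

set_option autoImplicit false
set_option linter.overlappingInstances false
set_option linter.unusedSectionVars false

open FF MvPolynomial Pool.Agent.W603.LV Pool.Agent.W619.PQ
open Pool.Agent.W619.TW Pool.Agent.W602.GT

namespace Pool.Agent.Q41.AB

open Pool.Agent.Q57.TP (SecD BSec BPsef BKod BNum bsec_sec)
open Pool.Agent.Q57.GM (BGood BNef BSemi semi_of_good)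

variable {N : ℕ} {K : Type} [Field K] [Algebra ℂ K] {δ g : Place ℂ K → ℚ} {T : ℕ}

/-- `g` are the coefficients of a model -/
def BMod (N : ℕ) (δ g : Place ℂ K → ℚ) : Prop :=
  (∀ P : Place ℂ K, Divisorial N P → g P ≤ δ P) ∧
    ∀ (m : ℕ) (ω : (Fin N → Derivation ℂ K K) → K), BSec N δ {1} m 1 ω → BSec N g {1} m 1 ω

theorem bsec_mono (hg : ∀ P : Place ℂ K, Divisorial N P → g P ≤ δ P) {S : Finset K} {m j : ℕ}
    {ω : (Fin N → Derivation ℂ K K) → K} (h : BSec N g S m j ω) : BSec N δ S m j ω := by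
  refine ⟨h.1, fun P hP D hD => (h.2 P hP D hD).imp id ?_⟩
  rintro ⟨s, hs, hs0, hle⟩
  refine ⟨s, hs, hs0, le_trans ?_ hle⟩
  have h1 := mul_le_mul_of_nonneg_left (hg P hP) (show (0 : ℚ) ≤ m by positivity)
  linarith

theorem goodT_of_mod (h : BGoodT N δ T) (hm : BMod N δ g) : BGoodT N g T := by
  obtain ⟨r, ω, h1, h2⟩ := h
  refine ⟨r, ω, fun i => hm.2 T _ (h1 i), fun P hP => ?_⟩
  obtain ⟨i, hi⟩ := h2 P hP
  refine ⟨i, fun S => ?_⟩
  obtain ⟨C, hC⟩ := hi S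
  exact ⟨C, fun m j η hm' hη => hC m j η hm' (bsec_mono hm.1 hη)⟩

theorem psef_of_mod (hm : BMod N δ g) (h : BPsef N g) : BPsef N δ := by
  obtain ⟨S, hS⟩ := h
  refine ⟨S, fun M => ?_⟩
  obtain ⟨j, hj, ω, hω0, hω⟩ := hS M
  exact ⟨j, hj, ω, hω0, bsec_mono hm.1 hω⟩

end Pool.Agent.Q41.AB
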