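import Pool.Agent.Q41.AB.Gy

/-!
The Kodaira dimension and the numerical dimension agree if good minimal models exist.
-/

set_option autoImplicit false
set_option linter.overlappingInstances false
set_option linter.unusedSectionVars false
set_option maxHeartbeats 1000000

open FF MvPolynomial Pool.Agent.W603.LV Pool.Agent.W619.PQ
open Pool.Agent.W619.TW Pool.Agent.W602.GT

namespace Pool.Agent.Q41.AB

open Pool.Agent.Q57.TP (SecD BSec BPsef BKod BNum bsec_sec)
open Pool.Agent.Q57.GM (BGood BNef BSemi semi_of_good)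

/-- independent elements in a finite family -/
theorem exists_indep {K : Type} [Field K] [Algebra ℂ K] {r : ℕ} (g : Fin r → K) :
    ∃ (h : ℕ) (x : Fin h → Fin r), AlgebraicIndependent ℂ (fun i => g (x i)) ∧
      ∀ j, IsAlgebraic (IntermediateField.adjoin ℂ (Set.range fun i => g (x i))) (g j) := by
  classical
  have hne : (Finset.univ.powerset.filter fun s : Finset (Fin r) =>
      AlgebraicIndepOn ℂ g (s : Set (Fin r))).Nonempty := by
    refine ⟨∅, Finset.mem_filter.2 ⟨Finset.mem_powerset.2 (Finset.subset_univ _), ?_⟩⟩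
    rw [Finset.coe_empty]
    unfold AlgebraicIndepOn
    rw [algebraicIndependent_empty_type_iff]
    exact (algebraMap ℂ K).injective
  obtain ⟨s, hs, hmax⟩ := Finset.exists_max_image _ Finset.card hne
  have hsi : AlgebraicIndepOn ℂ g (s : Set (Fin r)) := (Finset.mem_filter.1 hs).2
  let e := s.equivFin
  refine ⟨s.card, fun i => (e.symm i).1, ?_, fun j => ?_⟩
  · have h1 : AlgebraicIndependent ℂ (fun i : s => g i.1) := hsi
    exact h1.comp e.symm e.symm.injective
  · have hrange : (Set.range fun i => g ((e.symm i).1)) = g '' (s : Set (Fin r)) := by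
      ext z
      simp only [Set.mem_range, Set.mem_image]
      constructor
      · rintro ⟨i, rfl⟩
        exact ⟨(e.symm i).1, (e.symm i).2, rfl⟩
      · rintro ⟨i, hi, rfl⟩
        exact ⟨e ⟨i, hi⟩, by rw [Equiv.symm_apply_apply]⟩
    rw [hrange]
    by_contra hcon
    have htr : Transcendental (Algebra.adjoin ℂ (g '' (s : Set (Fin r)))) (g j) := by
      intro halg
      apply hcon
      obtain ⟨p, hp, hpx⟩ := halg
      have hle : Algebra.adjoin ℂ (g '' (s : Set (Fin r))) ≤
          (IntermediateField.adjoin ℂ (g '' (s : Set (Fin r)))).toSubalgebra :=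
        IntermediateField.algebra_adjoin_le_adjoin ℂ _
      refine ⟨p.map (Subalgebra.inclusion hle).toRingHom, ?_, ?_⟩
      · rw [Ne, Polynomial.map_eq_zero_iff]
        · exact hp
        · exact Subalgebra.inclusion_injective hle
      · rw [Polynomial.aeval_def, Polynomial.eval₂_map]
        rw [Polynomial.aeval_def] at hpx
        exact hpx
    have h1 := hsi.insert htr
    have hj : j ∉ s := by
      intro hj
      apply htr
      exact isAlgebraic_algebraMap
        (⟨g j, Algebra.subset_adjoin ⟨j, hj, rfl⟩⟩ : Algebra.adjoin ℂ (g '' (s : Set (Fin r))))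
    have h2 := hmax (insert j s) (Finset.mem_filter.2
      ⟨Finset.mem_powerset.2 (Finset.subset_univ _), by rw [Finset.coe_insert]; exact h1⟩)
    rw [Finset.card_insert_of_notMem hj] at h2
    omega

section

variable {n : ℕ} {K : Type} [Field K] [Algebra ℂ K] {δ : Place ℂ K → ℚ} {T : ℕ}

/-- the image of the linear system of the multiple `T` has at least the dimension `h` -/
def BKodT (N : ℕ) (δ : Place ℂ K → ℚ) (T h : ℕ) : Prop :=
  ∃ ω : Fin (h + 1) → (Fin N → Derivation ℂ K K) → K, (∀ b, BSec N δ {1} T 1 (ω b)) ∧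
    ∃ D, ω 0 D ≠ 0 ∧ AlgebraicIndependent ℂ (fun b : Fin h => ω b.succ D / ω 0 D)

/-- **Kodaira dimension and numerical dimension.** -/
theorem kodnum (cnt : S_Cnt) [Algebra.EssFiniteType ℂ K]
    (htr : Algebra.trdeg ℂ K = ((n + 1 : ℕ) : Cardinal)) {X : Fin (n + 1) → K}
    (hX : IsTranscendenceBasis ℂ X) {D0 : Fin (n + 1) → Derivation ℂ K K}
    (hD0 : ∀ i j, D0 i (X j) = if i = j then 1 else 0) (hT : 0 < T)
    (hg : BGoodU (n + 1) δ T) (hps : BPsef (n + 1) δ)
    (hdiv : ∃ P : Place ℂ K, Divisorial (n + 1) P) :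
    ∃ h, BKodT (n + 1) δ T h ∧ BNum (n + 1) δ h := by
  classical
  obtain ⟨r, ω, hω, ι, hgood⟩ := hg
  -- a section which is not zero
  obtain ⟨i0, hi0⟩ : ∃ i0, ω i0 D0 ≠ 0 := by
    obtain ⟨P, hP⟩ := hdiv
    obtain ⟨S, hS⟩ := hps
    obtain ⟨j, hj, η, hη0, hη⟩ := hS 1
    obtain ⟨S2, c0, h1⟩ := hgood S
    obtain ⟨D, hD⟩ : ∃ D, η D ≠ 0 := by
      by_contra hcon
      push Not at hcon
      exact hη0 (funext hcon)
    have h2 := (h1 P hP (j * 1) j η (by omega) hη D).resolve_left hD
    refine ⟨ι P, fun h3 => h2.1 ?_⟩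
    rw [pluri_frame hX hD0 (hω (ι P)).1 D, h3, mul_zero]
  obtain ⟨u, hu⟩ : ∃ u, u = ω i0 D0 := ⟨_, rfl⟩
  rw [← hu] at hi0
  obtain ⟨h, x, hind, halg⟩ := exists_indep fun i => ω i D0 / u
  refine ⟨h, ⟨fun b => Fin.cases (ω i0) (fun i => ω (x i)) b, fun b => ?_, D0, ?_, ?_⟩,
    fun S => ?_⟩
  · refine Fin.cases ?_ (fun i => ?_) b
    · exact hω i0
    · exact hω (x i)
  · simp only [Fin.cases_zero]
    rw [← hu]
    exact hi0
  · simp only [Fin.cases_zero, Fin.cases_succ]
    rw [← hu]
    exact hind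
  · obtain ⟨S2, c0, h1⟩ := hgood S
    obtain ⟨C, hC⟩ := cnt htr (fun i => ω i D0 / u) x hind halg (insert u S2) (2 * c0 + 1)
    refine ⟨C * 3 ^ h, fun m M hm hex => ?_⟩
    obtain ⟨η, hlin, hη⟩ := hex
    obtain ⟨q, hq⟩ : ∃ q : ℕ, q = m / T + 1 := ⟨_, rfl⟩
    have hq1 : m < T * q := by
      rw [hq]
      exact Nat.lt_mul_div_succ _ hT
    have hq2 : T * q ≤ m + T := by
      rw [hq, mul_add, mul_one]
      exact Nat.add_le_add_right (Nat.mul_div_le _ _) _
    have hq3 : q ≤ m + 1 := by
      rw [hq]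
      exact Nat.add_le_add_right (Nat.div_le_self _ _) _
    have hlin2 : LinearIndependent ℂ fun l => η l D0 / u ^ q := by
      rw [Fintype.linearIndependent_iff] at hlin ⊢
      intro c hc
      apply hlin
      funext D
      have h2 : ∑ l, c l • η l D0 = 0 := by
        have h3 : (∑ l, c l • η l D0) / u ^ q = 0 := by
          rw [Finset.sum_div, ← hc]
          exact Finset.sum_congr rfl fun l _ => by rw [smul_div_assoc]
        exact (div_eq_zero_iff.1 h3).resolve_right (pow_ne_zero _ hi0)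
      rw [Finset.sum_apply, Pi.zero_apply]
      have h3 : ∀ l, (c l • η l) D = dt X D ^ m * (c l • η l D0) := by
        intro l
        rw [Pi.smul_apply, pluri_frame hX hD0 (hη l).1 D, mul_smul_comm]
      rw [Finset.sum_congr rfl fun l _ => h3 l, ← Finset.mul_sum, h2, mul_zero]
    have h2 := hC q M _ hlin2 fun l P hP => ?_
    · have h3 : C * (q + 1) ^ h ≤ C * (3 * m) ^ h :=
        Nat.mul_le_mul_left _ (Nat.pow_le_pow_left (by omega) _)
      refine (h2.trans h3).trans (le_of_eq ?_)
      rw [mul_pow]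
      ring
    · by_cases hη0 : η l D0 = 0
      · left
        rw [hη0, zero_div]
      right
      refine ⟨ι P, ?_⟩
      obtain ⟨h3, h4⟩ := (h1 P hP m 1 (η l) hm (hη l) D0).resolve_left hη0
      obtain ⟨W, hW⟩ : ∃ W : ℤ, W = ∑ s ∈ S2, |P.ord s| := ⟨_, rfl⟩
      obtain ⟨W3, hW3⟩ : ∃ W3 : ℤ, W3 = ∑ s ∈ insert u S2, |P.ord s| := ⟨_, rfl⟩
      have hWW : W ≤ W3 := by
        rw [hW, hW3]
        exact Finset.sum_le_sum_of_subset_of_nonneg (Finset.subset_insert _ _)
          fun _ _ _ => abs_nonneg _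
      have huW : |P.ord u| ≤ W3 := by
        rw [hW3]
        exact Finset.single_le_sum (f := fun s => |P.ord s|) (fun _ _ => abs_nonneg _)
          (Finset.mem_insert_self _ _)
      have hW0 : 0 ≤ W := by
        rw [hW]
        exact Finset.sum_nonneg fun _ _ => abs_nonneg _
      rw [← hW] at h4
      rw [← hW3, P.ord_div hη0 (pow_ne_zero _ hi0), P.ord_pow, P.ord_div h3 hi0]
      have hTz : (0 : ℤ) < T := by exact_mod_cast hT
      have hq1z : (m : ℤ) < T * q := by exact_mod_cast hq1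
      have hq2z : (T * q : ℤ) ≤ m + T := by exact_mod_cast hq2
      obtain ⟨a, ha⟩ : ∃ a : ℤ, a = P.ord (ω (ι P) D0) - P.ord u := ⟨_, rfl⟩
      obtain ⟨mn, hmn⟩ : ∃ mn : ℤ, mn = min 0 a := ⟨_, rfl⟩
      rw [← ha, ← hmn]
      have hmn0 : mn ≤ 0 := by rw [hmn]; exact min_le_left _ _
      have hmna : mn ≤ a := by rw [hmn]; exact min_le_right _ _
      have h5 : (T : ℤ) * q * mn ≤ m * mn := by
        have : (m : ℤ) ≤ T * q := hq1z.le
        exact mul_le_mul_of_nonpos_right this hmn0
      have h6 : (m : ℤ) * mn ≤ m * a := mul_le_mul_of_nonneg_left hmna (by positivity)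
      have h7 : -(T * |P.ord u|) ≤ (m - T * q : ℤ) * P.ord u := by
        have h8 : |(m - T * q : ℤ) * P.ord u| ≤ T * |P.ord u| := by
          rw [abs_mul]
          refine mul_le_mul_of_nonneg_right ?_ (abs_nonneg _)
          rw [abs_le]
          constructor <;> linarith
        linarith [neg_abs_le ((m - T * q : ℤ) * P.ord u)]
      have h8 : (m : ℤ) * P.ord (ω (ι P) D0) = m * a + m * P.ord u := by
        rw [ha]
        ring
      have h9 : (T : ℤ) * (q * mn - (2 * c0 + 1 : ℕ) * W3) ≤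
          T * (P.ord (η l D0) - q * P.ord u) := by
        have h10 : (0 : ℤ) ≤ c0 := by positivity
        have h11 : (c0 : ℤ) * W * 2 ≤ T * (2 * c0 * W3) := by
          have h12 : (c0 : ℤ) * W ≤ c0 * W3 := mul_le_mul_of_nonneg_left hWW h10
          have h13 : (0 : ℤ) ≤ c0 * W3 := mul_nonneg h10 (hW0.trans hWW)
          have h14 : (1 : ℤ) ≤ T := hTz
          nlinarith
        have h12 : (T : ℤ) * |P.ord u| ≤ T * W3 := mul_le_mul_of_nonneg_left huW hTz.le
        push_cast
        push_cast at h4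
        nlinarith
      exact le_of_mul_le_mul_left h9 hTz

end

end Pool.Agent.Q41.AB
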