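import Pool.Agent.Q41.AB.Conc
import Pool.Agent.Q41.AB.Gf
import Pool.Agent.Q41.AB.Gz
import Pool.Agent.Q41.AB.Gw

/-!
The theorems for abelian covers of products of projective spaces.
-/

set_option autoImplicit false
set_option linter.overlappingInstances false
set_option linter.unusedSectionVars false
set_option maxHeartbeats 1000000

open FF MvPolynomial IntermediateField

namespace Pool.Agent.Q41.AB

open Pool.Agent.W602.GT (Divisorial)
open Pool.Agent.Q41.RC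
open Pool.Agent.Q57.TP (SecD BSec BPsef BKod BNum bsec_sec)
open Pool.Agent.Q57.GM (BGood BNef BSemi semi_of_good)

section

variable {K ρ σ κ J : Type} [Field K] [Algebra ℂ K] [Fintype ρ] [Fintype σ] [Fintype κ] [Fintype J]
  {pr : σ → ρ} {o : ρ → σ} {δ : κ → ρ → ℕ} {F : κ → MvPolynomial σ ℂ} {m : J → ℕ}
    {a : J → κ → ℕ} {y : σ → K} {z : J → K} {n : ℕ} {S : κ → Prop} {δb : Place ℂ K → ℚ}

/-- the set-up -/
theorem exists_su (h : IsCov pr o δ F m a y z) (htr : Algebra.trdeg ℂ K = ((n + 1 : ℕ) : Cardinal)) :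
    ∃ (ε : ρ ⊕ Fin (n + 1) ≃ σ) (G : Subgroup (K ≃ₐ[ℂ] K)) (_ : Finite G)
      (X : Fin (n + 1) → IntermediateField.fixedField G) (D0 : Fin (n + 1) → Derivation ℂ K K),
      Su pr o δ F m a y z ε G X D0 := by
  classical
  obtain ⟨ε, hε, hbas⟩ := h.exists_equiv htr
  obtain ⟨G, hG, X, hX, hXy⟩ := Q43.AB.gal h ε hε
  choose D0 hD0 using fun i : Fin (n + 1) => Pool.Agent.W602.GT.exists_der
    (fun i => y (ε (Sum.inr i))) hbas (fun j => if i = j then (1 : K) else 0)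
  exact ⟨ε, G, hG, X, D0, h, hε, hbas, hX, hXy, hD0⟩

theorem exists_frame (h : IsCov pr o δ F m a y z)
    (htr : Algebra.trdeg ℂ K = ((n + 1 : ℕ) : Cardinal)) :
    ∃ (X : Fin (n + 1) → K) (D0 : Fin (n + 1) → Derivation ℂ K K), IsTranscendenceBasis ℂ X ∧
      ∀ i j, D0 i (X j) = if i = j then 1 else 0 := by
  obtain ⟨ε, G, hG, X, D0, hSu⟩ := exists_su h htr
  exact ⟨_, D0, hSu.bas, hSu.dual⟩

theorem exists_div (h : IsCov pr o δ F m a y z)
    (htr : Algebra.trdeg ℂ K = ((n + 1 : ℕ) : Cardinal)) :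
    ∃ P : Place ℂ K, Divisorial (n + 1) P := by
  obtain ⟨ε, G, hG, X, D0, hSu⟩ := exists_su h htr
  have hp : Irreducible (MvPolynomial.X 0 : MvPolynomial (Fin (n + 1)) ℂ) :=
    (MvPolynomial.X_prime (i := (0 : Fin (n + 1)))).irreducible
  obtain ⟨v, hv1, hv2⟩ := Pool.Agent.TH122.AB.exists_adic hSu.gens hp
  obtain ⟨w, e, I, hwv, -, -⟩ := Pool.Agent.W619.PQ.exists_inertia G v
  exact ⟨w, Pool.Agent.TH122.AB.div_adic hSu.gens hp hv2 hwv⟩

/-- **Good minimal models, with an explicit multiple and uniformly.** -/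
theorem good_covX (combx : S_CombX) (h : IsCov pr o δ F m a y z)
    (htr : Algebra.trdeg ℂ K = ((n + 1 : ℕ) : Cardinal))
    (hS : SNC pr F) (hB : Bd pr δ F y S δb) (hE : ∃ e, IsExp pr δ m a S F e) {B : ℕ} (hB1 : 1 ≤ B)
    (hδ : ∀ c l, δ c l ≤ B) {E : ℕ} (hE0 : 0 < E) (hEB : E ≤ B) (hEa : ∀ j c, m j ∣ E * a j c)
    {T : ℕ} (hT : 0 < T)
    (hTd : ∀ t, 0 < t → t ≤ (Fintype.card κ).factorial * B ^ Fintype.card κ → t ∣ T) :
    BGoodU (n + 1) δb T := by
  classical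
  obtain ⟨ε, G, hG, X, D0, hSu⟩ := exists_su h htr
  have hch : S_CH := Pool.Agent.Q296.AB.chS
  exact good_suX (Pool.Agent.Q296.AB.tor Pool.Agent.Q296.AB.e) Pool.Agent.Q95.AB.locC
    Pool.Agent.Q210.AB.ram (Pool.Agent.Q285.AB.gen hch Pool.Agent.Q20.AB.krull)
    Pool.Agent.Q95.AB.den Pool.Agent.Q275.AB.hom Pool.Agent.Q210.AB.low Pool.Agent.Q20.AB.fin
    combx Pool.Agent.Q277.AB.ext
    (Pool.Agent.Q20.AB.inter hch) Pool.Agent.Q95.AB.arc Pool.Agent.Q95.AB.curve hSu hS hB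
    hE hB1 hδ hE0 hEB hEa hT hTd

end

section

open Pool.Agent.Q41.RC.Def

variable {r N R : ℕ} {n : Fin r → ℕ} {d : Fin N → Fin r → ℕ}
  {F : Fin N → MvPolynomial (Def.Coord n) ℂ} {m : Fin R → ℕ} {a : Fin R → Fin N → ℕ} {K : Type}
  [Field K] [Algebra ℂ K] {x : Def.Coord n → K} {z : Fin R → K} {S : Set (Fin N)}
  {δb : Place ℂ K → ℚ}

/-- **Good minimal models, with an explicit multiple and uniformly.** -/
theorem final_goodX (combx : S_CombX) (h : IsCover d F m a x z) (hF : NormalCrossings F)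
    (hr : 0 < r)
    (h1 : ∀ P, Boundary d F S x P → δb P = 1) (h0 : ∀ P, ¬ Boundary d F S x P → δb P = 0)
    (hps : BPsef (∑ l, n l) δb) {B E T : ℕ} (hE0 : 0 < E) (hEB : E ≤ B)
    (hE : ∀ j c, m j ∣ E * a j c) (hB : ∀ c l, d c l ≤ B) (hT : 0 < T)
    (hTd : ∀ t, 0 < t → t ≤ N.factorial * B ^ N → t ∣ T) : BGoodU (∑ l, n l) δb T := by
  classical
  obtain ⟨e, he⟩ := sum_pos h hr
  have htr := trdeg_cover h
  rw [he] at hps htr ⊢
  have hBd := bd_of_boundary h1 h0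
  have hEx := exp_of_psef (cov_of_cover h) htr (snc_of_nc hF) hBd hps
  exact good_covX combx (cov_of_cover h) htr (snc_of_nc hF) hBd hEx (by omega) hB hE0 hEB hE hT
    (by rw [Fintype.card_fin]; exact hTd)

/-- **Abundance with an explicit multiple, for all models.** -/
theorem final_free (combx : S_CombX) (h : IsCover d F m a x z) (hF : NormalCrossings F)
    (hr : 0 < r)
    (h1 : ∀ P, Boundary d F S x P → δb P = 1) (h0 : ∀ P, ¬ Boundary d F S x P → δb P = 0)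
    {g : Place ℂ K → ℚ} (hm : BMod (∑ l, n l) δb g)
    (hn : BNef (∑ l, n l) g) {B E T : ℕ} (hE0 : 0 < E) (hEB : E ≤ B)
    (hE : ∀ j c, m j ∣ E * a j c) (hB : ∀ c l, d c l ≤ B) (hT : 0 < T)
    (hTd : ∀ t, 0 < t → t ≤ N.factorial * B ^ N → t ∣ T) : BFree (∑ l, n l) g T := by
  classical
  obtain ⟨e, he⟩ := sum_pos h hr
  have htr := trdeg_cover h
  have hps : BPsef (∑ l, n l) g := by
    refine psef_of_nef ?_ hn
    rw [he] at htr ⊢
    exact exists_div (cov_of_cover h) htr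
  exact free_of_good hT (goodT_of_mod (goodT_of_goodU
    (final_goodX combx h hF hr h1 h0 (psef_of_mod hm hps) hE0 hEB hE hB hT hTd)) hm) hn

/-- **Kodaira dimension and numerical dimension.** -/
theorem final_kodnum (combx : S_CombX) (cnt : S_Cnt) (h : IsCover d F m a x z)
    (hF : NormalCrossings F) (hr : 0 < r)
    (h1 : ∀ P, Boundary d F S x P → δb P = 1) (h0 : ∀ P, ¬ Boundary d F S x P → δb P = 0)
    (hps : BPsef (∑ l, n l) δb) {B E T : ℕ} (hE0 : 0 < E) (hEB : E ≤ B)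
    (hE : ∀ j c, m j ∣ E * a j c) (hB : ∀ c l, d c l ≤ B) (hT : 0 < T)
    (hTd : ∀ t, 0 < t → t ≤ N.factorial * B ^ N → t ∣ T) :
    ∃ q, BKodT (∑ l, n l) δb T q ∧ BNum (∑ l, n l) δb q := by
  classical
  have hg := final_goodX combx h hF hr h1 h0 hps hE0 hEB hE hB hT hTd
  obtain ⟨e, he⟩ := sum_pos h hr
  have htr := trdeg_cover h
  rw [he] at hps htr hg ⊢
  have hcov := cov_of_cover h
  have := hcov.ess
  obtain ⟨X, D0, hX, hD0⟩ := exists_frame hcov htr
  exact kodnum cnt htr hX hD0 hT hg hps (exists_div hcov htr)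

/-- **Finite generation of the log canonical ring.** -/
theorem final_fin (int : S_Int) (fg : S_FG) (h : IsCover d F m a x z)
    (hF : NormalCrossings F) (hr : 0 < r)
    (h1 : ∀ P, Boundary d F S x P → δb P = 1) (h0 : ∀ P, ¬ Boundary d F S x P → δb P = 0) :
    BFin (∑ l, n l) δb := by
  classical
  have hg := final_good h hF hr h1 h0
  obtain ⟨e, he⟩ := sum_pos h hr
  have htr := trdeg_cover h
  rw [he] at htr hg ⊢
  have hcov := cov_of_cover h
  have := hcov.ess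
  obtain ⟨X, D0, hX, hD0⟩ := exists_frame hcov htr
  by_cases hps : BPsef (e + 1) δb
  · exact fin_of_good int fg htr hX hD0 (exists_div hcov htr) (hg hps)
  · exact fin_of_not_psef int htr hX hD0 hps

end

end Pool.Agent.Q41.AB
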