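import Pool.Agent.Q41.AB.Fx
import Pool.Agent.Q161.AB.LPX
import Pool.Agent.Q210.AB.Cnt
import Pool.Agent.Q41.AB.CombX

/-!
The theorems for abelian covers of products of projective spaces.
-/

set_option autoImplicit false

open FF MvPolynomial

namespace Pool.Agent.Q41.AB

open Pool.Agent.Q41.RC.Def
open Pool.Agent.Q57.TP (BSec BPsef BKod BNum)

theorem combx' : S_CombX := combx Pool.Agent.Q161.AB.lpx

variable {r N R : ℕ} {n : Fin r → ℕ} {d : Fin N → Fin r → ℕ}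
  {F : Fin N → MvPolynomial (Coord n) ℂ} {m : Fin R → ℕ} {a : Fin R → Fin N → ℕ} {K : Type}
  [Field K] [Algebra ℂ K] {x : Coord n → K} {z : Fin R → K} {S : Set (Fin N)}
  {δb : Place ℂ K → ℚ}

/-- **Kodaira dimension and numerical dimension.** -/
theorem final_ab (h : IsCover d F m a x z) (hF : NormalCrossings F) (hr : 0 < r)
    (h1 : ∀ P, Boundary d F S x P → δb P = 1) (h0 : ∀ P, ¬ Boundary d F S x P → δb P = 0)
    (hps : BPsef (∑ l, n l) δb) : ∃ q, BKod (∑ l, n l) δb q ∧ BNum (∑ l, n l) δb q := by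
  obtain ⟨E, hE⟩ : ∃ E : ℕ, E = ∏ j, m j := ⟨_, rfl⟩
  have hE0 : 0 < E := by
    rw [hE]
    exact Finset.prod_pos fun j _ => h.pos j
  have hEd : ∀ j c, m j ∣ E * a j c := fun j c => by
    rw [hE]
    exact Dvd.dvd.mul_right (Finset.dvd_prod_of_mem _ (Finset.mem_univ j)) _
  obtain ⟨B, hB⟩ : ∃ B : ℕ, B = E + ∑ c, ∑ l, d c l := ⟨_, rfl⟩
  have hBd : ∀ c l, d c l ≤ B := by
    intro c l
    have h2 : d c l ≤ ∑ l, d c l :=
      Finset.single_le_sum (f := fun l => d c l) (fun _ _ => Nat.zero_le _) (Finset.mem_univ l)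
    have h3 : ∑ l, d c l ≤ ∑ c, ∑ l, d c l :=
      Finset.single_le_sum (f := fun c => ∑ l, d c l) (fun _ _ => Nat.zero_le _)
        (Finset.mem_univ c)
    omega
  obtain ⟨q, ⟨ω, hω, D, hD, hind⟩, hnum⟩ := final_kodnum combx' Pool.Agent.Q210.AB.cnt h hF hr h1
    h0 hps (B := B) (E := E) (T := (N.factorial * B ^ N).factorial) hE0 (by omega) hEd hBd
    (Nat.factorial_pos _) fun t ht0 ht1 => Nat.dvd_factorial ht0 ht1
  exact ⟨q, ⟨_, Nat.factorial_pos _, ω, hω, D, hD, hind⟩, hnum⟩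

end Pool.Agent.Q41.AB
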