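import Pool.Agent.Q41.AB.Ps
import Pool.Agent.Q57.GM.Nef

/-!
Good minimal models for abelian covers.
-/

set_option autoImplicit false
set_option linter.overlappingInstances false
set_option linter.unusedSectionVars false
set_option maxHeartbeats 2000000

open FF MvPolynomial IntermediateField Pool.Agent.W603.LV Pool.Agent.W619.PQ
open Pool.Agent.W619.TW Pool.Agent.W602.GT Pool.Agent.TH122.AB Pool.Agent.TH756.PN

namespace Pool.Agent.Q41.AB

open Pool.Agent.Q41.RC (MH IsPt SNC DatK IsCov CovK bwK IsVec IsExp)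
open Pool.Agent.Q57.TP (SecD BSec BPsef bsec_sec)
open Pool.Agent.Q57.GM (BGood BNef BSemi semi_of_good)

section

variable {K ρ σ κ J : Type} [Field K] [Algebra ℂ K] [Fintype ρ] [Fintype σ] [Fintype κ]
  {pr : σ → ρ} {o : ρ → σ} {δ : κ → ρ → ℕ} {F : κ → MvPolynomial σ ℂ} {m : J → ℕ}
    {a : J → κ → ℕ} {y : σ → K} {z : J → K} {n : ℕ} {ε : ρ ⊕ Fin (n + 1) ≃ σ}
    {G : Subgroup (K ≃ₐ[ℂ] K)} {X : Fin (n + 1) → IntermediateField.fixedField G}
    {D0 : Fin (n + 1) → Derivation ℂ K K}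

theorem lam_dat (h : Su pr o δ F m a y z ε G X D0) {P : Place ℂ K} {α : ρ → ℤ} {v : κ → ℕ}
    (hd : DatK P pr F δ y α v) : v ∈ Lam pr F := by
  classical
  obtain ⟨j, u, hj1, hj2, hyu, hu0, hu1, hureg, hFu, hFv⟩ := hd.norm h.cov.hF
  obtain ⟨x, hx, hx0⟩ := Pool.Agent.Q41.RC.exists_pt (F := F) P hureg hj1 hu1
    (Finset.univ.filter fun c => v c ≠ 0) (fun c hc => by
      right
      rw [hFv]
      have := (Finset.mem_filter.1 hc).2
      omega)
  exact ⟨x, hx, fun c hc => hx0 c (Finset.mem_filter.2 ⟨Finset.mem_univ _, hc⟩)⟩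

/-- the order of a sum -/
theorem ge_sum_fin {P : Place ℂ K} {r : ℕ} {f : Fin r → K} {X : ℤ} (hf : ∀ i, Ge P X (f i)) :
    Ge P X (∑ i, f i) := by
  classical
  have h1 : ∀ s : Finset (Fin r), Ge P X (∑ i ∈ s, f i) := by
    intro s
    induction s using Finset.induction_on with
    | empty => left; simp
    | insert i s hi ih =>
      rw [Finset.sum_insert hi]
      exact (hf i).add ih
  exact h1 _

/-- **The lower bound for the orders of the sections.** -/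
theorem eta_low (tor : S_Tor) (locC : S_LocC) (ram : S_Ram) (gen : S_Gen) (den : S_Den)
    (hom : S_Hom) (low : S_Low) (hFin : S_Fin) [Fintype J] [Finite G]
    (h : Su pr o δ F m a y z ε G X D0) (hS : SNC pr F) {S : κ → Prop} {δb : Place ℂ K → ℚ}
    (hB : Bd pr δ F y S δb) (hsg : ∀ l, 0 ≤ sg pr δ l) {P : Place ℂ K} {α : ρ → ℤ} {v : κ → ℕ}
    (hd : DatK P pr F δ y α v) {e : κ → ℚ} {Y : ρ → ℚ}
    (hmain : ∀ (DQ : ρ → ℕ) (N j : ℕ) (T : MvPolynomial σ ℂ),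
        T ≠ 0 → MH pr (fun l => N * (sg pr δ l).toNat + (j + 1) * DQ l) T →
        (∀ ρv, IsVec pr m a S F ρv → OrdGe pr F ρv N T) →
        (N : ℚ) * ∑ c, (v c : ℚ) * e c ≤ rr pr F T v + (j + 1) * ∑ l, (DQ l : ℚ) * Y l)
    (S' : Finset K) :
    ∃ C : ℚ, ∀ (N j : ℕ) (η : (Fin (n + 1) → Derivation ℂ K K) → K),
      BSec (n + 1) δb S' N j η → η D0 = 0 ∨
        (N : ℚ) * (∑ c, (v c : ℚ) * (e c - 1) - ((∑ i, α (pr i) : ℤ) : ℚ)) ≤
          P.ord (η D0) + C * (j + 1) := by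
  classical
  obtain ⟨r, β, DQ, Q, hQ, hsec⟩ := sec_su tor locC ram gen den hom h hS hB hsg S'
  obtain ⟨B, hBdef⟩ : ∃ B : ℚ, B = ∑ i, |(P.ord (β i) : ℚ)| := ⟨_, rfl⟩
  have hB0 : 0 ≤ B := by
    rw [hBdef]
    exact Finset.sum_nonneg fun i _ => abs_nonneg _
  obtain ⟨A1, hA1⟩ : ∃ A1 : ℚ, A1 = ((∑ l, (DQ l : ℤ) * α l : ℤ) : ℚ) := ⟨_, rfl⟩
  obtain ⟨A2, hA2⟩ : ∃ A2 : ℚ, A2 = ∑ l, (DQ l : ℚ) * Y l := ⟨_, rfl⟩
  refine ⟨B + |A1| + |A2| + |(P.ord (aeval y Q) : ℚ)|, fun N j η hη => ?_⟩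
  obtain ⟨T, hT, hx, hord⟩ := hsec N j η (bsec_sec hη)
  by_cases hη0 : η D0 = 0
  · exact Or.inl hη0
  right
  have hjp : (0 : ℚ) < (j : ℚ) + 1 := by positivity
  obtain ⟨R, hR⟩ : ∃ R : ℚ, R = N * ((∑ l, sg pr δ l * α l : ℤ) : ℚ) + (j + 1) * A1 +
    N * ∑ c, (v c : ℚ) * e c - (j + 1) * A2 - B := ⟨_, rfl⟩
  have hterm : ∀ i, Ge P ⌈R⌉ (aeval y (T i) * β i) := by
    intro i
    by_cases h1 : aeval y (T i) = 0
    · left
      rw [h1, zero_mul]
    by_cases h2 : β i = 0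
    · left
      rw [h2, mul_zero]
    right
    have hT0 : T i ≠ 0 := by
      intro h3
      rw [h3, map_zero] at h1
      exact h1 rfl
    have h3 := (low P pr δ F h.cov.hF y α v hd _ (T i) (hT i) (rr pr F (T i) v)
      (ordGe_rr hFin hT0 (lam_dat h hd))).resolve_left h1
    have h4 := hmain DQ N j (T i) hT0 (hT i) (hord i)
    rw [Int.ceil_le, P.ord_mul h1 h2]
    have h5 : |(P.ord (β i) : ℚ)| ≤ B := by
      rw [hBdef]
      exact Finset.single_le_sum (f := fun i => |(P.ord (β i) : ℚ)|) (fun i _ => abs_nonneg _)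
        (Finset.mem_univ i)
    have h6 := neg_abs_le (P.ord (β i) : ℚ)
    have h7 : ((∑ l, ((N * (sg pr δ l).toNat + (j + 1) * DQ l : ℕ) : ℤ) * α l : ℤ) : ℚ) =
        N * ((∑ l, sg pr δ l * α l : ℤ) : ℚ) + (j + 1) * A1 := by
      rw [hA1]
      push_cast
      rw [Finset.mul_sum, Finset.mul_sum, ← Finset.sum_add_distrib]
      refine Finset.sum_congr rfl fun l _ => ?_
      have h8 : (((sg pr δ l).toNat : ℕ) : ℚ) = sg pr δ l := by
        have h9 := Int.toNat_of_nonneg (hsg l)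
        exact_mod_cast h9
      rw [h8]
      ring
    have h8 : ((∑ l, ((N * (sg pr δ l).toNat + (j + 1) * DQ l : ℕ) : ℤ) * α l +
        (rr pr F (T i) v : ℕ) : ℤ) : ℚ) ≤ (P.ord (aeval y (T i)) : ℚ) := by exact_mod_cast h3
    rw [Int.cast_add, h7, Int.cast_natCast] at h8
    rw [hR, Int.cast_add]
    rw [← hA2] at h4
    linarith
  have hsum := ge_sum_fin hterm
  rw [← hx] at hsum
  have hne : η D0 * Lm F y N * aeval y Q ^ (j + 1) ≠ 0 :=
    mul_ne_zero (mul_ne_zero hη0 (Lm_ne h N)) (pow_ne_zero _ hQ)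
  have h1 := hsum.resolve_left hne
  rw [Int.ceil_le, P.ord_mul (mul_ne_zero hη0 (Lm_ne h N)) (pow_ne_zero _ hQ),
    P.ord_mul hη0 (Lm_ne h N), P.ord_pow, ord_Lm h hd, hR, sg_sum, Finset.sum_add_distrib] at h1
  have h2 := neg_abs_le A1
  have h3 := le_abs_self A2
  have h4 := le_abs_self (P.ord (aeval y Q) : ℚ)
  have h5 : (j + 1 : ℚ) * (-|A1|) ≤ (j + 1) * A1 := mul_le_mul_of_nonneg_left h2 hjp.le
  have h6 : (j + 1 : ℚ) * A2 ≤ (j + 1) * |A2| := mul_le_mul_of_nonneg_left h3 hjp.le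
  have h7 : (j + 1 : ℚ) * (P.ord (aeval y Q) : ℚ) ≤ (j + 1) * |(P.ord (aeval y Q) : ℚ)| :=
    mul_le_mul_of_nonneg_left h4 hjp.le
  have h8 : B ≤ (j + 1) * B := by
    have h9 : (0 : ℚ) ≤ j * B := by positivity
    linarith
  have h9 : ∑ c, (v c : ℚ) * (e c - 1) = ∑ c, (v c : ℚ) * e c - ∑ c, (v c : ℚ) := by
    rw [← Finset.sum_sub_distrib]
    exact Finset.sum_congr rfl fun c _ => by ring
  rw [h9]
  push_cast at h1 ⊢
  nlinarith [h1, h5, h6, h7, h8]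

/-- **Good minimal models.** -/
theorem good_su (tor : S_Tor) (locC : S_LocC) (ram : S_Ram) (gen : S_Gen) (den : S_Den)
    (hom : S_Hom) (low : S_Low) (hFin : S_Fin) (hComb : S_Comb) (hExt : S_Ext) (hI : S_Inter)
    (hArc : S_Arc) (hCurve : S_Curve) [Fintype J] [Finite G]
    (h : Su pr o δ F m a y z ε G X D0) (hS : SNC pr F) {S : κ → Prop} {δb : Place ℂ K → ℚ}
    (hB : Bd pr δ F y S δb) (hE : ∃ e, IsExp pr δ m a S F e) : BGood (n + 1) δb := by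
  classical
  have hsg : ∀ l, 0 ≤ sg pr δ l := by
    obtain ⟨e, he⟩ := hE
    exact sg_nonneg he
  obtain ⟨Sv, hSv, hmain⟩ := main_ineq hComb hExt hI gen hArc hCurve hFin h.cov.hF hS h.cov.hdiv hE
  obtain ⟨T, hT, hw⟩ := Pool.Agent.Y169.TH.exists_den fun x : Sv × κ => x.1.1 x.2
  choose w' hw' using hw
  obtain ⟨w, hw⟩ : ∃ w : Sv → κ → ℤ, w = fun e c => w' (e, c) := ⟨_, rfl⟩
  have hwe : ∀ (e : Sv) c, (w e c : ℚ) = T * e.1 c := by
    intro e c
    rw [hw]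
    exact (hw' (e, c)).symm
  have hTq : (0 : ℚ) < T := by exact_mod_cast hT
  have hdeg : ∀ (e : Sv) l, 0 ≤ (T : ℤ) * sg pr δ l - ∑ c, w e c * (δ c l : ℤ) := by
    intro e l
    have h1 := exp_sg (hSv e.1 e.2) l
    have h2 := mul_le_mul_of_nonneg_left h1 hTq.le
    have h3 : (T : ℚ) * ∑ c, (δ c l : ℚ) * e.1 c = ((∑ c, w e c * (δ c l : ℤ) : ℤ) : ℚ) := by
      push_cast
      rw [Finset.mul_sum]
      refine Finset.sum_congr rfl fun c _ => ?_
      rw [hwe]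
      ring
    rw [h3] at h2
    have h4 : (∑ c, w e c * (δ c l : ℤ)) ≤ (T : ℤ) * sg pr δ l := by exact_mod_cast h2
    linarith
  obtain ⟨dd, hdd⟩ : ∃ dd : Sv → ρ → ℕ, ∀ e, DegOk pr δ T (w e) (dd e) :=
    ⟨fun e l => ((T : ℤ) * sg pr δ l - ∑ c, w e c * (δ c l : ℤ)).toNat, fun e l =>
      Int.toNat_of_nonneg (hdeg e l)⟩
  let I := Sv × {zz : ρ → σ // ∀ l, pr (zz l) = l}
  let eqv := Fintype.equivFin I
  refine ⟨T, Fintype.card I, fun i => om ε pr F y T (w (eqv.symm i).1) (dd (eqv.symm i).1)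
    (eqv.symm i).2.1, hT, fun i => ?_, fun P hP => ?_⟩
  · refine om_sec h hS hB (eqv.symm i).2.2 (fun c => ?_) (fun v hv => ?_) (hdd _)
    · have h1 := (hSv _ (eqv.symm i).1.2).nonneg c
      have h2 : (0 : ℚ) ≤ w (eqv.symm i).1 c := by
        rw [hwe]
        positivity
      exact_mod_cast h2
    · have h1 := (hSv _ (eqv.symm i).1.2).one_le v hv
      have h2 := mul_le_mul_of_nonneg_left h1 hTq.le
      have h3 : (T : ℚ) * ∑ c, (v c : ℚ) * (eqv.symm i).1.1 c =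
          ((∑ c, w (eqv.symm i).1 c * (v c : ℤ) : ℤ) : ℚ) := by
        push_cast
        rw [Finset.mul_sum]
        refine Finset.sum_congr rfl fun c _ => ?_
        rw [hwe]
        ring
      rw [h3, mul_one] at h2
      exact_mod_cast h2
  · obtain ⟨α, v, hd⟩ := h.cov.exists_dat P
    obtain ⟨e, he, Y, hY, hm⟩ := hmain v (lam_dat h hd)
    choose zz hz1 hz2 using hd.ha2
    obtain ⟨i0, hi0⟩ : ∃ i0 : I, i0 = (⟨e, he⟩, ⟨zz, hz1⟩) := ⟨_, rfl⟩
    refine ⟨eqv i0, fun S' => ?_⟩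
    obtain ⟨C, hC⟩ := eta_low tor locC ram gen den hom low hFin h hS hB hsg hd hm S'
    refine ⟨⌈T * |C|⌉, fun N j η hN hη D => ?_⟩
    by_cases hηD : η D = 0
    · exact Or.inl hηD
    right
    have hsym : eqv.symm (eqv i0) = i0 := eqv.symm_apply_apply i0
    change om ε pr F y T (w (eqv.symm (eqv i0)).1) (dd (eqv.symm (eqv i0)).1)
        (eqv.symm (eqv i0)).2.1 D ≠ 0 ∧
      (N : ℤ) * P.ord (om ε pr F y T (w (eqv.symm (eqv i0)).1) (dd (eqv.symm (eqv i0)).1)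
        (eqv.symm (eqv i0)).2.1 D) ≤ T * P.ord (η D) + ⌈T * |C|⌉ * (j + 1)
    rw [hsym, hi0]
    have h1 := sec_frame h hη.1 D
    have hη0 : η D0 ≠ 0 := by
      intro h2
      rw [h2, mul_zero] at h1
      exact hηD h1
    have hbw : bwK ε pr D y ≠ 0 := by
      intro h2
      rw [h2, zero_pow (by omega), zero_mul] at h1
      exact hηD h1
    have hX := om_ne h (T := T) (w := w ⟨e, he⟩) (dd := dd ⟨e, he⟩) (zz := zz)
    obtain ⟨Xx, hXx⟩ : ∃ Xx : K, Xx = (∏ c, aeval y (F c) ^ (w ⟨e, he⟩ c - T : ℤ)) *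
      ∏ l, y (zz l) ^ dd ⟨e, he⟩ l := ⟨_, rfl⟩
    have hXord := om_ord h (hdd ⟨e, he⟩) (zz := zz) hd
    have hom1 : om ε pr F y T (w ⟨e, he⟩) (dd ⟨e, he⟩) zz D = bwK ε pr D y ^ T * Xx := by
      rw [hXx]
      rfl
    rw [← hXx] at hX hXord
    rw [hom1]
    refine ⟨mul_ne_zero (pow_ne_zero _ hbw) hX, ?_⟩
    rw [h1, P.ord_mul (pow_ne_zero _ hbw) hX, P.ord_mul (pow_ne_zero _ hbw) hη0, P.ord_pow,
      P.ord_pow]
    have h2 := (hC N j η hη).resolve_left hη0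
    have h3 : (P.ord Xx : ℚ) = T * (∑ c, (v c : ℚ) * (e c - 1) - ((∑ i, α (pr i) : ℤ) : ℚ)) := by
      rw [hXord]
      have h4 : ∑ l, (dd ⟨e, he⟩ l : ℤ) * (P.ord (y (zz l)) - α l) = 0 :=
        Finset.sum_eq_zero fun l _ => by rw [hz2, sub_self, mul_zero]
      have h5 : ∑ c, ((w ⟨e, he⟩ c : ℚ) - T) * (v c : ℚ) = T * ∑ c, (v c : ℚ) * (e c - 1) := by
        rw [Finset.mul_sum]
        refine Finset.sum_congr rfl fun c _ => ?_
        rw [hwe]
        ring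
      rw [h4, add_zero, mul_sub, ← h5]
      push_cast
      ring
    have h4 := mul_le_mul_of_nonneg_left h2 hTq.le
    have h5 : (N : ℚ) * P.ord Xx ≤ T * P.ord (η D0) + (T * |C|) * (j + 1) := by
      rw [h3]
      have h6 : (T : ℚ) * (C * (j + 1)) ≤ (T * |C|) * (j + 1) := by
        have h7 : C * (j + 1) ≤ |C| * (j + 1) :=
          mul_le_mul_of_nonneg_right (le_abs_self C) (by positivity)
        have h8 := mul_le_mul_of_nonneg_left h7 hTq.le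
        linarith
      linarith
    have h6 : (T * |C|) * (j + 1) ≤ (⌈T * |C|⌉ : ℚ) * (j + 1) :=
      mul_le_mul_of_nonneg_right (Int.le_ceil _) (by positivity)
    have h7 : (((N : ℤ) * P.ord Xx : ℤ) : ℚ) ≤
        (((T : ℤ) * P.ord (η D0) + ⌈T * |C|⌉ * (j + 1) : ℤ) : ℚ) := by
      push_cast
      linarith
    have h8 : (N : ℤ) * P.ord Xx ≤ (T : ℤ) * P.ord (η D0) + ⌈T * |C|⌉ * (j + 1) := by
      exact_mod_cast h7
    linarith

end

end Pool.Agent.Q41.AB
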