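import Pool.Agent.Q41.AB.Mx

/-!
The lower bound for the orders of the sections, uniformly for all places.
-/

set_option autoImplicit false
set_option linter.overlappingInstances false
set_option linter.unusedSectionVars false
set_option maxHeartbeats 2000000

open FF MvPolynomial IntermediateField Pool.Agent.W603.LV Pool.Agent.W619.PQ
open Pool.Agent.W619.TW Pool.Agent.W602.GT Pool.Agent.TH122.AB Pool.Agent.TH756.PN

namespace Pool.Agent.Q41.AB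

open Pool.Agent.Q41.RC (MH IsPt SNC DatK IsCov CovK bwK IsVec IsExp)
open Pool.Agent.Q57.TP (SecD BSec BPsef bsec_sec)
open Pool.Agent.Q57.GM (BGood BNef BSemi semi_of_good)

section

variable {K ρ σ κ J : Type} [Field K] [Algebra ℂ K] [Fintype ρ] [Fintype σ] [Fintype κ]
  {pr : σ → ρ} {o : ρ → σ} {δ : κ → ρ → ℕ} {F : κ → MvPolynomial σ ℂ} {m : J → ℕ}
    {a : J → κ → ℕ} {y : σ → K} {z : J → K} {n : ℕ} {ε : ρ ⊕ Fin (n + 1) ≃ σ}
    {G : Subgroup (K ≃ₐ[ℂ] K)} {X : Fin (n + 1) → IntermediateField.fixedField G}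
    {D0 : Fin (n + 1) → Derivation ℂ K K}

/-- **The lower bound for the orders of the sections, uniformly.** -/
theorem eta_lowX (tor : S_Tor) (locC : S_LocC) (ram : S_Ram) (gen : S_Gen) (den : S_Den)
    (hom : S_Hom) (low : S_Low) (hFin : S_Fin) [Fintype J] [Finite G]
    (h : Su pr o δ F m a y z ε G X D0) (hS : SNC pr F) {S : κ → Prop} {δb : Place ℂ K → ℚ}
    (hB : Bd pr δ F y S δb) (hsg : ∀ l, 0 ≤ sg pr δ l) (C0 : ℕ) (S' : Finset K) :
    ∃ (S2 : Finset K) (c0 : ℕ), ∀ {P : Place ℂ K} {α : ρ → ℤ} {v : κ → ℕ},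
      DatK P pr F δ y α v → ∀ {e : κ → ℚ} {Y : ρ → ℚ},
      (∀ l, 0 ≤ Y l ∧ Y l ≤ C0 * ∑ c, (v c : ℚ)) →
      (∀ (DQ : ρ → ℕ) (N j : ℕ) (T : MvPolynomial σ ℂ),
        T ≠ 0 → MH pr (fun l => N * (sg pr δ l).toNat + (j + 1) * DQ l) T →
        (∀ ρv, IsVec pr m a S F ρv → OrdGe pr F ρv N T) →
        (N : ℚ) * ∑ c, (v c : ℚ) * e c ≤ rr pr F T v + (j + 1) * ∑ l, (DQ l : ℚ) * Y l) →
      ∀ (N j : ℕ) (η : (Fin (n + 1) → Derivation ℂ K K) → K),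
      BSec (n + 1) δb S' N j η → η D0 = 0 ∨
        (N : ℚ) * (∑ c, (v c : ℚ) * (e c - 1) - ((∑ i, α (pr i) : ℤ) : ℚ)) ≤
          P.ord (η D0) + (c0 * ((∑ s ∈ S2, |P.ord s| : ℤ) : ℚ)) * (j + 1) := by
  classical
  obtain ⟨r, β, DQ, Q, hQ, hsec⟩ := sec_su tor locC ram gen den hom h hS hB hsg S'
  obtain ⟨c1, hc1⟩ : ∃ c1 : ℕ, c1 = ∑ c : κ, (1 + ∑ l, δ c l) := ⟨_, rfl⟩
  refine ⟨Finset.univ.image y ∪ (Finset.univ.image fun c => aeval y (F c)) ∪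
    (Finset.univ.image β) ∪ {aeval y Q},
    r + ∑ l, DQ l + (∑ l, DQ l) * (C0 * c1) + 1, ?_⟩
  obtain ⟨S2, hS2⟩ : ∃ S2 : Finset K, S2 = Finset.univ.image y ∪
    (Finset.univ.image fun c => aeval y (F c)) ∪ (Finset.univ.image β) ∪ {aeval y Q} := ⟨_, rfl⟩
  rw [← hS2]
  intro P α v hd e Y hY hmain N j η hη
  obtain ⟨W, hW⟩ : ∃ W : ℤ, W = ∑ s ∈ S2, |P.ord s| := ⟨_, rfl⟩
  rw [← hW]
  have hWs : ∀ s ∈ S2, |P.ord s| ≤ W := by
    intro s hs
    rw [hW]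
    exact Finset.single_le_sum (f := fun s => |P.ord s|) (fun _ _ => abs_nonneg _) hs
  have hW0 : 0 ≤ W := by
    rw [hW]
    exact Finset.sum_nonneg fun _ _ => abs_nonneg _
  have hα : ∀ l, |α l| ≤ W := by
    intro l
    obtain ⟨i, hi, hil⟩ := hd.ha2 l
    rw [← hil]
    refine hWs _ ?_
    rw [hS2]
    simp
  have hv : ∀ c, (v c : ℤ) ≤ (1 + ∑ l, δ c l : ℕ) * W := by
    intro c
    have h1 := hd.hv c
    have h2 : |P.ord (aeval y (F c))| ≤ W := by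
      refine hWs _ ?_
      rw [hS2]
      simp
    have h3 : -(∑ l, (δ c l : ℤ) * α l) ≤ ∑ l, (δ c l : ℤ) * W := by
      rw [← Finset.sum_neg_distrib]
      refine Finset.sum_le_sum fun l _ => ?_
      have h4 := (abs_le.1 (hα l)).1
      have h5 : (δ c l : ℤ) * (-α l) ≤ δ c l * W :=
        mul_le_mul_of_nonneg_left (by linarith) (by positivity)
      linarith
    have h4 := le_abs_self (P.ord (aeval y (F c)))
    push_cast
    rw [add_mul, one_mul, Finset.sum_mul]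
    linarith
  have hvs : ∑ c, (v c : ℚ) ≤ c1 * W := by
    have h1 : ∑ c, (v c : ℤ) ≤ ∑ c : κ, ((1 + ∑ l, δ c l : ℕ) : ℤ) * W :=
      Finset.sum_le_sum fun c _ => hv c
    rw [← Finset.sum_mul] at h1
    have h2 : ((∑ c, (v c : ℤ) : ℤ) : ℚ) ≤
        (((∑ c : κ, ((1 + ∑ l, δ c l : ℕ) : ℤ)) * W : ℤ) : ℚ) := by exact_mod_cast h1
    rw [hc1]
    push_cast at h2 ⊢
    exact h2
  have hWq : (0 : ℚ) ≤ W := by exact_mod_cast hW0
  obtain ⟨B, hBdef⟩ : ∃ B : ℚ, B = ∑ i, |(P.ord (β i) : ℚ)| := ⟨_, rfl⟩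
  have hB0 : 0 ≤ B := by
    rw [hBdef]
    exact Finset.sum_nonneg fun i _ => abs_nonneg _
  obtain ⟨A1, hA1⟩ : ∃ A1 : ℚ, A1 = ((∑ l, (DQ l : ℤ) * α l : ℤ) : ℚ) := ⟨_, rfl⟩
  obtain ⟨A2, hA2⟩ : ∃ A2 : ℚ, A2 = ∑ l, (DQ l : ℚ) * Y l := ⟨_, rfl⟩
  have hBW : B ≤ r * W := by
    rw [hBdef]
    have h1 : ∑ i : Fin r, |(P.ord (β i) : ℚ)| ≤ ∑ i : Fin r, (W : ℚ) := by
      refine Finset.sum_le_sum fun i _ => ?_
      have h2 : |P.ord (β i)| ≤ W := by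
        refine hWs _ ?_
        rw [hS2]
        simp
      exact_mod_cast h2
    simpa using h1
  have hA1W : |A1| ≤ (∑ l, DQ l : ℕ) * W := by
    rw [hA1]
    have h1 : |∑ l, (DQ l : ℤ) * α l| ≤ ∑ l, (DQ l : ℤ) * W := by
      refine (Finset.abs_sum_le_sum_abs _ _).trans (Finset.sum_le_sum fun l _ => ?_)
      rw [abs_mul, Nat.abs_cast]
      exact mul_le_mul_of_nonneg_left (hα l) (by positivity)
    rw [← Finset.sum_mul] at h1
    exact_mod_cast h1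
  have hA2W : |A2| ≤ (∑ l, DQ l : ℕ) * (C0 * c1) * W := by
    rw [hA2]
    have h1 : 0 ≤ ∑ l, (DQ l : ℚ) * Y l :=
      Finset.sum_nonneg fun l _ => mul_nonneg (by positivity) (hY l).1
    rw [abs_of_nonneg h1]
    have h2 : ∑ l, (DQ l : ℚ) * Y l ≤ ∑ l, (DQ l : ℚ) * (C0 * (c1 * W)) := by
      refine Finset.sum_le_sum fun l _ => mul_le_mul_of_nonneg_left ?_ (by positivity)
      exact (hY l).2.trans (mul_le_mul_of_nonneg_left hvs (by positivity))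
    refine h2.trans (le_of_eq ?_)
    rw [← Finset.sum_mul]
    push_cast
    ring
  have hQW : |(P.ord (aeval y Q) : ℚ)| ≤ W := by
    have h1 : |P.ord (aeval y Q)| ≤ W := by
      refine hWs _ ?_
      rw [hS2]
      simp
    exact_mod_cast h1
  suffices hsuff : η D0 = 0 ∨
      (N : ℚ) * (∑ c, (v c : ℚ) * (e c - 1) - ((∑ i, α (pr i) : ℤ) : ℚ)) ≤
        P.ord (η D0) + (B + |A1| + |A2| + |(P.ord (aeval y Q) : ℚ)|) * (j + 1) by
    refine hsuff.imp id fun h1 => h1.trans ?_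
    have h2 : B + |A1| + |A2| + |(P.ord (aeval y Q) : ℚ)| ≤
        ((r + ∑ l, DQ l + (∑ l, DQ l) * (C0 * c1) + 1 : ℕ) : ℚ) * W := by
      push_cast at hA1W hA2W ⊢
      linarith
    have h3 := mul_le_mul_of_nonneg_right h2 (show (0 : ℚ) ≤ j + 1 by positivity)
    linarith
  obtain ⟨T, hT, hx, hord⟩ := hsec N j η (bsec_sec hη)
  by_cases hη0 : η D0 = 0
  · exact Or.inl hη0
  right
  have hjp : (0 : ℚ) < (j : ℚ) + 1 := by positivity
  obtain ⟨R, hR⟩ : ∃ R : ℚ, R = N * ((∑ l, sg pr δ l * α l : ℤ) : ℚ) + (j + 1) * A1 +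
    N * ∑ c, (v c : ℚ) * e c - (j + 1) * A2 - B := ⟨_, rfl⟩
  have hterm : ∀ i, Ge P ⌈R⌉ (aeval y (T i) * β i) := by
    intro i
    by_cases h1 : aeval y (T i) = 0
    · left
      rw [h1, zero_mul]
    by_cases h2 : β i = 0
    · left
      rw [h2, mul_zero]
    right
    have hT0 : T i ≠ 0 := by
      intro h3
      rw [h3, map_zero] at h1
      exact h1 rfl
    have h3 := (low P pr δ F h.cov.hF y α v hd _ (T i) (hT i) (rr pr F (T i) v)
      (ordGe_rr hFin hT0 (lam_dat h hd))).resolve_left h1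
    have h4 := hmain DQ N j (T i) hT0 (hT i) (hord i)
    rw [Int.ceil_le, P.ord_mul h1 h2]
    have h5 : |(P.ord (β i) : ℚ)| ≤ B := by
      rw [hBdef]
      exact Finset.single_le_sum (f := fun i => |(P.ord (β i) : ℚ)|) (fun i _ => abs_nonneg _)
        (Finset.mem_univ i)
    have h6 := neg_abs_le (P.ord (β i) : ℚ)
    have h7 : ((∑ l, ((N * (sg pr δ l).toNat + (j + 1) * DQ l : ℕ) : ℤ) * α l : ℤ) : ℚ) =
        N * ((∑ l, sg pr δ l * α l : ℤ) : ℚ) + (j + 1) * A1 := by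
      rw [hA1]
      push_cast
      rw [Finset.mul_sum, Finset.mul_sum, ← Finset.sum_add_distrib]
      refine Finset.sum_congr rfl fun l _ => ?_
      have h8 : (((sg pr δ l).toNat : ℕ) : ℚ) = sg pr δ l := by
        have h9 := Int.toNat_of_nonneg (hsg l)
        exact_mod_cast h9
      rw [h8]
      ring
    have h8 : ((∑ l, ((N * (sg pr δ l).toNat + (j + 1) * DQ l : ℕ) : ℤ) * α l +
        (rr pr F (T i) v : ℕ) : ℤ) : ℚ) ≤ (P.ord (aeval y (T i)) : ℚ) := by exact_mod_cast h3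
    rw [Int.cast_add, h7, Int.cast_natCast] at h8
    rw [hR, Int.cast_add]
    rw [← hA2] at h4
    linarith
  have hsum := ge_sum_fin hterm
  rw [← hx] at hsum
  have hne : η D0 * Lm F y N * aeval y Q ^ (j + 1) ≠ 0 :=
    mul_ne_zero (mul_ne_zero hη0 (Lm_ne h N)) (pow_ne_zero _ hQ)
  have h1 := hsum.resolve_left hne
  rw [Int.ceil_le, P.ord_mul (mul_ne_zero hη0 (Lm_ne h N)) (pow_ne_zero _ hQ),
    P.ord_mul hη0 (Lm_ne h N), P.ord_pow, ord_Lm h hd, hR, sg_sum, Finset.sum_add_distrib] at h1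
  have h2 := neg_abs_le A1
  have h3 := le_abs_self A2
  have h4 := le_abs_self (P.ord (aeval y Q) : ℚ)
  have h5 : (j + 1 : ℚ) * (-|A1|) ≤ (j + 1) * A1 := mul_le_mul_of_nonneg_left h2 hjp.le
  have h6 : (j + 1 : ℚ) * A2 ≤ (j + 1) * |A2| := mul_le_mul_of_nonneg_left h3 hjp.le
  have h7 : (j + 1 : ℚ) * (P.ord (aeval y Q) : ℚ) ≤ (j + 1) * |(P.ord (aeval y Q) : ℚ)| :=
    mul_le_mul_of_nonneg_left h4 hjp.le
  have h8 : B ≤ (j + 1) * B := by
    have h9 : (0 : ℚ) ≤ j * B := by positivity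
    linarith
  have h9 : ∑ c, (v c : ℚ) * (e c - 1) = ∑ c, (v c : ℚ) * e c - ∑ c, (v c : ℚ) := by
    rw [← Finset.sum_sub_distrib]
    exact Finset.sum_congr rfl fun c _ => by ring
  rw [h9]
  push_cast at h1 ⊢
  nlinarith [h1, h5, h6, h7, h8]


end

/-- the asymptotic orders are computed by finitely many sections, uniformly for all places -/
def BGoodU {K : Type} [Field K] [Algebra ℂ K] (N : ℕ) (δ : Place ℂ K → ℚ) (T : ℕ) : Prop :=
  ∃ (r : ℕ) (ω : Fin r → (Fin N → Derivation ℂ K K) → K), (∀ i, BSec N δ {1} T 1 (ω i)) ∧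
    ∃ ι : Place ℂ K → Fin r, ∀ S : Finset K, ∃ (S2 : Finset K) (c0 : ℕ),
      ∀ P : Place ℂ K, Divisorial N P → ∀ (m j : ℕ) (η : (Fin N → Derivation ℂ K K) → K), 1 ≤ m →
        BSec N δ S m j η → ∀ D, η D = 0 ∨ (ω (ι P) D ≠ 0 ∧
          (m : ℤ) * P.ord (ω (ι P) D) ≤ T * P.ord (η D) + c0 * (∑ s ∈ S2, |P.ord s|) * (j + 1))

section

variable {K ρ σ κ J : Type} [Field K] [Algebra ℂ K] [Fintype ρ] [Fintype σ] [Fintype κ]
  {pr : σ → ρ} {o : ρ → σ} {δ : κ → ρ → ℕ} {F : κ → MvPolynomial σ ℂ} {m : J → ℕ}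
    {a : J → κ → ℕ} {y : σ → K} {z : J → K} {n : ℕ} {ε : ρ ⊕ Fin (n + 1) ≃ σ}
    {G : Subgroup (K ≃ₐ[ℂ] K)} {X : Fin (n + 1) → IntermediateField.fixedField G}
    {D0 : Fin (n + 1) → Derivation ℂ K K}

/-- **Good minimal models, uniformly and with an explicit multiple.** -/
theorem good_suX (tor : S_Tor) (locC : S_LocC) (ram : S_Ram) (gen : S_Gen) (den : S_Den)
    (hom : S_Hom) (low : S_Low) (hFin : S_Fin) (hComb : S_CombX) (hExt : S_Ext) (hI : S_Inter)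
    (hArc : S_Arc) (hCurve : S_Curve) [Fintype J] [Finite G]
    (h : Su pr o δ F m a y z ε G X D0) (hS : SNC pr F) {S : κ → Prop} {δb : Place ℂ K → ℚ}
    (hB : Bd pr δ F y S δb) (hE : ∃ e, IsExp pr δ m a S F e) {B : ℕ} (hB1 : 1 ≤ B)
    (hδ : ∀ c l, δ c l ≤ B) {E : ℕ} (hE0 : 0 < E) (hEB : E ≤ B) (hEa : ∀ j c, m j ∣ E * a j c)
    {T : ℕ} (hT : 0 < T)
    (hTd : ∀ t, 0 < t → t ≤ (Fintype.card κ).factorial * B ^ Fintype.card κ → t ∣ T) :
    BGoodU (n + 1) δb T := by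
  classical
  have hsg : ∀ l, 0 ≤ sg pr δ l := by
    obtain ⟨e, he⟩ := hE
    exact sg_nonneg he
  obtain ⟨Sv, hSv0, C0, hmain⟩ := main_ineqX hComb hExt hI gen hArc hCurve hFin h.cov.hF hS
    h.cov.hdiv hE hB1 hδ hE0 hEB hEa
  have hSv : ∀ e ∈ Sv, IsExp pr δ m a S F e := fun e he => (hSv0 e he).1
  have hw : ∀ x : Sv × κ, ∃ w : ℤ, (T : ℚ) * x.1.1 x.2 = w := by
    rintro ⟨e, c⟩
    obtain ⟨t, ht0, ht1, ht2⟩ := (hSv0 e.1 e.2).2
    obtain ⟨q, rfl⟩ := hTd t ht0 ht1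
    obtain ⟨w, hw⟩ := ht2 c
    refine ⟨q * w, ?_⟩
    push_cast
    rw [← hw]
    ring
  choose w' hw' using hw
  obtain ⟨w, hw⟩ : ∃ w : Sv → κ → ℤ, w = fun e c => w' (e, c) := ⟨_, rfl⟩
  have hwe : ∀ (e : Sv) c, (w e c : ℚ) = T * e.1 c := by
    intro e c
    rw [hw]
    exact (hw' (e, c)).symm
  have hTq : (0 : ℚ) < T := by exact_mod_cast hT
  have hdeg : ∀ (e : Sv) l, 0 ≤ (T : ℤ) * sg pr δ l - ∑ c, w e c * (δ c l : ℤ) := by
    intro e l
    have h1 := exp_sg (hSv e.1 e.2) l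
    have h2 := mul_le_mul_of_nonneg_left h1 hTq.le
    have h3 : (T : ℚ) * ∑ c, (δ c l : ℚ) * e.1 c = ((∑ c, w e c * (δ c l : ℤ) : ℤ) : ℚ) := by
      push_cast
      rw [Finset.mul_sum]
      refine Finset.sum_congr rfl fun c _ => ?_
      rw [hwe]
      ring
    rw [h3] at h2
    have h4 : (∑ c, w e c * (δ c l : ℤ)) ≤ (T : ℤ) * sg pr δ l := by exact_mod_cast h2
    linarith
  obtain ⟨dd, hdd⟩ : ∃ dd : Sv → ρ → ℕ, ∀ e, DegOk pr δ T (w e) (dd e) :=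
    ⟨fun e l => ((T : ℤ) * sg pr δ l - ∑ c, w e c * (δ c l : ℤ)).toNat, fun e l =>
      Int.toNat_of_nonneg (hdeg e l)⟩
  let I := Sv × {zz : ρ → σ // ∀ l, pr (zz l) = l}
  let eqv := Fintype.equivFin I
  -- the choice of the section
  have hch : ∀ P : Place ℂ K, ∃ (e : Sv) (zz : {zz : ρ → σ // ∀ l, pr (zz l) = l}) (α : ρ → ℤ)
      (v : κ → ℕ) (Y : ρ → ℚ), DatK P pr F δ y α v ∧ (∀ l, P.ord (y (zz.1 l)) = α l) ∧
      (∀ l, 0 ≤ Y l ∧ Y l ≤ C0 * ∑ c, (v c : ℚ)) ∧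
      ∀ (DQ : ρ → ℕ) (N j : ℕ) (T : MvPolynomial σ ℂ),
        T ≠ 0 → MH pr (fun l => N * (sg pr δ l).toNat + (j + 1) * DQ l) T →
        (∀ ρv, IsVec pr m a S F ρv → OrdGe pr F ρv N T) →
        (N : ℚ) * ∑ c, (v c : ℚ) * e.1 c ≤ rr pr F T v + (j + 1) * ∑ l, (DQ l : ℚ) * Y l := by
    intro P
    obtain ⟨α, v, hd⟩ := h.cov.exists_dat P
    obtain ⟨e, he, Y, hY, hm⟩ := hmain v (lam_dat h hd)
    choose zz hz1 hz2 using hd.ha2
    exact ⟨⟨e, he⟩, ⟨zz, hz1⟩, α, v, Y, hd, hz2, hY, hm⟩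
  choose eP zP αP vP YP hdP hzP hYP hmP using hch
  refine ⟨Fintype.card I, fun i => om ε pr F y T (w (eqv.symm i).1) (dd (eqv.symm i).1)
    (eqv.symm i).2.1, fun i => ?_, fun P => eqv (eP P, zP P), fun S' => ?_⟩
  · refine om_sec h hS hB (eqv.symm i).2.2 (fun c => ?_) (fun v hv => ?_) (hdd _)
    · have h1 := (hSv _ (eqv.symm i).1.2).nonneg c
      have h2 : (0 : ℚ) ≤ w (eqv.symm i).1 c := by
        rw [hwe]
        positivity
      exact_mod_cast h2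
    · have h1 := (hSv _ (eqv.symm i).1.2).one_le v hv
      have h2 := mul_le_mul_of_nonneg_left h1 hTq.le
      have h3 : (T : ℚ) * ∑ c, (v c : ℚ) * (eqv.symm i).1.1 c =
          ((∑ c, w (eqv.symm i).1 c * (v c : ℤ) : ℤ) : ℚ) := by
        push_cast
        rw [Finset.mul_sum]
        refine Finset.sum_congr rfl fun c _ => ?_
        rw [hwe]
        ring
      rw [h3, mul_one] at h2
      exact_mod_cast h2
  · obtain ⟨S2, c0, hC⟩ := eta_lowX tor locC ram gen den hom low hFin h hS hB hsg C0 S'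
    refine ⟨S2, T * c0, fun P hP N j η hN hη D => ?_⟩
    obtain ⟨W, hW⟩ : ∃ W : ℤ, W = ∑ s ∈ S2, |P.ord s| := ⟨_, rfl⟩
    have hC' := hC (hdP P) (hYP P) (hmP P) N j η hη
    rw [← hW] at hC' ⊢
    by_cases hηD : η D = 0
    · exact Or.inl hηD
    right
    have hsym : eqv.symm (eqv (eP P, zP P)) = (eP P, zP P) := eqv.symm_apply_apply _
    change om ε pr F y T (w (eqv.symm (eqv (eP P, zP P))).1) (dd (eqv.symm (eqv (eP P, zP P))).1)
        (eqv.symm (eqv (eP P, zP P))).2.1 D ≠ 0 ∧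
      (N : ℤ) * P.ord (om ε pr F y T (w (eqv.symm (eqv (eP P, zP P))).1)
        (dd (eqv.symm (eqv (eP P, zP P))).1)
        (eqv.symm (eqv (eP P, zP P))).2.1 D) ≤ T * P.ord (η D) + (T * c0 : ℕ) * W * (j + 1)
    rw [hsym]
    have h1 := sec_frame h hη.1 D
    have hη0 : η D0 ≠ 0 := by
      intro h2
      rw [h2, mul_zero] at h1
      exact hηD h1
    have hbw : bwK ε pr D y ≠ 0 := by
      intro h2
      rw [h2, zero_pow (by omega), zero_mul] at h1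
      exact hηD h1
    have hX := om_ne h (T := T) (w := w (eP P)) (dd := dd (eP P)) (zz := (zP P).1)
    obtain ⟨Xx, hXx⟩ : ∃ Xx : K, Xx = (∏ c, aeval y (F c) ^ (w (eP P) c - T : ℤ)) *
      ∏ l, y ((zP P).1 l) ^ dd (eP P) l := ⟨_, rfl⟩
    have hXord := om_ord h (hdd (eP P)) (zz := (zP P).1) (hdP P)
    have hom1 : om ε pr F y T (w (eP P)) (dd (eP P)) (zP P).1 D = bwK ε pr D y ^ T * Xx := by
      rw [hXx]
      rfl
    rw [← hXx] at hX hXord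
    rw [hom1]
    refine ⟨mul_ne_zero (pow_ne_zero _ hbw) hX, ?_⟩
    rw [h1, P.ord_mul (pow_ne_zero _ hbw) hX, P.ord_mul (pow_ne_zero _ hbw) hη0, P.ord_pow,
      P.ord_pow]
    have h2 := hC'.resolve_left hη0
    have h3 : (P.ord Xx : ℚ) =
        T * (∑ c, (vP P c : ℚ) * ((eP P).1 c - 1) - ((∑ i, αP P (pr i) : ℤ) : ℚ)) := by
      rw [hXord]
      have h4 : ∑ l, (dd (eP P) l : ℤ) * (P.ord (y ((zP P).1 l)) - αP P l) = 0 :=
        Finset.sum_eq_zero fun l _ => by rw [hzP, sub_self, mul_zero]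
      have h5 : ∑ c, ((w (eP P) c : ℚ) - T) * (vP P c : ℚ) =
          T * ∑ c, (vP P c : ℚ) * ((eP P).1 c - 1) := by
        rw [Finset.mul_sum]
        refine Finset.sum_congr rfl fun c _ => ?_
        rw [hwe]
        ring
      rw [h4, add_zero, mul_sub, ← h5]
      push_cast
      ring
    have h4 := mul_le_mul_of_nonneg_left h2 hTq.le
    have h7 : (((N : ℤ) * P.ord Xx : ℤ) : ℚ) ≤
        (((T : ℤ) * P.ord (η D0) + (T * c0 : ℕ) * W * (j + 1) : ℤ) : ℚ) := by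
      push_cast
      rw [h3]
      linarith
    have h8 : (N : ℤ) * P.ord Xx ≤ (T : ℤ) * P.ord (η D0) + (T * c0 : ℕ) * W * (j + 1) := by
      exact_mod_cast h7
    linarith

end

end Pool.Agent.Q41.AB
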