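import Pool.Agent.Q41.AB.Gx

/-!
Consequences of good minimal models: abundance with an explicit multiple, Kodaira dimension and
numerical dimension.
-/

set_option autoImplicit false
set_option linter.overlappingInstances false
set_option linter.unusedSectionVars false
set_option maxHeartbeats 1000000

open FF MvPolynomial Pool.Agent.W603.LV Pool.Agent.W619.PQ
open Pool.Agent.W619.TW Pool.Agent.W602.GT

namespace Pool.Agent.Q41.AB

open Pool.Agent.Q57.TP (SecD BSec BPsef BKod BNum bsec_sec)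
open Pool.Agent.Q57.GM (BGood BNef BSemi semi_of_good)

section

variable {N : ℕ} {K : Type} [Field K] [Algebra ℂ K] {δ : Place ℂ K → ℚ} {T : ℕ}

/-- the asymptotic orders are computed by finitely many sections of the multiple `T` -/
def BGoodT (N : ℕ) (δ : Place ℂ K → ℚ) (T : ℕ) : Prop :=
  ∃ (r : ℕ) (ω : Fin r → (Fin N → Derivation ℂ K K) → K), (∀ i, BSec N δ {1} T 1 (ω i)) ∧
    ∀ P : Place ℂ K, Divisorial N P → ∃ i, ∀ S : Finset K,
      ∃ C : ℤ, ∀ (m j : ℕ) (η : (Fin N → Derivation ℂ K K) → K), 1 ≤ m → BSec N δ S m j η →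
        ∀ D, η D = 0 ∨ (ω i D ≠ 0 ∧
          (m : ℤ) * P.ord (ω i D) ≤ T * P.ord (η D) + C * (j + 1))

theorem goodT_of_goodU (h : BGoodU N δ T) : BGoodT N δ T := by
  obtain ⟨r, ω, h1, ι, h2⟩ := h
  refine ⟨r, ω, h1, fun P hP => ⟨ι P, fun S => ?_⟩⟩
  obtain ⟨S2, c0, h3⟩ := h2 S
  exact ⟨c0 * ∑ s ∈ S2, |P.ord s|, fun m j η hm hη D => h3 P hP m j η hm hη D⟩

theorem good_of_goodT (hT : 0 < T) (h : BGoodT N δ T) : BGood N δ := by
  obtain ⟨r, ω, h1, h2⟩ := h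
  exact ⟨T, r, ω, hT, h1, h2⟩

/-- base point free -/
def BFree (N : ℕ) (δ : Place ℂ K → ℚ) (T : ℕ) : Prop :=
  ∀ P : Place ℂ K, Divisorial N P → ∃ η, BSec N δ {1} T 1 η ∧
    ∃ D, (∀ c, DerReg P (D c)) ∧ η D ≠ 0 ∧ (P.ord (η D) : ℚ) ≤ - (T * δ P)

/-- **Abundance with an explicit multiple.** -/
theorem free_of_good (hT : 0 < T) (hg : BGoodT N δ T) (hn : BNef N δ) : BFree N δ T := by
  classical
  obtain ⟨r, ω, hω, hgood⟩ := hg
  obtain ⟨S, ⟨s0, hs0, hs00⟩, hnef⟩ := hn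
  intro P hP
  obtain ⟨i, hi⟩ := hgood P hP
  obtain ⟨C, hC⟩ := hi S
  refine ⟨ω i, hω i, ?_⟩
  obtain ⟨B, hB⟩ : ∃ B : ℚ, B = T * |(P.ord s0 : ℚ)| + 2 * |(C : ℚ)| := ⟨_, rfl⟩
  have hTq : (0 : ℚ) < T := by exact_mod_cast hT
  have hB0 : 0 ≤ B := by
    rw [hB]
    positivity
  -- vector fields for all `M`
  have hM : ∀ M : ℕ, 1 ≤ M → ∃ D, (∀ c, DerReg P (D c)) ∧ ω i D ≠ 0 ∧
      M * ((P.ord (ω i D) : ℚ) + T * δ P) ≤ B := by
    intro M hM
    obtain ⟨j, hj, hjP⟩ := hnef M hM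
    obtain ⟨η, hη, D, hD, hηD, hle⟩ := hjP P hP
    have h1 := (hC (j * M) j η (Nat.mul_pos hj hM) hη D).resolve_left hηD
    refine ⟨D, hD, h1.1, ?_⟩
    have h2 := hle s0 hs0 hs00
    have h3 : (((j * M : ℕ) : ℤ) * P.ord (ω i D) : ℚ) ≤
        ((T * P.ord (η D) + C * (j + 1) : ℤ) : ℚ) := by
      exact_mod_cast h1.2
    push_cast at h3
    have hjq : (1 : ℚ) ≤ j := by exact_mod_cast hj
    have h4 : (C : ℚ) * (j + 1) ≤ j * (2 * |(C : ℚ)|) := by
      have h5 : (C : ℚ) * (j + 1) ≤ |(C : ℚ)| * (j + 1) :=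
        mul_le_mul_of_nonneg_right (le_abs_self _) (by positivity)
      have h6 : |(C : ℚ)| * (j + 1) ≤ |(C : ℚ)| * (2 * j) :=
        mul_le_mul_of_nonneg_left (by linarith) (abs_nonneg _)
      linarith
    have h5 := mul_le_mul_of_nonneg_left h2 hTq.le
    have h6 : (T : ℚ) * (j * P.ord s0) ≤ j * (T * |(P.ord s0 : ℚ)|) := by
      have h7 : (P.ord s0 : ℚ) ≤ |(P.ord s0 : ℚ)| := le_abs_self _
      have h8 : (0 : ℚ) ≤ T * j := by positivity
      have h9 := mul_le_mul_of_nonneg_left h7 h8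
      linarith
    have h7 : (j : ℚ) * (M * ((P.ord (ω i D) : ℚ) + T * δ P)) ≤ j * B := by
      rw [hB]
      linarith
    exact le_of_mul_le_mul_left h7 (by linarith)
  -- the minimal order
  have hlow : ∀ D, (∀ c, DerReg P (D c)) → ω i D ≠ 0 → - (T * δ P) ≤ (P.ord (ω i D) : ℚ) := by
    intro D hD hne
    obtain ⟨s, hs, -, hle⟩ := ((hω i).2 P hP D hD).resolve_left hne
    rw [Finset.mem_singleton] at hs
    subst hs
    rw [P.ord_one] at hle
    push_cast at hle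
    linarith
  obtain ⟨e, ⟨D, hD, hne, he⟩, hmin⟩ : ∃ e : ℤ, (∃ D, (∀ c, DerReg P (D c)) ∧ ω i D ≠ 0 ∧
      P.ord (ω i D) = e) ∧ ∀ e', (∃ D, (∀ c, DerReg P (D c)) ∧ ω i D ≠ 0 ∧
      P.ord (ω i D) = e') → e ≤ e' := by
    refine Int.exists_least_of_bdd ⟨⌊- (T * δ P)⌋, ?_⟩ ?_
    · rintro z ⟨D, hD, hne, rfl⟩
      have h1 := hlow D hD hne
      have h2 := Int.floor_le (- (T * δ P))
      have h3 : ((⌊- (T * δ P)⌋ : ℤ) : ℚ) ≤ (P.ord (ω i D) : ℚ) := h2.trans h1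
      exact_mod_cast h3
    · obtain ⟨D, hD, hne, -⟩ := hM 1 le_rfl
      exact ⟨_, D, hD, hne, rfl⟩
  refine ⟨D, hD, hne, ?_⟩
  rw [he]
  by_contra hcon
  push Not at hcon
  have h1 : 0 < (e : ℚ) + T * δ P := by linarith
  obtain ⟨M, hM1⟩ := exists_nat_gt (B / ((e : ℚ) + T * δ P))
  rw [div_lt_iff₀ h1] at hM1
  have hM0 : 1 ≤ M := by
    rcases Nat.eq_zero_or_pos M with h | h
    · rw [h, Nat.cast_zero, zero_mul] at hM1
      linarith
    · exact h
  obtain ⟨D', hD', hne', hle⟩ := hM M hM0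
  have h2 := hmin _ ⟨D', hD', hne', rfl⟩
  have h3 : (e : ℚ) ≤ P.ord (ω i D') := by exact_mod_cast h2
  have hMq : (0 : ℚ) < M := by exact_mod_cast hM0
  have h4 : (M : ℚ) * ((e : ℚ) + T * δ P) ≤ M * ((P.ord (ω i D') : ℚ) + T * δ P) :=
    mul_le_mul_of_nonneg_left (by linarith) hMq.le
  linarith

/-- nef implies pseudo-effective -/
theorem psef_of_nef (hP : ∃ P : Place ℂ K, Divisorial N P) (hn : BNef N δ) : BPsef N δ := by
  classical
  obtain ⟨P, hP⟩ := hP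
  obtain ⟨S, ⟨s0, hs0, hs00⟩, hnef⟩ := hn
  refine ⟨S, fun M => ?_⟩
  by_cases hM : M = 0
  · refine ⟨1, le_rfl, fun _ => s0, ?_, ?_, fun P _ D _ => Or.inr ⟨s0, hs0, hs00, ?_⟩⟩
    · intro h0
      exact hs00 (congrFun h0 fun _ => 0)
    · intro A D
      rw [hM, mul_zero, pow_zero, one_mul]
    · rw [hM]
      simp
  · obtain ⟨j, hj, hjP⟩ := hnef M (by omega)
    obtain ⟨η, hη, D, -, hηD, -⟩ := hjP P hP
    exact ⟨j, hj, η, fun h0 => hηD (congrFun h0 D), hη⟩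

end

section frame

variable {n : ℕ} {K : Type} [Field K] [Algebra ℂ K]

/-- the determinant of the vector fields -/
noncomputable def dt (X : Fin n → K) (D : Fin n → Derivation ℂ K K) : K :=
  (Matrix.of fun a b => D a (X b)).det

theorem dt_lin {X : Fin n → K} (A : Matrix (Fin n) (Fin n) K) (D : Fin n → Derivation ℂ K K) :
    dt X (fun i => ∑ j, A i j • D j) = A.det * dt X D := by
  unfold dt
  rw [← Matrix.det_mul]
  congr 1
  ext i b
  rw [Matrix.of_apply, Pool.Agent.TH122.AB.sum_der, Matrix.mul_apply]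
  rfl

/-- pluricanonical forms are determined by one value -/
theorem pluri_frame {X : Fin n → K} (hX : IsTranscendenceBasis ℂ X)
    {D0 : Fin n → Derivation ℂ K K} (hD0 : ∀ i j, D0 i (X j) = if i = j then 1 else 0) {m : ℕ}
    {ω : (Fin n → Derivation ℂ K K) → K} (hω : IsPluri m ω) (D : Fin n → Derivation ℂ K K) :
    ω D = dt X D ^ m * ω D0 := by
  classical
  have hA : D = fun a => ∑ b, (Matrix.of fun a b => D a (X b)) a b • D0 b := by
    funext a
    apply Pool.Agent.TH122.AB.der_ext' hX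
    intro i
    rw [Pool.Agent.TH122.AB.sum_der, Finset.sum_eq_single i]
    · rw [hD0, if_pos rfl, mul_one]
      rfl
    · intro b _ hb
      rw [hD0, if_neg hb, mul_zero]
    · intro hi
      exact absurd (Finset.mem_univ _) hi
  have h1 := hω (Matrix.of fun a b => D a (X b)) D0
  rw [← hA] at h1
  exact h1

theorem dt_D0 {X : Fin n → K} {D0 : Fin n → Derivation ℂ K K}
    (hD0 : ∀ i j, D0 i (X j) = if i = j then 1 else 0) : dt X D0 = 1 := by
  classical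
  unfold dt
  have h1 : (Matrix.of fun a b => D0 a (X b)) = (1 : Matrix (Fin n) (Fin n) K) := by
    ext i j
    rw [Matrix.of_apply, hD0, Matrix.one_apply]
  rw [h1, Matrix.det_one]

end frame

end Pool.Agent.Q41.AB
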