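import Pool.Agent.Q41.AB.Loc

/-!
The order of the leading coefficient of an arc over a curve: the point at infinity; existence of
arcs over curves.
-/

set_option autoImplicit false
set_option linter.unusedSectionVars false

open MvPolynomial

namespace Pool.Agent.Q41.AB

open Pool.Agent.Q41.RC (MH IsPt SNC exists_selK colK CovK map_colK)
open Pool.Agent.W603.LV

section inf

variable {k : Type} [Field k]

/-- the quotients of polynomials by powers of `X`, at infinity -/
theorem inf_quot (p : Polynomial k) (n : ℕ) (hp : p.natDegree ≤ n) :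
    Ge (inf : FF.Place k (RatFunc k)) 1 (algebraMap (Polynomial k) (RatFunc k) p *
      (RatFunc.X⁻¹) ^ n - RatFunc.C (p.coeff n)) := by
  have hX : (RatFunc.X : RatFunc k) ≠ 0 := RatFunc.X_ne_zero
  obtain ⟨q, hq⟩ : ∃ q : Polynomial k, q = p - Polynomial.C (p.coeff n) * Polynomial.X ^ n := ⟨_, rfl⟩
  have h1 : algebraMap (Polynomial k) (RatFunc k) p * (RatFunc.X⁻¹) ^ n - RatFunc.C (p.coeff n) =
      algebraMap (Polynomial k) (RatFunc k) q * (RatFunc.X⁻¹) ^ n := by
    rw [hq, map_sub, map_mul, map_pow, RatFunc.algebraMap_X, RatFunc.algebraMap_C, sub_mul,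
      mul_assoc, ← mul_pow, mul_inv_cancel₀ hX, one_pow, mul_one]
  rw [h1]
  by_cases hq0 : q = 0
  · left
    rw [hq0, map_zero, zero_mul]
  have hqd : q.natDegree < n := by
    have h2 : q.natDegree ≤ n := by
      rw [hq]
      refine (Polynomial.natDegree_sub_le _ _).trans (max_le hp ?_)
      exact Polynomial.natDegree_C_mul_X_pow_le _ _
    have h3 : q.coeff n = 0 := by
      rw [hq, Polynomial.coeff_sub, Polynomial.coeff_C_mul_X_pow, if_pos rfl, sub_self]
    refine lt_of_le_of_ne h2 fun h4 => hq0 ?_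
    rw [← Polynomial.leadingCoeff_eq_zero, Polynomial.leadingCoeff, h4]
    exact h3
  right
  have h2 : algebraMap (Polynomial k) (RatFunc k) q ≠ 0 := by
    rw [Ne, FaithfulSMul.algebraMap_eq_zero_iff]
    exact hq0
  rw [FF.Place.ord_mul _ h2 (pow_ne_zero _ (inv_ne_zero hX)), FF.Place.ord_pow, FF.Place.ord_inv,
    inf_ord, inf_ord, RatFunc.intDegree_polynomial, RatFunc.intDegree_X]
  have h3 : (q.natDegree : ℤ) < n := by exact_mod_cast hqd
  linarith

variable {K : Type} [Field K] [Algebra k K] (P : FF.Place k K)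

/-- `f` is regular at `P`, with the value `a` -/
def Val (f : K) (a : k) : Prop := Ge P 1 (f - algebraMap k K a)

variable {P}

theorem Val.reg {f : K} {a : k} (h : Val P f a) : Ge P 0 f := by
  have h1 : f = (f - algebraMap k K a) + algebraMap k K a := by ring
  rw [h1]
  exact Ge.add (Ge.mono (by norm_num) h) (Ge.const (P := P) a)

theorem Val.const (a : k) : Val P (algebraMap k K a) a := by
  unfold Val
  rw [sub_self]
  exact Or.inl rfl

theorem Val.add {f g : K} {a b : k} (hf : Val P f a) (hg : Val P g b) : Val P (f + g) (a + b) := by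
  unfold Val
  have h1 : f + g - algebraMap k K (a + b) = (f - algebraMap k K a) + (g - algebraMap k K b) := by
    rw [map_add]
    ring
  rw [h1]
  exact Ge.add hf hg

theorem Val.mul {f g : K} {a b : k} (hf : Val P f a) (hg : Val P g b) : Val P (f * g) (a * b) := by
  unfold Val
  have h1 : f * g - algebraMap k K (a * b) =
      (f - algebraMap k K a) * g + algebraMap k K a * (g - algebraMap k K b) := by
    rw [map_mul]
    ring
  rw [h1]
  have h2 := Ge.mul hf hg.reg
  have h3 := Ge.mul (Ge.const (P := P) a) hg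
  rw [add_zero] at h2
  rw [zero_add] at h3
  exact Ge.add h2 h3

theorem Val.pow {f : K} {a : k} (hf : Val P f a) (n : ℕ) : Val P (f ^ n) (a ^ n) := by
  induction n with
  | zero =>
    have h1 := Val.const (P := P) (1 : k)
    rw [map_one] at h1
    rw [pow_zero, pow_zero]
    exact h1
  | succ n ih =>
    rw [pow_succ, pow_succ]
    exact ih.mul hf

theorem Val.sum {ι : Type} (s : Finset ι) {f : ι → K} {a : ι → k} (h : ∀ i ∈ s, Val P (f i) (a i)) :
    Val P (∑ i ∈ s, f i) (∑ i ∈ s, a i) := by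
  classical
  induction s using Finset.induction_on with
  | empty =>
    have h1 := Val.const (P := P) (0 : k)
    rw [map_zero] at h1
    rw [Finset.sum_empty, Finset.sum_empty]
    exact h1
  | insert i s hi ih =>
    rw [Finset.sum_insert hi, Finset.sum_insert hi]
    exact (h i (Finset.mem_insert_self _ _)).add (ih fun j hj => h j (Finset.mem_insert_of_mem hj))

theorem Val.prod {ι : Type} (s : Finset ι) {f : ι → K} {a : ι → k} (h : ∀ i ∈ s, Val P (f i) (a i)) :
    Val P (∏ i ∈ s, f i) (∏ i ∈ s, a i) := by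
  classical
  induction s using Finset.induction_on with
  | empty =>
    have h1 := Val.const (P := P) (1 : k)
    rw [map_one] at h1
    rw [Finset.prod_empty, Finset.prod_empty]
    exact h1
  | insert i s hi ih =>
    rw [Finset.prod_insert hi, Finset.prod_insert hi]
    exact (h i (Finset.mem_insert_self _ _)).mul (ih fun j hj => h j (Finset.mem_insert_of_mem hj))

theorem Val.aeval {σ : Type} {x : σ → K} {q : σ → k} (h : ∀ i, Val P (x i) (q i))
    (G : MvPolynomial σ k) : Val P (MvPolynomial.aeval x G) (eval q G) := by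
  induction G using MvPolynomial.induction_on with
  | C a =>
    rw [aeval_C, eval_C]
    exact Val.const a
  | add p q hp hq =>
    rw [map_add, map_add]
    exact hp.add hq
  | mul_X p i hp =>
    rw [map_mul, map_mul, aeval_X, eval_X]
    exact hp.mul (h i)

theorem Val.ord {f : K} {a : k} (h : Val P f a) (ha : a ≠ 0) : f ≠ 0 ∧ P.ord f = 0 := by
  have ha' : algebraMap k K a ≠ 0 := by
    rw [Ne, map_eq_zero]
    exact ha
  have h1 : P.ord (algebraMap k K a) = 0 := P.ord_const ha
  by_cases h2 : f - algebraMap k K a = 0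
  · rw [sub_eq_zero.1 h2]
    exact ⟨ha', h1⟩
  have h3 := h.resolve_left h2
  have h4 := P.ord_add_eq ha' h2 (by rw [h1]; linarith)
  rw [add_sub_cancel] at h4
  exact ⟨h4.1, by rw [h4.2, h1]⟩

end inf

section main

variable {k ρ σ κ : Type} [Field k] [Fintype ρ] [Fintype σ] [Fintype κ]

/-- **The order at infinity.** -/
theorem ord_inf {pr : σ → ρ} {δ : κ → ρ → ℕ} {F : κ → MvPolynomial σ k}
    (hF : ∀ c, MH pr (δ c) (F c)) {D : ρ → ℕ} {G : MvPolynomial σ k} (hG : MH pr D G)
    {Q : σ → Polynomial k} {μ : ρ → ℕ} {q0 : σ → k} (hQ : ∀ i, (Q i).natDegree ≤ μ (pr i))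
    (hQ0 : ∀ i, (Q i).coeff (μ (pr i)) = q0 i) {v : κ → ℕ} {r : ℕ} {Γ : κ → Polynomial k}
    {γ : κ → k} (hΓ : ∀ c, (Γ c).natDegree ≤ v c + ∑ l, μ l * δ c l)
    (hΓ0 : ∀ c, (Γ c).coeff (v c + ∑ l, μ l * δ c l) = γ c)
    {g : MvPolynomial σ k} (hg : eval q0 g ≠ 0) {T : Finset (κ → ℕ)}
    {P : (κ → ℕ) → MvPolynomial σ k} (hrep : g * G = ∑ a ∈ T, P a * ∏ c, F c ^ a c)
    (hT : ∀ a ∈ T, r ≤ wt v a) (hlf : lf v r T P q0 γ ≠ 0) {x : σ → Polynomial (RatFunc k)}
    (hx0 : ∀ i, (x i).coeff 0 = algebraMap (Polynomial k) (RatFunc k) (Q i))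
    (hx : IsArc F v x fun c => algebraMap (Polynomial k) (RatFunc k) (Γ c)) :
    (aeval x G).coeff r ≠ 0 ∧
      - (inf : FF.Place k (RatFunc k)).ord ((aeval x G).coeff r) = (∑ l, (D l : ℤ) * μ l) + r := by
  classical
  have hX : (RatFunc.X : RatFunc k) ≠ 0 := RatFunc.X_ne_zero
  have hXo : (inf : FF.Place k (RatFunc k)).ord RatFunc.X = -1 := by
    rw [inf_ord, RatFunc.intDegree_X]
  obtain ⟨f, hf⟩ : ∃ f : ρ → RatFunc k, f = fun l => (RatFunc.X⁻¹) ^ μ l := ⟨_, rfl⟩
  have hf0 : ∀ l, f l ≠ 0 := by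
    intro l
    rw [hf]
    exact pow_ne_zero _ (inv_ne_zero hX)
  have hfo : ∀ l, (inf : FF.Place k (RatFunc k)).ord (f l) = μ l := by
    intro l
    rw [hf]
    dsimp only
    rw [FF.Place.ord_pow, FF.Place.ord_inv, hXo]
    ring
  have hx' := scale_arc hF hx f
  -- the values of the coordinates
  have hval : ∀ i, Val (inf : FF.Place k (RatFunc k))
      ((Polynomial.C (f (pr i)) * x i).coeff 0) (q0 i) := by
    intro i
    unfold Val
    rw [Polynomial.coeff_C_mul, hx0, ← hQ0 i, mul_comm, hf]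
    exact inf_quot (Q i) (μ (pr i)) (hQ i)
  -- the values of the hypersurfaces
  obtain ⟨Γ', hΓ'⟩ : ∃ Γ' : κ → RatFunc k, Γ' = fun c =>
      algebraMap (Polynomial k) (RatFunc k) (Γ c) * (RatFunc.X⁻¹) ^ (v c + ∑ l, μ l * δ c l) :=
    ⟨_, rfl⟩
  have hΓval : ∀ c, Val (inf : FF.Place k (RatFunc k)) (Γ' c) (γ c) := by
    intro c
    unfold Val
    rw [hΓ', ← hΓ0 c]
    exact inf_quot (Γ c) _ (hΓ c)
  have hΓeq : ∀ c, (∏ l, f l ^ δ c l) * algebraMap (Polynomial k) (RatFunc k) (Γ c) =
      RatFunc.X ^ v c * Γ' c := by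
    intro c
    have h1 : (∏ l, f l ^ δ c l) = (RatFunc.X⁻¹) ^ (∑ l, μ l * δ c l) := by
      rw [← Finset.prod_pow_eq_pow_sum, hf]
      exact Finset.prod_congr rfl fun l _ => (pow_mul _ _ _).symm
    rw [h1, hΓ']
    dsimp only
    rw [pow_add]
    have h2 : (RatFunc.X : RatFunc k) ^ v c * (RatFunc.X⁻¹) ^ v c = 1 := by
      rw [← mul_pow, mul_inv_cancel₀ hX, one_pow]
    linear_combination (-(RatFunc.X⁻¹ : RatFunc k) ^ (∑ l, μ l * δ c l) *
      algebraMap (Polynomial k) (RatFunc k) (Γ c)) * h2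
  have hgv := (Val.aeval hval g).ord hg
  obtain ⟨-, h1⟩ := lead hrep hT hx' hgv.1
  rw [scale_coeff hG] at h1
  have hlfeq : lf v r T P (fun i => (Polynomial.C (f (pr i)) * x i).coeff 0)
      (fun c => (∏ l, f l ^ δ c l) * algebraMap (Polynomial k) (RatFunc k) (Γ c)) =
      RatFunc.X ^ r * lf v r T P (fun i => (Polynomial.C (f (pr i)) * x i).coeff 0) Γ' := by
    unfold lf
    rw [Finset.mul_sum]
    refine Finset.sum_congr rfl fun a _ => ?_
    split_ifs with hwt
    · have h2 : ∏ c, ((∏ l, f l ^ δ c l) * algebraMap (Polynomial k) (RatFunc k) (Γ c)) ^ a c =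
          RatFunc.X ^ r * ∏ c, Γ' c ^ a c := by
        rw [← hwt, wt, ← Finset.prod_pow_eq_pow_sum, ← Finset.prod_mul_distrib]
        refine Finset.prod_congr rfl fun c _ => ?_
        rw [hΓeq, mul_pow, ← pow_mul, mul_comm (v c)]
      rw [h2]
      ring
    · rw [mul_zero]
  have hlfv : Val (inf : FF.Place k (RatFunc k))
      (lf v r T P (fun i => (Polynomial.C (f (pr i)) * x i).coeff 0) Γ') (lf v r T P q0 γ) := by
    unfold lf
    refine Val.sum _ fun a _ => ?_
    split_ifs with hwt
    · refine (Val.aeval hval (P a)).mul (Val.prod _ fun c _ => (hΓval c).pow _)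
    · have h2 := Val.const (P := (inf : FF.Place k (RatFunc k))) (0 : k)
      rw [map_zero] at h2
      exact h2
  obtain ⟨hl0, hlo⟩ := hlfv.ord hlf
  rw [hlfeq] at h1
  have hR0 : (RatFunc.X : RatFunc k) ^ r *
      lf v r T P (fun i => (Polynomial.C (f (pr i)) * x i).coeff 0) Γ' ≠ 0 :=
    mul_ne_zero (pow_ne_zero _ hX) hl0
  have hprod0 : (∏ l, f l ^ D l) ≠ 0 := Finset.prod_ne_zero_iff.2 fun l _ => pow_ne_zero _ (hf0 l)
  have hH : (aeval x G).coeff r ≠ 0 := by
    intro h0
    rw [h0, mul_zero, zero_mul] at h1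
    exact hR0 h1.symm
  refine ⟨hH, ?_⟩
  have h2 := congrArg (inf : FF.Place k (RatFunc k)).ord h1
  rw [FF.Place.ord_mul _ (mul_ne_zero hprod0 hH) hgv.1, FF.Place.ord_mul _ hprod0 hH, hgv.2,
    FF.Place.ord_mul _ (pow_ne_zero _ hX) hl0, hlo, FF.Place.ord_pow, hXo,
    ord_prod_pow _ Finset.univ f D fun l _ => hf0 l] at h2
  have h3 : ∑ l, (D l : ℤ) * (inf : FF.Place k (RatFunc k)).ord (f l) = ∑ l, (D l : ℤ) * μ l :=
    Finset.sum_congr rfl fun l _ => by rw [hfo]
  rw [h3] at h2
  linarith

/-- independent gradients at a point of a curve -/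
theorem indep_of_pt [DecidableEq σ] [DecidableEq κ] {F : κ → MvPolynomial σ k}
    {Q : σ → Polynomial k} {t : k} (J : Finset κ)
    (h : LinearIndependent k fun (c : J) (i : σ) => eval (fun i => (Q i).eval t) (pderiv i (F c.1))) :
    LinearIndependent (RatFunc k) fun (c : J) (i : σ) =>
      aeval (fun i => algebraMap (Polynomial k) (RatFunc k) (Q i)) (pderiv i (F c.1)) := by
  classical
  obtain ⟨c, hc, hdet⟩ := exists_selK (k := k) J
    (fun a i => eval (fun i => (Q i).eval t) (pderiv i (F a))) h J (Finset.Subset.refl J)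
  -- the determinant over the polynomials
  have h1 : (colK (fun a i => aeval Q (pderiv i (F a))) c).det ≠ 0 := by
    intro h0
    apply hdet
    have h2 := map_colK (Polynomial.evalRingHom t) (fun a i => aeval Q (pderiv i (F a))) c
    rw [h0, map_zero] at h2
    have h3 : (fun (a : κ) (i : σ) => Polynomial.evalRingHom t (aeval Q (pderiv i (F a)))) =
        fun a i => eval (fun i => (Q i).eval t) (pderiv i (F a)) := by
      funext a i
      rw [Polynomial.coe_evalRingHom, eval_alg]
    rw [h3] at h2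
    exact h2.symm
  have h2 : (colK (fun a i => aeval (fun i => algebraMap (Polynomial k) (RatFunc k) (Q i))
      (pderiv i (F a))) c).det ≠ 0 := by
    have h3 := map_colK (algebraMap (Polynomial k) (RatFunc k)) (fun a i => aeval Q (pderiv i (F a))) c
    have h4 : (fun (a : κ) (i : σ) => algebraMap (Polynomial k) (RatFunc k)
        (aeval Q (pderiv i (F a)))) =
        fun a i => aeval (fun i => algebraMap (Polynomial k) (RatFunc k) (Q i)) (pderiv i (F a)) := by
      funext a i
      rw [map_alg]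
    rw [h4] at h3
    rw [← h3, Ne, FaithfulSMul.algebraMap_eq_zero_iff]
    exact h1
  have h3 := (Matrix.linearIndependent_rows_of_det_ne_zero (A := (colK (fun a i => aeval (fun i =>
    algebraMap (Polynomial k) (RatFunc k) (Q i)) (pderiv i (F a))) c).transpose)
      (by rw [Matrix.det_transpose]; exact h2))
  choose b hb using fun a : J => hc.1 a.1 a.2
  have hbinj : Function.Injective b := by
    intro a a' haa
    apply Subtype.ext
    have h4 := hb a
    have h5 := hb a'
    rw [haa] at h4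
    exact Option.some.inj (h4.symm.trans h5)
  have h4 := h3.comp b hbinj
  have h5 : (fun (a : J) (i : σ) =>
      aeval (fun i => algebraMap (Polynomial k) (RatFunc k) (Q i)) (pderiv i (F a.1))) =
      (colK (fun a i => aeval (fun i => algebraMap (Polynomial k) (RatFunc k) (Q i))
        (pderiv i (F a))) c).transpose.row ∘ b := by
    funext a i
    change _ = colK (fun a i => aeval (fun i => algebraMap (Polynomial k) (RatFunc k) (Q i))
        (pderiv i (F a))) c i (b a)
    unfold colK
    rw [Matrix.of_apply, hb a]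
    rfl
  rw [h5]
  exact h4

end main

end Pool.Agent.Q41.AB
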