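import Pool.Agent.Q41.AB.Stm

/-!
Leading coefficients along arcs.
-/

set_option autoImplicit false
set_option linter.unusedSectionVars false

open MvPolynomial

namespace Pool.Agent.Q41.AB

open Pool.Agent.Q41.RC (MH IsPt SNC)

section

variable {k L σ κ : Type} [Field k] [Field L] [Algebra k L] [Fintype σ] [Fintype κ]

/-- the constant terms -/
theorem coeff_zero_aeval (x : σ → Polynomial L) (P : MvPolynomial σ k) :
    (aeval x P).coeff 0 = aeval (fun i => (x i).coeff 0) P := by
  rw [Polynomial.coeff_zero_eq_eval_zero]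
  have h1 : (((Polynomial.aeval (0 : L) : Polynomial L →ₐ[L] L)).restrictScalars k).comp
      (MvPolynomial.aeval x : MvPolynomial σ k →ₐ[k] Polynomial L) =
      MvPolynomial.aeval (fun i => (x i).coeff 0) := by
    apply MvPolynomial.algHom_ext
    intro i
    rw [AlgHom.comp_apply, MvPolynomial.aeval_X, MvPolynomial.aeval_X]
    change Polynomial.aeval 0 (x i) = _
    rw [Polynomial.coe_aeval_eq_eval, Polynomial.coeff_zero_eq_eval_zero]
  have h2 := congrArg (fun f => f P) (congrArg DFunLike.coe h1)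
  rw [← h2]
  change _ = Polynomial.aeval 0 (MvPolynomial.aeval x P)
  rw [Polynomial.coe_aeval_eq_eval]

/-- an arc of contact `v`, with the leading coefficients `Γ` -/
def IsArc (F : κ → MvPolynomial σ k) (v : κ → ℕ) (x : σ → Polynomial L) (Γ : κ → L) : Prop :=
  ∀ c, (Polynomial.X : Polynomial L) ^ (v c + 1) ∣
    aeval x (F c) - Polynomial.C (Γ c) * Polynomial.X ^ v c

open scoped Classical in
/-- the value of the leading form -/
noncomputable def lf (v : κ → ℕ) (r : ℕ) (T : Finset (κ → ℕ)) (P : (κ → ℕ) → MvPolynomial σ k)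
    (q : σ → L) (Γ : κ → L) : L :=
  ∑ a ∈ T, if wt v a = r then aeval q (P a) * ∏ c, Γ c ^ a c else 0

/-- **The leading coefficient.** -/
theorem lead {F : κ → MvPolynomial σ k} {v : κ → ℕ} {r : ℕ} {G g : MvPolynomial σ k}
    {T : Finset (κ → ℕ)} {P : (κ → ℕ) → MvPolynomial σ k}
    (hG : g * G = ∑ a ∈ T, P a * ∏ c, F c ^ a c) (hT : ∀ a ∈ T, r ≤ wt v a)
    {x : σ → Polynomial L} {Γ : κ → L} (hx : IsArc F v x Γ)
    (hg : aeval (fun i => (x i).coeff 0) g ≠ 0) :
    (∃ W, aeval x G = Polynomial.X ^ r * W) ∧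
      (aeval x G).coeff r * aeval (fun i => (x i).coeff 0) g =
        lf v r T P (fun i => (x i).coeff 0) Γ := by
  classical
  choose E hE using hx
  have hF : ∀ c, aeval x (F c) = Polynomial.X ^ v c * (Polynomial.C (Γ c) + Polynomial.X * E c) := by
    intro c
    have h1 := hE c
    rw [pow_succ] at h1
    linear_combination h1
  have hprod : ∀ a : κ → ℕ, aeval x (∏ c, F c ^ a c) =
      Polynomial.X ^ wt v a * ∏ c, (Polynomial.C (Γ c) + Polynomial.X * E c) ^ a c := by
    intro a
    rw [map_prod, wt, ← Finset.prod_pow_eq_pow_sum, ← Finset.prod_mul_distrib]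
    refine Finset.prod_congr rfl fun c _ => ?_
    rw [map_pow, hF, mul_pow, ← pow_mul, mul_comm (v c)]
  obtain ⟨S, hS⟩ : ∃ S : Polynomial L, S = ∑ a ∈ T, aeval x (P a) *
      (Polynomial.X ^ (wt v a - r) * ∏ c, (Polynomial.C (Γ c) + Polynomial.X * E c) ^ a c) :=
    ⟨_, rfl⟩
  have hgG : aeval x g * aeval x G = Polynomial.X ^ r * S := by
    rw [← map_mul, hG, map_sum, hS, Finset.mul_sum]
    refine Finset.sum_congr rfl fun a ha => ?_
    rw [map_mul, hprod]
    have h1 : (Polynomial.X : Polynomial L) ^ wt v a =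
        Polynomial.X ^ r * Polynomial.X ^ (wt v a - r) := by
      rw [← pow_add, Nat.add_sub_cancel' (hT a ha)]
    rw [h1]
    ring
  have hS0 : S.coeff 0 = lf v r T P (fun i => (x i).coeff 0) Γ := by
    rw [hS, Polynomial.finsetSum_coeff]
    unfold lf
    refine Finset.sum_congr rfl fun a ha => ?_
    rw [Polynomial.mul_coeff_zero, coeff_zero_aeval, Polynomial.mul_coeff_zero,
      Polynomial.coeff_zero_eq_eval_zero (∏ c, _), Polynomial.eval_prod]
    have h1 : ∏ c, Polynomial.eval 0 ((Polynomial.C (Γ c) + Polynomial.X * E c) ^ a c) =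
        ∏ c, Γ c ^ a c := by
      refine Finset.prod_congr rfl fun c _ => ?_
      simp
    rw [h1]
    split_ifs with h2
    · rw [h2, Nat.sub_self, pow_zero, Polynomial.coeff_one_zero, one_mul]
    · have h3 : wt v a - r ≠ 0 := by
        have := hT a ha
        omega
      rw [Polynomial.coeff_X_pow, if_neg (Ne.symm h3), zero_mul, mul_zero]
  have hg0 : (aeval x g).coeff 0 ≠ 0 := by
    rw [coeff_zero_aeval]
    exact hg
  have hdvd : (Polynomial.X : Polynomial L) ^ r ∣ aeval x G := by
    have h1 : (Polynomial.X : Polynomial L) ^ r ∣ aeval x G * aeval x g :=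
      ⟨S, by rw [mul_comm]; exact hgG⟩
    refine Polynomial.prime_X.pow_dvd_of_dvd_mul_right r ?_ h1
    rw [Polynomial.X_dvd_iff]
    exact hg0
  obtain ⟨W, hW⟩ := hdvd
  refine ⟨⟨W, hW⟩, ?_⟩
  have h1 : aeval x g * W = S := by
    have h2 : (Polynomial.X : Polynomial L) ^ r * (aeval x g * W) = Polynomial.X ^ r * S := by
      rw [← hgG, hW]
      ring
    exact mul_left_cancel₀ (pow_ne_zero _ Polynomial.X_ne_zero) h2
  have h2 : (aeval x G).coeff r = W.coeff 0 := by
    rw [hW]
    have h3 := Polynomial.coeff_X_pow_mul W r 0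
    rwa [zero_add] at h3
  rw [h2, ← hS0, ← h1, Polynomial.mul_coeff_zero, coeff_zero_aeval]
  ring

end

end Pool.Agent.Q41.AB
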