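import Mathlib
import Pool.Agent.Helper386.D5V.Helper386_FF_Place

/-!
The places of the field of rational functions in one variable, and the degree of the principal
divisors.
-/

set_option autoImplicit false

open Polynomial

namespace Pool.Agent.Q41.AB

variable {k : Type} [Field k]

/-- the multiplicity of the zero `t`, for quotients -/
noncomputable def ordt (t : k) (f : RatFunc k) : ℤ :=
  (f.num.rootMultiplicity t : ℤ) - f.denom.rootMultiplicity t

theorem rm_mul (t : k) {a b : k[X]} (ha : a ≠ 0) (hb : b ≠ 0) :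
    (a * b).rootMultiplicity t = a.rootMultiplicity t + b.rootMultiplicity t :=
  Polynomial.rootMultiplicity_mul (mul_ne_zero ha hb)

theorem ordt_div (t : k) {a b : k[X]} (ha : a ≠ 0) (hb : b ≠ 0) :
    ordt t (algebraMap k[X] (RatFunc k) a / algebraMap k[X] (RatFunc k) b) =
      (a.rootMultiplicity t : ℤ) - b.rootMultiplicity t := by
  obtain ⟨f, hf⟩ : ∃ f, f = algebraMap k[X] (RatFunc k) a / algebraMap k[X] (RatFunc k) b :=
    ⟨_, rfl⟩
  have hb' : algebraMap k[X] (RatFunc k) b ≠ 0 := by
    rw [Ne, FaithfulSMul.algebraMap_eq_zero_iff]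
    exact hb
  have ha' : algebraMap k[X] (RatFunc k) a ≠ 0 := by
    rw [Ne, FaithfulSMul.algebraMap_eq_zero_iff]
    exact ha
  have hf0 : f ≠ 0 := by
    rw [hf]
    exact div_ne_zero ha' hb'
  have hd : algebraMap k[X] (RatFunc k) f.denom ≠ 0 := by
    rw [Ne, FaithfulSMul.algebraMap_eq_zero_iff]
    exact f.denom_ne_zero
  have h1 : f.num * b = a * f.denom := by
    apply FaithfulSMul.algebraMap_injective k[X] (RatFunc k)
    rw [map_mul, map_mul]
    have h2 := f.num_div_denom
    have h3 : algebraMap k[X] (RatFunc k) f.num / algebraMap k[X] (RatFunc k) f.denom =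
        algebraMap k[X] (RatFunc k) a / algebraMap k[X] (RatFunc k) b := h2.trans hf
    rwa [div_eq_div_iff hd hb'] at h3
  have h2 := congrArg (Polynomial.rootMultiplicity t) h1
  have hn : f.num ≠ 0 := RatFunc.num_ne_zero hf0
  rw [rm_mul t hn hb, rm_mul t ha f.denom_ne_zero] at h2
  rw [← hf]
  unfold ordt
  omega

theorem exists_frac (f : RatFunc k) (hf : f ≠ 0) : ∃ a b : k[X], a ≠ 0 ∧ b ≠ 0 ∧
    f = algebraMap k[X] (RatFunc k) a / algebraMap k[X] (RatFunc k) b :=
  ⟨f.num, f.denom, RatFunc.num_ne_zero hf, f.denom_ne_zero, f.num_div_denom.symm⟩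

theorem ordt_alg (t : k) {a : k[X]} (ha : a ≠ 0) :
    ordt t (algebraMap k[X] (RatFunc k) a) = a.rootMultiplicity t := by
  have h := ordt_div t ha one_ne_zero
  rw [map_one, div_one] at h
  rw [h, show (1 : k[X]) = C 1 from rfl, rootMultiplicity_C]
  simp

/-- the place of the point `t` -/
noncomputable def pt (t : k) : FF.Place k (RatFunc k) where
  ord := ordt t
  ord_zero := by
    unfold ordt
    rw [RatFunc.num_zero, RatFunc.denom_zero, rootMultiplicity_zero,
      show (1 : k[X]) = C 1 from rfl, rootMultiplicity_C]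
    simp
  ord_mul := by
    intro f g hf hg
    obtain ⟨a, b, ha, hb, rfl⟩ := exists_frac f hf
    obtain ⟨c, d, hc, hd, rfl⟩ := exists_frac g hg
    rw [div_mul_div_comm, ← map_mul, ← map_mul, ordt_div t (mul_ne_zero ha hc) (mul_ne_zero hb hd),
      ordt_div t ha hb, ordt_div t hc hd, rm_mul t ha hc, rm_mul t hb hd]
    push_cast
    ring
  ord_add := by
    intro f g hf hg hfg
    obtain ⟨a, b, ha, hb, rfl⟩ := exists_frac f hf
    obtain ⟨c, d, hc, hd, rfl⟩ := exists_frac g hg
    have hb' : algebraMap k[X] (RatFunc k) b ≠ 0 := by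
      rw [Ne, FaithfulSMul.algebraMap_eq_zero_iff]
      exact hb
    have hd' : algebraMap k[X] (RatFunc k) d ≠ 0 := by
      rw [Ne, FaithfulSMul.algebraMap_eq_zero_iff]
      exact hd
    have h1 : algebraMap k[X] (RatFunc k) a / algebraMap k[X] (RatFunc k) b +
        algebraMap k[X] (RatFunc k) c / algebraMap k[X] (RatFunc k) d =
        algebraMap k[X] (RatFunc k) (a * d + b * c) / algebraMap k[X] (RatFunc k) (b * d) := by
      rw [div_add_div _ _ hb' hd', map_add, map_mul, map_mul, map_mul]
    have hne : a * d + b * c ≠ 0 := by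
      intro h0
      rw [h1, h0, map_zero, zero_div] at hfg
      exact hfg rfl
    rw [h1, ordt_div t hne (mul_ne_zero hb hd), ordt_div t ha hb, ordt_div t hc hd, rm_mul t hb hd]
    have h2 := Polynomial.rootMultiplicity_add (p := a * d) (q := b * c) (a := t) hne
    rw [rm_mul t ha hd, rm_mul t hb hc] at h2
    rcases min_le_iff.1 (le_refl (min (a.rootMultiplicity t + d.rootMultiplicity t)
      (b.rootMultiplicity t + c.rootMultiplicity t))) with h3 | h3 <;> omega
  ord_const := by
    intro c hc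
    have h1 : algebraMap k (RatFunc k) c = algebraMap k[X] (RatFunc k) (C c) := by
      rw [IsScalarTower.algebraMap_apply k k[X] (RatFunc k)]
      rfl
    rw [h1, ordt_alg t (by rwa [Ne, C_eq_zero]), rootMultiplicity_C]
    simp
  surj := by
    refine ⟨algebraMap k[X] (RatFunc k) (X - C t), ?_, ?_⟩
    · rw [Ne, FaithfulSMul.algebraMap_eq_zero_iff]
      exact X_sub_C_ne_zero t
    · rw [ordt_alg t (X_sub_C_ne_zero t), rootMultiplicity_X_sub_C_self]
      rfl

theorem pt_div (t : k) {a b : k[X]} (ha : a ≠ 0) (hb : b ≠ 0) :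
    (pt t).ord (algebraMap k[X] (RatFunc k) a / algebraMap k[X] (RatFunc k) b) =
      (a.rootMultiplicity t : ℤ) - b.rootMultiplicity t := ordt_div t ha hb

theorem pt_alg (t : k) {a : k[X]} (ha : a ≠ 0) :
    (pt t).ord (algebraMap k[X] (RatFunc k) a) = a.rootMultiplicity t := ordt_alg t ha

theorem intDegree_frac {a b : k[X]} (ha : a ≠ 0) (hb : b ≠ 0) :
    (algebraMap k[X] (RatFunc k) a / algebraMap k[X] (RatFunc k) b).intDegree =
      (a.natDegree : ℤ) - b.natDegree := by
  have hb' : algebraMap k[X] (RatFunc k) b ≠ 0 := by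
    rw [Ne, FaithfulSMul.algebraMap_eq_zero_iff]
    exact hb
  have ha' : algebraMap k[X] (RatFunc k) a ≠ 0 := by
    rw [Ne, FaithfulSMul.algebraMap_eq_zero_iff]
    exact ha
  have h1 := RatFunc.intDegree_mul (div_ne_zero ha' hb') hb'
  rw [div_mul_cancel₀ _ hb', RatFunc.intDegree_polynomial, RatFunc.intDegree_polynomial] at h1
  omega

/-- the place at infinity -/
noncomputable def inf : FF.Place k (RatFunc k) where
  ord := fun f => - f.intDegree
  ord_zero := by
    rw [RatFunc.intDegree_zero, neg_zero]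
  ord_mul := by
    intro f g hf hg
    rw [RatFunc.intDegree_mul hf hg]
    ring
  ord_add := by
    intro f g hf hg hfg
    have h1 := RatFunc.intDegree_add_le hg hfg
    rcases le_max_iff.1 h1 with h2 | h2 <;> omega
  ord_const := by
    intro c hc
    have h1 : algebraMap k (RatFunc k) c = RatFunc.C c := rfl
    rw [h1, RatFunc.intDegree_C, neg_zero]
  surj := by
    refine ⟨RatFunc.X⁻¹, inv_ne_zero RatFunc.X_ne_zero, ?_⟩
    rw [RatFunc.intDegree_inv, RatFunc.intDegree_X, neg_neg]

theorem inf_ord (f : RatFunc k) : (inf : FF.Place k (RatFunc k)).ord f = - f.intDegree := rfl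

open scoped Classical in
theorem natDegree_eq_sum [IsAlgClosed k] {p : k[X]} {W : Finset k}
    (hW : ∀ t, p.IsRoot t → t ∈ W) : p.natDegree = ∑ t ∈ W, p.rootMultiplicity t := by
  classical
  rw [(IsAlgClosed.splits p).natDegree_eq_card_roots, ← Multiset.toFinset_sum_count_eq]
  have h1 : p.roots.toFinset ⊆ W := by
    intro t ht
    exact hW t (Polynomial.isRoot_of_mem_roots (Multiset.mem_toFinset.1 ht))
  rw [Finset.sum_subset h1 (fun t _ ht => Multiset.count_eq_zero.2 fun h2 =>
    ht (Multiset.mem_toFinset.2 h2))]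
  exact Finset.sum_congr rfl fun t _ => Polynomial.count_roots p

/-- **The degree of a principal divisor.** -/
theorem sum_ord_le [IsAlgClosed k] {f : RatFunc k} (hf : f ≠ 0) (E : Finset k)
    (h : ∀ t, t ∉ E → 0 ≤ (pt t).ord f) :
    ∑ t ∈ E, (pt t).ord f ≤ - (inf : FF.Place k (RatFunc k)).ord f := by
  classical
  obtain ⟨a, b, ha, hb, rfl⟩ := exists_frac f hf
  obtain ⟨W, hW⟩ : ∃ W : Finset k, W = E ∪ (a.roots.toFinset ∪ b.roots.toFinset) := ⟨_, rfl⟩
  have h1 : ∀ t, a.IsRoot t → t ∈ W := by
    intro t ht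
    rw [hW]
    exact Finset.mem_union_right _ (Finset.mem_union_left _
      (Multiset.mem_toFinset.2 ((Polynomial.mem_roots ha).2 ht)))
  have h2 : ∀ t, b.IsRoot t → t ∈ W := by
    intro t ht
    rw [hW]
    exact Finset.mem_union_right _ (Finset.mem_union_right _
      (Multiset.mem_toFinset.2 ((Polynomial.mem_roots hb).2 ht)))
  rw [inf_ord, neg_neg, intDegree_frac ha hb, natDegree_eq_sum h1, natDegree_eq_sum h2]
  push_cast
  rw [← Finset.sum_sub_distrib]
  have h3 : E ⊆ W := by
    rw [hW]
    exact Finset.subset_union_left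
  have h4 : ∀ t, (pt t).ord (algebraMap k[X] (RatFunc k) a / algebraMap k[X] (RatFunc k) b) =
      (a.rootMultiplicity t : ℤ) - b.rootMultiplicity t := fun t => pt_div t ha hb
  rw [← Finset.sum_congr rfl fun t _ => h4 t]
  exact Finset.sum_le_sum_of_subset_of_nonneg h3 fun t _ ht => h t ht

end Pool.Agent.Q41.AB
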