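import Pool.Agent.Q41.AB.Lead
import Pool.Agent.Q41.AB.Rat

/-!
The order of the leading coefficient of an arc over a curve.
-/

set_option autoImplicit false
set_option linter.unusedSectionVars false

open MvPolynomial

namespace Pool.Agent.Q41.AB

open Pool.Agent.Q41.RC (MH IsPt SNC reg_aevalK)
open Pool.Agent.W603.LV

section span

variable {k σ κ : Type} [Field k] [Fintype σ] [Fintype κ]

theorem mi_rep {F : κ → MvPolynomial σ k} {U : Set (κ → ℕ)} {H : MvPolynomial σ k}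
    (h : H ∈ MI F U) : ∃ (T : Finset (κ → ℕ)) (P : (κ → ℕ) → MvPolynomial σ k),
      H = ∑ a ∈ T, P a * ∏ c, F c ^ a c ∧ ∀ a ∈ T, a ∈ U := by
  classical
  unfold MI at h
  have h1 : {p : MvPolynomial σ k | ∃ a ∈ U, p = ∏ c, F c ^ a c} =
      (fun a : κ → ℕ => ∏ c, F c ^ a c) '' U := by
    ext p
    simp only [Set.mem_ofPred_eq, Set.mem_image]
    constructor
    · rintro ⟨a, ha, rfl⟩
      exact ⟨a, ha, rfl⟩
    · rintro ⟨a, ha, rfl⟩
      exact ⟨a, ha, rfl⟩
  rw [h1, Ideal.span, Finsupp.mem_span_image_iff_linearCombination] at h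
  obtain ⟨l, hl, rfl⟩ := h
  refine ⟨l.support, l, ?_, fun a ha => ?_⟩
  · rw [Finsupp.linearCombination_apply, Finsupp.sum]
    exact Finset.sum_congr rfl fun a _ => by rw [smul_eq_mul]
  · exact (Finsupp.mem_supported _ _).1 hl ha

/-- values on the torus -/
theorem exists_torus [IsAlgClosed k] (T : Finset (κ → ℕ)) (A : (κ → ℕ) → k)
    (h : ∃ a ∈ T, A a ≠ 0) : ∃ γ : κ → k, (∀ c, γ c ≠ 0) ∧ ∑ a ∈ T, A a * ∏ c, γ c ^ a c ≠ 0 := by
  classical
  have hinf : Infinite k := IsAlgClosed.instInfinite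
  obtain ⟨p, hp⟩ : ∃ p : MvPolynomial κ k, p = ∑ a ∈ T, monomial (Finsupp.equivFunOnFinite.symm a)
    (A a) := ⟨_, rfl⟩
  have hp0 : p ≠ 0 := by
    obtain ⟨a, ha, ha0⟩ := h
    intro h0
    apply ha0
    have h1 := congrArg (coeff (Finsupp.equivFunOnFinite.symm a)) hp
    rw [h0, coeff_zero, coeff_sum, Finset.sum_eq_single a] at h1
    · rw [coeff_monomial, if_pos rfl] at h1
      exact h1.symm
    · intro b _ hb
      rw [coeff_monomial, if_neg]
      intro h2
      exact hb (Finsupp.equivFunOnFinite.symm.injective h2)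
    · intro h2
      exact absurd ha h2
  have h1 : p * ∏ c, X c ≠ 0 :=
    mul_ne_zero hp0 (Finset.prod_ne_zero_iff.2 fun c _ => X_ne_zero c)
  obtain ⟨γ, hγ⟩ : ∃ γ : κ → k, eval γ (p * ∏ c, X c) ≠ 0 := by
    by_contra hcon
    push Not at hcon
    apply h1
    apply MvPolynomial.funext
    intro x
    rw [hcon x, map_zero]
  rw [map_mul, map_prod] at hγ
  refine ⟨γ, fun c hc => ?_, ?_⟩
  · apply right_ne_zero_of_mul hγ
    exact Finset.prod_eq_zero (Finset.mem_univ c) (by rw [eval_X, hc])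
  · have h2 := left_ne_zero_of_mul hγ
    rw [hp, map_sum] at h2
    intro h3
    apply h2
    rw [← h3]
    refine Finset.sum_congr rfl fun a _ => ?_
    rw [eval_monomial, Finsupp.prod_fintype _ _ fun i => pow_zero _]
    rfl

end span

section curve

variable {k ρ σ : Type} [Field k] [Fintype ρ] [Fintype σ]

/-- the common multiplicity of the zero `t` of the coordinates of the factor `l` -/
noncomputable def kmin (pr : σ → ρ) (Q : σ → Polynomial k) (t : k) (l : ρ) : ℕ :=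
  sInf {n | ∃ i, pr i = l ∧ Q i ≠ 0 ∧ (Q i).rootMultiplicity t = n}

variable {pr : σ → ρ} {Q : σ → Polynomial k}

theorem kmin_mem (hQ : ∀ l, ∃ i, pr i = l ∧ Q i ≠ 0) (t : k) (l : ρ) :
    ∃ i, pr i = l ∧ Q i ≠ 0 ∧ (Q i).rootMultiplicity t = kmin pr Q t l := by
  obtain ⟨i, hi, hi0⟩ := hQ l
  exact Nat.sInf_mem (s := {n | ∃ i, pr i = l ∧ Q i ≠ 0 ∧ (Q i).rootMultiplicity t = n})
    ⟨_, i, hi, hi0, rfl⟩

theorem kmin_le {t : k} {i : σ} (hi : Q i ≠ 0) :
    kmin pr Q t (pr i) ≤ (Q i).rootMultiplicity t :=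
  Nat.sInf_le ⟨i, rfl, hi, rfl⟩

/-- the reduced curve at `t` -/
theorem exists_red (hQ : ∀ l, ∃ i, pr i = l ∧ Q i ≠ 0) (t : k) :
    ∃ Q' : σ → Polynomial k,
      (∀ i, Q i = (Polynomial.X - Polynomial.C t) ^ kmin pr Q t (pr i) * Q' i) ∧
      IsPt pr fun i => (Q' i).eval t := by
  have h1 : ∀ i, ∃ q : Polynomial k,
      Q i = (Polynomial.X - Polynomial.C t) ^ kmin pr Q t (pr i) * q := by
    intro i
    by_cases hi : Q i = 0
    · exact ⟨0, by rw [hi, mul_zero]⟩
    · exact (Polynomial.le_rootMultiplicity_iff hi).1 (kmin_le hi)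
  choose Q' hQ' using h1
  refine ⟨Q', hQ', fun l => ?_⟩
  obtain ⟨i, hi, hi0, him⟩ := kmin_mem hQ t l
  refine ⟨i, hi, fun h0 => ?_⟩
  have h2 : Polynomial.X - Polynomial.C t ∣ Q' i := Polynomial.dvd_iff_isRoot.2 h0
  have h3 : (Polynomial.X - Polynomial.C t) ^ (kmin pr Q t l + 1) ∣ Q i := by
    rw [hQ' i, hi, pow_succ]
    exact mul_dvd_mul_left _ h2
  have h4 := (Polynomial.le_rootMultiplicity_iff hi0).2 h3
  omega

theorem sum_kmin_le [IsAlgClosed k] {μ : ρ → ℕ} (hdeg : ∀ i, (Q i).natDegree ≤ μ (pr i))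
    (hQ : ∀ l, ∃ i, pr i = l ∧ Q i ≠ 0) (E : Finset k) (l : ρ) :
    ∑ t ∈ E, kmin pr Q t l ≤ μ l := by
  classical
  obtain ⟨i, hi, hi0⟩ := hQ l
  have h1 : (Q i).natDegree = ∑ t ∈ E ∪ (Q i).roots.toFinset, (Q i).rootMultiplicity t := by
    refine natDegree_eq_sum fun t ht => Finset.mem_union_right _ ?_
    exact Multiset.mem_toFinset.2 ((Polynomial.mem_roots hi0).2 ht)
  calc ∑ t ∈ E, kmin pr Q t l ≤ ∑ t ∈ E, (Q i).rootMultiplicity t := by
        refine Finset.sum_le_sum fun t _ => ?_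
        rw [← hi]
        exact kmin_le hi0
    _ ≤ ∑ t ∈ E ∪ (Q i).roots.toFinset, (Q i).rootMultiplicity t :=
        Finset.sum_le_sum_of_subset Finset.subset_union_left
    _ = (Q i).natDegree := h1.symm
    _ ≤ μ l := by
        rw [← hi]
        exact hdeg i

end curve

section loc

variable {k ρ σ κ : Type} [Field k] [Fintype ρ] [Fintype σ] [Fintype κ]

theorem map_alg (Q : σ → Polynomial k) (P : MvPolynomial σ k) :
    aeval (fun i => algebraMap (Polynomial k) (RatFunc k) (Q i)) P =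
      algebraMap (Polynomial k) (RatFunc k) (aeval Q P) :=
  MvPolynomial.aeval_algebraMap_apply (RatFunc k) Q P

theorem eval_alg (Q : σ → Polynomial k) (t : k) (P : MvPolynomial σ k) :
    (aeval Q P).eval t = eval (fun i => (Q i).eval t) P := by
  have h1 : (((Polynomial.aeval t : Polynomial k →ₐ[k] k))).comp
      (MvPolynomial.aeval Q : MvPolynomial σ k →ₐ[k] Polynomial k) =
      MvPolynomial.aeval (fun i => (Q i).eval t) := by
    apply MvPolynomial.algHom_ext
    intro i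
    rw [AlgHom.comp_apply, MvPolynomial.aeval_X, MvPolynomial.aeval_X,
      Polynomial.coe_aeval_eq_eval]
  have h2 := congrArg (fun f => f P) (congrArg DFunLike.coe h1)
  rw [AlgHom.comp_apply, Polynomial.coe_aeval_eq_eval] at h2
  rw [h2]
  rfl

theorem reg_alg (t : k) (P : Polynomial k) :
    (pt t).Reg (algebraMap (Polynomial k) (RatFunc k) P) := by
  by_cases h : P = 0
  · left
    rw [h, map_zero]
  · right
    rw [pt_alg t h]
    positivity

theorem scale_arc {F : κ → MvPolynomial σ k} {pr : σ → ρ} {δ : κ → ρ → ℕ}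
    (hF : ∀ c, MH pr (δ c) (F c)) {L : Type} [Field L] [Algebra k L] {v : κ → ℕ}
    {x : σ → Polynomial L} {Γ : κ → L} (hx : IsArc F v x Γ) (f : ρ → L) :
    IsArc F v (fun i => Polynomial.C (f (pr i)) * x i) fun c => (∏ l, f l ^ δ c l) * Γ c := by
  intro c
  have h1 := (hF c).scale (fun l => Polynomial.C (f l)) x
  rw [h1]
  have h2 : (∏ l, (Polynomial.C (f l) : Polynomial L) ^ δ c l) = Polynomial.C (∏ l, f l ^ δ c l) := by
    rw [map_prod]
    exact Finset.prod_congr rfl fun l _ => (map_pow _ _ _).symm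
  rw [h2, Polynomial.C_mul, mul_assoc, ← mul_sub]
  exact Dvd.dvd.mul_left (hx c) _

theorem scale_coeff {pr : σ → ρ} {D : ρ → ℕ} {G : MvPolynomial σ k} (hG : MH pr D G) {L : Type}
    [Field L] [Algebra k L] (x : σ → Polynomial L) (f : ρ → L) (r : ℕ) :
    (aeval (fun i => Polynomial.C (f (pr i)) * x i) G).coeff r =
      (∏ l, f l ^ D l) * (aeval x G).coeff r := by
  have h1 := hG.scale (fun l => Polynomial.C (f l)) x
  rw [h1]
  have h2 : (∏ l, (Polynomial.C (f l) : Polynomial L) ^ D l) = Polynomial.C (∏ l, f l ^ D l) := by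
    rw [map_prod]
    exact Finset.prod_congr rfl fun l _ => (map_pow _ _ _).symm
  rw [h2, Polynomial.coeff_C_mul]

theorem ord_prod_pow {K : Type} [Field K] [Algebra k K] (P : FF.Place k K) {ι : Type}
    (s : Finset ι) (f : ι → K) (e : ι → ℕ) (hf : ∀ i ∈ s, f i ≠ 0) :
    P.ord (∏ i ∈ s, f i ^ e i) = ∑ i ∈ s, (e i : ℤ) * P.ord (f i) := by
  classical
  induction s using Finset.induction_on with
  | empty => simp [P.ord_one]
  | insert i s hi ih =>
    rw [Finset.prod_insert hi, Finset.sum_insert hi, P.ord_mul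
      (pow_ne_zero _ (hf i (Finset.mem_insert_self _ _)))
      (Finset.prod_ne_zero_iff.2 fun j hj => pow_ne_zero _ (hf j (Finset.mem_insert_of_mem hj))),
      P.ord_pow, ih fun j hj => hf j (Finset.mem_insert_of_mem hj)]

/-- **The order at `t`.** -/
theorem ord_loc {pr : σ → ρ} {δ : κ → ρ → ℕ} {F : κ → MvPolynomial σ k}
    (hF : ∀ c, MH pr (δ c) (F c)) {D : ρ → ℕ} {G : MvPolynomial σ k} (hG : MH pr D G)
    {Q Q' : σ → Polynomial k} {t : k} {kk : ρ → ℕ}
    (hQ' : ∀ i, Q i = (Polynomial.X - Polynomial.C t) ^ kk (pr i) * Q' i)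
    {v w : κ → ℕ} {r r1 R : ℕ} {Γ : κ → Polynomial k} (hΓ : ∀ c, Γ c ≠ 0)
    (hw : ∀ c, (w c : ℤ) = (Γ c).rootMultiplicity t - ∑ l, (kk l : ℤ) * δ c l + R * v c)
    {g : MvPolynomial σ k} (hg : eval (fun i => (Q' i).eval t) g ≠ 0) {T : Finset (κ → ℕ)}
    {P : (κ → ℕ) → MvPolynomial σ k} (hrep : g * G = ∑ a ∈ T, P a * ∏ c, F c ^ a c)
    (hT : ∀ a ∈ T, r ≤ wt v a ∧ r1 ≤ wt w a) {x : σ → Polynomial (RatFunc k)}
    (hx0 : ∀ i, (x i).coeff 0 = algebraMap (Polynomial k) (RatFunc k) (Q i))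
    (hx : IsArc F v x fun c => algebraMap (Polynomial k) (RatFunc k) (Γ c))
    (hH : (aeval x G).coeff r ≠ 0) :
    (∑ l, (D l : ℤ) * kk l) + r1 - R * r ≤ (pt t).ord ((aeval x G).coeff r) := by
  classical
  obtain ⟨y, hy⟩ : ∃ y : RatFunc k, y =
    algebraMap (Polynomial k) (RatFunc k) (Polynomial.X - Polynomial.C t) := ⟨_, rfl⟩
  have hy0 : y ≠ 0 := by
    rw [hy, Ne, FaithfulSMul.algebraMap_eq_zero_iff]
    exact Polynomial.X_sub_C_ne_zero t
  have hyo : (pt t).ord y = 1 := by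
    rw [hy, pt_alg t (Polynomial.X_sub_C_ne_zero t), Polynomial.rootMultiplicity_X_sub_C_self]
    rfl
  obtain ⟨f, hf⟩ : ∃ f : ρ → RatFunc k, f = fun l => (y⁻¹) ^ kk l := ⟨_, rfl⟩
  have hf0 : ∀ l, f l ≠ 0 := by
    intro l
    rw [hf]
    exact pow_ne_zero _ (inv_ne_zero hy0)
  have hfo : ∀ l, (pt t).ord (f l) = - kk l := by
    intro l
    rw [hf]
    dsimp only
    rw [(pt t).ord_pow, (pt t).ord_inv, hyo]
    ring
  have hx' := scale_arc hF hx f
  have hx0' : (fun i => (Polynomial.C (f (pr i)) * x i).coeff 0) =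
      fun i => algebraMap (Polynomial k) (RatFunc k) (Q' i) := by
    funext i
    rw [Polynomial.coeff_C_mul, hx0, hQ' i, map_mul, map_pow, ← hy, hf]
    dsimp only
    rw [← mul_assoc, ← mul_pow, inv_mul_cancel₀ hy0, one_pow, one_mul]
  have hgt : (aeval Q' g).eval t ≠ 0 := by
    rw [eval_alg]
    exact hg
  have hgp : aeval Q' g ≠ 0 := by
    intro h0
    rw [h0, Polynomial.eval_zero] at hgt
    exact hgt rfl
  have hgL : aeval (fun i => (Polynomial.C (f (pr i)) * x i).coeff 0) g =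
      algebraMap (Polynomial k) (RatFunc k) (aeval Q' g) := by
    rw [hx0', map_alg]
  have hgL0 : algebraMap (Polynomial k) (RatFunc k) (aeval Q' g) ≠ 0 := by
    rw [Ne, FaithfulSMul.algebraMap_eq_zero_iff]
    exact hgp
  have hgo : (pt t).ord (algebraMap (Polynomial k) (RatFunc k) (aeval Q' g)) = 0 := by
    rw [pt_alg t hgp, Polynomial.rootMultiplicity_eq_zero hgt]
    rfl
  obtain ⟨-, h1⟩ := lead hrep (fun a ha => (hT a ha).1) hx' (by rw [hgL]; exact hgL0)
  rw [hgL, scale_coeff hG] at h1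
  have hprod0 : (∏ l, f l ^ D l) ≠ 0 := Finset.prod_ne_zero_iff.2 fun l _ => pow_ne_zero _ (hf0 l)
  have hprodo : (pt t).ord (∏ l, f l ^ D l) = - ∑ l, (D l : ℤ) * kk l := by
    rw [ord_prod_pow (pt t) Finset.univ f D fun l _ => hf0 l, ← Finset.sum_neg_distrib]
    exact Finset.sum_congr rfl fun l _ => by rw [hfo]; ring
  -- the values of the hypersurfaces
  have hΓ0 : ∀ c, (∏ l, f l ^ δ c l) * algebraMap (Polynomial k) (RatFunc k) (Γ c) ≠ 0 := by
    intro c
    refine mul_ne_zero (Finset.prod_ne_zero_iff.2 fun l _ => pow_ne_zero _ (hf0 l)) ?_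
    rw [Ne, FaithfulSMul.algebraMap_eq_zero_iff]
    exact hΓ c
  have hΓo : ∀ c, (pt t).ord ((∏ l, f l ^ δ c l) * algebraMap (Polynomial k) (RatFunc k) (Γ c)) =
      (w c : ℤ) - R * v c := by
    intro c
    rw [(pt t).ord_mul (Finset.prod_ne_zero_iff.2 fun l _ => pow_ne_zero _ (hf0 l)) (by
        rw [Ne, FaithfulSMul.algebraMap_eq_zero_iff]
        exact hΓ c), ord_prod_pow (pt t) Finset.univ f (δ c) fun l _ => hf0 l, pt_alg t (hΓ c), hw c]
    have h2 : ∑ l, (δ c l : ℤ) * (pt t).ord (f l) = - ∑ l, (kk l : ℤ) * δ c l := by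
      rw [← Finset.sum_neg_distrib]
      exact Finset.sum_congr rfl fun l _ => by rw [hfo]; ring
    rw [h2]
    ring
  have hge : Ge (pt t) ((r1 : ℤ) - R * r) (lf v r T P
      (fun i => (Polynomial.C (f (pr i)) * x i).coeff 0)
      (fun c => (∏ l, f l ^ δ c l) * algebraMap (Polynomial k) (RatFunc k) (Γ c))) := by
    unfold lf
    refine Ge.sum _ _ fun a ha => ?_
    split_ifs with hwt
    · have h2 : Ge (pt t) 0 (aeval (fun i => (Polynomial.C (f (pr i)) * x i).coeff 0) (P a)) := by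
        rw [hx0', map_alg]
        exact reg_alg t _
      have h3 : Ge (pt t) ((r1 : ℤ) - R * r)
          (∏ c, ((∏ l, f l ^ δ c l) * algebraMap (Polynomial k) (RatFunc k) (Γ c)) ^ a c) := by
        right
        rw [ord_prod_pow (pt t) Finset.univ _ a fun c _ => hΓ0 c]
        have h4 : ∑ c, (a c : ℤ) * (pt t).ord ((∏ l, f l ^ δ c l) *
            algebraMap (Polynomial k) (RatFunc k) (Γ c)) = (wt w a : ℤ) - R * wt v a := by
          unfold wt
          push_cast
          rw [Finset.mul_sum, ← Finset.sum_sub_distrib]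
          refine Finset.sum_congr rfl fun c _ => ?_
          rw [hΓo]
          ring
        rw [h4, hwt]
        have h5 := (hT a ha).2
        have h6 : (r1 : ℤ) ≤ wt w a := by exact_mod_cast h5
        linarith
      simpa using h2.mul h3
    · exact Or.inl rfl
  rw [← h1] at hge
  have hne : (∏ l, f l ^ D l) * (aeval x G).coeff r *
      algebraMap (Polynomial k) (RatFunc k) (aeval Q' g) ≠ 0 :=
    mul_ne_zero (mul_ne_zero hprod0 hH) hgL0
  have h2 := hge.resolve_left hne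
  rw [(pt t).ord_mul (mul_ne_zero hprod0 hH) hgL0, (pt t).ord_mul hprod0 hH, hprodo, hgo] at h2
  linarith

end loc

end Pool.Agent.Q41.AB
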