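import Pool.Agent.Q41.AB.Fo

/-!
The main inequality in terms of the vertices.
-/

set_option autoImplicit false
set_option linter.overlappingInstances false
set_option linter.unusedSectionVars false
set_option maxHeartbeats 1000000

open FF MvPolynomial IntermediateField Pool.Agent.W603.LV Pool.Agent.W619.PQ
open Pool.Agent.W619.TW Pool.Agent.W602.GT Pool.Agent.TH122.AB Pool.Agent.TH756.PN

namespace Pool.Agent.Q41.AB

open Pool.Agent.Q41.RC (MH IsPt SNC DatK IsCov CovK bwK IsVec IsExp)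
open Pool.Agent.Q57.TP (SecD BSec BPsef bsec_sec)

section

variable {ρ σ κ J : Type} [Fintype ρ] [Fintype σ] [Fintype κ]
  {pr : σ → ρ} {δ : κ → ρ → ℕ} {F : κ → MvPolynomial σ ℂ} {m : J → ℕ}
    {a : J → κ → ℕ} {S : κ → Prop}

theorem exp_sg {e : κ → ℚ} (he : IsExp pr δ m a S F e) (l : ρ) :
    ∑ c, (δ c l : ℚ) * e c ≤ sg pr δ l := by
  have h1 := he.deg l
  have h2 : ∑ c, (1 - e c) * (δ c l : ℚ) = ∑ c, (δ c l : ℚ) - ∑ c, (δ c l : ℚ) * e c := by
    rw [← Finset.sum_sub_distrib]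
    exact Finset.sum_congr rfl fun c _ => by ring
  rw [h2] at h1
  unfold sg
  push_cast
  linarith

theorem sg_nonneg {e : κ → ℚ} (he : IsExp pr δ m a S F e) (l : ρ) : 0 ≤ sg pr δ l := by
  have h1 := exp_sg he l
  have h2 : 0 ≤ ∑ c, (δ c l : ℚ) * e c :=
    Finset.sum_nonneg fun c _ => mul_nonneg (by positivity) (he.nonneg c)
  have h3 : (0 : ℚ) ≤ sg pr δ l := h2.trans h1
  exact_mod_cast h3

theorem exp_of {e : κ → ℚ} (h1 : ∀ c, 0 ≤ e c) (h2 : ∀ v, IsVec pr m a S F v →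
    1 ≤ ∑ c, (v c : ℚ) * e c) (h3 : ∀ l, ∑ c, (δ c l : ℚ) * e c ≤ sg pr δ l) :
    IsExp pr δ m a S F e := by
  refine ⟨h1, fun l => ?_, h2⟩
  have h4 := h3 l
  have h5 : ∑ c, (1 - e c) * (δ c l : ℚ) = ∑ c, (δ c l : ℚ) - ∑ c, (δ c l : ℚ) * e c := by
    rw [← Finset.sum_sub_distrib]
    exact Finset.sum_congr rfl fun c _ => by ring
  rw [h5]
  unfold sg at h4
  push_cast at h4
  linarith

/-- **The main inequality in terms of the vertices.** -/
theorem main_ineq (hComb : S_Comb) (hExt : S_Ext) (hI : S_Inter) (hGen : S_Gen) (hArc : S_Arc)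
    (hCurve : S_Curve) (hFin : S_Fin) (hF : ∀ c, MH pr (δ c) (F c)) (hS : SNC pr F)
    (hdiv : ∀ j l, m j ∣ ∑ c, a j c * δ c l) (hE : ∃ e, IsExp pr δ m a S F e) :
    ∃ Sv : Finset (κ → ℚ), (∀ e ∈ Sv, IsExp pr δ m a S F e) ∧ ∀ v ∈ Lam pr F,
      ∃ e ∈ Sv, ∃ Y : ρ → ℚ, (∀ l, 0 ≤ Y l) ∧ ∀ (DQ : ρ → ℕ) (N j : ℕ) (T : MvPolynomial σ ℂ),
        T ≠ 0 → MH pr (fun l => N * (sg pr δ l).toNat + (j + 1) * DQ l) T →
        (∀ ρv, IsVec pr m a S F ρv → OrdGe pr F ρv N T) →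
        (N : ℚ) * ∑ c, (v c : ℚ) * e c ≤ rr pr F T v + (j + 1) * ∑ l, (DQ l : ℚ) * Y l := by
  classical
  obtain ⟨e0, he0⟩ := hE
  have hsg : ∀ l, (((sg pr δ l).toNat : ℕ) : ℤ) = sg pr δ l := fun l =>
    Int.toNat_of_nonneg (sg_nonneg he0 l)
  have hsgq : ∀ l, (((sg pr δ l).toNat : ℕ) : ℚ) = sg pr δ l := by
    intro l
    exact_mod_cast hsg l
  obtain ⟨Sv, hSv1, hSv2⟩ := hComb δ (fun l => (sg pr δ l).toNat) {v | IsVec pr m a S F v}
    ⟨e0, he0.nonneg, fun v hv => he0.one_le v hv, fun l => by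
      rw [hsgq]
      exact exp_sg he0 l⟩
  refine ⟨Sv, fun e he => ?_, fun v hv => ?_⟩
  · obtain ⟨h1, h2, h3⟩ := hSv1 e he
    exact exp_of h1 (fun v hv => h2 v hv) fun l => by
      have h4 := h3 l
      rwa [hsgq] at h4
  obtain ⟨e, he, Y, hY, hmain⟩ := hSv2 v
  refine ⟨e, he, Y, hY, fun DQ N j T hT0 hT hord => ?_⟩
  refine hmain DQ N j (rr pr F T v) ?_
  intro M ι _ V μ hM hV hle
  have hMv : M • v ∈ Lam pr F := lam_closed hv fun c hc => by
    rw [Pi.smul_apply, smul_eq_mul] at hc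
    exact right_ne_zero_of_mul hc
  have h1 := star hExt hI hGen hArc hCurve hFin hF hS hT hT0 {v | IsVec pr m a S F v}
    (fun v hv => hv.pt) ?_ hord (s := sg pr δ) (fun l => rfl) ?_ ?_ V μ (M • v) hV hMv
    (fun c => by
      rw [Pi.smul_apply, smul_eq_mul]
      exact hle c)
  · rw [rr_smul hFin hT0 M hv] at h1
    have h2 : ((N * Fintype.card ι : ℕ) : ℤ) ≤ ((∑ l, (N * (sg pr δ l).toNat + (j + 1) * DQ l) * μ l +
        M * rr pr F T v : ℕ) : ℤ) := by
      push_cast at h1 ⊢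
      exact h1
    have h3 : N * Fintype.card ι ≤ ∑ l, (N * (sg pr δ l).toNat + (j + 1) * DQ l) * μ l +
        M * rr pr F T v := by exact_mod_cast h2
    refine h3.trans (le_of_eq ?_)
    congr 1
    exact Finset.sum_congr rfl fun l _ => by ring
  · intro ι' _ V μ v' hV' hv' hv0 heq
    have hV : ∀ i, IsVec pr m a S F (V i) := hV'
    refine ⟨hv0, fun c hc => ?_, fun i => ?_, hv'⟩
    · have h2 := heq c
      rw [Finset.sum_eq_zero fun i _ => (hV i).out c hc] at h2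
      omega
    · have h2 : ∑ c, a i c * ∑ i', V i' c = ∑ c, a i c * v' c + ∑ l, μ l * ∑ c, a i c * δ c l := by
        have h3 : ∀ c, a i c * ∑ i', V i' c = a i c * v' c + ∑ l, μ l * (a i c * δ c l) := by
          intro c
          rw [heq c, mul_add, Finset.mul_sum]
          congr 1
          exact Finset.sum_congr rfl fun l _ => by ring
        rw [Finset.sum_congr rfl fun c _ => h3 c, Finset.sum_add_distrib, Finset.sum_comm]
        congr 1
        exact Finset.sum_congr rfl fun l _ => by rw [Finset.mul_sum]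
      have h4 : m i ∣ ∑ c, a i c * ∑ i', V i' c := by
        have h5 : ∑ c, a i c * ∑ i', V i' c = ∑ i', ∑ c, a i c * V i' c := by
          rw [Finset.sum_comm]
          exact Finset.sum_congr rfl fun c _ => Finset.mul_sum _ _ _
        rw [h5]
        exact Finset.dvd_sum fun i' _ => (hV i').dvd i
      have h6 : m i ∣ ∑ l, μ l * ∑ c, a i c * δ c l :=
        Finset.dvd_sum fun l _ => Dvd.dvd.mul_left (hdiv i l) _
      rw [h2] at h4
      exact (Nat.dvd_add_iff_left h6).2 h4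
  · intro l
    have h2 := hsg l
    push_cast
    rw [h2]
    have h3 : (0 : ℤ) ≤ (j + 1) * DQ l := by positivity
    linarith
  · intro ι' _ V μ hV' hle'
    have hV : ∀ i, IsVec pr m a S F (V i) := hV'
    have h2 : (Fintype.card ι' : ℚ) ≤ ∑ i, ∑ c, (V i c : ℚ) * e0 c := by
      have h3 : ∑ i : ι', (1 : ℚ) ≤ ∑ i, ∑ c, (V i c : ℚ) * e0 c :=
        Finset.sum_le_sum fun i _ => he0.one_le (V i) (hV i)
      simpa using h3
    have h3 : ∑ i, ∑ c, (V i c : ℚ) * e0 c ≤ ∑ c, (∑ l, (μ l : ℚ) * δ c l) * e0 c := by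
      rw [Finset.sum_comm]
      refine Finset.sum_le_sum fun c _ => ?_
      rw [← Finset.sum_mul]
      refine mul_le_mul_of_nonneg_right ?_ (he0.nonneg c)
      exact_mod_cast hle' c
    have h4 : ∑ c, (∑ l, (μ l : ℚ) * δ c l) * e0 c = ∑ l, (μ l : ℚ) * ∑ c, (δ c l : ℚ) * e0 c := by
      have h5 : ∀ c, (∑ l, (μ l : ℚ) * δ c l) * e0 c = ∑ l, (μ l : ℚ) * ((δ c l : ℚ) * e0 c) := by
        intro c
        rw [Finset.sum_mul]
        exact Finset.sum_congr rfl fun l _ => by ring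
      rw [Finset.sum_congr rfl fun c _ => h5 c, Finset.sum_comm]
      exact Finset.sum_congr rfl fun l _ => by rw [Finset.mul_sum]
    have h5 : ∑ l, (μ l : ℚ) * ∑ c, (δ c l : ℚ) * e0 c ≤ ∑ l, (μ l : ℚ) * sg pr δ l :=
      Finset.sum_le_sum fun l _ => mul_le_mul_of_nonneg_left (exp_sg he0 l) (by positivity)
    have h6 : (Fintype.card ι' : ℚ) ≤ ∑ l, (μ l : ℚ) * sg pr δ l := by
      linarith
    exact_mod_cast h6

end

end Pool.Agent.Q41.AB
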