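import Pool.Agent.Q41.AB.Stm2

/-!
Finite generation, numerical dimension, explicit multiples: the statements of the lemmas.
-/

set_option autoImplicit false

open MvPolynomial FF

namespace Pool.Agent.Q41.AB

open Pool.Agent.W602.GT (Divisorial)

/-- Linear programming duality with finitely many vertices, which have small denominators, and with
bounded dual solutions. -/
def S_LPX : Prop := ∀ {κ R : Type} [Fintype κ] [Fintype R] (A : R → κ → ℤ) (b : R → ℤ) (B : ℕ),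
    1 ≤ B → (∀ r c, |A r c| ≤ B) →
    (∃ e : κ → ℚ, (∀ c, 0 ≤ e c) ∧ ∀ r, (b r : ℚ) ≤ ∑ c, (A r c : ℚ) * e c) →
    ∃ S : Finset (κ → ℚ), (∀ e ∈ S, (∀ c, 0 ≤ e c) ∧ (∀ r, (b r : ℚ) ≤ ∑ c, (A r c : ℚ) * e c) ∧
      ∃ T : ℕ, 0 < T ∧ T ≤ (Fintype.card κ).factorial * B ^ Fintype.card κ ∧
        ∀ c, ∃ w : ℤ, (T : ℚ) * e c = w) ∧
      ∃ C : ℕ, ∀ v : κ → ℕ, ∃ e ∈ S, ∃ y : R → ℚ, (∀ r, 0 ≤ y r ∧ y r ≤ C * ∑ c, (v c : ℚ)) ∧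
        (∀ c, ∑ r, y r * A r c ≤ v c) ∧ ∑ c, (v c : ℚ) * e c ≤ ∑ r, y r * b r

/-- From the main inequality to the exponents, with explicit constants. -/
def S_CombX : Prop := ∀ {κ ρ : Type} [Fintype κ] [Fintype ρ] (δ : κ → ρ → ℕ) (s : ρ → ℕ)
    (A : Set (κ → ℕ)) (B : ℕ), 1 ≤ B → (∀ c l, δ c l ≤ B) →
    (∀ v, Minimal (· ∈ A) v → ∀ c, v c ≤ B) →
    (∃ e : κ → ℚ, (∀ c, 0 ≤ e c) ∧ (∀ v ∈ A, 1 ≤ ∑ c, (v c : ℚ) * e c) ∧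
      ∀ l, ∑ c, (δ c l : ℚ) * e c ≤ s l) →
    ∃ S : Finset (κ → ℚ), (∀ e ∈ S, (∀ c, 0 ≤ e c) ∧ (∀ v ∈ A, 1 ≤ ∑ c, (v c : ℚ) * e c) ∧
      (∀ l, ∑ c, (δ c l : ℚ) * e c ≤ s l) ∧
      ∃ T : ℕ, 0 < T ∧ T ≤ (Fintype.card κ).factorial * B ^ Fintype.card κ ∧
        ∀ c, ∃ w : ℤ, (T : ℚ) * e c = w) ∧
      ∃ C : ℕ, ∀ v : κ → ℕ, ∃ e ∈ S, ∃ Y : ρ → ℚ, (∀ l, 0 ≤ Y l ∧ Y l ≤ C * ∑ c, (v c : ℚ)) ∧
        ∀ (Q : ρ → ℕ) (m j r : ℕ),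
        (∀ (M : ℕ) {ι : Type} [Fintype ι] (V : ι → κ → ℕ) (μ : ρ → ℕ), 1 ≤ M →
          (∀ i, V i ∈ A) → (∀ c, ∑ i, V i c ≤ M * v c + ∑ l, μ l * δ c l) →
          m * Fintype.card ι ≤ ∑ l, (m * s l + Q l * (j + 1)) * μ l + M * r) →
        (m : ℚ) * ∑ c, (v c : ℚ) * e c ≤ r + (j + 1) * ∑ l, (Q l : ℚ) * Y l

/-- Counting functions with bounded poles. -/
def S_Cnt : Prop := ∀ {K : Type} [Field K] [Algebra ℂ K] [Algebra.EssFiniteType ℂ K] {n r h : ℕ},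
    Algebra.trdeg ℂ K = ((n + 1 : ℕ) : Cardinal) → ∀ (g : Fin r → K) (x : Fin h → Fin r),
    AlgebraicIndependent ℂ (fun i => g (x i)) →
    (∀ j, IsAlgebraic (IntermediateField.adjoin ℂ (Set.range fun i => g (x i))) (g j)) →
    ∀ (S : Finset K) (c : ℕ), ∃ C : ℕ, ∀ (q M : ℕ) (f : Fin M → K), LinearIndependent ℂ f →
      (∀ l, ∀ P : Place ℂ K, Divisorial (n + 1) P → f l = 0 ∨ ∃ i,
        (q : ℤ) * min 0 (P.ord (g i)) - c * ∑ s ∈ S, |P.ord s| ≤ P.ord (f l)) →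
      M ≤ C * (q + 1) ^ h

/-- Integrality and divisorial places. -/
def S_Int : Prop := ∀ {K : Type} [Field K] [Algebra ℂ K] [Algebra.EssFiniteType ℂ K] {n r : ℕ},
    Algebra.trdeg ℂ K = ((n + 1 : ℕ) : Cardinal) → ∀ (g : Fin r → K) (φ : K),
    (∀ P : Place ℂ K, Divisorial (n + 1) P → (∀ i, P.Reg (g i)) → P.Reg φ) →
    IsIntegral (Algebra.adjoin ℂ (Set.range g)) φ

/-- Finite generation of graded rings. -/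
def S_FG : Prop := ∀ {K : Type} [Field K] [Algebra ℂ K] [Algebra.EssFiniteType ℂ K]
    (V : ℕ → Submodule ℂ K), (∀ m m' f f', f ∈ V m → f' ∈ V m' → f * f' ∈ V (m + m')) →
    (1 : K) ∈ V 0 → (∀ f ∈ V 0, IsAlgebraic ℂ f) → ∀ {r T : ℕ} (ω : Fin r → K), 0 < T →
    (∀ i, ω i ∈ V T) → (∀ m, 1 ≤ m → ∀ f ∈ V m, f ≠ 0 → ∃ i, ω i ≠ 0) →
    (∀ m, 1 ≤ m → ∀ f ∈ V m, ∀ i, ω i ≠ 0 →
      IsIntegral (Algebra.adjoin ℂ (Set.range fun j => ω j / ω i)) (f ^ T / ω i ^ m)) →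
    ∃ (s : ℕ) (w : Fin s → ℕ) (x : Fin s → K), (∀ i, 1 ≤ w i ∧ x i ∈ V (w i)) ∧
      ∀ m, ∀ f ∈ V m, f ∈ Submodule.span ℂ
        {p | ∃ a : Fin s → ℕ, ∑ i, a i * w i = m ∧ p = ∏ i, x i ^ a i}

end Pool.Agent.Q41.AB
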