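import Pool.Agent.Q41.AB.Gd
import Pool.Agent.Q41.AB.Stm3

/-!
The main inequality in terms of the vertices, with explicit constants.
-/

set_option autoImplicit false
set_option linter.overlappingInstances false
set_option linter.unusedSectionVars false
set_option maxHeartbeats 1000000

open FF MvPolynomial IntermediateField Pool.Agent.W603.LV Pool.Agent.W619.PQ
open Pool.Agent.W619.TW Pool.Agent.W602.GT Pool.Agent.TH122.AB Pool.Agent.TH756.PN

namespace Pool.Agent.Q41.AB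

open Pool.Agent.Q41.RC (MH IsPt SNC DatK IsCov CovK bwK IsVec IsExp)
open Pool.Agent.Q57.TP (SecD BSec BPsef bsec_sec)

section

variable {ρ σ κ J : Type} [Fintype ρ] [Fintype σ] [Fintype κ]
  {pr : σ → ρ} {δ : κ → ρ → ℕ} {F : κ → MvPolynomial σ ℂ} {m : J → ℕ}
    {a : J → κ → ℕ} {S : κ → Prop}

/-- the entries of the minimal vectors -/
theorem vec_min_le {E : ℕ} (hE0 : 0 < E) (hE : ∀ j c, m j ∣ E * a j c) {v : κ → ℕ}
    (hmin : Minimal (· ∈ {v | IsVec pr m a S F v}) v) (c : κ) : v c ≤ E := by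
  classical
  by_contra hcon
  push Not at hcon
  have hv : IsVec pr m a S F v := hmin.1
  let v' : κ → ℕ := fun c' => if c' = c then v c' - E else v c'
  have hv' : ∀ c', v c' = v' c' + if c' = c then E else 0 := by
    intro c'
    simp only [v']
    split_ifs with h1
    · rw [h1]
      omega
    · rfl
  have hle : v' ≤ v := by
    intro c'
    rw [hv' c']
    exact Nat.le_add_right _ _
  have hvec : IsVec pr m a S F v' := by
    refine ⟨fun h0 => ?_, fun c' hc' => ?_, fun j => ?_, ?_⟩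
    · have h1 := congrFun h0 c
      simp only [v', if_true, Pi.zero_apply] at h1
      omega
    · exact Nat.le_zero.1 ((hle c').trans (hv.out c' hc').le)
    · have h1 := hv.dvd j
      have h2 : ∑ c', a j c' * v c' = ∑ c', a j c' * v' c' + E * a j c := by
        have h3 : ∀ c', a j c' * v c' = a j c' * v' c' + if c' = c then E * a j c else 0 := by
          intro c'
          rw [hv' c', mul_add]
          congr 1
          split_ifs with h4
          · rw [h4, mul_comm]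
          · rw [mul_zero]
        rw [Finset.sum_congr rfl fun c' _ => h3 c', Finset.sum_add_distrib]
        simp
      rw [h2] at h1
      exact (Nat.dvd_add_left (hE j c)).1 h1
    · obtain ⟨x, hx, hx0⟩ := hv.pt
      refine ⟨x, hx, fun c' hc' => hx0 c' fun h0 => hc' ?_⟩
      exact Nat.le_zero.1 ((hle c').trans h0.le)
  have h1 := hmin.2 (show v' ∈ {w | IsVec pr m a S F w} from hvec) hle
  have h2 := h1 c
  simp only [v', if_true] at h2
  omega

/-- the family of the vectors -/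
theorem hAc_vec (hdiv : ∀ j l, m j ∣ ∑ c, a j c * δ c l) {ι : Type} [Fintype ι] (V : ι → κ → ℕ)
    (μ : ρ → ℕ) (v' : κ → ℕ) (hV : ∀ i, IsVec pr m a S F (V i)) (hv' : v' ∈ Lam pr F)
    (hv0 : v' ≠ 0) (heq : ∀ c, ∑ i, V i c = v' c + ∑ l, μ l * δ c l) :
    IsVec pr m a S F v' := by
  refine ⟨hv0, fun c hc => ?_, fun i => ?_, hv'⟩
  · have h2 := heq c
    rw [Finset.sum_eq_zero fun i _ => (hV i).out c hc] at h2
    omega
  · have h2 : ∑ c, a i c * ∑ i', V i' c = ∑ c, a i c * v' c + ∑ l, μ l * ∑ c, a i c * δ c l := by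
      have h3 : ∀ c, a i c * ∑ i', V i' c = a i c * v' c + ∑ l, μ l * (a i c * δ c l) := by
        intro c
        rw [heq c, mul_add, Finset.mul_sum]
        congr 1
        exact Finset.sum_congr rfl fun l _ => by ring
      rw [Finset.sum_congr rfl fun c _ => h3 c, Finset.sum_add_distrib, Finset.sum_comm]
      congr 1
      exact Finset.sum_congr rfl fun l _ => by rw [Finset.mul_sum]
    have h4 : m i ∣ ∑ c, a i c * ∑ i', V i' c := by
      have h5 : ∑ c, a i c * ∑ i', V i' c = ∑ i', ∑ c, a i c * V i' c := by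
        rw [Finset.sum_comm]
        exact Finset.sum_congr rfl fun c _ => Finset.mul_sum _ _ _
      rw [h5]
      exact Finset.dvd_sum fun i' _ => (hV i').dvd i
    have h6 : m i ∣ ∑ l, μ l * ∑ c, a i c * δ c l :=
      Finset.dvd_sum fun l _ => Dvd.dvd.mul_left (hdiv i l) _
    rw [h2] at h4
    exact (Nat.dvd_add_iff_left h6).2 h4

theorem h0_vec {e0 : κ → ℚ} (he0 : IsExp pr δ m a S F e0) {ι : Type} [Fintype ι]
    (V : ι → κ → ℕ) (μ : ρ → ℕ) (hV : ∀ i, IsVec pr m a S F (V i))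
    (hle' : ∀ c, ∑ i, V i c ≤ ∑ l, μ l * δ c l) :
    (Fintype.card ι : ℤ) ≤ ∑ l, (μ l : ℤ) * sg pr δ l := by
  have h2 : (Fintype.card ι : ℚ) ≤ ∑ i, ∑ c, (V i c : ℚ) * e0 c := by
    have h3 : ∑ i : ι, (1 : ℚ) ≤ ∑ i, ∑ c, (V i c : ℚ) * e0 c :=
      Finset.sum_le_sum fun i _ => he0.one_le (V i) (hV i)
    simpa using h3
  have h3 : ∑ i, ∑ c, (V i c : ℚ) * e0 c ≤ ∑ c, (∑ l, (μ l : ℚ) * δ c l) * e0 c := by
    rw [Finset.sum_comm]
    refine Finset.sum_le_sum fun c _ => ?_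
    rw [← Finset.sum_mul]
    refine mul_le_mul_of_nonneg_right ?_ (he0.nonneg c)
    exact_mod_cast hle' c
  have h4 : ∑ c, (∑ l, (μ l : ℚ) * δ c l) * e0 c = ∑ l, (μ l : ℚ) * ∑ c, (δ c l : ℚ) * e0 c := by
    have h5 : ∀ c, (∑ l, (μ l : ℚ) * δ c l) * e0 c = ∑ l, (μ l : ℚ) * ((δ c l : ℚ) * e0 c) := by
      intro c
      rw [Finset.sum_mul]
      exact Finset.sum_congr rfl fun l _ => by ring
    rw [Finset.sum_congr rfl fun c _ => h5 c, Finset.sum_comm]
    exact Finset.sum_congr rfl fun l _ => by rw [Finset.mul_sum]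
  have h5 : ∑ l, (μ l : ℚ) * ∑ c, (δ c l : ℚ) * e0 c ≤ ∑ l, (μ l : ℚ) * sg pr δ l :=
    Finset.sum_le_sum fun l _ => mul_le_mul_of_nonneg_left (exp_sg he0 l) (by positivity)
  have h6 : (Fintype.card ι : ℚ) ≤ ∑ l, (μ l : ℚ) * sg pr δ l := by
    linarith
  exact_mod_cast h6

/-- **The main inequality in terms of the vertices, with explicit constants.** -/
theorem main_ineqX (hComb : S_CombX) (hExt : S_Ext) (hI : S_Inter) (hGen : S_Gen) (hArc : S_Arc)
    (hCurve : S_Curve) (hFin : S_Fin) (hF : ∀ c, MH pr (δ c) (F c)) (hS : SNC pr F)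
    (hdiv : ∀ j l, m j ∣ ∑ c, a j c * δ c l) (hE : ∃ e, IsExp pr δ m a S F e) {B : ℕ} (hB : 1 ≤ B)
    (hδ : ∀ c l, δ c l ≤ B) {E : ℕ} (hE0 : 0 < E) (hEB : E ≤ B) (hEa : ∀ j c, m j ∣ E * a j c) :
    ∃ Sv : Finset (κ → ℚ), (∀ e ∈ Sv, IsExp pr δ m a S F e ∧ ∃ T : ℕ, 0 < T ∧
        T ≤ (Fintype.card κ).factorial * B ^ Fintype.card κ ∧ ∀ c, ∃ w : ℤ, (T : ℚ) * e c = w) ∧
      ∃ C : ℕ, ∀ v ∈ Lam pr F, ∃ e ∈ Sv, ∃ Y : ρ → ℚ,
        (∀ l, 0 ≤ Y l ∧ Y l ≤ C * ∑ c, (v c : ℚ)) ∧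
        ∀ (DQ : ρ → ℕ) (N j : ℕ) (T : MvPolynomial σ ℂ),
        T ≠ 0 → MH pr (fun l => N * (sg pr δ l).toNat + (j + 1) * DQ l) T →
        (∀ ρv, IsVec pr m a S F ρv → OrdGe pr F ρv N T) →
        (N : ℚ) * ∑ c, (v c : ℚ) * e c ≤ rr pr F T v + (j + 1) * ∑ l, (DQ l : ℚ) * Y l := by
  classical
  obtain ⟨e0, he0⟩ := hE
  have hsg : ∀ l, (((sg pr δ l).toNat : ℕ) : ℤ) = sg pr δ l := fun l =>
    Int.toNat_of_nonneg (sg_nonneg he0 l)
  have hsgq : ∀ l, (((sg pr δ l).toNat : ℕ) : ℚ) = sg pr δ l := by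
    intro l
    exact_mod_cast hsg l
  obtain ⟨Sv, hSv1, C, hSv2⟩ := hComb δ (fun l => (sg pr δ l).toNat) {v | IsVec pr m a S F v} B hB
    hδ (fun v hv c => (vec_min_le hE0 hEa hv c).trans hEB)
    ⟨e0, he0.nonneg, fun v hv => he0.one_le v hv, fun l => by
      rw [hsgq]
      exact exp_sg he0 l⟩
  refine ⟨Sv, fun e he => ?_, C, fun v hv => ?_⟩
  · obtain ⟨h1, h2, h3, h4⟩ := hSv1 e he
    exact ⟨exp_of h1 (fun v hv => h2 v hv) fun l => by
      have h5 := h3 l
      rwa [hsgq] at h5, h4⟩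
  obtain ⟨e, he, Y, hY, hmain⟩ := hSv2 v
  refine ⟨e, he, Y, hY, fun DQ N j T hT0 hT hord => ?_⟩
  refine hmain DQ N j (rr pr F T v) ?_
  intro M ι _ V μ hM hV hle
  have hMv : M • v ∈ Lam pr F := lam_closed hv fun c hc => by
    rw [Pi.smul_apply, smul_eq_mul] at hc
    exact right_ne_zero_of_mul hc
  have h1 := star hExt hI hGen hArc hCurve hFin hF hS hT hT0 {v | IsVec pr m a S F v}
    (fun v hv => hv.pt) (fun V μ v' hV' hv' hv0 heq => hAc_vec hdiv V μ v' hV' hv' hv0 heq) hord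
    (s := sg pr δ) (fun l => rfl) (fun l => by
      have h2 := hsg l
      push_cast
      rw [h2]
      have h3 : (0 : ℤ) ≤ (j + 1) * DQ l := by positivity
      linarith) (fun V μ hV' hle' => h0_vec he0 V μ hV' hle') V μ (M • v) hV hMv
    (fun c => by
      rw [Pi.smul_apply, smul_eq_mul]
      exact hle c)
  rw [rr_smul hFin hT0 M hv] at h1
  have h2 : ((N * Fintype.card ι : ℕ) : ℤ) ≤ ((∑ l, (N * (sg pr δ l).toNat + (j + 1) * DQ l) * μ l +
      M * rr pr F T v : ℕ) : ℤ) := by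
    push_cast at h1 ⊢
    exact h1
  have h3 : N * Fintype.card ι ≤ ∑ l, (N * (sg pr δ l).toNat + (j + 1) * DQ l) * μ l +
      M * rr pr F T v := by exact_mod_cast h2
  refine h3.trans (le_of_eq ?_)
  congr 1
  exact Finset.sum_congr rfl fun l _ => by ring

end

end Pool.Agent.Q41.AB
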