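import Pool.Agent.Q41.AB.Inf

/-!
The curve inequality: curves in the exceptional divisors and the orders of a form.
-/

set_option autoImplicit false
set_option linter.unusedSectionVars false

open MvPolynomial

namespace Pool.Agent.Q41.AB

open Pool.Agent.Q41.RC (MH IsPt SNC)
open Pool.Agent.W603.LV

section defs

variable {k ρ σ κ : Type} [Field k] [Fintype ρ] [Fintype σ] [Fintype κ]

/-- the vectors whose support is a stratum -/
def Lam (pr : σ → ρ) (F : κ → MvPolynomial σ k) : Set (κ → ℕ) :=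
  {v | ∃ q : σ → k, IsPt pr q ∧ ∀ c, v c ≠ 0 → eval q (F c) = 0}

/-- the order of `G` along `v` -/
noncomputable def rr (pr : σ → ρ) (F : κ → MvPolynomial σ k) (G : MvPolynomial σ k) (v : κ → ℕ) : ℕ :=
  sSup {r | OrdGe pr F v r G}

variable {pr : σ → ρ} {F : κ → MvPolynomial σ k} {G : MvPolynomial σ k}

theorem MI_mono {U W : Set (κ → ℕ)} (h : U ⊆ W) : MI F U ≤ MI F W := by
  unfold MI
  apply Ideal.span_mono
  rintro p ⟨a, ha, rfl⟩
  exact ⟨a, h ha, rfl⟩

theorem LocIn.mono {q : σ → k} {U W : Set (κ → ℕ)} (h : U ⊆ W) (hU : LocIn F q U G) :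
    LocIn F q W G := by
  obtain ⟨g, hg, hG⟩ := hU
  exact ⟨g, hg, MI_mono h hG⟩

theorem OrdGe.mono {v : κ → ℕ} {r s : ℕ} (h : s ≤ r) (hr : OrdGe pr F v r G) :
    OrdGe pr F v s G := fun q hq hv => (hr q hq hv).mono fun _ ha => le_trans h ha

theorem ordGe_zero (v : κ → ℕ) : OrdGe pr F v 0 G := by
  intro q _ _
  refine ⟨1, by simp, ?_⟩
  have h1 : (1 : MvPolynomial σ k) ∈ MI F {a | 0 ≤ wt v a} := by
    unfold MI
    refine Ideal.subset_span ⟨0, Nat.zero_le _, ?_⟩
    simp
  rw [one_mul]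
  have h2 := (MI F {a | 0 ≤ wt v a}).mul_mem_left G h1
  rwa [mul_one] at h2

variable (hFin : S_Fin) (hG0 : G ≠ 0)

include hFin hG0

theorem bdd {v : κ → ℕ} (hv : v ∈ Lam pr F) : BddAbove {r | OrdGe pr F v r G} := by
  obtain ⟨r0, hr0⟩ := hFin pr F v G hG0 hv
  refine ⟨r0, fun r hr => ?_⟩
  by_contra hcon
  push Not at hcon
  exact hr0 (OrdGe.mono hcon.le hr)

theorem ordGe_rr {v : κ → ℕ} (hv : v ∈ Lam pr F) : OrdGe pr F v (rr pr F G v) G :=
  Nat.sSup_mem ⟨0, ordGe_zero v⟩ (bdd hFin hG0 hv)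

theorem le_rr {v : κ → ℕ} (hv : v ∈ Lam pr F) {r : ℕ} (h : OrdGe pr F v r G) :
    r ≤ rr pr F G v := le_csSup (bdd hFin hG0 hv) h

theorem not_rr {v : κ → ℕ} (hv : v ∈ Lam pr F) : ¬ OrdGe pr F v (rr pr F G v + 1) G := by
  intro h
  have := le_rr hFin hG0 hv h
  omega

end defs

section poly

variable {k ι : Type} [Field k] [Fintype ι]

theorem monic_prod (u : ℕ) (τ : ι → k) (V : ι → ℕ) :
    (Polynomial.X ^ u * ∏ i, (Polynomial.X - Polynomial.C (τ i)) ^ V i).Monic :=
  (Polynomial.monic_X_pow u).mul (Polynomial.monic_prod_of_monic _ _ fun i _ =>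
    (Polynomial.monic_X_sub_C _).pow _)

theorem natDegree_prod' (u : ℕ) (τ : ι → k) (V : ι → ℕ) :
    (Polynomial.X ^ u * ∏ i, (Polynomial.X - Polynomial.C (τ i)) ^ V i).natDegree =
      u + ∑ i, V i := by
  rw [(Polynomial.monic_X_pow u).natDegree_mul (Polynomial.monic_prod_of_monic _ _ fun i _ =>
    (Polynomial.monic_X_sub_C _).pow _), Polynomial.natDegree_X_pow,
    Polynomial.natDegree_prod_of_monic _ _ fun _ _ => (Polynomial.monic_X_sub_C _).pow _]
  congr 1
  refine Finset.sum_congr rfl fun i _ => ?_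
  rw [(Polynomial.monic_X_sub_C _).natDegree_pow, Polynomial.natDegree_X_sub_C, mul_one]

open scoped Classical in
theorem rm_prod (u : ℕ) (τ : ι → k) (V : ι → ℕ) {γ : k} (hγ : γ ≠ 0) (t : k) :
    ((Polynomial.C γ * (Polynomial.X ^ u * ∏ i, (Polynomial.X - Polynomial.C (τ i)) ^ V i)
      ).rootMultiplicity t : ℤ) = (∑ i, if τ i = t then (V i : ℤ) else 0) +
        if t = 0 then (u : ℤ) else 0 := by
  have hC : (Polynomial.C γ : Polynomial k) ≠ 0 := by rwa [Ne, Polynomial.C_eq_zero]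
  have hX : (Polynomial.X : Polynomial k) ^ u ≠ 0 := pow_ne_zero _ Polynomial.X_ne_zero
  have hP : ∀ i ∈ (Finset.univ : Finset ι), (Polynomial.X - Polynomial.C (τ i) : Polynomial k) ^ V i ≠
      0 := fun i _ => pow_ne_zero _ (Polynomial.X_sub_C_ne_zero _)
  have hPr : (∏ i, (Polynomial.X - Polynomial.C (τ i) : Polynomial k) ^ V i) ≠ 0 :=
    Finset.prod_ne_zero_iff.2 hP
  have hpow : ∀ (q : Polynomial k) (n : ℕ), q ≠ 0 →
      (q ^ n).rootMultiplicity t = n * q.rootMultiplicity t := by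
    intro q n hq
    rw [← Polynomial.count_roots, ← Polynomial.count_roots, Polynomial.roots_pow,
      Multiset.count_nsmul]
  have hprod : ∀ s : Finset ι, (∏ i ∈ s, (Polynomial.X - Polynomial.C (τ i) : Polynomial k) ^ V i
      ).rootMultiplicity t = ∑ i ∈ s, if τ i = t then V i else 0 := by
    intro s
    induction s using Finset.induction_on with
    | empty =>
      rw [Finset.prod_empty, Finset.sum_empty, show (1 : Polynomial k) = Polynomial.C 1 from rfl,
        Polynomial.rootMultiplicity_C]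
    | insert i s hi ih =>
      have h1 : (∏ i ∈ s, (Polynomial.X - Polynomial.C (τ i) : Polynomial k) ^ V i) ≠ 0 :=
        Finset.prod_ne_zero_iff.2 fun j _ => hP j (Finset.mem_univ j)
      rw [Finset.prod_insert hi, Finset.sum_insert hi, rm_mul t (hP i (Finset.mem_univ i)) h1, ih,
        hpow _ _ (Polynomial.X_sub_C_ne_zero _), Polynomial.rootMultiplicity_X_sub_C]
      by_cases h2 : t = τ i
      · rw [if_pos h2, if_pos h2.symm, mul_one]
      · rw [if_neg h2, if_neg (Ne.symm h2), mul_zero]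
  rw [rm_mul t hC (mul_ne_zero hX hPr), rm_mul t hX hPr, Polynomial.rootMultiplicity_C, hprod,
    hpow _ _ Polynomial.X_ne_zero]
  have h3 : (Polynomial.X : Polynomial k).rootMultiplicity t = if t = 0 then 1 else 0 := by
    have h4 : (Polynomial.X : Polynomial k) = Polynomial.X - Polynomial.C 0 := by
      rw [map_zero, sub_zero]
    rw [h4, Polynomial.rootMultiplicity_X_sub_C]
  rw [h3]
  push_cast
  by_cases h5 : t = 0
  · rw [if_pos h5, if_pos h5]
    ring
  · rw [if_neg h5, if_neg h5]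
    ring

end poly

section main

variable {k ρ σ κ : Type} [Field k] [IsAlgClosed k] [Fintype ρ] [Fintype σ] [Fintype κ]

/-- arcs over a curve -/
theorem exists_arc (hArc : S_Arc) {pr : σ → ρ} {δ : κ → ρ → ℕ} {F : κ → MvPolynomial σ k}
    (hF : ∀ c, MH pr (δ c) (F c)) (hS : SNC pr F) {Q : σ → Polynomial k}
    (hQ : ∀ l, ∃ i, pr i = l ∧ Q i ≠ 0) {v : κ → ℕ} {Γ : κ → Polynomial k}
    (h0 : ∀ c, v c ≠ 0 → aeval Q (F c) = 0) (h1 : ∀ c, v c = 0 → aeval Q (F c) = Γ c) :
    ∃ x : σ → Polynomial (RatFunc k),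
      (∀ i, (x i).coeff 0 = algebraMap (Polynomial k) (RatFunc k) (Q i)) ∧
      IsArc F v x fun c => algebraMap (Polynomial k) (RatFunc k) (Γ c) := by
  classical
  obtain ⟨Q', hQ', hpt⟩ := exists_red hQ 0
  obtain ⟨y, hy⟩ : ∃ y : RatFunc k, y =
    algebraMap (Polynomial k) (RatFunc k) (Polynomial.X - Polynomial.C 0) := ⟨_, rfl⟩
  have hy0 : y ≠ 0 := by
    rw [hy, Ne, FaithfulSMul.algebraMap_eq_zero_iff]
    exact Polynomial.X_sub_C_ne_zero 0
  have hsc : ∀ c, aeval Q (F c) =
      (∏ l, ((Polynomial.X - Polynomial.C 0) ^ kmin pr Q 0 l) ^ δ c l) * aeval Q' (F c) := by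
    intro c
    have h2 := (hF c).scale (fun l => (Polynomial.X - Polynomial.C 0 : Polynomial k) ^ kmin pr Q 0 l)
      Q'
    rw [← h2]
    congr 2
    funext i
    exact hQ' i
  obtain ⟨J, hJ⟩ : ∃ J : Finset κ, J = Finset.univ.filter fun c => v c ≠ 0 := ⟨_, rfl⟩
  have hJm : ∀ c, c ∈ J ↔ v c ≠ 0 := by
    intro c
    rw [hJ]
    simp
  have hz : ∀ c ∈ J, aeval Q' (F c) = 0 := by
    intro c hc
    have h2 := hsc c
    rw [h0 c ((hJm c).1 hc)] at h2
    have h3 : (∏ l, ((Polynomial.X - Polynomial.C 0 : Polynomial k) ^ kmin pr Q 0 l) ^ δ c l) ≠ 0 :=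
      Finset.prod_ne_zero_iff.2 fun l _ => pow_ne_zero _ (pow_ne_zero _
        (Polynomial.X_sub_C_ne_zero 0))
    exact (mul_eq_zero.1 h2.symm).resolve_left h3
  have hind : LinearIndependent (RatFunc k) fun (c : J) (i : σ) =>
      aeval (fun i => algebraMap (Polynomial k) (RatFunc k) (Q' i)) (pderiv i (F c.1)) := by
    refine indep_of_pt (t := 0) J ?_
    have h2 := hS _ hpt
    refine h2.comp (fun c : J => (⟨c.1, ?_⟩ :
      {c // eval (fun i => (Q' i).eval 0) (F c) = 0})) ?_
    · rw [← eval_alg, hz c.1 c.2, Polynomial.eval_zero]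
    · intro a b hab
      exact Subtype.ext (congrArg (fun t : {c // eval (fun i => (Q' i).eval 0) (F c) = 0} => t.1)
        hab)
  obtain ⟨f, hf⟩ : ∃ f : ρ → RatFunc k, f = fun l => y ^ kmin pr Q 0 l := ⟨_, rfl⟩
  have hf0 : ∀ l, f l ≠ 0 := by
    intro l
    rw [hf]
    exact pow_ne_zero _ hy0
  obtain ⟨x, hx0, hx⟩ := hArc F J (fun i => algebraMap (Polynomial k) (RatFunc k) (Q' i))
    (fun c hc => by rw [map_alg, hz c hc, map_zero]) hind
    (fun c => Polynomial.C ((∏ l, f l ^ δ c l)⁻¹ * algebraMap (Polynomial k) (RatFunc k) (Γ c)) *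
      Polynomial.X ^ v c) (fun c hc => by
        rw [Polynomial.coeff_C_mul_X_pow, if_neg (Ne.symm ((hJm c).1 hc))]) (∑ c, v c + 1)
  refine ⟨fun i => Polynomial.C (f (pr i)) * x i, fun i => ?_, fun c => ?_⟩
  · rw [Polynomial.coeff_C_mul, hx0, hQ' i, map_mul, map_pow, ← hy, hf]
  · have h2 := (hF c).scale (fun l => (Polynomial.C (f l) : Polynomial (RatFunc k))) x
    have h3 : (∏ l, (Polynomial.C (f l) : Polynomial (RatFunc k)) ^ δ c l) =
        Polynomial.C (∏ l, f l ^ δ c l) := by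
      rw [map_prod]
      exact Finset.prod_congr rfl fun l _ => (map_pow _ _ _).symm
    have hprod0 : (∏ l, f l ^ δ c l) ≠ 0 :=
      Finset.prod_ne_zero_iff.2 fun l _ => pow_ne_zero _ (hf0 l)
    by_cases hc : v c = 0
    · rw [hc, pow_zero, mul_one, zero_add, pow_one, Polynomial.X_dvd_iff, Polynomial.coeff_sub,
        coeff_zero_aeval, Polynomial.coeff_C_zero]
      beta_reduce
      rw [← h1 c hc, ← map_alg, sub_eq_zero]
      congr 2
      funext i
      rw [Polynomial.coeff_C_mul, hx0, hQ' i, map_mul, map_pow, ← hy, hf]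
    · rw [h2, h3]
      have h4 := hx c ((hJm c).2 hc)
      have h5 : v c + 1 ≤ ∑ c, v c + 1 :=
        Nat.succ_le_succ (Finset.single_le_sum (fun _ _ => Nat.zero_le _) (Finset.mem_univ c))
      have h6 := (pow_dvd_pow (Polynomial.X : Polynomial (RatFunc k)) h5).trans h4
      have h7 : Polynomial.C (∏ l, f l ^ δ c l) * aeval x (F c) -
          Polynomial.C (algebraMap (Polynomial k) (RatFunc k) (Γ c)) * Polynomial.X ^ v c =
          Polynomial.C (∏ l, f l ^ δ c l) * (aeval x (F c) -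
            Polynomial.C ((∏ l, f l ^ δ c l)⁻¹ * algebraMap (Polynomial k) (RatFunc k) (Γ c)) *
              Polynomial.X ^ v c) := by
        rw [mul_sub, ← mul_assoc, ← Polynomial.C_mul, ← mul_assoc, mul_inv_cancel₀ hprod0, one_mul]
      rw [h7]
      exact Dvd.dvd.mul_left h6 _

open scoped Classical in
/-- **The curve inequality.** -/
theorem pieces (hI : S_Inter) (hGen : S_Gen) (hArc : S_Arc) (hCurve : S_Curve) (hFin : S_Fin)
    {pr : σ → ρ} {δ : κ → ρ → ℕ} {F : κ → MvPolynomial σ k} (hF : ∀ c, MH pr (δ c) (F c))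
    (hS : SNC pr F) {D : ρ → ℕ} {G : MvPolynomial σ k} (hG : MH pr D G) (hG0 : G ≠ 0)
    {ι : Type} [Fintype ι] (V : ι → κ → ℕ) (μ : ρ → ℕ) (u v : κ → ℕ) (hv : v ∈ Lam pr F)
    (h : ∀ c, ∑ i, V i c + u c = v c + ∑ l, μ l * δ c l)
    (hlt : ∑ c, ∑ l, μ l * δ c l < ∑ i, μ (pr i) + Fintype.card ι) :
    Pieces δ (Lam pr F) (rr pr F G) D V μ u v := by
  classical
  obtain ⟨r, hr⟩ : ∃ r, r = rr pr F G v := ⟨_, rfl⟩
  have hr1 : OrdGe pr F v r G := by
    rw [hr]
    exact ordGe_rr hFin hG0 hv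
  have hr2 : ¬ OrdGe pr F v (r + 1) G := by
    rw [hr]
    exact not_rr hFin hG0 hv
  obtain ⟨q0, g1, T1, P1, hq0, hq1, hq2, hg1, hrep1, hT1, a0, ha0, ha0r, ha0P⟩ :=
    hGen pr F hS v r G hr1 hr2
  -- the values on the torus
  obtain ⟨γ, hγ0, hγ⟩ := exists_torus T1 (fun a => if wt v a = r then eval q0 (P1 a) else 0)
    ⟨a0, ha0, by rw [if_pos ha0r]; exact ha0P⟩
  obtain ⟨γ', hγ'⟩ : ∃ γ' : κ → k, γ' = fun c => if v c = 0 then eval q0 (F c) else γ c := ⟨_, rfl⟩
  have hγ'0 : ∀ c, γ' c ≠ 0 := by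
    intro c
    rw [hγ']
    dsimp only
    split_ifs with hc
    · exact hq2 c hc
    · exact hγ0 c
  have hlf : lf v r T1 P1 q0 γ' ≠ 0 := by
    have h1 : lf v r T1 P1 q0 γ' =
        ∑ a ∈ T1, (if wt v a = r then eval q0 (P1 a) else 0) * ∏ c, γ c ^ a c := by
      unfold lf
      refine Finset.sum_congr rfl fun a ha => ?_
      rw [ite_mul, zero_mul]
      split_ifs with hwt
      · have h2 : ∏ c, γ' c ^ a c = ∏ c, γ c ^ a c := by
          refine Finset.prod_congr rfl fun c _ => ?_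
          by_cases hc : v c = 0
          · rw [(hT1 a ha).2 c hc, pow_zero, pow_zero]
          · rw [hγ']
            dsimp only
            rw [if_neg hc]
        rw [h2]
        rfl
      · rfl
    rw [h1]
    exact hγ
  -- the curve
  obtain ⟨Q, τ, hQd, hQc, hQF, hQn⟩ := hCurve pr δ F hF q0 μ V u (fun c hc => by
    have h1 : v c = 0 := by
      by_contra h2
      exact hc (hq1 c h2)
    rw [h c, h1, zero_add]) hlt
  have hQ0 : ∀ l, ∃ i, pr i = l ∧ Q i ≠ 0 := by
    intro l
    obtain ⟨i, hi, hi0⟩ := hq0 l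
    refine ⟨i, hi, fun h0 => hi0 ?_⟩
    rw [← hQc i, h0, Polynomial.coeff_zero]
  obtain ⟨Γ, hΓ⟩ : ∃ Γ : κ → Polynomial k, Γ = fun c => Polynomial.C (γ' c) *
    (Polynomial.X ^ u c * ∏ i, (Polynomial.X - Polynomial.C (τ i)) ^ V i c) := ⟨_, rfl⟩
  have hΓne : ∀ c, Γ c ≠ 0 := by
    intro c
    rw [hΓ]
    exact mul_ne_zero (by rw [Ne, Polynomial.C_eq_zero]; exact hγ'0 c) (monic_prod _ _ _).ne_zero
  have hF0 : ∀ c, v c ≠ 0 → aeval Q (F c) = 0 := by
    intro c hc
    rw [hQF c, hq1 c hc, map_zero, zero_mul]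
  have hF1 : ∀ c, v c = 0 → aeval Q (F c) = Γ c := by
    intro c hc
    rw [hQF c, hΓ, hγ']
    dsimp only
    rw [if_pos hc]
  have hdegm : ∀ c, u c + ∑ i, V i c = v c + ∑ l, μ l * δ c l := by
    intro c
    rw [← h c, add_comm]
  have hΓd : ∀ c, (Γ c).natDegree ≤ v c + ∑ l, μ l * δ c l := by
    intro c
    rw [hΓ]
    refine (Polynomial.natDegree_C_mul_le _ _).trans (le_of_eq ?_)
    rw [natDegree_prod', hdegm]
  have hΓc : ∀ c, (Γ c).coeff (v c + ∑ l, μ l * δ c l) = γ' c := by
    intro c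
    rw [hΓ]
    dsimp only
    have h1 := (monic_prod (u c) τ fun i => V i c).coeff_natDegree
    rw [natDegree_prod', hdegm] at h1
    rw [Polynomial.coeff_C_mul, h1, mul_one]
  obtain ⟨x, hx0, hx⟩ := exists_arc hArc hF hS hQ0 hF0 hF1
  obtain ⟨hH, hinf⟩ := ord_inf hF hG hQd hQc hΓd hΓc hg1 hrep1 (fun a ha => (hT1 a ha).1) hlf hx0 hx
  -- the order at a point
  have hloc : ∀ (t : k) (R : ℕ) (w : κ → ℕ) (r1 : ℕ), OrdGe pr F w r1 G →
      (∀ c, (w c : ℤ) = (Γ c).rootMultiplicity t - ∑ l, (kmin pr Q t l : ℤ) * δ c l + R * v c) →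
      (∑ l, (D l : ℤ) * kmin pr Q t l) + r1 - R * r ≤ (pt t).ord ((aeval x G).coeff r) := by
    intro t R w r1 hr3 hw
    obtain ⟨Q', hQ', hpt⟩ := exists_red hQ0 t
    have hsc : ∀ c, aeval Q (F c) =
        (∏ l, ((Polynomial.X - Polynomial.C t) ^ kmin pr Q t l) ^ δ c l) * aeval Q' (F c) := by
      intro c
      have h2 := (hF c).scale (fun l => (Polynomial.X - Polynomial.C t : Polynomial k) ^
        kmin pr Q t l) Q'
      rw [← h2]
      congr 2
      funext i
      exact hQ' i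
    have hpr0 : ∀ c, (∏ l, ((Polynomial.X - Polynomial.C t : Polynomial k) ^ kmin pr Q t l) ^ δ c l) ≠
        0 := fun c => Finset.prod_ne_zero_iff.2 fun l _ => pow_ne_zero _ (pow_ne_zero _
          (Polynomial.X_sub_C_ne_zero t))
    have hv' : ∀ c, v c ≠ 0 → eval (fun i => (Q' i).eval t) (F c) = 0 := by
      intro c hc
      have h2 := hsc c
      rw [hF0 c hc] at h2
      rw [← eval_alg, (mul_eq_zero.1 h2.symm).resolve_left (hpr0 c), Polynomial.eval_zero]
    have hw' : ∀ c, w c ≠ 0 → eval (fun i => (Q' i).eval t) (F c) = 0 := by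
      intro c hc
      by_cases hvc : v c = 0
      · by_contra h3
        rw [← eval_alg] at h3
        have h4 : aeval Q' (F c) ≠ 0 := by
          intro h5
          rw [h5, Polynomial.eval_zero] at h3
          exact h3 rfl
        have h5 := congrArg (Polynomial.rootMultiplicity t) (hsc c)
        rw [hF1 c hvc, rm_mul t (hpr0 c) h4, Polynomial.rootMultiplicity_eq_zero h3, add_zero] at h5
        have h6 : (∏ l, ((Polynomial.X - Polynomial.C t : Polynomial k) ^ kmin pr Q t l) ^ δ c l) =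
            (Polynomial.X - Polynomial.C t) ^ (∑ l, kmin pr Q t l * δ c l) := by
          rw [← Finset.prod_pow_eq_pow_sum]
          exact Finset.prod_congr rfl fun l _ => (pow_mul _ _ _).symm
        rw [h6, ← Polynomial.count_roots, ← Polynomial.count_roots, Polynomial.roots_pow,
          Polynomial.roots_X_sub_C, Multiset.count_nsmul, Multiset.count_singleton_self,
          mul_one] at h5
        have h7 := hw c
        rw [← Polynomial.count_roots, h5, hvc] at h7
        push_cast at h7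
        apply hc
        have h8 : (w c : ℤ) = 0 := by
          rw [h7]
          ring
        exact_mod_cast h8
      · exact hv' c hvc
    have hup : ∀ (z : κ → ℕ) (s : ℕ), IsUpperSet {a : κ → ℕ | s ≤ wt z a} := by
      intro z s a b hab ha
      refine le_trans (show s ≤ wt z a from ha) ?_
      unfold wt
      exact Finset.sum_le_sum fun c _ => Nat.mul_le_mul_right _ (hab c)
    have hdep : ∀ (z : κ → ℕ) (s : ℕ), (∀ c, z c ≠ 0 → eval (fun i => (Q' i).eval t) (F c) = 0) →
        ∀ a ∈ {a : κ → ℕ | s ≤ wt z a}, ∀ b : κ → ℕ,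
        (∀ c, eval (fun i => (Q' i).eval t) (F c) = 0 → b c = a c) → b ∈ {a : κ → ℕ | s ≤ wt z a} := by
      intro z s hz a ha b hb
      have h2 : wt z b = wt z a := by
        unfold wt
        refine Finset.sum_congr rfl fun c _ => ?_
        by_cases hc : z c = 0
        · rw [hc, mul_zero, mul_zero]
        · rw [hb c (hz c hc)]
      change s ≤ wt z b
      rw [h2]
      exact ha
    obtain ⟨g, hg, hgm⟩ := hI pr F hS _ hpt {a | r ≤ wt v a} {a | r1 ≤ wt w a} (hup v r) (hup w r1)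
      (hdep v r hv') (hdep w r1 hw') G (hr1 _ hpt hv') (hr3 _ hpt hw')
    obtain ⟨T, P, hrep, hT⟩ := mi_rep hgm
    exact ord_loc hF hG hQ' hΓne hw hg hrep (fun a ha => hT a ha) hx0 hx hH
  -- the points
  obtain ⟨E, hE⟩ : ∃ E : Finset k, E = insert 0 (Finset.univ.image τ ∪
    Finset.univ.biUnion fun i => (Q i).roots.toFinset) := ⟨_, rfl⟩
  have h0E : (0 : k) ∈ E := by
    rw [hE]
    exact Finset.mem_insert_self _ _
  have hτE : ∀ i, τ i ∈ E := by
    intro i
    rw [hE]
    exact Finset.mem_insert_of_mem (Finset.mem_union_left _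
      (Finset.mem_image_of_mem τ (Finset.mem_univ i)))
  have hQE : ∀ i t, Q i ≠ 0 → (Q i).IsRoot t → t ∈ E := by
    intro i t hi ht
    rw [hE]
    exact Finset.mem_insert_of_mem (Finset.mem_union_right _ (Finset.mem_biUnion.2
      ⟨i, Finset.mem_univ i, Multiset.mem_toFinset.2 ((Polynomial.mem_roots hi).2 ht)⟩))
  have hwp : ∀ (t : E) (c : κ), wp δ V u (⟨0, h0E⟩ : E) (fun i => ⟨τ i, hτE i⟩)
      (fun t l => kmin pr Q t.1 l) t c =
      (Γ c).rootMultiplicity t.1 - ∑ l, (kmin pr Q t.1 l : ℤ) * δ c l := by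
    intro t c
    unfold wp
    rw [hΓ]
    dsimp only
    rw [rm_prod (u c) τ (fun i => V i c) (hγ'0 c) t.1]
    congr 2
    · refine Finset.sum_congr rfl fun i _ => ?_
      by_cases h2 : τ i = t.1
      · rw [if_pos h2, if_pos (Subtype.ext h2)]
      · rw [if_neg h2, if_neg fun h3 => h2 (congrArg Subtype.val h3)]
    · by_cases h2 : t.1 = 0
      · rw [if_pos h2, if_pos (Subtype.ext h2)]
      · rw [if_neg h2, if_neg fun h3 => h2 (congrArg Subtype.val h3)]
  refine ⟨E, inferInstance, ⟨0, h0E⟩, fun i => ⟨τ i, hτE i⟩, fun t l => kmin pr Q t.1 l, ?_, ?_, ?_,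
    ?_, ?_⟩
  · intro l
    have h1 := sum_kmin_le hQd hQ0 E l
    rw [← Finset.sum_coe_sort E] at h1
    exact h1
  · intro t c hc
    rw [hwp]
    obtain ⟨Q', hQ', hpt⟩ := exists_red hQ0 t.1
    have h2 := (hF c).scale (fun l => (Polynomial.X - Polynomial.C t.1 : Polynomial k) ^
      kmin pr Q t.1 l) Q'
    have h3 : (fun i => (Polynomial.X - Polynomial.C t.1 : Polynomial k) ^ kmin pr Q t.1 (pr i) *
      Q' i) = Q := funext fun i => (hQ' i).symm
    rw [h3, hF1 c hc] at h2
    have h6 : (∏ l, ((Polynomial.X - Polynomial.C t.1 : Polynomial k) ^ kmin pr Q t.1 l) ^ δ c l) =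
        (Polynomial.X - Polynomial.C t.1) ^ (∑ l, kmin pr Q t.1 l * δ c l) := by
      rw [← Finset.prod_pow_eq_pow_sum]
      exact Finset.prod_congr rfl fun l _ => (pow_mul _ _ _).symm
    rw [h6] at h2
    have h4 : ∑ l, kmin pr Q t.1 l * δ c l ≤ (Γ c).rootMultiplicity t.1 :=
      (Polynomial.le_rootMultiplicity_iff (hΓne c)).2 ⟨_, h2⟩
    have h5 : ((∑ l, kmin pr Q t.1 l * δ c l : ℕ) : ℤ) ≤ (Γ c).rootMultiplicity t.1 := by
      exact_mod_cast h4
    push_cast at h5
    linarith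
  · intro R w t hw
    obtain ⟨Q', hQ', hpt⟩ := exists_red hQ0 t.1
    refine ⟨_, hpt, fun c hc => ?_⟩
    have h2 := (hF c).scale (fun l => (Polynomial.X - Polynomial.C t.1 : Polynomial k) ^
      kmin pr Q t.1 l) Q'
    have h3 : (fun i => (Polynomial.X - Polynomial.C t.1 : Polynomial k) ^ kmin pr Q t.1 (pr i) *
      Q' i) = Q := funext fun i => (hQ' i).symm
    rw [h3] at h2
    have hpr0 : (∏ l, ((Polynomial.X - Polynomial.C t.1 : Polynomial k) ^ kmin pr Q t.1 l) ^ δ c l) ≠
        0 := Finset.prod_ne_zero_iff.2 fun l _ => pow_ne_zero _ (pow_ne_zero _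
          (Polynomial.X_sub_C_ne_zero t.1))
    by_cases hvc : v c = 0
    · by_contra h3
      rw [← eval_alg] at h3
      have h4 : aeval Q' (F c) ≠ 0 := by
        intro h5
        rw [h5, Polynomial.eval_zero] at h3
        exact h3 rfl
      have h5 := congrArg (Polynomial.rootMultiplicity t.1) h2
      rw [hF1 c hvc, rm_mul t.1 hpr0 h4, Polynomial.rootMultiplicity_eq_zero h3, add_zero] at h5
      have h6 : (∏ l, ((Polynomial.X - Polynomial.C t.1 : Polynomial k) ^ kmin pr Q t.1 l) ^ δ c l) =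
          (Polynomial.X - Polynomial.C t.1) ^ (∑ l, kmin pr Q t.1 l * δ c l) := by
        rw [← Finset.prod_pow_eq_pow_sum]
        exact Finset.prod_congr rfl fun l _ => (pow_mul _ _ _).symm
      rw [h6, ← Polynomial.count_roots, ← Polynomial.count_roots, Polynomial.roots_pow,
        Polynomial.roots_X_sub_C, Multiset.count_nsmul, Multiset.count_singleton_self,
        mul_one] at h5
      have h7 := hw c
      rw [hwp, ← Polynomial.count_roots, h5, hvc] at h7
      push_cast at h7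
      apply hc
      have h8 : (w c : ℤ) = 0 := by
        rw [h7]
        ring
      exact_mod_cast h8
    · rw [hF0 c hvc] at h2
      rw [← eval_alg, (mul_eq_zero.1 h2.symm).resolve_left hpr0, Polynomial.eval_zero]
  · intro R w hw
    have h1 : ∀ t : E, ((∑ l, (D l : ℤ) * kmin pr Q t.1 l) + rr pr F G (w t) - R * rr pr F G v) ≤
        (pt t.1).ord ((aeval x G).coeff r) := by
      intro t
      have hwt : w t ∈ Lam pr F := by
        obtain ⟨Q', hQ', hpt⟩ := exists_red hQ0 t.1
        refine ⟨_, hpt, fun c hc => ?_⟩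
        have h2 := (hF c).scale (fun l => (Polynomial.X - Polynomial.C t.1 : Polynomial k) ^
          kmin pr Q t.1 l) Q'
        have h3 : (fun i => (Polynomial.X - Polynomial.C t.1 : Polynomial k) ^
          kmin pr Q t.1 (pr i) * Q' i) = Q := funext fun i => (hQ' i).symm
        rw [h3] at h2
        have hpr0 : (∏ l, ((Polynomial.X - Polynomial.C t.1 : Polynomial k) ^ kmin pr Q t.1 l) ^
            δ c l) ≠ 0 := Finset.prod_ne_zero_iff.2 fun l _ => pow_ne_zero _ (pow_ne_zero _
              (Polynomial.X_sub_C_ne_zero t.1))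
        by_cases hvc : v c = 0
        · by_contra h3
          rw [← eval_alg] at h3
          have h4 : aeval Q' (F c) ≠ 0 := by
            intro h5
            rw [h5, Polynomial.eval_zero] at h3
            exact h3 rfl
          have h5 := congrArg (Polynomial.rootMultiplicity t.1) h2
          rw [hF1 c hvc, rm_mul t.1 hpr0 h4, Polynomial.rootMultiplicity_eq_zero h3, add_zero] at h5
          have h6 : (∏ l, ((Polynomial.X - Polynomial.C t.1 : Polynomial k) ^ kmin pr Q t.1 l) ^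
              δ c l) = (Polynomial.X - Polynomial.C t.1) ^ (∑ l, kmin pr Q t.1 l * δ c l) := by
            rw [← Finset.prod_pow_eq_pow_sum]
            exact Finset.prod_congr rfl fun l _ => (pow_mul _ _ _).symm
          rw [h6, ← Polynomial.count_roots, ← Polynomial.count_roots, Polynomial.roots_pow,
            Polynomial.roots_X_sub_C, Multiset.count_nsmul, Multiset.count_singleton_self,
            mul_one] at h5
          have h7 := hw t c
          rw [hwp, ← Polynomial.count_roots, h5, hvc] at h7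
          push_cast at h7
          apply hc
          have h8 : (w t c : ℤ) = 0 := by
            rw [h7]
            ring
          exact_mod_cast h8
        · rw [hF0 c hvc] at h2
          rw [← eval_alg, (mul_eq_zero.1 h2.symm).resolve_left hpr0, Polynomial.eval_zero]
      rw [← hr]
      refine hloc t.1 R (w t) _ (ordGe_rr hFin hG0 hwt) fun c => ?_
      rw [hw t c, hwp]
    have h2 : ∀ t, t ∉ E → 0 ≤ (pt t).ord ((aeval x G).coeff r) := by
      intro t ht
      have hk : ∀ l, kmin pr Q t l = 0 := by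
        intro l
        obtain ⟨i, hi, hi0, him⟩ := kmin_mem hQ0 t l
        rw [← him]
        apply Polynomial.rootMultiplicity_eq_zero
        intro h3
        exact ht (hQE i t hi0 h3)
      have h3 := hloc t 0 0 0 (ordGe_zero 0) fun c => by
        rw [hΓ]
        dsimp only
        rw [rm_prod (u c) τ (fun i => V i c) (hγ'0 c) t]
        have h4 : (∑ i, if τ i = t then ((V i c : ℕ) : ℤ) else 0) = 0 := by
          refine Finset.sum_eq_zero fun i _ => ?_
          rw [if_neg]
          intro h5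
          exact ht (h5 ▸ hτE i)
        rw [h4, if_neg fun h5 : t = 0 => ht (h5 ▸ h0E)]
        simp [hk]
      simpa [hk] using h3
    calc ∑ t : E, ((∑ l, (D l : ℤ) * kmin pr Q t.1 l) + rr pr F G (w t) - R * rr pr F G v)
        ≤ ∑ t : E, (pt t.1).ord ((aeval x G).coeff r) := Finset.sum_le_sum fun t _ => h1 t
      _ = ∑ t ∈ E, (pt t).ord ((aeval x G).coeff r) :=
          Finset.sum_coe_sort E (fun t => (pt t).ord ((aeval x G).coeff r))
      _ ≤ - (inf : FF.Place k (RatFunc k)).ord ((aeval x G).coeff r) := sum_ord_le hH E h2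
      _ = _ := by rw [hinf, hr]
  · rintro ⟨h1, h2⟩
    have h3 : ∀ i, τ i = 0 := fun i => congrArg Subtype.val (h2 i)
    rcases hQn with ⟨i, hi⟩ | ⟨j, hj⟩
    · apply hi
      have h4 : kmin pr Q 0 (pr i) = μ (pr i) := congrFun h1 (pr i)
      obtain ⟨Q', hQ', -⟩ := exists_red hQ0 0
      have h5 := hQ' i
      rw [h4, map_zero, sub_zero] at h5
      by_cases hq : Q' i = 0
      · have h6 := hQc i
        rw [hq, mul_zero] at h5
        rw [h5, Polynomial.coeff_zero] at h6
        rw [h5, ← h6, map_zero, zero_mul]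
      · have h6 := hQd i
        rw [h5, Polynomial.natDegree_mul (pow_ne_zero _ Polynomial.X_ne_zero) hq,
          Polynomial.natDegree_X_pow] at h6
        have h7 : (Q' i).natDegree = 0 := by omega
        obtain ⟨a, ha⟩ := Polynomial.natDegree_eq_zero.1 h7
        have h8 := hQc i
        rw [h5, ← ha, mul_comm, Polynomial.coeff_C_mul_X_pow, if_pos rfl] at h8
        rw [h5, ← ha, h8, mul_comm]
    · exact hj (h3 j)

end main

end Pool.Agent.Q41.AB
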