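import Pool.Agent.Q41.AB.Stm2
import Pool.Agent.Q57.TP.Kod
import Pool.Agent.TH756.PN.NuP

/-!
The orders of the sections at the places of the irreducible polynomials and at infinity.
-/

set_option autoImplicit false
set_option linter.overlappingInstances false
set_option linter.unusedSectionVars false
set_option maxHeartbeats 400000

open FF MvPolynomial IntermediateField Pool.Agent.W603.LV Pool.Agent.W619.PQ
open Pool.Agent.W619.TW Pool.Agent.W602.GT Pool.Agent.TH122.AB Pool.Agent.TH756.PN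

namespace Pool.Agent.Q41.AB

open Pool.Agent.Q41.RC (MH IsPt SNC DatK IsCov CovK bwK)
open Pool.Agent.Q57.TP (SecD)

section

variable {K ρ σ κ J : Type} [Field K] [Algebra ℂ K] [Fintype ρ] [Fintype σ] [Fintype κ]

/-- the set-up: the abelian cover, the coordinates, the Galois group, the vector fields -/
structure Su (pr : σ → ρ) (o : ρ → σ) (δ : κ → ρ → ℕ) (F : κ → MvPolynomial σ ℂ) (m : J → ℕ)
    (a : J → κ → ℕ) (y : σ → K) (z : J → K) {n : ℕ} (ε : ρ ⊕ Fin (n + 1) ≃ σ)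
    (G : Subgroup (K ≃ₐ[ℂ] K)) (X : Fin (n + 1) → IntermediateField.fixedField G)
    (D0 : Fin (n + 1) → Derivation ℂ K K) : Prop where
  cov : IsCov pr o δ F m a y z
  eps : ∀ l, ε (Sum.inl l) = o l
  bas : IsTranscendenceBasis ℂ fun i => y (ε (Sum.inr i))
  gens : Gens (k := ℂ) X
  coe : ∀ b, (X b : K) = y (ε (Sum.inr b))
  dual : ∀ i j, D0 i (y (ε (Sum.inr j))) = if i = j then 1 else 0

variable {pr : σ → ρ} {o : ρ → σ} {δ : κ → ρ → ℕ} {F : κ → MvPolynomial σ ℂ} {m : J → ℕ}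
    {a : J → κ → ℕ} {y : σ → K} {z : J → K} {n : ℕ} {ε : ρ ⊕ Fin (n + 1) ≃ σ}
    {G : Subgroup (K ≃ₐ[ℂ] K)} {X : Fin (n + 1) → IntermediateField.fixedField G}
    {D0 : Fin (n + 1) → Derivation ℂ K K}

/-- the coefficients of the boundary -/
structure Bd (pr : σ → ρ) (δ : κ → ρ → ℕ) (F : κ → MvPolynomial σ ℂ) (y : σ → K) (S : κ → Prop)
    (δb : Place ℂ K → ℚ) : Prop where
  one : ∀ P α v, DatK P pr F δ y α v → (∃ c, S c ∧ v c ≠ 0) → δb P = 1
  zero : ∀ P α v, DatK P pr F δ y α v → (∀ c, S c → v c = 0) → δb P = 0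

/-- the common factor -/
noncomputable def Lm (F : κ → MvPolynomial σ ℂ) (y : σ → K) (N : ℕ) : K := ∏ c, aeval y (F c) ^ N

open scoped Classical in
/-- the degrees of the canonical class -/
noncomputable def sg (pr : σ → ρ) (δ : κ → ρ → ℕ) (l : ρ) : ℤ :=
  ∑ c, (δ c l : ℤ) - (Finset.univ.filter fun i => pr i = l).card

theorem ae_deh (h : Su pr o δ F m a y z ε G X D0) (P : MvPolynomial σ ℂ) :
    aeval (fun b => y (ε (Sum.inr b))) (deh ε P) = aeval y P := by
  unfold deh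
  have h1 : aeval (fun b => y (ε (Sum.inr b)))
      (aeval (fun i => Sum.elim (fun _ => (1 : MvPolynomial (Fin (n + 1)) ℂ)) MvPolynomial.X
        (ε.symm i)) P) = aeval (fun i => aeval (fun b => y (ε (Sum.inr b)))
        (Sum.elim (fun _ => (1 : MvPolynomial (Fin (n + 1)) ℂ)) MvPolynomial.X
        (ε.symm i))) P := by
    rw [← AlgHom.comp_apply, MvPolynomial.comp_aeval]
  rw [h1]
  congr 2
  funext i
  obtain ⟨r, rfl⟩ := ε.surjective i
  rw [ε.symm_apply_apply]
  rcases r with l | b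
  · rw [Sum.elim_inl, map_one, h.eps, h.cov.hy]
  · rw [Sum.elim_inr, aeval_X]

theorem ae_coe (h : Su pr o δ F m a y z ε G X D0) (P : MvPolynomial (Fin (n + 1)) ℂ) :
    aeval (fun b => y (ε (Sum.inr b))) P = ((aeval X P : fixedField G) : K) := by
  have h3 : (fun b => y (ε (Sum.inr b))) = fun j => (X j : K) := funext fun j => (h.coe j).symm
  rw [h3]
  exact MvPolynomial.aeval_algebraMap_apply K X P

theorem ae_y (h : Su pr o δ F m a y z ε G X D0) (P : MvPolynomial σ ℂ) :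
    aeval y P = ((aeval X (deh ε P) : fixedField G) : K) := by
  rw [← ae_deh h, ae_coe h]

theorem ord_Lm (h : Su pr o δ F m a y z ε G X D0) {P : Place ℂ K} {α : ρ → ℤ} {v : κ → ℕ}
    (hd : DatK P pr F δ y α v) (N : ℕ) :
    P.ord (Lm F y N) = N * ∑ c, (∑ l, (δ c l : ℤ) * α l + v c) := by
  unfold Lm
  rw [ord_prod' P Finset.univ _ fun t _ => pow_ne_zero _ (h.cov.hFy t), Finset.mul_sum]
  exact Finset.sum_congr rfl fun t _ => by rw [P.ord_pow, hd.hv]

theorem Lm_ne (h : Su pr o δ F m a y z ε G X D0) (N : ℕ) : Lm F y N ≠ 0 :=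
  Finset.prod_ne_zero_iff.2 fun t _ => pow_ne_zero _ (h.cov.hFy t)

open scoped Classical in
/-- the sum over the variables -/
theorem sum_alpha (pr : σ → ρ) (α : ρ → ℤ) :
    ∑ i, α (pr i) = ∑ l, ((Finset.univ.filter fun i => pr i = l).card : ℤ) * α l := by
  rw [← Finset.sum_fiberwise Finset.univ pr]
  refine Finset.sum_congr rfl fun l _ => ?_
  rw [Finset.sum_congr rfl (fun i hi => by rw [(Finset.mem_filter.1 hi).2]), Finset.sum_const,
    nsmul_eq_mul]

theorem sg_sum (α : ρ → ℤ) :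
    ∑ l, sg pr δ l * α l = ∑ c, ∑ l, (δ c l : ℤ) * α l - ∑ i, α (pr i) := by
  classical
  rw [sum_alpha pr α]
  rw [Finset.sum_comm, ← Finset.sum_sub_distrib]
  refine Finset.sum_congr rfl fun l _ => ?_
  unfold sg
  rw [sub_mul, Finset.sum_mul]

/-- the order of the coefficient of a section -/
theorem key_ord (h : Su pr o δ F m a y z ε G X D0) {P : Place ℂ K} {α : ρ → ℤ} {v : κ → ℕ}
    (hd : DatK P pr F δ y α v) {x : K} (hx : x ≠ 0) {N : ℕ} {s t : ℚ}
    (hle : s ≤ P.ord x + N * (t + ((∑ i, α (pr i) : ℤ) : ℚ))) :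
    s + N * ((∑ l, sg pr δ l * α l : ℤ) : ℚ) + N * (∑ c, (v c : ℚ) - t) ≤
      P.ord (x * Lm F y N) := by
  classical
  rw [P.ord_mul hx (Lm_ne h N), ord_Lm h hd, sg_sum, Finset.sum_add_distrib]
  push_cast at hle ⊢
  linarith

theorem sec_of_key (h : Su pr o δ F m a y z ε G X D0) {P : Place ℂ K} {α : ρ → ℤ} {v : κ → ℕ}
    (hd : DatK P pr F δ y α v) {x : K} {N : ℕ} {S' : Finset K} {t : ℝ} {u : ℤ}
    (hV : t ≤ ((∑ c, (v c : ℤ) - u : ℤ) : ℝ))
    (hj : x = 0 ∨ ∃ s ∈ S', s ≠ 0 ∧ (P.ord s : ℝ) ≤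
      P.ord x + N * (t + ((∑ i, α (pr i) : ℤ) : ℝ))) :
    x * Lm F y N = 0 ∨ ∃ s ∈ S', s ≠ 0 ∧
      P.ord s + N * ∑ l, sg pr δ l * α l + N * u ≤ P.ord (x * Lm F y N) := by
  by_cases hx : x = 0
  · left
    rw [hx, zero_mul]
  obtain ⟨s, hs, hs0, hle⟩ := hj.resolve_left hx
  right
  refine ⟨s, hs, hs0, ?_⟩
  have h1 : (P.ord s : ℝ) ≤ P.ord x +
      N * (((∑ c, (v c : ℤ) - u : ℤ) : ℝ) + ((∑ i, α (pr i) : ℤ) : ℝ)) := by
    have h2 := mul_le_mul_of_nonneg_left hV (show (0 : ℝ) ≤ N by positivity)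
    linarith
  have h2 : ((P.ord s : ℤ) : ℚ) ≤ P.ord x +
      N * (((∑ c, (v c : ℤ) - u : ℤ) : ℚ) + ((∑ i, α (pr i) : ℤ) : ℚ)) := by
    have h3 : P.ord s ≤ P.ord x + N * ((∑ c, (v c : ℤ) - u) + ∑ i, α (pr i)) := by
      exact_mod_cast h1
    exact_mod_cast h3
  have h3 := key_ord h hd hx h2
  have h4 : ((P.ord s + N * ∑ l, sg pr δ l * α l + N * u : ℤ) : ℚ) ≤ P.ord (x * Lm F y N) := by
    refine le_trans (le_of_eq ?_) h3
    push_cast
    ring
  exact_mod_cast h4

theorem trdeg_su (h : Su pr o δ F m a y z ε G X D0) : Algebra.trdeg ℂ K = (n + 1 : ℕ) := by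
  have := Pool.Agent.W602.GT.trdeg_of_basis h.bas
  exact_mod_cast this

theorem fin_su [Fintype J] (h : Su pr o δ F m a y z ε G X D0) (y' : Fin (n + 1) → K)
    (hy' : IsTranscendenceBasis ℂ y') :
    FiniteDimensional (IntermediateField.adjoin ℂ (Set.range y')) K := by
  have := h.cov.ess
  exact Pool.Agent.Y199.NN.fin_over' y' hy'

/-- **The places of the irreducible polynomials.** -/
theorem adic_su [Fintype J] [Finite G] (h : Su pr o δ F m a y z ε G X D0) {δb : Place ℂ K → ℚ}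
    {p : MvPolynomial (Fin (n + 1)) ℂ} (hp : Irreducible p) {v : Place ℂ (fixedField G)}
    (hvp : v.ord (aeval X p) = 1)
    (hv : ∀ P, P ≠ 0 → 0 ≤ v.ord (aeval X P) ∧ (v.ord (aeval X P) = 0 ↔ ¬ p ∣ P))
    {P : Place ℂ K} {e : ℕ} (hP : Over P v e) {α : ρ → ℤ} {v' : κ → ℕ}
    (hd : DatK P pr F δ y α v') (hV : (e : ℝ) - 1 + δb P ≤ ((∑ c, (v' c : ℤ) : ℤ) : ℝ))
    {S' : Finset K} {N : ℕ} {ω : (Fin (n + 1) → Derivation ℂ K K) → K}
    (hω : SecD (n + 1) δb S' N ω) :
    (∀ l, α l = 0) ∧ (ω D0 * Lm F y N = 0 ∨ ∃ s ∈ S', s ≠ 0 ∧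
      P.ord s + N * ∑ l, sg pr δ l * α l ≤ P.ord (ω D0 * Lm F y N)) := by
  classical
  have hGal : IsGaloisGroup G (fixedField G) K := isGaloisGroup_fixed G
  have hfdG : FiniteDimensional (fixedField G) K := IsGaloisGroup.finiteDimensional G _ K
  have hα : ∀ l, α l = 0 := by
    intro l
    apply le_antisymm
    · have h1 := hd.ha1 (o l)
      rw [h.cov.ho, h.cov.hy, P.ord_one] at h1
      exact h1
    · obtain ⟨i, -, hi⟩ := hd.ha2 l
      rw [← hi]
      have h1 : y i = ((aeval X (deh ε (MvPolynomial.X i : MvPolynomial σ ℂ)) : fixedField G) : K) := by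
        rw [← ae_y h, aeval_X]
      have h2 : aeval X (deh ε (MvPolynomial.X i : MvPolynomial σ ℂ)) ≠ (0 : fixedField G) := by
        intro h0
        rw [h0] at h1
        exact h.cov.y_ne i h1
      have h3 : deh ε (MvPolynomial.X i : MvPolynomial σ ℂ) ≠ 0 := by
        intro h0
        rw [h0, map_zero] at h2
        exact h2 rfl
      have h4 := hP.2 (aeval X (deh ε (MvPolynomial.X i : MvPolynomial σ ℂ)))
      change P.ord ((aeval X (deh ε (MvPolynomial.X i : MvPolynomial σ ℂ)) : fixedField G) : K) = _ at h4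
      rw [h1, h4]
      exact mul_nonneg (by positivity) (hv _ h3).1
  refine ⟨hα, ?_⟩
  have hXK : (fun j => algebraMap (fixedField G) K (X j)) = fun b => y (ε (Sum.inr b)) :=
    funext h.coe
  have hD' : ∀ i j, D0 i (algebraMap (fixedField G) K (X j)) = if i = j then 1 else 0 := by
    intro i j
    rw [← h.dual i j]
    congr 1
    exact h.coe j
  obtain ⟨b, hb0, hb⟩ := exists_pderiv hp
  have hDb : D0 b (algebraMap (fixedField G) K (aeval X p)) =
      algebraMap (fixedField G) K (aeval X (pderiv b p)) := by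
    rw [← Pool.Agent.TH122.AB.aeval_coe, ← Pool.Agent.TH122.AB.aeval_coe]
    exact der_aeval (hD' b) p
  have hjac := jacP (trdeg_su h) (fin_su h) hP (div_adic h.gens hp hv hP) D0
    (fun b => y (ε (Sum.inr b))) h.bas h.dual
    (fun i z hz => pres_adic h.gens hp hv hP (hD' i) hz) hvp b (by
      rw [hDb, Ne, map_eq_zero]
      exact h.gens.ne hb0) (by
      rw [hDb, hP.2, (hv _ hb0).2.2 hb, mul_zero]) S' N ω Set.univ (fun P => (δb P : ℝ))
        (Set.mem_univ _) hω
  have h1 := sec_of_key h hd (x := ω D0) (N := N) (S' := S') (t := (e : ℝ) - 1 + δb P) (u := 0)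
    (by rw [sub_zero]; exact hV) (by
      refine hjac.imp id ?_
      rintro ⟨s, hs, hs0, hle⟩
      refine ⟨s, hs, hs0, ?_⟩
      rw [Finset.sum_eq_zero fun i _ => hα _, Int.cast_zero, add_zero]
      exact hle)
  refine h1.imp id ?_
  rintro ⟨s, hs, hs0, hle⟩
  exact ⟨s, hs, hs0, by rwa [mul_zero, add_zero] at hle⟩

theorem degB_X_mem {B : Finset (Fin (n + 1))} {c : Fin (n + 1)} (hc : c ∈ B) :
    degB B (MvPolynomial.X c : MvPolynomial (Fin (n + 1)) ℂ) = 1 := by
  unfold degB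
  rw [support_X, Finset.sup_singleton, Finset.sum_eq_single c]
  · simp
  · intro b _ hb
    rw [Finsupp.single_apply, if_neg (Ne.symm hb)]
  · intro h
    exact absurd hc h

theorem degB_X_not {B : Finset (Fin (n + 1))} {c : Fin (n + 1)} (hc : c ∉ B) :
    degB B (MvPolynomial.X c : MvPolynomial (Fin (n + 1)) ℂ) = 0 := by
  unfold degB
  rw [support_X, Finset.sup_singleton]
  refine Finset.sum_eq_zero fun b hb => ?_
  rw [Finsupp.single_apply, if_neg]
  rintro rfl
  exact hc hb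

open scoped Classical in
theorem card_fiber (h : Su pr o δ F m a y z ε G X D0) (l0 : ρ) {B : Finset (Fin (n + 1))}
    (hB : ∀ b, b ∈ B ↔ pr (ε (Sum.inr b)) = l0) :
    (Finset.univ.filter fun i => pr i = l0).card = B.card + 1 := by
  have h1 : (Finset.univ.filter fun i => pr i = l0) =
      insert (o l0) (B.image fun b => ε (Sum.inr b)) := by
    ext i
    obtain ⟨r, rfl⟩ := ε.surjective i
    rw [Finset.mem_filter, Finset.mem_insert, Finset.mem_image]
    rcases r with l | b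
    · constructor
      · rintro ⟨-, hl⟩
        rw [h.eps, h.cov.ho] at hl
        left
        rw [h.eps, hl]
      · rintro (hl | ⟨b, -, hb⟩)
        · rw [hl, h.cov.ho]
          exact ⟨Finset.mem_univ _, rfl⟩
        · exact absurd (ε.injective hb) (by simp)
    · constructor
      · rintro ⟨-, hl⟩
        exact Or.inr ⟨b, (hB b).2 hl, rfl⟩
      · rintro (hl | ⟨b', hb', hb⟩)
        · rw [← h.eps] at hl
          exact absurd (ε.injective hl) (by simp)
        · have h2 := ε.injective hb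
          rw [Sum.inr.injEq] at h2
          subst h2
          exact ⟨Finset.mem_univ _, (hB _).1 hb'⟩
  rw [h1, Finset.card_insert_of_notMem, Finset.card_image_of_injective]
  · intro b b' hb
    exact Sum.inr.inj (ε.injective hb)
  · rw [Finset.mem_image]
    rintro ⟨b, -, hb⟩
    rw [← h.eps] at hb
    exact absurd (ε.injective hb) (by simp)

/-- **The places at infinity.** -/
theorem inf_su [Fintype J] [Finite G] (h : Su pr o δ F m a y z ε G X D0) (l0 : ρ) :
    ∃ (B : Finset (Fin (n + 1))) (v0 : Place ℂ (fixedField G)),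
      (∀ b, b ∈ B ↔ pr (ε (Sum.inr b)) = l0) ∧
      (∀ P : MvPolynomial (Fin (n + 1)) ℂ, P ≠ 0 →
        v0.ord (aeval X P) = - (degB B P : ℤ)) ∧
      ∀ (P : Place ℂ K) (e : ℕ), Over P v0 e → ∀ (α : ρ → ℤ) (v' : κ → ℕ),
        DatK P pr F δ y α v' → (α l0 = - (e : ℤ) ∧ ∀ l, l ≠ l0 → α l = 0) ∧
        ∀ (δb : Place ℂ K → ℚ), (e : ℝ) - 1 + δb P ≤ ((∑ c, (v' c : ℤ) : ℤ) : ℝ) →
        ∀ (S' : Finset K) (N : ℕ) (ω : (Fin (n + 1) → Derivation ℂ K K) → K),
        SecD (n + 1) δb S' N ω →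
        ω D0 * Lm F y N = 0 ∨ ∃ s ∈ S', s ≠ 0 ∧
          P.ord s + N * ∑ l, sg pr δ l * α l ≤ P.ord (ω D0 * Lm F y N) := by
  classical
  have hGal : IsGaloisGroup G (fixedField G) K := isGaloisGroup_fixed G
  have hfdG : FiniteDimensional (fixedField G) K := IsGaloisGroup.finiteDimensional G _ K
  have hXK : (fun j => algebraMap (fixedField G) K (X j)) = fun b => y (ε (Sum.inr b)) :=
    funext h.coe
  have hD' : ∀ i j, D0 i (algebraMap (fixedField G) K (X j)) = if i = j then 1 else 0 := by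
    intro i j
    rw [← h.dual i j]
    congr 1
    exact h.coe j
  obtain ⟨B, hB⟩ : ∃ B : Finset (Fin (n + 1)),
    B = Finset.univ.filter fun b => pr (ε (Sum.inr b)) = l0 := ⟨_, rfl⟩
  have hBm : ∀ b, b ∈ B ↔ pr (ε (Sum.inr b)) = l0 := by
    intro b
    rw [hB, Finset.mem_filter]
    simp
  obtain ⟨c, hc⟩ : ∃ c, c ∈ B := by
    obtain ⟨i, hi1, hi2⟩ := h.cov.hdim l0
    obtain ⟨r, rfl⟩ := ε.surjective i
    rcases r with l | b
    · exfalso
      apply hi2
      rw [h.eps, h.cov.ho] at hi1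
      rw [h.eps, hi1]
    · exact ⟨b, (hBm b).2 hi1⟩
  obtain ⟨v0, h1, h2⟩ := exists_infP h.gens (by rw [hXK]; exact h.bas) (fin_su h) (D := D0) hD' hc
  refine ⟨B, v0, hBm, h1, fun P e hP α v' hd => ?_⟩
  have hordb : ∀ b, P.ord (y (ε (Sum.inr b))) = if pr (ε (Sum.inr b)) = l0 then - (e : ℤ) else 0 := by
    intro b
    have h3 := hP.2 (X b)
    change P.ord ((X b : fixedField G) : K) = _ at h3
    have h4 := h1 (MvPolynomial.X b) (X_ne_zero _)
    rw [aeval_X] at h4
    rw [h.coe, h4] at h3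
    rw [h3]
    split_ifs with hb
    · rw [degB_X_mem ((hBm b).2 hb)]
      push_cast
      ring
    · rw [degB_X_not fun hb' => hb ((hBm b).1 hb')]
      simp
  have hα : α l0 = - (e : ℤ) ∧ ∀ l, l ≠ l0 → α l = 0 := by
    constructor
    · apply le_antisymm
      · have h3 := hd.ha1 (ε (Sum.inr c))
        rw [hordb, (hBm c).1 hc, if_pos rfl] at h3
        exact h3
      · obtain ⟨i, hi1, hi2⟩ := hd.ha2 l0
        rw [← hi2]
        obtain ⟨r, rfl⟩ := ε.surjective i
        rcases r with l | b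
        · rw [h.eps, h.cov.hy, P.ord_one]
          omega
        · rw [hordb, if_pos hi1]
    · intro l hl
      apply le_antisymm
      · have h3 := hd.ha1 (o l)
        rw [h.cov.ho, h.cov.hy, P.ord_one] at h3
        exact h3
      · obtain ⟨i, hi1, hi2⟩ := hd.ha2 l
        rw [← hi2]
        obtain ⟨r, rfl⟩ := ε.surjective i
        rcases r with l' | b
        · rw [h.eps, h.cov.hy, P.ord_one]
        · rw [hordb, if_neg (by rw [hi1]; exact hl)]
  refine ⟨hα, fun δb hV S' N ω hω => ?_⟩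
  have hjac := h2 P e hP S' N ω Set.univ (fun P => (δb P : ℝ)) (Set.mem_univ _) hω
  have hsum : ∑ i, α (pr i) = - ((B.card : ℤ) + 1) * e := by
    rw [sum_alpha pr α, Finset.sum_eq_single l0]
    · rw [card_fiber h l0 hBm, hα.1]
      push_cast
      ring
    · intro l _ hl
      rw [hα.2 l hl, mul_zero]
    · intro h'
      exact absurd (Finset.mem_univ _) h'
  have h3 := sec_of_key h hd (x := ω D0) (N := N) (S' := S') (t := (e : ℝ) - 1 + δb P) (u := 0)
    (by rw [sub_zero]; exact hV) (by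
      refine hjac.imp id ?_
      rintro ⟨s, hs, hs0, hle⟩
      refine ⟨s, hs, hs0, hle.trans (le_of_eq ?_)⟩
      rw [hsum]
      push_cast
      ring)
  refine h3.imp id ?_
  rintro ⟨s, hs, hs0, hle⟩
  exact ⟨s, hs, hs0, by rwa [mul_zero, add_zero] at hle⟩

end

end Pool.Agent.Q41.AB
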