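import Pool.Agent.Q41.AB.Mn

/-!
Pseudo-effective log canonical divisors have exponents.
-/

set_option autoImplicit false
set_option linter.overlappingInstances false
set_option linter.unusedSectionVars false
set_option maxHeartbeats 1000000

open FF MvPolynomial IntermediateField Pool.Agent.W603.LV Pool.Agent.W619.PQ
open Pool.Agent.W619.PL Pool.Agent.W619.Y
open Pool.Agent.W619.TW Pool.Agent.W602.GT Pool.Agent.TH122.AB Pool.Agent.TH756.PN

namespace Pool.Agent.Q41.AB

open Pool.Agent.Q41.RC (MH IsPt SNC DatK IsCov CovK bwK IsVec IsExp OverS overS_iff main_tfae)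
open Pool.Agent.Q57.TP (SecD BSec BPsef bsec_sec)

section

variable {k K : Type} [Field k] [CharZero k] [Field K] [Algebra k K]

/-- the values on logarithmic vector fields, from the values on regular vector fields -/
theorem log_of_reg {n : ℕ} (htr : Algebra.trdeg k K = n)
    (hfin : ∀ y : Fin n → K, IsTranscendenceBasis k y →
      FiniteDimensional (IntermediateField.adjoin k (Set.range y)) K) {P : Place k K}
    (hP : IsDivisorial P n) {m : ℕ} {ω : (Fin n → Derivation k K K) → K}
    (hω : IsPluriForm k K n m ω)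
    (D : Fin n → Derivation k K K) (hD : ∀ j, ∀ f, P.Reg (D j f / f)) :
    ∃ E : Fin n → Derivation k K K, (∀ j, ∀ f, P.Reg f → P.Reg (E j f)) ∧
      (ω D = 0 ∨ (ω E ≠ 0 ∧ m + P.ord (ω E) ≤ P.ord (ω D))) := by
  classical
  obtain ⟨y, E, i0, hy, hE, hy0, hreg, hpres⟩ :=
    Pool.Agent.W240.PG.Frame.main Pool.Agent.W762.PG.main k K n htr hfin P hP
  have hyne : y i0 ≠ 0 := by
    intro h0
    rw [h0, P.ord_zero] at hy0
    omega
  refine ⟨E, hpres, ?_⟩
  let w : Fin n → K := fun i => if i = i0 then y i0 else 1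
  have hw : ∀ i, w i ≠ 0 := by
    intro i
    change (if i = i0 then y i0 else 1) ≠ 0
    split_ifs
    · exact hyne
    · exact one_ne_zero
  let A : Matrix (Fin n) (Fin n) K := Matrix.of fun j i => D j (y i)
  have hA : (fun j => ∑ i, A j i • E i) = D := by
    funext j
    apply Pool.Agent.W602.GT.der_ext y hy
    intro q
    rw [Pool.Agent.Q41.RC.dsum, Finset.sum_eq_single q]
    · rw [hE, if_pos rfl, mul_one]
      rfl
    · intro i _ hi
      rw [hE, if_neg hi, mul_zero]
    · intro h1
      exact absurd (Finset.mem_univ _) h1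
  have hprod : ∏ i, w i = y i0 := by
    rw [Finset.prod_eq_single i0]
    · change (if i0 = i0 then y i0 else 1) = _
      rw [if_pos rfl]
    · intro i _ hi
      change (if i = i0 then y i0 else 1) = 1
      rw [if_neg hi]
    · intro h1
      exact absurd (Finset.mem_univ _) h1
  have hdet : Ge P 1 A.det := by
    have h0 : A = Matrix.of fun j i => w i * (Matrix.of fun j i => D j (y i) / w i) j i := by
      ext j i
      change D j (y i) = w i * (D j (y i) / w i)
      rw [mul_div_cancel₀ _ (hw i)]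
    rw [h0, Matrix.det_mul_row (fun i => w i), hprod]
    have h1 : Ge P 1 (y i0) := Or.inr (le_of_eq hy0.symm)
    have h2 : Ge P 0 (Matrix.of fun j i => D j (y i) / w i).det :=
      Pool.Agent.W619.PQ.ge_det P _ fun j i => by
        change P.Reg (D j (y i) / w i)
        by_cases hi : i = i0
        · have h3 : w i = y i := by
            change (if i = i0 then y i0 else 1) = _
            rw [if_pos hi, hi]
          rw [h3]
          exact hD j _
        · have h3 : w i = 1 := if_neg hi
          rw [h3, div_one]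
          by_cases h4 : y i = 0
          · rw [h4, map_zero]
            exact P.reg_zero
          · have h5 := P.reg_mul (hD j (y i)) (hreg i)
            rwa [div_mul_cancel₀ _ h4] at h5
    simpa using h1.mul h2
  by_cases hωD : ω D = 0
  · exact Or.inl hωD
  right
  have h1 := hω A E
  rw [hA] at h1
  have h2 : ω E ≠ 0 := by
    intro h3
    rw [h3, mul_zero] at h1
    exact hωD h1
  refine ⟨h2, ?_⟩
  have h3 := (hdet.pow m).mul (ge_ord P (ω E))
  rw [← h1] at h3
  have h4 := h3.resolve_left hωD
  linarith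

end

section

variable {K ρ σ κ J : Type} [Field K] [Algebra ℂ K] [Fintype ρ] [Fintype σ] [Fintype κ] [Fintype J]
  {pr : σ → ρ} {o : ρ → σ} {δ : κ → ρ → ℕ} {F : κ → MvPolynomial σ ℂ} {m : J → ℕ}
    {a : J → κ → ℕ} {y : σ → K} {z : J → K} {n : ℕ} {S : κ → Prop} {δb : Place ℂ K → ℚ}

/-- **Pseudo-effective log canonical divisors have exponents.** -/
theorem exp_of_psef (h : IsCov pr o δ F m a y z) (htr : Algebra.trdeg ℂ K = (n : ℕ))
    (hS : ∀ [DecidableEq σ], SNC pr F) (hB : Bd pr δ F y S δb) (hps : BPsef n δb) :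
    ∃ e, IsExp pr δ m a S F e := by
  classical
  have hess := h.ess
  have h1 := (main_tfae h htr hS S).out 2 3
  by_contra hcon
  refine (h1.2 hcon) ?_
  obtain ⟨S', hS'⟩ := hps
  refine ⟨S', fun N => ?_⟩
  obtain ⟨j, hj, ω, hω0, hω, hord⟩ := hS' N
  have hne : ∃ D, ω D ≠ 0 := by
    by_contra h2
    push Not at h2
    exact hω0 (funext h2)
  refine ⟨j, hj, ω, ⟨hω, fun P hP hb D hD => ?_, fun P hP hb D hD => ?_⟩, hne⟩
  · obtain ⟨α, v, hd⟩ := h.exists_dat P
    have h2 : δb P = 0 := by
      refine hB.zero P α v hd fun c hc => ?_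
      by_contra h3
      exact hb ((overS_iff hd).2 ⟨c, hc, h3⟩)
    refine (hord P hP D hD).imp id ?_
    rintro ⟨s, hs, hs0, hle⟩
    refine ⟨s, hs, hs0, ?_⟩
    rw [h2, mul_zero, sub_zero] at hle
    exact_mod_cast hle
  · obtain ⟨α, v, hd⟩ := h.exists_dat P
    have h2 : δb P = 1 := hB.one P α v hd ((overS_iff hd).1 hb)
    obtain ⟨E, hE, h3⟩ := log_of_reg htr (fun y' hy' => Pool.Agent.Y199.NN.fin_over' y' hy') hP hω
      D hD
    refine h3.imp id ?_
    rintro ⟨h4, h5⟩
    obtain ⟨s, hs, hs0, hle⟩ := (hord P hP E hE).resolve_left h4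
    refine ⟨s, hs, hs0, ?_⟩
    rw [h2, mul_one] at hle
    have h6 : (j : ℤ) * P.ord s - (j * N : ℕ) ≤ P.ord (ω E) := by exact_mod_cast hle
    linarith

end

end Pool.Agent.Q41.AB
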