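import Pool.Agent.Q41.AB.Piece

/-!
The main inequality for the orders of a form.
-/

set_option autoImplicit false
set_option linter.unusedSectionVars false

open MvPolynomial

namespace Pool.Agent.Q41.AB

open Pool.Agent.Q41.RC (MH IsPt SNC)

section ord

variable {k ρ σ κ : Type} [Field k] [Fintype ρ] [Fintype σ] [Fintype κ]
  {pr : σ → ρ} {F : κ → MvPolynomial σ k} {G : MvPolynomial σ k}

theorem wt_upper (z : κ → ℕ) (s : ℕ) : IsUpperSet {a : κ → ℕ | s ≤ wt z a} := by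
  intro a b hab ha
  refine le_trans (show s ≤ wt z a from ha) ?_
  unfold wt
  exact Finset.sum_le_sum fun c _ => Nat.mul_le_mul_right _ (hab c)

theorem wt_dep {q : σ → k} (z : κ → ℕ) (s : ℕ) (hz : ∀ c, z c ≠ 0 → eval q (F c) = 0) :
    ∀ a ∈ {a : κ → ℕ | s ≤ wt z a}, ∀ b : κ → ℕ,
      (∀ c, eval q (F c) = 0 → b c = a c) → b ∈ {a : κ → ℕ | s ≤ wt z a} := by
  intro a ha b hb
  have h2 : wt z b = wt z a := by
    unfold wt
    refine Finset.sum_congr rfl fun c _ => ?_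
    by_cases hc : z c = 0
    · rw [hc, mul_zero, mul_zero]
    · rw [hb c (hz c hc)]
  change s ≤ wt z b
  rw [h2]
  exact ha

theorem wt_add (v w a : κ → ℕ) : wt (v + w) a = wt v a + wt w a := by
  unfold wt
  rw [← Finset.sum_add_distrib]
  exact Finset.sum_congr rfl fun c _ => by rw [Pi.add_apply, mul_add]

theorem wt_smul (n : ℕ) (v a : κ → ℕ) : wt (n • v) a = n * wt v a := by
  unfold wt
  rw [Finset.mul_sum]
  exact Finset.sum_congr rfl fun c _ => by rw [Pi.smul_apply, smul_eq_mul]; ring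

/-- the order is superadditive -/
theorem OrdGe.add (hI : S_Inter) (hS : SNC pr F) {v w : κ → ℕ} {r s : ℕ} (hv : OrdGe pr F v r G)
    (hw : OrdGe pr F w s G) : OrdGe pr F (v + w) (r + s) G := by
  intro q hq hvw
  have h1 : ∀ c, v c ≠ 0 → eval q (F c) = 0 := fun c hc => hvw c (by
    rw [Pi.add_apply]
    omega)
  have h2 : ∀ c, w c ≠ 0 → eval q (F c) = 0 := fun c hc => hvw c (by
    rw [Pi.add_apply]
    omega)
  refine (hI pr F hS q hq _ _ (wt_upper v r) (wt_upper w s) (wt_dep v r h1) (wt_dep w s h2) G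
    (hv q hq h1) (hw q hq h2)).mono ?_
  rintro a ⟨ha, hb⟩
  change r + s ≤ wt (v + w) a
  rw [wt_add]
  exact add_le_add ha hb

theorem lam_closed {v : κ → ℕ} (hv : v ∈ Lam pr F) {w : κ → ℕ} (h : ∀ c, w c ≠ 0 → v c ≠ 0) :
    w ∈ Lam pr F := by
  obtain ⟨q, hq, hqv⟩ := hv
  exact ⟨q, hq, fun c hc => hqv c (h c hc)⟩

variable (hFin : S_Fin) (hG0 : G ≠ 0)

include hFin hG0

theorem rr_add (hI : S_Inter) (hS : SNC pr F) {v w : κ → ℕ} (h : v + w ∈ Lam pr F) :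
    rr pr F G v + rr pr F G w ≤ rr pr F G (v + w) := by
  have hv : v ∈ Lam pr F := lam_closed h fun c hc => by
    rw [Pi.add_apply]
    omega
  have hw : w ∈ Lam pr F := lam_closed h fun c hc => by
    rw [Pi.add_apply]
    omega
  exact le_rr hFin hG0 h (OrdGe.add hI hS (ordGe_rr hFin hG0 hv) (ordGe_rr hFin hG0 hw))

theorem rr_zero (h : (0 : κ → ℕ) ∈ Lam pr F) : rr pr F G 0 = 0 := by
  by_contra hne
  have h1 := OrdGe.mono (s := 1) (by omega) (ordGe_rr hFin hG0 h)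
  obtain ⟨q, hq, -⟩ := h
  obtain ⟨g, hg, hgG⟩ := h1 q hq (fun c hc => absurd rfl hc)
  have h2 : {a : κ → ℕ | 1 ≤ wt 0 a} = ∅ := by
    ext a
    simp [wt]
  have h3 : MI F {a : κ → ℕ | 1 ≤ wt 0 a} = ⊥ := by
    rw [h2]
    unfold MI
    simp
  rw [h3, Ideal.mem_bot] at hgG
  rcases mul_eq_zero.1 hgG with h4 | h4
  · apply hg
    rw [h4, map_zero]
  · exact hG0 h4

theorem rr_smul (n : ℕ) {v : κ → ℕ} (h : v ∈ Lam pr F) :
    rr pr F G (n • v) = n * rr pr F G v := by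
  rcases Nat.eq_zero_or_pos n with rfl | hn
  · rw [zero_smul, zero_mul]
    exact rr_zero hFin hG0 (lam_closed h fun c hc => absurd rfl hc)
  have hsupp : ∀ c, (n • v) c ≠ 0 ↔ v c ≠ 0 := by
    intro c
    rw [Pi.smul_apply, smul_eq_mul, Ne, mul_eq_zero, not_or]
    exact ⟨fun h => h.2, fun h => ⟨hn.ne', h⟩⟩
  have hnv : n • v ∈ Lam pr F := lam_closed h fun c hc => (hsupp c).1 hc
  apply le_antisymm
  · by_contra hcon
    push Not at hcon
    apply not_rr hFin hG0 h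
    intro q hq hv
    have h1 := (OrdGe.mono (s := n * rr pr F G v + 1) hcon (ordGe_rr hFin hG0 hnv)) q hq
      fun c hc => hv c ((hsupp c).1 hc)
    refine h1.mono fun a ha => ?_
    change n * rr pr F G v + 1 ≤ wt (n • v) a at ha
    rw [wt_smul] at ha
    change rr pr F G v + 1 ≤ wt v a
    by_contra h2
    push Not at h2
    have h3 : wt v a ≤ rr pr F G v := by omega
    have h4 := Nat.mul_le_mul_left n h3
    omega
  · refine le_rr hFin hG0 hnv ?_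
    intro q hq hv
    have h1 := (ordGe_rr hFin hG0 h) q hq fun c hc => hv c ((hsupp c).2 hc)
    refine h1.mono fun a ha => ?_
    change n * rr pr F G v ≤ wt (n • v) a
    rw [wt_smul]
    exact Nat.mul_le_mul_left n ha

end ord

section main

variable {k ρ σ κ : Type} [Field k] [IsAlgClosed k] [Fintype ρ] [Fintype σ] [Fintype κ]

open scoped Classical in
/-- **The main inequality.** -/
theorem star (hExt : S_Ext) (hI : S_Inter) (hGen : S_Gen) (hArc : S_Arc) (hCurve : S_Curve)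
    (hFin : S_Fin) {pr : σ → ρ} {δ : κ → ρ → ℕ} {F : κ → MvPolynomial σ k}
    (hF : ∀ c, MH pr (δ c) (F c)) (hS : SNC pr F) {D : ρ → ℕ} {G : MvPolynomial σ k}
    (hG : MH pr D G) (hG0 : G ≠ 0) (A : Set (κ → ℕ)) (hA : A ⊆ Lam pr F)
    (hAc : ∀ {ι : Type} [Fintype ι] (V : ι → κ → ℕ) (μ : ρ → ℕ) (v : κ → ℕ), (∀ i, V i ∈ A) →
      v ∈ Lam pr F → v ≠ 0 → (∀ c, ∑ i, V i c = v c + ∑ l, μ l * δ c l) → v ∈ A)
    {N0 : ℕ} (hr : ∀ v ∈ A, OrdGe pr F v N0 G) {s : ρ → ℤ}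
    (hs : ∀ l, s l = ∑ c, (δ c l : ℤ) - (Finset.univ.filter fun i => pr i = l).card)
    (hD : ∀ l, (N0 : ℤ) * s l ≤ D l)
    (h0 : ∀ {ι : Type} [Fintype ι] (V : ι → κ → ℕ) (μ : ρ → ℕ), (∀ i, V i ∈ A) →
      (∀ c, ∑ i, V i c ≤ ∑ l, μ l * δ c l) → (Fintype.card ι : ℤ) ≤ ∑ l, (μ l : ℤ) * s l)
    {ι : Type} [Fintype ι] (V : ι → κ → ℕ) (μ : ρ → ℕ) (v : κ → ℕ) (hV : ∀ i, V i ∈ A)
    (hv : v ∈ Lam pr F) (h : ∀ c, ∑ i, V i c ≤ v c + ∑ l, μ l * δ c l) :
    (N0 : ℤ) * Fintype.card ι ≤ ∑ l, (D l : ℤ) * μ l + rr pr F G v := by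
  refine hExt δ (Lam pr F) A (rr pr F G) N0 D s (fun v hv w hw => lam_closed hv hw) hA hAc
    (fun v w hvw => rr_add hFin hG0 hI hS hvw) (fun n v hv => rr_smul hFin hG0 n hv)
    (fun v hv => le_rr hFin hG0 (hA hv) (hr v hv)) hD h0 ?_ V μ v hV hv h
  intro ι _ V μ u v hv _ _ h1 h2
  refine pieces hI hGen hArc hCurve hFin hF hS hG hG0 V μ u v hv h1 ?_
  have h3 : ∑ l, (μ l : ℤ) * s l = ∑ c, ∑ l, (μ l : ℤ) * δ c l - ∑ i, (μ (pr i) : ℤ) := by
    have h4 : ∑ i, (μ (pr i) : ℤ) = ∑ l, (μ l : ℤ) * (Finset.univ.filter fun i => pr i = l).card := by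
      rw [← Finset.sum_fiberwise Finset.univ pr]
      refine Finset.sum_congr rfl fun l _ => ?_
      rw [Finset.sum_congr rfl (fun i hi => by rw [(Finset.mem_filter.1 hi).2]), Finset.sum_const,
        nsmul_eq_mul, mul_comm]
    rw [h4, Finset.sum_comm, ← Finset.sum_sub_distrib]
    refine Finset.sum_congr rfl fun l _ => ?_
    rw [hs, mul_sub, Finset.mul_sum]
  rw [h3] at h2
  have h5 : ((∑ c, ∑ l, μ l * δ c l : ℕ) : ℤ) < ((∑ i, μ (pr i) + Fintype.card ι : ℕ) : ℤ) := by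
    push_cast
    linarith
  exact_mod_cast h5

end main

end Pool.Agent.Q41.AB
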