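import Pool.Agent.Q41.AB.Tq
import Pool.Agent.Q41.AB.Star
import Pool.Agent.Q57.GM.Str
import Pool.Agent.Q41.RC.Conc

/-!
The structure of the sections: traces.
-/

set_option autoImplicit false
set_option linter.overlappingInstances false
set_option linter.unusedSectionVars false
set_option maxHeartbeats 1000000

open FF MvPolynomial IntermediateField Pool.Agent.W603.LV Pool.Agent.W619.PQ
open Pool.Agent.W619.TW Pool.Agent.W602.GT Pool.Agent.TH122.AB Pool.Agent.TH756.PN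

namespace Pool.Agent.Q41.AB

open Pool.Agent.Q41.RC (MH IsPt SNC DatK IsCov CovK bwK IsVec)
open Pool.Agent.Q57.TP (SecD)
open Pool.Agent.Y169.CH (pw mem_pw tr tr_ge tr_fix)

section

variable {K ρ σ κ J : Type} [Field K] [Algebra ℂ K] [Fintype ρ] [Fintype σ] [Fintype κ]
  {pr : σ → ρ} {o : ρ → σ} {δ : κ → ρ → ℕ} {F : κ → MvPolynomial σ ℂ} {m : J → ℕ}
    {a : J → κ → ℕ} {y : σ → K} {z : J → K} {n : ℕ} {ε : ρ ⊕ Fin (n + 1) ≃ σ}
    {G : Subgroup (K ≃ₐ[ℂ] K)} {X : Fin (n + 1) → IntermediateField.fixedField G}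
    {D0 : Fin (n + 1) → Derivation ℂ K K}

theorem fix_y (h : Su pr o δ F m a y z ε G X D0) {g : K ≃ₐ[ℂ] K} (hg : g ∈ G)
    (P : MvPolynomial σ ℂ) : g (aeval y P) = aeval y P := by
  rw [ae_y h]
  exact (aeval X (deh ε P) : fixedField G).2 ⟨g, hg⟩

theorem fix_yi (h : Su pr o δ F m a y z ε G X D0) {g : K ≃ₐ[ℂ] K} (hg : g ∈ G) (i : σ) :
    g (y i) = y i := by
  have h1 := fix_y h hg (MvPolynomial.X i)
  rwa [aeval_X] at h1

theorem conj_dat (h : Su pr o δ F m a y z ε G X D0) {w : Place ℂ K} {g : K ≃ₐ[ℂ] K} (hg : g ∈ G)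
    {α : ρ → ℤ} {v' : κ → ℕ} (hd : DatK w pr F δ y α v') : DatK (w.comp g) pr F δ y α v' := by
  refine ⟨hd.hy, fun i => ?_, fun l => ?_, hd.hF, fun c => ?_⟩
  · rw [Place.comp_ord, fix_yi h hg]
    exact hd.ha1 i
  · obtain ⟨i, hi1, hi2⟩ := hd.ha2 l
    exact ⟨i, hi1, by rw [Place.comp_ord, fix_yi h hg]; exact hi2⟩
  · rw [Place.comp_ord, fix_y h hg]
    exact hd.hv c

/-- the order of a trace -/
theorem tr_bound [Finite G] (h : Su pr o δ F m a y z ε G X D0) {B S' : Finset K} {DQ : ρ → ℕ}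
    {Q : MvPolynomial σ ℂ} (hQ0 : aeval y Q ≠ 0)
    (hden : ∀ (P : Place ℂ K) (α : ρ → ℤ), (∀ i, y i ≠ 0 → α (pr i) ≤ P.ord (y i)) →
        ∀ b ∈ B, b ≠ 0 → ∑ l, (DQ l : ℤ) * α l ≤ P.ord (b * aeval y Q)) (hS'B : S' ⊆ B)
    {w : Place ℂ K} {α : ρ → ℤ} {v' : κ → ℕ} (hd : DatK w pr F δ y α v') {b : K} (hb : b ∈ B)
    {N j : ℕ} {x : K} {M0 : ℤ}
    (hx : ∀ g ∈ G, x = 0 ∨ ∃ s ∈ pw S' j, s ≠ 0 ∧
      (w.comp g).ord s + N * ∑ l, sg pr δ l * α l + M0 ≤ (w.comp g).ord x) :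
    Ge w (∑ l, (N * sg pr δ l + (j + 1) * DQ l) * α l + M0)
      (tr G (x * aeval y Q ^ (j + 1) * b)) := by
  classical
  refine tr_ge G fun g hg => ?_
  by_cases hx0 : x = 0
  · left
    rw [hx0, zero_mul, zero_mul, map_zero]
  by_cases hb0 : b = 0
  · left
    rw [hb0, mul_zero, map_zero]
  right
  rw [← Place.comp_ord]
  obtain ⟨s', hs', hs0, hle⟩ := (hx g hg).resolve_left hx0
  obtain ⟨s, hs, rfl⟩ := mem_pw.1 hs'
  have hd' := conj_dat h hg hd
  have hα : ∀ i, y i ≠ 0 → α (pr i) ≤ (w.comp g).ord (y i) := fun i _ => hd'.ha1 i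
  have h1 := hden (w.comp g) α hα b hb hb0
  rw [(w.comp g).ord_mul (mul_ne_zero hx0 (pow_ne_zero _ hQ0)) hb0,
    (w.comp g).ord_mul hx0 (pow_ne_zero _ hQ0), (w.comp g).ord_pow]
  rw [(w.comp g).ord_mul hb0 hQ0] at h1
  rw [(w.comp g).ord_pow] at hle
  have h3 : ∑ l, (N * sg pr δ l + (j + 1) * DQ l) * α l =
      N * ∑ l, sg pr δ l * α l + (j + 1) * ∑ l, (DQ l : ℤ) * α l := by
    rw [Finset.mul_sum, Finset.mul_sum, ← Finset.sum_add_distrib]
    exact Finset.sum_congr rfl fun l _ => by ring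
  rw [h3]
  by_cases hj : j = 0
  · subst hj
    push_cast at hle ⊢
    linarith
  · have hss : s ≠ 0 := by
      rintro rfl
      exact hs0 (zero_pow hj)
    have h2 := hden (w.comp g) α hα s (hS'B hs) hss
    rw [(w.comp g).ord_mul hss hQ0] at h2
    have h4 : (j : ℤ) * ∑ l, (DQ l : ℤ) * α l ≤ j * ((w.comp g).ord s + (w.comp g).ord (aeval y Q)) :=
      mul_le_mul_of_nonneg_left h2 (by positivity)
    push_cast
    linarith

/-- the multiplicities are at least the ramification -/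
theorem vbound {v : Place ℂ (fixedField G)} {P : Place ℂ K} {e : ℕ}
    (hP : Over P v e) {α : ρ → ℤ} {v' : κ → ℕ} (hd : DatK P pr F δ y α v') {S : κ → Prop}
    {δb : Place ℂ K → ℚ} (hB : Bd pr δ F y S δb) {lam : κ → ℕ} (h1 : ∀ c, v' c = e * lam c)
    (h2 : ∀ N : ℕ, (∀ i, m i ∣ N * ∑ c, a i c * lam c) → e ∣ N) :
    (e : ℝ) - 1 + δb P ≤ ((∑ c, (v' c : ℤ) : ℤ) : ℝ) := by
  classical
  have he : 0 < e := hP.1
  by_cases h0 : ∀ c, v' c = 0
  · have h3 : e = 1 := by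
      refine Nat.dvd_one.1 (h2 1 fun i => ?_)
      have h4 : ∑ c, a i c * lam c = 0 := by
        refine Finset.sum_eq_zero fun c _ => ?_
        have h5 := h0 c
        rw [h1] at h5
        rcases Nat.mul_eq_zero.1 h5 with h6 | h6
        · omega
        · rw [h6, mul_zero]
      rw [h4, mul_zero]
      exact dvd_zero _
    rw [h3, hB.zero P α v' hd fun c _ => h0 c, Finset.sum_eq_zero fun c _ => by rw [h0 c]; rfl]
    simp
  · push Not at h0
    obtain ⟨c, hc⟩ := h0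
    have h3 : δb P ≤ 1 := by
      by_cases h4 : ∃ c, S c ∧ v' c ≠ 0
      · rw [hB.one P α v' hd h4]
      · push Not at h4
        rw [hB.zero P α v' hd h4]
        exact zero_le_one
    have h4 : (δb P : ℝ) ≤ 1 := by exact_mod_cast h3
    have h5 : (e : ℤ) ≤ ∑ c, (v' c : ℤ) := by
      have h6 : (v' c : ℤ) ≤ ∑ c, (v' c : ℤ) :=
        Finset.single_le_sum (f := fun c => (v' c : ℤ)) (fun _ _ => by positivity)
          (Finset.mem_univ c)
      have h7 : e ≤ v' c := by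
        rw [h1 c] at hc ⊢
        have h8 : lam c ≠ 0 := right_ne_zero_of_mul hc
        exact Nat.le_mul_of_pos_right _ (Nat.pos_of_ne_zero h8)
      have h8 : (e : ℤ) ≤ v' c := by exact_mod_cast h7
      exact h8.trans h6
    have h6 : (e : ℝ) ≤ ((∑ c, (v' c : ℤ) : ℤ) : ℝ) := by exact_mod_cast h5
    linarith

/-- the general points can be normalised -/
theorem gen_norm (hh : ∀ c, MH pr (δ c) (F c)) {q : σ → ℂ} (hq : IsPt pr q)
    {g : MvPolynomial σ ℂ} (hg : eval q g ≠ 0) {D : ρ → ℕ} {T : MvPolynomial σ ℂ}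
    (hT : MH pr D T) {TT : Finset (κ → ℕ)} {Pc : (κ → ℕ) → MvPolynomial σ ℂ}
    (hgT : g * T = ∑ a ∈ TT, Pc a * ∏ c, F c ^ a c) :
    ∃ (j : ρ → σ) (q' : σ → ℂ) (g' : MvPolynomial σ ℂ) (Pc' : (κ → ℕ) → MvPolynomial σ ℂ),
      (∀ l, pr (j l) = l) ∧ (∀ l, q' (j l) = 1) ∧ eval q' g' ≠ 0 ∧
      g' * T = ∑ a ∈ TT, Pc' a * ∏ c, F c ^ a c ∧ (∀ c, eval q' (F c) = 0 ↔ eval q (F c) = 0) ∧
      ∀ a, eval q (Pc a) ≠ 0 → eval q' (Pc' a) ≠ 0 := by
  classical
  choose j hj hqj using hq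
  let t : ρ → ℂ := fun l => q (j l)
  let q' : σ → ℂ := fun i => q i / q (j (pr i))
  have hqq : ∀ i, t (pr i) * q' i = q i := fun i => by
    change q (j (pr i)) * (q i / q (j (pr i))) = q i
    rw [mul_div_cancel₀ _ (hqj _)]
  let τ : MvPolynomial σ ℂ →ₐ[ℂ] MvPolynomial σ ℂ := aeval fun i => C (t (pr i)) * MvPolynomial.X i
  have hev : ∀ P : MvPolynomial σ ℂ, eval q' (τ P) = eval q P := by
    intro P
    have h1 : ∀ (q : σ → ℂ) (P : MvPolynomial σ ℂ), eval q P = aeval q P := by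
      intro q P
      rw [← coe_aeval_eq_eval]
      rfl
    rw [h1, h1, ← AlgHom.comp_apply, MvPolynomial.comp_aeval]
    congr 2
    funext i
    rw [map_mul, aeval_X, ← hqq i]
    congr 1
    rw [MvPolynomial.algHom_C]
    rfl
  have hτ : ∀ (D : ρ → ℕ) (T : MvPolynomial σ ℂ), MH pr D T →
      τ T = C (∏ l, t l ^ D l) * T := by
    intro D T hT
    change aeval (fun i => C (t (pr i)) * MvPolynomial.X i) T = _
    have h1 := hT.scale (fun l => (C (t l) : MvPolynomial σ ℂ)) MvPolynomial.X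
    rw [h1, aeval_X_left_apply, map_prod]
    simp only [map_pow]
  have hD : (∏ l, t l ^ D l) ≠ 0 := Finset.prod_ne_zero_iff.2 fun l _ => pow_ne_zero _ (hqj l)
  have hδ : ∀ c, (∏ l, t l ^ δ c l) ≠ 0 := fun c =>
    Finset.prod_ne_zero_iff.2 fun l _ => pow_ne_zero _ (hqj l)
  refine ⟨j, q', τ g * C (∏ l, t l ^ D l), fun a => τ (Pc a) * C (∏ c, (∏ l, t l ^ δ c l) ^ a c),
    hj, fun l => ?_, ?_, ?_, fun c => ?_, fun a ha => ?_⟩
  · change q (j l) / q (j (pr (j l))) = 1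
    rw [hj, div_self (hqj l)]
  · rw [map_mul, hev, eval_C]
    exact mul_ne_zero hg hD
  · have h1 := congrArg τ hgT
    rw [map_mul, hτ D T hT, map_sum] at h1
    rw [mul_assoc, h1]
    refine Finset.sum_congr rfl fun a _ => ?_
    rw [map_mul, map_prod]
    have h2 : ∏ c, τ (F c ^ a c) = C (∏ c, (∏ l, t l ^ δ c l) ^ a c) * ∏ c, F c ^ a c := by
      rw [map_prod, ← Finset.prod_mul_distrib]
      refine Finset.prod_congr rfl fun c _ => ?_
      rw [map_pow, hτ _ _ (hh c), mul_pow, map_pow]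
    rw [h2]
    ring
  · have h1 := hev (F c)
    rw [hτ _ _ (hh c), map_mul, eval_C] at h1
    rw [← h1]
    constructor
    · intro h2
      rw [h2, mul_zero]
    · intro h2
      exact (mul_eq_zero.1 h2).resolve_left (hδ c)
  · rw [map_mul, hev, eval_C]
    exact mul_ne_zero ha (Finset.prod_ne_zero_iff.2 fun c _ => pow_ne_zero _ (hδ c))

end

end Pool.Agent.Q41.AB
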