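import Pool.Agent.Q41.AB.Se

/-!
The structure of the sections: the main statement.
-/

set_option autoImplicit false
set_option linter.overlappingInstances false
set_option linter.unusedSectionVars false
set_option maxHeartbeats 1000000

open FF MvPolynomial IntermediateField Pool.Agent.W603.LV Pool.Agent.W619.PQ
open Pool.Agent.W619.TW Pool.Agent.W602.GT Pool.Agent.TH122.AB Pool.Agent.TH756.PN

namespace Pool.Agent.Q41.AB

open Pool.Agent.Q41.RC (MH IsPt SNC DatK IsCov CovK bwK IsVec)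
open Pool.Agent.Q57.TP (SecD)
open Pool.Agent.Y169.CH (pw mem_pw tr tr_ge tr_fix)

section

variable {K ρ σ κ J : Type} [Field K] [Algebra ℂ K] [Fintype ρ] [Fintype σ] [Fintype κ]
  {pr : σ → ρ} {o : ρ → σ} {δ : κ → ρ → ℕ} {F : κ → MvPolynomial σ ℂ} {m : J → ℕ}
    {a : J → κ → ℕ} {y : σ → K} {z : J → K} {n : ℕ} {ε : ρ ⊕ Fin (n + 1) ≃ σ}
    {G : Subgroup (K ≃ₐ[ℂ] K)} {X : Fin (n + 1) → IntermediateField.fixedField G}
    {D0 : Fin (n + 1) → Derivation ℂ K K}

theorem locIn_zero (q : σ → ℂ) (U : Set (κ → ℕ)) : LocIn F q U (0 : MvPolynomial σ ℂ) :=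
  ⟨1, by rw [map_one]; exact one_ne_zero, by rw [mul_zero]; exact Ideal.zero_mem _⟩

theorem ordGe_nat (v : κ → ℕ) (T : MvPolynomial σ ℂ) : OrdGe pr F v 0 T := by
  intro q _ _
  refine ⟨1, by rw [map_one]; exact one_ne_zero, ?_⟩
  rw [one_mul]
  have h1 : (1 : MvPolynomial σ ℂ) ∈ MI F {a | 0 ≤ wt v a} := by
    refine Ideal.subset_span ⟨0, ?_, ?_⟩
    · exact Nat.zero_le _
    · simp
  have h2 := Ideal.mul_mem_left _ T h1
  rwa [mul_one] at h2

/-- an order which is not reached -/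
theorem exists_jump {v : κ → ℕ} {T : MvPolynomial σ ℂ} {N : ℕ} (h : ¬ OrdGe pr F v N T) :
    ∃ r, r < N ∧ OrdGe pr F v r T ∧ ¬ OrdGe pr F v (r + 1) T := by
  induction N with
  | zero => exact absurd (ordGe_nat v T) h
  | succ N ih =>
    by_cases h1 : OrdGe pr F v N T
    · exact ⟨N, Nat.lt_succ_self N, h1, h⟩
    · obtain ⟨r, hr, h2, h3⟩ := ih h1
      exact ⟨r, by omega, h2, h3⟩

/-- **The order along a vector from the test places.** -/
theorem ord_of_test (tor : S_Tor) (locC : S_LocC) (ram : S_Ram) (gen : S_Gen) [Fintype J] [Finite G]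
    (h : Su pr o δ F m a y z ε G X D0) (hS : SNC pr F) {S : κ → Prop} {δb : Place ℂ K → ℚ}
    (hB : Bd pr δ F y S δb) {ρv : κ → ℕ} (hρ : IsVec pr m a S F ρv) {D : ρ → ℕ}
    {T : MvPolynomial σ ℂ} (hT : MH pr D T) {N : ℕ}
    (hpl : ∀ (v : Place ℂ (fixedField G)) (w : Place ℂ K) (e : ℕ), Over w v e →
      (∀ P : Place ℂ K, Over P v e → ∀ (α : ρ → ℤ) (v' : κ → ℕ), DatK P pr F δ y α v' →
        ∀ (S' : Finset K) (N' : ℕ)
          (ω : (Fin (n + 1) → Derivation ℂ K K) → K), SecD (n + 1) δb S' N' ω →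
          ω D0 * Lm F y N' = 0 ∨ ∃ s ∈ S', s ≠ 0 ∧
            P.ord s + N' * ∑ l, sg pr δ l * α l + N' ≤ P.ord (ω D0 * Lm F y N')) →
      ∀ (α : ρ → ℤ) (v' : κ → ℕ), DatK w pr F δ y α v' →
        Ge w (∑ l, (D l : ℤ) * α l + N) (aeval y T)) :
    OrdGe pr F ρv N T := by
  classical
  by_cases hT0 : T = 0
  · intro q _ _
    rw [hT0]
    exact locIn_zero q _
  have hTy : aeval y T ≠ 0 :=
    Pool.Agent.Q41.RC.aeval_ne_zero hT hT0 h.cov.hy h.cov.ho h.cov.hbas.1
  by_contra hcon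
  obtain ⟨r, hr, h1, h2⟩ := exists_jump hcon
  obtain ⟨q, g, TT, Pc, hq, hq1, hq2, hg, hgT, hTT, hlead⟩ := gen pr F hS ρv r T h1 h2
  obtain ⟨j, q', g', Pc', hj, hqj, hg', hgT', hF', hPc'⟩ := gen_norm h.cov.hF hq hg hT hgT
  obtain ⟨v, w, e, N1, hw, hN1, heN, hP⟩ := test_su tor locC ram h hS hρ.ne hρ.dvd hj hqj
    (fun c hc => (hF' c).2 (hq1 c hc)) (fun c hc h0 => hq2 c hc ((hF' c).1 h0))
  have hδ0 : ∀ P : Place ℂ K, Over P v e → ∀ (α : ρ → ℤ) (v' : κ → ℕ),
      DatK P pr F δ y α v' → δb P = 0 := by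
    intro P hPv α v' hd
    refine hB.zero P α v' hd fun c hc => ?_
    have h3 := (hP P hPv α v' hd).1 c
    rw [hρ.out c hc, mul_zero] at h3
    rcases Nat.mul_eq_zero.1 h3 with h4 | h4
    · omega
    · exact h4
  obtain ⟨α, v', hd⟩ := h.cov.exists_dat w
  have h3 := hpl v w e hw (fun P hPv α v' hd => (hP P hPv α v' hd).2.1 δb (hδ0 P hPv α v' hd))
    α v' hd
  have h4 := h3.resolve_left hTy
  obtain ⟨a1, ha1, ha1r, ha1q⟩ := hlead
  have h5 := (hP w hw α v' hd).2.2 D T g' r TT Pc' hT hg' hgT' hTT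
    ⟨a1, ha1, ha1r, hPc' a1 ha1q⟩ hTy
  have he := hw.1
  have h6 : e ≤ N1 := Nat.le_of_dvd hN1 heN
  have h7 : (N : ℤ) ≤ w.ord (aeval y T) - ∑ l, D l * α l := by linarith
  have h8 : (N1 : ℤ) * N ≤ e * r := by
    rw [← h5]
    exact mul_le_mul_of_nonneg_left h7 (by positivity)
  have h9 : N1 * N ≤ e * r := by exact_mod_cast h8
  have h10 : e * r ≤ N1 * r := Nat.mul_le_mul_right _ h6
  have h11 : N1 * N ≤ N1 * r := h9.trans h10
  have h12 := Nat.le_of_mul_le_mul_left h11 hN1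
  omega

/-- **The structure of the sections.** -/
theorem sec_su (tor : S_Tor) (locC : S_LocC) (ram : S_Ram) (gen : S_Gen) (den : S_Den)
    (hom : S_Hom) [Fintype J] [Finite G]
    (h : Su pr o δ F m a y z ε G X D0) (hS : SNC pr F) {S : κ → Prop} {δb : Place ℂ K → ℚ}
    (hB : Bd pr δ F y S δb) (hsg : ∀ l, 0 ≤ sg pr δ l) (S' : Finset K) :
    ∃ (r : ℕ) (β : Fin r → K) (DQ : ρ → ℕ) (Q : MvPolynomial σ ℂ), aeval y Q ≠ 0 ∧
      ∀ (N j : ℕ) (ω : (Fin (n + 1) → Derivation ℂ K K) → K),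
        SecD (n + 1) δb (pw S' j) N ω →
        ∃ T : Fin r → MvPolynomial σ ℂ,
          (∀ i, MH pr (fun l => N * (sg pr δ l).toNat + (j + 1) * DQ l) (T i)) ∧
          ω D0 * Lm F y N * aeval y Q ^ (j + 1) = ∑ i, aeval y (T i) * β i ∧
          ∀ i ρv, IsVec pr m a S F ρv → OrdGe pr F ρv N (T i) := by
  classical
  have hGal : IsGaloisGroup G (fixedField G) K := isGaloisGroup_fixed G
  have hfdG : FiniteDimensional (fixedField G) K := IsGaloisGroup.finiteDimensional G _ K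
  let b := Module.finBasis (fixedField G) K
  obtain ⟨b', hb'⟩ := Pool.Agent.Q57.GM.exists_dual_tr G b
  obtain ⟨B, hBdef⟩ : ∃ B : Finset K, B = S' ∪ Finset.univ.image fun i => b i := ⟨_, rfl⟩
  have halg : Algebra.IsAlgebraic (IntermediateField.adjoin ℂ (Set.range y)) K := by
    have h1 := fin_su h (fun b => y (ε (Sum.inr b))) h.bas
    have h2 : IntermediateField.adjoin ℂ (Set.range fun b => y (ε (Sum.inr b))) ≤
        IntermediateField.adjoin ℂ (Set.range y) := by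
      apply IntermediateField.adjoin.mono
      rintro _ ⟨b, rfl⟩
      exact ⟨_, rfl⟩
    refine ⟨fun x => ?_⟩
    have h3 : IsAlgebraic (IntermediateField.adjoin ℂ (Set.range fun b => y (ε (Sum.inr b)))) x :=
      Algebra.IsAlgebraic.isAlgebraic x
    obtain ⟨p, hp, hpx⟩ := h3
    refine ⟨p.map (IntermediateField.inclusion h2).toRingHom, ?_, ?_⟩
    · rw [Ne, Polynomial.map_eq_zero_iff]
      · exact hp
      · exact (IntermediateField.inclusion h2).toRingHom.injective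
    · rw [Polynomial.aeval_def, Polynomial.eval₂_map]
      rw [Polynomial.aeval_def] at hpx
      exact hpx
  obtain ⟨DQ, Q, -, hQ0, hden⟩ := den pr o h.cov.ho y h.cov.hy halg B
  refine ⟨_, b', DQ, Q, hQ0, fun N j ω hω => ?_⟩
  obtain ⟨x, hx⟩ : ∃ x, x = ω D0 * Lm F y N := ⟨_, rfl⟩
  have hS'B : S' ⊆ B := by
    rw [hBdef]
    exact Finset.subset_union_left
  have hbB : ∀ i, b i ∈ B := by
    intro i
    rw [hBdef]
    exact Finset.mem_union_right _ (Finset.mem_image_of_mem _ (Finset.mem_univ i))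
  have hsgN : ∀ l, (((N * (sg pr δ l).toNat + (j + 1) * DQ l : ℕ)) : ℤ) =
      N * sg pr δ l + (j + 1) * DQ l := by
    intro l
    push_cast
    rw [Int.toNat_of_nonneg (hsg l)]
  -- the bound for the traces
  have hbound : ∀ (v : Place ℂ (fixedField G)) (w : Place ℂ K) (e : ℕ), Over w v e →
      ∀ M0 : ℤ, (∀ P : Place ℂ K, Over P v e → ∀ (α : ρ → ℤ) (v' : κ → ℕ), DatK P pr F δ y α v' →
        x = 0 ∨ ∃ s ∈ pw S' j, s ≠ 0 ∧ P.ord s + N * ∑ l, sg pr δ l * α l + M0 ≤ P.ord x) →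
      ∀ (α : ρ → ℤ) (v' : κ → ℕ), DatK w pr F δ y α v' → ∀ i,
        Ge w (∑ l, ((N * (sg pr δ l).toNat + (j + 1) * DQ l : ℕ) : ℤ) * α l + M0)
          (tr G (x * aeval y Q ^ (j + 1) * b i)) := by
    intro v w e hw M0 hP α v' hd i
    have h1 := tr_bound h (B := B) (S' := S') hQ0 hden hS'B hd (hbB i) (N := N) (j := j) (x := x)
      (M0 := M0) (fun g hg => hP (w.comp g) (over_comp hw hg) α v' (conj_dat h hg hd))
    have h2 : ∑ l, ((N * (sg pr δ l).toNat + (j + 1) * DQ l : ℕ) : ℤ) * α l =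
        ∑ l, (N * sg pr δ l + (j + 1) * DQ l) * α l :=
      Finset.sum_congr rfl fun l _ => by rw [hsgN]
    rw [h2]
    exact h1
  -- the traces are polynomials
  have hmain : ∀ i, ∃ T : MvPolynomial σ ℂ,
      MH pr (fun l => N * (sg pr δ l).toNat + (j + 1) * DQ l) T ∧
      aeval y T = tr G (x * aeval y Q ^ (j + 1) * b i) := by
    intro i
    obtain ⟨t, ht⟩ : ∃ t : fixedField G, (t : K) = tr G (x * aeval y Q ^ (j + 1) * b i) :=
      ⟨⟨_, tr_fix G _⟩, rfl⟩
    obtain ⟨P, hP⟩ : ∃ P : MvPolynomial (Fin (n + 1)) ℂ, t = aeval X P := by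
      refine poly_of_reg h.gens fun p hp v hv1 hv2 => ?_
      obtain ⟨w, e, hw, hram⟩ := ram h.cov ε h.eps G X h.gens h.coe v
      obtain ⟨α, v', hd⟩ := h.cov.exists_dat w
      obtain ⟨lam, hl1, hl2⟩ := hram α v' hd
      have h1 : ∀ g ∈ G, x = 0 ∨ ∃ s ∈ pw S' j, s ≠ 0 ∧
          (w.comp g).ord s + N * ∑ l, sg pr δ l * α l + 0 ≤ (w.comp g).ord x := by
        intro g hg
        have hd' := conj_dat h hg hd
        have hov := over_comp hw hg
        have h2 := (adic_su h hp hv1 hv2 hov hd' (vbound hov hd' hB hl1 hl2) hω).2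
        rw [hx]
        simp only [add_zero]
        exact h2
      have hα : ∀ l, α l = 0 := (adic_su h hp hv1 hv2 hw hd (vbound hw hd hB hl1 hl2) hω).1
      have h2 := tr_bound h (B := B) (S' := S') hQ0 hden hS'B hd (hbB i) (N := N) (j := j) (x := x)
        (M0 := 0) h1
      rw [Finset.sum_eq_zero fun l _ => by rw [hα l, mul_zero], add_zero, ← ht] at h2
      exact hw.reg.1 h2
    have hdeg : ∀ s ∈ P.support, ∀ l, ∑ b, (if pr (ε (Sum.inr b)) = l then s b else 0) ≤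
        N * (sg pr δ l).toNat + (j + 1) * DQ l := by
      intro s hs l0
      have hP0 : P ≠ 0 := by
        rintro rfl
        simp at hs
      obtain ⟨Bf, v0, hBf, hv0, hinf⟩ := inf_su h l0
      obtain ⟨w, e, hw, hram⟩ := ram h.cov ε h.eps G X h.gens h.coe v0
      obtain ⟨α, v', hd⟩ := h.cov.exists_dat w
      obtain ⟨lam, hl1, hl2⟩ := hram α v' hd
      have hα := (hinf w e hw α v' hd).1
      have h1 : ∀ g ∈ G, x = 0 ∨ ∃ s ∈ pw S' j, s ≠ 0 ∧
          (w.comp g).ord s + N * ∑ l, sg pr δ l * α l + 0 ≤ (w.comp g).ord x := by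
        intro g hg
        have hd' := conj_dat h hg hd
        have hov := over_comp hw hg
        have h2 := (hinf (w.comp g) e hov α v' hd').2 δb (vbound hov hd' hB hl1 hl2) _ N ω hω
        rw [hx]
        simp only [add_zero]
        exact h2
      have h2 := tr_bound h (B := B) (S' := S') hQ0 hden hS'B hd (hbB i) (N := N) (j := j) (x := x)
        (M0 := 0) h1
      have h3 : ∑ l, (N * sg pr δ l + (j + 1) * DQ l) * α l =
          - ((N * sg pr δ l0 + (j + 1) * DQ l0) * e) := by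
        rw [Finset.sum_eq_single l0]
        · rw [hα.1]
          ring
        · intro l _ hl
          rw [hα.2 l hl, mul_zero]
        · intro h'
          exact absurd (Finset.mem_univ _) h'
      rw [h3, add_zero, ← ht] at h2
      have ht0 : (t : K) ≠ 0 := by
        rw [hP]
        have := h.gens.ne hP0
        simpa using this
      have h4 := h2.resolve_left ht0
      have h5 : w.ord (t : K) = e * v0.ord t := hw.2 t
      rw [h5, hP, hv0 P hP0] at h4
      have he : (0 : ℤ) < e := by exact_mod_cast hw.1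
      have h6 : ((degB Bf P : ℕ) : ℤ) * e ≤ (N * sg pr δ l0 + (j + 1) * DQ l0) * e := by linarith
      have h7 := le_of_mul_le_mul_right h6 he
      rw [← hsgN] at h7
      have h8 : degB Bf P ≤ N * (sg pr δ l0).toNat + (j + 1) * DQ l0 := by exact_mod_cast h7
      refine le_trans (le_of_eq ?_) ((sum_le_degB hs).trans h8)
      rw [← Finset.sum_filter]
      refine Finset.sum_congr ?_ fun _ _ => rfl
      ext b
      rw [Finset.mem_filter, hBf]
      simp
    obtain ⟨T, hT1, hT2⟩ := hom pr ε (fun l => by rw [h.eps, h.cov.ho]) _ P hdeg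
    refine ⟨T, hT1, ?_⟩
    rw [hT2 y fun l => by rw [h.eps, h.cov.hy], ae_coe h, ← hP, ht]
  choose T hT1 hT2 using hmain
  refine ⟨T, hT1, ?_, fun i ρv hρ => ?_⟩
  · have h1 := hb' (ω D0 * Lm F y N * aeval y Q ^ (j + 1))
    rw [h1]
    refine Finset.sum_congr rfl fun i _ => ?_
    rw [hT2, hx]
  · refine ord_of_test tor locC ram gen h hS hB hρ (hT1 i) fun v w e hw hP α v' hd => ?_
    rw [hT2]
    refine hbound v w e hw N (fun P hPv α v' hd => ?_) α v' hd i
    rw [hx]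
    exact hP P hPv α v' hd _ N ω hω

end

end Pool.Agent.Q41.AB
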