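import Mathlib
import Pool.Agent.Q41.RC.Nz

/-!
Orders of forms along the strata of normal crossing hypersurfaces: definitions and the statements of
the lemmas.
-/

set_option autoImplicit false

open MvPolynomial

namespace Pool.Agent.Q41.AB

open Pool.Agent.Q41.RC (MH IsPt SNC)

section defs

variable {k ρ σ κ : Type} [Field k] [Fintype ρ] [Fintype σ] [Fintype κ]

/-- the weight of the exponent `a` -/
def wt {κ : Type} [Fintype κ] (v a : κ → ℕ) : ℕ := ∑ c, a c * v c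

/-- the ideal which is generated by the products `∏ F c ^ a c`, `a ∈ U` -/
noncomputable def MI (F : κ → MvPolynomial σ k) (U : Set (κ → ℕ)) : Ideal (MvPolynomial σ k) :=
  Ideal.span {p | ∃ a ∈ U, p = ∏ c, F c ^ a c}

/-- `G` is in this ideal, locally at `q` -/
def LocIn (F : κ → MvPolynomial σ k) (q : σ → k) (U : Set (κ → ℕ)) (G : MvPolynomial σ k) : Prop :=
  ∃ g : MvPolynomial σ k, eval q g ≠ 0 ∧ g * G ∈ MI F U

/-- The order of `G` along `v` is at least `r`, at all points of the stratum of `v`. -/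
def OrdGe (pr : σ → ρ) (F : κ → MvPolynomial σ k) (v : κ → ℕ) (r : ℕ) (G : MvPolynomial σ k) : Prop :=
  ∀ q : σ → k, IsPt pr q → (∀ c, v c ≠ 0 → eval q (F c) = 0) → LocIn F q {a | r ≤ wt v a} G

end defs

/-- Local coordinates: polynomials in the coordinates `Y` approximate all polynomials, and their
order at `q` is the obvious one. -/
def S_CH : Prop := ∀ {k σ : Type} [Field k] [Fintype σ] [DecidableEq σ] (q : σ → k)
    (Y : σ → MvPolynomial σ k), (∀ b, eval q (Y b) = 0) →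
    (Matrix.of fun i b => eval q (pderiv i (Y b))).det ≠ 0 →
    (∀ (B : ℕ) (G : MvPolynomial σ k), ∃ T : MvPolynomial σ k,
      G - aeval Y T ∈ (RingHom.ker (eval q)) ^ B) ∧
    ∀ (B : ℕ) (T : MvPolynomial σ k), aeval Y T ∈ (RingHom.ker (eval q)) ^ B →
      ∀ s ∈ T.support, B ≤ s.degree

/-- Krull's intersection theorem. -/
def S_Krull : Prop := ∀ {k σ : Type} [Field k] [Fintype σ] (q : σ → k)
    (I : Ideal (MvPolynomial σ k)) (G : MvPolynomial σ k),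
    (∀ B : ℕ, G ∈ I ⊔ (RingHom.ker (eval q)) ^ B) → ∃ g : MvPolynomial σ k, eval q g ≠ 0 ∧ g * G ∈ I

/-- Intersections of monomial ideals. -/
def S_Inter : Prop := ∀ {k ρ σ κ : Type} [Field k] [Fintype ρ] [Fintype σ] [Fintype κ]
    (pr : σ → ρ) (F : κ → MvPolynomial σ k), SNC pr F → ∀ q : σ → k, IsPt pr q →
    ∀ U W : Set (κ → ℕ), IsUpperSet U → IsUpperSet W →
    (∀ a ∈ U, ∀ b : κ → ℕ, (∀ c, eval q (F c) = 0 → b c = a c) → b ∈ U) →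
    (∀ a ∈ W, ∀ b : κ → ℕ, (∀ c, eval q (F c) = 0 → b c = a c) → b ∈ W) →
    ∀ G : MvPolynomial σ k, LocIn F q U G → LocIn F q W G → LocIn F q (U ∩ W) G

/-- Leading forms at general points of a stratum. -/
def S_Gen : Prop := ∀ {k ρ σ κ : Type} [Field k] [IsAlgClosed k] [Fintype ρ] [Fintype σ]
    [Fintype κ] (pr : σ → ρ) (F : κ → MvPolynomial σ k), SNC pr F → ∀ (v : κ → ℕ) (r : ℕ)
    (G : MvPolynomial σ k), OrdGe pr F v r G → ¬ OrdGe pr F v (r + 1) G →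
    ∃ (q : σ → k) (g : MvPolynomial σ k) (T : Finset (κ → ℕ)) (P : (κ → ℕ) → MvPolynomial σ k),
      IsPt pr q ∧ (∀ c, v c ≠ 0 → eval q (F c) = 0) ∧ (∀ c, v c = 0 → eval q (F c) ≠ 0) ∧
      eval q g ≠ 0 ∧ g * G = ∑ a ∈ T, P a * ∏ c, F c ^ a c ∧
      (∀ a ∈ T, r ≤ wt v a ∧ ∀ c, v c = 0 → a c = 0) ∧ ∃ a ∈ T, wt v a = r ∧ eval q (P a) ≠ 0

/-- The order of a nonzero polynomial is finite. -/
def S_Fin : Prop := ∀ {k ρ σ κ : Type} [Field k] [Fintype ρ] [Fintype σ] [Fintype κ]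
    (pr : σ → ρ) (F : κ → MvPolynomial σ k) (v : κ → ℕ) (G : MvPolynomial σ k), G ≠ 0 →
    (∃ q : σ → k, IsPt pr q ∧ ∀ c, v c ≠ 0 → eval q (F c) = 0) → ∃ r, ¬ OrdGe pr F v r G

/-- Arcs with prescribed values of the hypersurfaces. -/
def S_Arc : Prop := ∀ {k L σ κ : Type} [Field k] [Field L] [Algebra k L] [Fintype σ] [Fintype κ]
    (F : κ → MvPolynomial σ k) (J : Finset κ) (q : σ → L), (∀ c ∈ J, aeval q (F c) = 0) →
    LinearIndependent L (fun (c : J) (i : σ) => aeval q (pderiv i (F c.1))) →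
    ∀ H : κ → Polynomial L, (∀ c ∈ J, (H c).coeff 0 = 0) → ∀ B : ℕ,
    ∃ x : σ → Polynomial L, (∀ i, (x i).coeff 0 = q i) ∧
      ∀ c ∈ J, (Polynomial.X : Polynomial L) ^ B ∣ aeval x (F c) - H c

/-- Curves through a given point with prescribed values of the hypersurfaces. -/
def S_Curve : Prop := ∀ {k ρ σ κ ι : Type} [Field k] [IsAlgClosed k] [Fintype ρ] [Fintype σ]
    [Fintype κ] [Fintype ι] (pr : σ → ρ) (δ : κ → ρ → ℕ) (F : κ → MvPolynomial σ k),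
    (∀ c, MH pr (δ c) (F c)) → ∀ (q0 : σ → k) (μ : ρ → ℕ) (V : ι → κ → ℕ) (u : κ → ℕ),
    (∀ c, eval q0 (F c) ≠ 0 → ∑ i, V i c + u c = ∑ l, μ l * δ c l) →
    ∑ c, ∑ l, μ l * δ c l < ∑ i, μ (pr i) + Fintype.card ι →
    ∃ (Q : σ → Polynomial k) (τ : ι → k), (∀ i, (Q i).natDegree ≤ μ (pr i)) ∧
      (∀ i, (Q i).coeff (μ (pr i)) = q0 i) ∧
      (∀ c, aeval Q (F c) = Polynomial.C (eval q0 (F c)) *
        (Polynomial.X ^ u c * ∏ i, (Polynomial.X - Polynomial.C (τ i)) ^ V i c)) ∧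
      ((∃ i, Q i ≠ Polynomial.C (q0 i) * Polynomial.X ^ μ (pr i)) ∨ ∃ j, τ j ≠ 0)

section ext

open scoped Classical in
/-- the multiplicities of the piece `t` -/
noncomputable def wp {ρ κ ι T : Type} [Fintype ρ] [Fintype ι] (δ : κ → ρ → ℕ) (V : ι → κ → ℕ)
    (u : κ → ℕ) (t0 : T) (τ : ι → T) (kk : T → ρ → ℕ) (t : T) (c : κ) : ℤ :=
  (∑ i, if τ i = t then (V i c : ℤ) else 0) + (if t = t0 then (u c : ℤ) else 0) -
    ∑ l, (kk t l : ℤ) * δ c l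

/-- a curve of the degree `μ` in the exceptional divisor of `v` decomposes into pieces -/
def Pieces {ρ κ ι : Type} [Fintype ρ] [Fintype ι] (δ : κ → ρ → ℕ) (Λ : Set (κ → ℕ))
    (r : (κ → ℕ) → ℕ) (D : ρ → ℕ) (V : ι → κ → ℕ) (μ : ρ → ℕ) (u v : κ → ℕ) : Prop :=
  ∃ (T : Type) (_ : Fintype T) (t0 : T) (τ : ι → T) (kk : T → ρ → ℕ),
    (∀ l, ∑ t, kk t l ≤ μ l) ∧
    (∀ t c, v c = 0 → 0 ≤ wp δ V u t0 τ kk t c) ∧
    (∀ (R : ℕ) (w : κ → ℕ) (t : T), (∀ c, (w c : ℤ) = wp δ V u t0 τ kk t c + R * v c) → w ∈ Λ) ∧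
    (∀ (R : ℕ) (w : T → κ → ℕ), (∀ t c, (w t c : ℤ) = wp δ V u t0 τ kk t c + R * v c) →
      ∑ t, ((∑ l, (D l : ℤ) * kk t l) + r (w t) - R * r v) ≤ ∑ l, (D l : ℤ) * μ l + r v) ∧
    ¬ (kk t0 = μ ∧ ∀ i, τ i = t0)

/-- The extremal argument. -/
def S_Ext : Prop := ∀ {ρ κ : Type} [Fintype ρ] [Fintype κ] (δ : κ → ρ → ℕ) (Λ A : Set (κ → ℕ))
    (r : (κ → ℕ) → ℕ) (N0 : ℕ) (D : ρ → ℕ) (s : ρ → ℤ),
    (∀ v ∈ Λ, ∀ w : κ → ℕ, (∀ c, w c ≠ 0 → v c ≠ 0) → w ∈ Λ) → A ⊆ Λ →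
    (∀ {ι : Type} [Fintype ι] (V : ι → κ → ℕ) (μ : ρ → ℕ) (v : κ → ℕ), (∀ i, V i ∈ A) → v ∈ Λ →
      v ≠ 0 → (∀ c, ∑ i, V i c = v c + ∑ l, μ l * δ c l) → v ∈ A) →
    (∀ v w, v + w ∈ Λ → r v + r w ≤ r (v + w)) →
    (∀ (n : ℕ) (v : κ → ℕ), v ∈ Λ → r (n • v) = n * r v) →
    (∀ v ∈ A, N0 ≤ r v) →
    (∀ l, (N0 : ℤ) * s l ≤ D l) →
    (∀ {ι : Type} [Fintype ι] (V : ι → κ → ℕ) (μ : ρ → ℕ), (∀ i, V i ∈ A) →
      (∀ c, ∑ i, V i c ≤ ∑ l, μ l * δ c l) → (Fintype.card ι : ℤ) ≤ ∑ l, (μ l : ℤ) * s l) →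
    (∀ {ι : Type} [Fintype ι] (V : ι → κ → ℕ) (μ : ρ → ℕ) (u v : κ → ℕ), v ∈ Λ → v ≠ 0 →
      (∀ i, V i ∈ A) → (∀ c, ∑ i, V i c + u c = v c + ∑ l, μ l * δ c l) →
      ∑ l, (μ l : ℤ) * s l < Fintype.card ι → Pieces δ Λ r D V μ u v) →
    ∀ {ι : Type} [Fintype ι] (V : ι → κ → ℕ) (μ : ρ → ℕ) (v : κ → ℕ), (∀ i, V i ∈ A) → v ∈ Λ →
      (∀ c, ∑ i, V i c ≤ v c + ∑ l, μ l * δ c l) →
      (N0 : ℤ) * Fintype.card ι ≤ ∑ l, (D l : ℤ) * μ l + r v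

end ext

/-- Linear programming duality with finitely many vertices. -/
def S_LP : Prop := ∀ {κ R : Type} [Fintype κ] [Fintype R] (A : R → κ → ℤ) (b : R → ℤ),
    (∃ e : κ → ℚ, (∀ c, 0 ≤ e c) ∧ ∀ r, (b r : ℚ) ≤ ∑ c, (A r c : ℚ) * e c) →
    ∃ S : Finset (κ → ℚ), (∀ e ∈ S, (∀ c, 0 ≤ e c) ∧ ∀ r, (b r : ℚ) ≤ ∑ c, (A r c : ℚ) * e c) ∧
      ∀ v : κ → ℕ, ∃ e ∈ S, ∃ y : R → ℚ, (∀ r, 0 ≤ y r) ∧ (∀ c, ∑ r, y r * A r c ≤ v c) ∧
        ∑ c, (v c : ℚ) * e c ≤ ∑ r, y r * b r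

end Pool.Agent.Q41.AB
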