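import Pool.Agent.Q41.AB.Stm
import Pool.Agent.Q41.RC.Kap
import Pool.Agent.Y169.CH.Mono

/-!
Places and orders: the statements of the lemmas.
-/

set_option autoImplicit false

open MvPolynomial FF

namespace Pool.Agent.Q41.AB

open Pool.Agent.Q41.RC (MH IsPt SNC DatK IsCov CovK)
open Pool.Agent.TH122.AB (Gens Deg)
open Pool.Agent.Y169.CH (mord)

/-- Formal local coordinates. -/
def S_E : Prop := ∀ {k : Type} [Field k] {n : ℕ} (q : Fin n → k)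
    (Y : Fin n → MvPolynomial (Fin n) k), (∀ b, eval q (Y b) = 0) →
    (Matrix.of fun i b => eval q (pderiv i (Y b))).det ≠ 0 →
    ∃ E : MvPolynomial (Fin n) k →ₐ[k] MvPowerSeries (Fin n) k, Function.Injective E ∧
      (∀ P, MvPowerSeries.constantCoeff (E P) = eval q P) ∧ ∀ b, E (Y b) = MvPowerSeries.X b

/-- Monomial valuations in local coordinates. -/
def S_Tor : Prop := ∀ {k : Type} [Field k] {n : ℕ} (q : Fin n → k)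
    (Y : Fin n → MvPolynomial (Fin n) k), (∀ b, eval q (Y b) = 0) →
    (Matrix.of fun i b => eval q (pderiv i (Y b))).det ≠ 0 → ∀ lam : Fin n → ℕ,
    ∃ ν : MvPolynomial (Fin n) k → ℤ, Deg ν ∧ (∀ P, P ≠ 0 → 0 ≤ ν P) ∧
      (∀ P, eval q P ≠ 0 → ν P = 0) ∧
      (∀ P : MvPolynomial (Fin n) k, P ≠ 0 → aeval Y P ≠ 0 ∧ ν (aeval Y P) = mord lam P) ∧
      ∀ (r : ℕ) (T : Finset (Fin n → ℕ)) (P : (Fin n → ℕ) → MvPolynomial (Fin n) k),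
        (∀ a ∈ T, r ≤ ∑ b, lam b * a b ∧ ∀ b, lam b = 0 → a b = 0) →
        (∃ a ∈ T, ∑ b, lam b * a b = r ∧ eval q (P a) ≠ 0) →
        ∑ a ∈ T, P a * ∏ b, Y b ^ a b ≠ 0 ∧ ν (∑ a ∈ T, P a * ∏ b, Y b ^ a b) = r

/-- dehomogenization -/
noncomputable def deh {k ρ σ : Type} [Field k] {n : ℕ} (ε : ρ ⊕ Fin n ≃ σ) :
    MvPolynomial σ k →ₐ[k] MvPolynomial (Fin n) k :=
  aeval fun i => Sum.elim (fun _ => 1) X (ε.symm i)

/-- the local coordinates -/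
noncomputable def yc {k ρ σ κ : Type} [Field k] {n : ℕ} (ε : ρ ⊕ Fin n ≃ σ)
    (F : κ → MvPolynomial σ k) (q : σ → k) (c : Fin n → Option κ) (b : Fin n) :
    MvPolynomial (Fin n) k :=
  (c b).elim (X b - C (q (ε (Sum.inr b)))) fun e => deh ε (F e)

/-- The hypersurfaces through a point are part of a system of local coordinates. -/
def S_LocC : Prop := ∀ {k ρ σ κ : Type} [Field k] [Fintype ρ] [Fintype σ] [Fintype κ]
    (pr : σ → ρ) (δ : κ → ρ → ℕ) (F : κ → MvPolynomial σ k), (∀ c, MH pr (δ c) (F c)) →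
    SNC pr F → ∀ {n : ℕ} (ε : ρ ⊕ Fin n ≃ σ), (∀ l, pr (ε (Sum.inl l)) = l) →
    ∀ q : σ → k, (∀ l, q (ε (Sum.inl l)) = 1) → ∀ J : Finset κ, (∀ c ∈ J, eval q (F c) = 0) →
    ∃ c : Fin n → Option κ, CovK J c ∧ (∀ b b' e, c b = some e → c b' = some e → b = b') ∧
      (∀ b, eval (fun i => q (ε (Sum.inr i))) (yc ε F q c b) = 0) ∧
      (Matrix.of fun i b => eval (fun i => q (ε (Sum.inr i)))
        (pderiv i (yc ε F q c b))).det ≠ 0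

/-- Common denominators. -/
def S_Den : Prop := ∀ {k K ρ σ : Type} [Field k] [Field K] [Algebra k K] [Fintype ρ] [Fintype σ]
    (pr : σ → ρ) (o : ρ → σ), (∀ l, pr (o l) = l) → ∀ y : σ → K, (∀ l, y (o l) = 1) →
    Algebra.IsAlgebraic (IntermediateField.adjoin k (Set.range y)) K → ∀ B : Finset K,
    ∃ (D : ρ → ℕ) (Q : MvPolynomial σ k), MH pr D Q ∧ aeval y Q ≠ 0 ∧
      ∀ (P : Place k K) (α : ρ → ℤ), (∀ i, y i ≠ 0 → α (pr i) ≤ P.ord (y i)) →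
        ∀ b ∈ B, b ≠ 0 → ∑ l, (D l : ℤ) * α l ≤ P.ord (b * aeval y Q)

open scoped Classical in
/-- Homogenization. -/
def S_Hom : Prop := ∀ {k ρ σ : Type} [Field k] [Fintype ρ] [Fintype σ] (pr : σ → ρ) {n : ℕ}
    (ε : ρ ⊕ Fin n ≃ σ), (∀ l, pr (ε (Sum.inl l)) = l) → ∀ (D : ρ → ℕ)
    (P : MvPolynomial (Fin n) k),
    (∀ s ∈ P.support, ∀ l, ∑ b, (if pr (ε (Sum.inr b)) = l then s b else 0) ≤ D l) →
    ∃ G : MvPolynomial σ k, MH pr D G ∧ ∀ {K : Type} [Field K] [Algebra k K] (y : σ → K),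
      (∀ l, y (ε (Sum.inl l)) = 1) → aeval y G = aeval (fun b => y (ε (Sum.inr b))) P

/-- The order of a form at a place. -/
def S_Low : Prop := ∀ {k K ρ σ κ : Type} [Field k] [IsAlgClosed k] [Field K] [Algebra k K]
    [Fintype ρ] [Fintype σ] [Fintype κ] (P : Place k K) (pr : σ → ρ) (δ : κ → ρ → ℕ)
    (F : κ → MvPolynomial σ k), (∀ c, MH pr (δ c) (F c)) → ∀ (y : σ → K) (α : ρ → ℤ)
    (v : κ → ℕ), DatK P pr F δ y α v → ∀ (D : ρ → ℕ) (T : MvPolynomial σ k), MH pr D T →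
    ∀ r, OrdGe pr F v r T → aeval y T = 0 ∨ ∑ l, (D l : ℤ) * α l + r ≤ P.ord (aeval y T)

/-- Abelian covers are Galois. -/
def S_Gal : Prop := ∀ {K ρ σ κ J : Type} [Field K] [Algebra ℂ K] [Fintype ρ] [Fintype σ]
    [Fintype κ] [Fintype J] {pr : σ → ρ} {o : ρ → σ} {δ : κ → ρ → ℕ} {F : κ → MvPolynomial σ ℂ}
    {m : J → ℕ} {a : J → κ → ℕ} {y : σ → K} {z : J → K}, IsCov pr o δ F m a y z →
    ∀ {n : ℕ} (ε : ρ ⊕ Fin n ≃ σ), (∀ l, ε (Sum.inl l) = o l) →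
    ∃ (G : Subgroup (K ≃ₐ[ℂ] K)) (_ : Finite G) (X : Fin n → IntermediateField.fixedField G),
      Gens (k := ℂ) X ∧ ∀ b, (X b : K) = y (ε (Sum.inr b))

/-- The ramification indices. -/
def S_Ram : Prop := ∀ {K ρ σ κ J : Type} [Field K] [Algebra ℂ K] [Fintype ρ] [Fintype σ]
    [Fintype κ] [Fintype J] {pr : σ → ρ} {o : ρ → σ} {δ : κ → ρ → ℕ} {F : κ → MvPolynomial σ ℂ}
    {m : J → ℕ} {a : J → κ → ℕ} {y : σ → K} {z : J → K}, IsCov pr o δ F m a y z →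
    ∀ {n : ℕ} (ε : ρ ⊕ Fin n ≃ σ), (∀ l, ε (Sum.inl l) = o l) →
    ∀ (G : Subgroup (K ≃ₐ[ℂ] K)) [Finite G] (X : Fin n → IntermediateField.fixedField G),
      Gens (k := ℂ) X → (∀ b, (X b : K) = y (ε (Sum.inr b))) →
    ∀ v : Place ℂ (IntermediateField.fixedField G), ∃ (w : Place ℂ K) (e : ℕ), Over w v e ∧
      ∀ (α : ρ → ℤ) (v' : κ → ℕ), DatK w pr F δ y α v' → ∃ lam : κ → ℕ,
        (∀ c, v' c = e * lam c) ∧ ∀ N : ℕ, (∀ j, m j ∣ N * ∑ c, a j c * lam c) → e ∣ N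

/-- From the main inequality to the exponents. -/
def S_Comb : Prop := ∀ {κ ρ : Type} [Fintype κ] [Fintype ρ] (δ : κ → ρ → ℕ) (s : ρ → ℕ)
    (A : Set (κ → ℕ)),
    (∃ e : κ → ℚ, (∀ c, 0 ≤ e c) ∧ (∀ v ∈ A, 1 ≤ ∑ c, (v c : ℚ) * e c) ∧
      ∀ l, ∑ c, (δ c l : ℚ) * e c ≤ s l) →
    ∃ S : Finset (κ → ℚ), (∀ e ∈ S, (∀ c, 0 ≤ e c) ∧ (∀ v ∈ A, 1 ≤ ∑ c, (v c : ℚ) * e c) ∧
      ∀ l, ∑ c, (δ c l : ℚ) * e c ≤ s l) ∧
      ∀ v : κ → ℕ, ∃ e ∈ S, ∃ Y : ρ → ℚ, (∀ l, 0 ≤ Y l) ∧ ∀ (Q : ρ → ℕ) (m j r : ℕ),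
        (∀ (M : ℕ) {ι : Type} [Fintype ι] (V : ι → κ → ℕ) (μ : ρ → ℕ), 1 ≤ M →
          (∀ i, V i ∈ A) → (∀ c, ∑ i, V i c ≤ M * v c + ∑ l, μ l * δ c l) →
          m * Fintype.card ι ≤ ∑ l, (m * s l + Q l * (j + 1)) * μ l + M * r) →
        (m : ℚ) * ∑ c, (v c : ℚ) * e c ≤ r + (j + 1) * ∑ l, (Q l : ℚ) * Y l

end Pool.Agent.Q41.AB
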