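import Pool.Agent.Q41.AB.Cha
import Pool.Agent.Y169.CH.Div

/-!
The test places.
-/

set_option autoImplicit false
set_option linter.overlappingInstances false
set_option linter.unusedSectionVars false
set_option maxHeartbeats 400000

open FF MvPolynomial IntermediateField Pool.Agent.W603.LV Pool.Agent.W619.PQ
open Pool.Agent.W619.TW Pool.Agent.W602.GT Pool.Agent.TH122.AB Pool.Agent.TH756.PN

namespace Pool.Agent.Q41.AB

open Pool.Agent.Q41.RC (MH IsPt SNC DatK IsCov CovK bwK)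
open Pool.Agent.Q57.TP (SecD)
open Pool.Agent.Y169.CH (mord log_mono div_mono exists_mono mord_monomial)

/-- the primitive vector -/
theorem exists_prim {κ : Type} [Fintype κ] {v : κ → ℕ} (hv : v ≠ 0) :
    ∃ (N : ℕ) (lam : κ → ℕ) (x : κ → ℤ), 0 < N ∧ (∀ c, v c = N * lam c) ∧
      ∑ c, x c * lam c = 1 := by
  classical
  let H : AddSubgroup ℤ :=
    { carrier := {z | ∃ x : κ → ℤ, ∑ c, x c * v c = z}
      add_mem' := by
        rintro a b ⟨x, rfl⟩ ⟨x', rfl⟩
        refine ⟨x + x', ?_⟩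
        rw [← Finset.sum_add_distrib]
        exact Finset.sum_congr rfl fun c _ => by rw [Pi.add_apply]; ring
      zero_mem' := ⟨0, by simp⟩
      neg_mem' := by
        rintro a ⟨x, rfl⟩
        refine ⟨-x, ?_⟩
        rw [← Finset.sum_neg_distrib]
        exact Finset.sum_congr rfl fun c _ => by rw [Pi.neg_apply]; ring }
  obtain ⟨a, ha⟩ := Int.subgroup_cyclic H
  have hmem : ∀ c, ∃ t : ℤ, (v c : ℤ) = t * a := by
    intro c
    have h1 : (v c : ℤ) ∈ H := ⟨Pi.single c 1, by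
      rw [Finset.sum_eq_single c]
      · simp
      · intro b _ hb
        rw [Pi.single_eq_of_ne hb, zero_mul]
      · intro h
        exact absurd (Finset.mem_univ _) h⟩
    rw [ha, AddSubgroup.mem_closure_singleton] at h1
    obtain ⟨t, ht⟩ := h1
    exact ⟨t, by rw [← ht, smul_eq_mul]⟩
  obtain ⟨c0, hc0⟩ : ∃ c, v c ≠ 0 := by
    by_contra hcon
    push Not at hcon
    exact hv (funext hcon)
  have ha0 : a ≠ 0 := by
    rintro rfl
    obtain ⟨t, ht⟩ := hmem c0
    rw [mul_zero] at ht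
    exact hc0 (by exact_mod_cast ht)
  have haH : (a.natAbs : ℤ) ∈ H := by
    rw [ha]
    rcases Int.natAbs_eq a with h | h
    · rw [← h]
      exact AddSubgroup.subset_closure rfl
    · have h1 : (a.natAbs : ℤ) = - a := by omega
      rw [h1]
      exact AddSubgroup.neg_mem _ (AddSubgroup.subset_closure rfl)
  have hN : 0 < a.natAbs := Int.natAbs_pos.2 ha0
  have hdvd : ∀ c, a.natAbs ∣ v c := by
    intro c
    obtain ⟨t, ht⟩ := hmem c
    have h1 : a ∣ (v c : ℤ) := ⟨t, by rw [ht, mul_comm]⟩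
    exact Int.natCast_dvd_natCast.1 (Int.natAbs_dvd.2 h1)
  obtain ⟨N, hNa⟩ : ∃ N, N = a.natAbs := ⟨_, rfl⟩
  rw [← hNa] at haH hN hdvd
  choose lam hlam using hdvd
  obtain ⟨x, hx⟩ := haH
  refine ⟨N, lam, x, hN, hlam, ?_⟩
  have h1 : (N : ℤ) * ∑ c, x c * lam c = N * 1 := by
    rw [mul_one]
    conv_rhs => rw [← hx]
    rw [Finset.mul_sum]
    refine Finset.sum_congr rfl fun c _ => ?_
    rw [hlam c]
    push_cast
    ring
  exact mul_left_cancel₀ (by exact_mod_cast hN.ne') h1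

/-- sums over the selected hypersurfaces -/
theorem sum_sel {κ M : Type} [Fintype κ] [AddCommMonoid M] {d : ℕ} {J : Finset κ}
    {c : Fin d → Option κ} (hc : CovK J c) (hinj : ∀ b b' e, c b = some e → c b' = some e → b = b')
    {f : κ → M} (hf : ∀ e, e ∉ J → f e = 0) :
    ∑ b, (c b).elim 0 f = ∑ e, f e := by
  classical
  have h1 : ∀ e : J, ∃ b, c b = some e.1 := fun e => hc.1 e.1 e.2
  choose φ hφ using h1
  have h2 : ∑ e, f e = ∑ e : J, f e.1 := by
    rw [Finset.sum_coe_sort J f]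
    symm
    exact Finset.sum_subset (Finset.subset_univ _) fun e _ he => hf e he
  rw [h2]
  symm
  refine Finset.sum_of_injOn φ (fun a _ b _ hab => ?_) (fun a _ => Finset.mem_coe.2
    (Finset.mem_univ _)) ?_ fun e _ => by rw [hφ]; rfl
  · have h3 := hφ a
    rw [hab, hφ] at h3
    exact Subtype.ext (Option.some.inj h3).symm
  · intro b _ hb
    rcases hcb : c b with _ | e
    · rfl
    · exfalso
      apply hb
      exact ⟨⟨e, hc.2 b e hcb⟩, Finset.mem_coe.2 (Finset.mem_univ _),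
        hinj _ _ e (hφ _) hcb⟩

section

variable {K ρ σ κ J : Type} [Field K] [Algebra ℂ K] [Fintype ρ] [Fintype σ] [Fintype κ]
  {pr : σ → ρ} {o : ρ → σ} {δ : κ → ρ → ℕ} {F : κ → MvPolynomial σ ℂ} {m : J → ℕ}
    {a : J → κ → ℕ} {y : σ → K} {z : J → K} {n : ℕ} {ε : ρ ⊕ Fin (n + 1) ≃ σ}
    {G : Subgroup (K ≃ₐ[ℂ] K)} {X : Fin (n + 1) → IntermediateField.fixedField G}
    {D0 : Fin (n + 1) → Derivation ℂ K K}

/-- the coordinates in the fixed field -/
noncomputable def yf (ε : ρ ⊕ Fin (n + 1) ≃ σ) (X : Fin (n + 1) → IntermediateField.fixedField G)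
    (i : σ) : fixedField G := aeval X (deh ε (MvPolynomial.X i : MvPolynomial σ ℂ))

theorem yf_coe (h : Su pr o δ F m a y z ε G X D0) (i : σ) : ((yf ε X i : fixedField G) : K) = y i := by
  unfold yf
  rw [← ae_y h, aeval_X]

theorem chart_gens (h : Su pr o δ F m a y z ε G X D0) {j : ρ → σ}
    {ε' : ρ ⊕ Fin (n + 1) ≃ σ} (hε' : ∀ l, ε' (Sum.inl l) = j l) (hj : ∀ l, pr (j l) = l) :
    Gens (k := ℂ) fun b => yf ε X (ε' (Sum.inr b)) / yf ε X (j (pr (ε' (Sum.inr b)))) := by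
  refine gens_of h.gens fun b => ?_
  have hne : ∀ i, yf ε X i ≠ 0 := by
    intro i h0
    have h1 := yf_coe h i
    rw [h0] at h1
    exact h.cov.y_ne i h1.symm
  have hu : ∀ i, yf ε X i / yf ε X (j (pr i)) ∈ IntermediateField.adjoin ℂ (Set.range fun b =>
      yf ε X (ε' (Sum.inr b)) / yf ε X (j (pr (ε' (Sum.inr b))))) := by
    intro i
    obtain ⟨r, rfl⟩ := ε'.surjective i
    rcases r with l | b
    · rw [hε', hj, div_self (hne _)]
      exact one_mem _
    · exact IntermediateField.subset_adjoin _ _ ⟨b, rfl⟩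
  have h1 : X b = (yf ε X (ε (Sum.inr b)) / yf ε X (j (pr (ε (Sum.inr b))))) /
      (yf ε X (o (pr (ε (Sum.inr b)))) / yf ε X (j (pr (o (pr (ε (Sum.inr b))))))) := by
    apply Subtype.ext
    rw [h.coe]
    have h2 : ((((yf ε X (ε (Sum.inr b)) / yf ε X (j (pr (ε (Sum.inr b))))) /
      (yf ε X (o (pr (ε (Sum.inr b)))) / yf ε X (j (pr (o (pr (ε (Sum.inr b)))))))) :
        fixedField G) : K) = (y (ε (Sum.inr b)) / y (j (pr (ε (Sum.inr b))))) /
        (y (o (pr (ε (Sum.inr b)))) / y (j (pr (o (pr (ε (Sum.inr b))))))) := by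
      simp only [← yf_coe h]
      rfl
    rw [h2, h.cov.ho, h.cov.hy, div_div_div_cancel_right₀ (h.cov.y_ne _), div_one]
  rw [h1]
  exact div_mem (hu _) (hu _)

/-- evaluation in a chart -/
theorem ae_chart {L : IntermediateField ℂ K} {u : σ → K} {ε' : ρ ⊕ Fin (n + 1) ≃ σ}
    {X' : Fin (n + 1) → L} (hu1 : ∀ l, u (ε' (Sum.inl l)) = 1)
    (hX' : ∀ b, (X' b : K) = u (ε' (Sum.inr b))) (P : MvPolynomial σ ℂ) :
    aeval u P = ((aeval X' (deh ε' P) : L) : K) := by
  have h0 : aeval (fun b => u (ε' (Sum.inr b))) (deh ε' P) = aeval u P := by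
    unfold deh
    have h1 : aeval (fun b => u (ε' (Sum.inr b)))
        (aeval (fun i => Sum.elim (fun _ => (1 : MvPolynomial (Fin (n + 1)) ℂ)) MvPolynomial.X
          (ε'.symm i)) P) = aeval (fun i => aeval (fun b => u (ε' (Sum.inr b)))
          (Sum.elim (fun _ => (1 : MvPolynomial (Fin (n + 1)) ℂ)) MvPolynomial.X
          (ε'.symm i))) P := by
      rw [← AlgHom.comp_apply, MvPolynomial.comp_aeval]
    rw [h1]
    congr 2
    funext i
    obtain ⟨r, rfl⟩ := ε'.surjective i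
    rw [ε'.symm_apply_apply]
    rcases r with l | b
    · rw [Sum.elim_inl, map_one, hu1]
    · rw [Sum.elim_inr, aeval_X]
  rw [← h0]
  have h3 : (fun b => u (ε' (Sum.inr b))) = fun j => (X' j : K) := funext fun j => (hX' j).symm
  rw [h3]
  exact MvPolynomial.aeval_algebraMap_apply K X' _

theorem eval_chart {q : σ → ℂ} {ε' : ρ ⊕ Fin (n + 1) ≃ σ} (hq : ∀ l, q (ε' (Sum.inl l)) = 1)
    (P : MvPolynomial σ ℂ) : eval (fun i => q (ε' (Sum.inr i))) (deh ε' P) = eval q P := by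
  unfold deh
  have h1 : ∀ (d : Type) (q : d → ℂ) (P : MvPolynomial d ℂ), eval q P = aeval q P := by
    intro d q P
    rw [← coe_aeval_eq_eval]
    rfl
  rw [h1, h1, ← AlgHom.comp_apply, MvPolynomial.comp_aeval]
  congr 2
  funext i
  obtain ⟨r, rfl⟩ := ε'.surjective i
  rw [ε'.symm_apply_apply]
  rcases r with l | b
  · rw [Sum.elim_inl, map_one, hq]
  · rw [Sum.elim_inr, aeval_X]

/-- the minimal orders in a chart -/
theorem dat_chart (h : Su pr o δ F m a y z ε G X D0) {P : Place ℂ K} {α : ρ → ℤ} {v' : κ → ℕ}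
    (hd : DatK P pr F δ y α v') {j : ρ → σ} (hj : ∀ l, pr (j l) = l)
    (hreg : ∀ i, 0 ≤ P.ord (y i / y (j (pr i)))) :
    (∀ l, α l = P.ord (y (j l))) ∧
      ∀ (D : ρ → ℕ) (T : MvPolynomial σ ℂ), MH pr D T → aeval y T ≠ 0 →
        aeval (fun i => y i / y (j (pr i))) T ≠ 0 ∧
        P.ord (aeval y T) = ∑ l, (D l : ℤ) * α l + P.ord (aeval (fun i => y i / y (j (pr i))) T) := by
  have hα : ∀ l, α l = P.ord (y (j l)) := by
    intro l
    apply le_antisymm
    · have h1 := hd.ha1 (j l)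
      rw [hj] at h1
      exact h1
    · obtain ⟨i, hi1, hi2⟩ := hd.ha2 l
      have h1 := hreg i
      rw [P.ord_div (h.cov.y_ne _) (h.cov.y_ne _), hi1] at h1
      linarith
  refine ⟨hα, fun D T hT hT0 => ?_⟩
  have h1 : aeval y T = (∏ l, y (j l) ^ D l) * aeval (fun i => y i / y (j (pr i))) T := by
    rw [← hT.scale (fun l => y (j l)) fun i => y i / y (j (pr i))]
    congr 2
    funext i
    rw [mul_div_cancel₀ _ (h.cov.y_ne _)]
  have h2 : aeval (fun i => y i / y (j (pr i))) T ≠ 0 := by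
    intro h0
    rw [h0, mul_zero] at h1
    exact hT0 h1
  refine ⟨h2, ?_⟩
  rw [h1, P.ord_mul (Finset.prod_ne_zero_iff.2 fun l _ => pow_ne_zero _ (h.cov.y_ne _)) h2,
    ord_prod' P Finset.univ _ fun l _ => pow_ne_zero _ (h.cov.y_ne _)]
  congr 1
  exact Finset.sum_congr rfl fun l _ => by rw [P.ord_pow, hα]

/-- the logarithmic frame -/
theorem log_frame [Fintype J] (h : Su pr o δ F m a y z ε G X D0) {Y' : Fin (n + 1) → K}
    (hY' : AlgebraicIndependent ℂ Y') (lam' : Fin (n + 1) → ℕ) {b0 : Fin (n + 1)}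
    (hb0 : lam' b0 ≠ 0) (hprim : ∃ a b : Fin (n + 1) →₀ ℕ,
      Pool.Agent.Y169.CH.wt lam' a = Pool.Agent.Y169.CH.wt lam' b + 1) {P : Place ℂ K} {e : ℕ}
    (he : 0 < e) (hP : ∀ R : MvPolynomial (Fin (n + 1)) ℂ, R ≠ 0 →
      P.ord (aeval Y' R) = e * mord lam' R) :
    IsDivisorial P (n + 1) ∧ ∃ DY : Fin (n + 1) → Derivation ℂ K K,
      (∀ b j, DY b (Y' j) = if b = j then 1 else 0) ∧
      ∀ b z, P.Reg (((if lam' b = 0 then 1 else Y' b) • DY b) z / z) := by
  classical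
  have htr := trdeg_su h
  have hbas : IsTranscendenceBasis ℂ Y' :=
    hY'.isTranscendenceBasis_of_trdeg_le_of_finite (by rw [htr]; simp)
  let K0 := IntermediateField.adjoin ℂ (Set.range Y')
  let Yk : Fin (n + 1) → K0 := fun b => ⟨Y' b, IntermediateField.subset_adjoin _ _ ⟨b, rfl⟩⟩
  have hYk : ∀ R : MvPolynomial (Fin (n + 1)) ℂ, aeval Y' R = algebraMap K0 K (aeval Yk R) :=
    fun R => MvPolynomial.aeval_algebraMap_apply K Yk R
  have hind : AlgebraicIndependent ℂ Yk := by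
    have h1 : AlgebraicIndependent ℂ (K0.val ∘ Yk) := hY'
    exact AlgebraicIndependent.of_comp K0.val h1
  have hG : Gens (k := ℂ) Yk := by
    refine ⟨hind, fun x => ?_⟩
    obtain ⟨r, s, hrs⟩ := (IntermediateField.mem_adjoin_range_iff ℂ Y' (x : K)).1 x.2
    by_cases hs : s = 0
    · refine ⟨0, 1, one_ne_zero, ?_⟩
      apply Subtype.ext
      rw [hrs, hs, map_zero, div_zero, map_zero, zero_div]
      rfl
    · refine ⟨r, s, hs, ?_⟩
      apply Subtype.ext
      rw [hrs, hYk, hYk]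
      rfl
  have hfd : FiniteDimensional K0 K := fin_su h Y' hbas
  obtain ⟨v, hv⟩ := exists_mono hG lam' hprim
  have hover : Over P v e := by
    refine ⟨he, fun x => ?_⟩
    by_cases hx : x = 0
    · rw [hx, map_zero, P.ord_zero, v.ord_zero, mul_zero]
    obtain ⟨A, B, hB, rfl⟩ := hG.gen x
    have hA : A ≠ 0 := by
      rintro rfl
      rw [map_zero, zero_div] at hx
      exact hx rfl
    have hne : ∀ R : MvPolynomial (Fin (n + 1)) ℂ, R ≠ 0 → algebraMap K0 K (aeval Yk R) ≠ 0 := by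
      intro R hR
      rw [Ne, map_eq_zero]
      exact hG.ne hR
    rw [map_div₀, P.ord_div (hne A hA) (hne B hB), v.ord_div (hG.ne hA) (hG.ne hB), ← hYk, ← hYk,
      hP A hA, hP B hB, hv A hA, hv B hB]
    ring
  obtain ⟨DY, hDY⟩ := Pool.Agent.W602.GT.exists_dual hbas
  have hDY' : ∀ b j, DY b (Y' j) = if b = j then 1 else 0 := by
    intro i j
    have h1 := congrFun (congrFun hDY i) j
    rw [Matrix.of_apply, Matrix.one_apply] at h1
    exact h1
  exact ⟨div_mono hG lam' hb0 hv hover, DY, hDY', fun b z =>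
    log_mono hG lam' hv hover (fun j => hDY' b j) z⟩

/-- the canonical form in two charts -/
theorem bw_chart [DecidableEq ρ] (ε ε' : ρ ⊕ Fin (n + 1) ≃ σ) (pr : σ → ρ)
    (D : Fin (n + 1) → Derivation ℂ K K) (u : σ → K) :
    bwK ε' pr D u = bwK ε pr D u ∨ bwK ε' pr D u = - bwK ε pr D u := by
  unfold bwK
  have h1 : Pool.Agent.Q41.RC.wmK ε' D (Pool.Agent.Q41.RC.ud pr) u =
      (Pool.Agent.Q41.RC.wmK ε D (Pool.Agent.Q41.RC.ud pr) u).submatrix id
        (ε'.trans ε.symm : ρ ⊕ Fin (n + 1) ≃ ρ ⊕ Fin (n + 1)) := by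
    ext r b
    unfold Pool.Agent.Q41.RC.wmK
    rw [Matrix.submatrix_apply, Matrix.of_apply, Matrix.of_apply]
    simp only [Equiv.trans_apply, Equiv.apply_symm_apply, id]
  rw [h1, Matrix.det_permute']
  rcases Int.units_eq_one_or (Equiv.Perm.sign (ε'.trans ε.symm : ρ ⊕ Fin (n + 1) ≃ ρ ⊕ Fin (n + 1)))
    with h2 | h2
  · left
    rw [h2]
    simp
  · right
    rw [h2]
    simp

theorem bw_chart_ord [DecidableEq ρ] (ε ε' : ρ ⊕ Fin (n + 1) ≃ σ) (pr : σ → ρ)
    (D : Fin (n + 1) → Derivation ℂ K K) (u : σ → K) (P : Place ℂ K)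
    (h0 : bwK ε' pr D u ≠ 0) :
    bwK ε pr D u ≠ 0 ∧ P.ord (bwK ε pr D u) = P.ord (bwK ε' pr D u) := by
  rcases bw_chart ε ε' pr D u with h | h
  · rw [h] at h0 ⊢
    exact ⟨h0, rfl⟩
  · rw [h] at h0 ⊢
    rw [P.ord_neg]
    exact ⟨neg_ne_zero.1 h0, rfl⟩

/-- **The canonical form on the logarithmic frame.** -/
theorem bw_frame [DecidableEq ρ] (h : Su pr o δ F m a y z ε G X D0) {j : ρ → σ}
    {ε' : ρ ⊕ Fin (n + 1) ≃ σ} (hε' : ∀ l, ε' (Sum.inl l) = j l) (hj : ∀ l, pr (j l) = l)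
    {X' : Fin (n + 1) → fixedField G} (hX' : Gens (k := ℂ) X')
    (hXu : ∀ b, (X' b : K) = y (ε' (Sum.inr b)) / y (j (pr (ε' (Sum.inr b)))))
    (Yp : Fin (n + 1) → MvPolynomial (Fin (n + 1)) ℂ) {P : Place ℂ K}
    (hdet : P.ord (aeval (fun b => (X' b : K)) (Matrix.of fun i b => pderiv i (Yp b)).det) = 0)
    {DY : Fin (n + 1) → Derivation ℂ K K}
    (hDY : ∀ b i, DY b (aeval (fun b => (X' b : K)) (Yp i)) = if b = i then 1 else 0)
    {cc : Fin (n + 1) → K} (hcc : ∀ b, cc b ≠ 0) :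
    bwK ε pr (fun b => cc b • DY b) y ≠ 0 ∧
      P.ord (bwK ε pr (fun b => cc b • DY b) y) =
        ∑ i, P.ord (y (j (pr i))) + ∑ b, P.ord (cc b) := by
  classical
  obtain ⟨u, hu⟩ : ∃ u : σ → K, u = fun i => y i / y (j (pr i)) := ⟨_, rfl⟩
  obtain ⟨Z', hZ'⟩ : ∃ Z' : Fin (n + 1) → K, Z' = fun b => (X' b : K) := ⟨_, rfl⟩
  rw [← hZ'] at hdet hDY
  have hZu : ∀ b, Z' b = u (ε' (Sum.inr b)) := by
    intro b
    rw [hZ', hu]
    exact hXu b
  have hyu : y = fun i => y (j (pr i)) * u i := by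
    funext i
    rw [hu]
    dsimp only
    rw [mul_div_cancel₀ _ (h.cov.y_ne _)]
  have hu1 : ∀ l, u (j l) = 1 := by
    intro l
    rw [hu]
    dsimp only
    rw [hj, div_self (h.cov.y_ne _)]
  -- the transcendence basis
  have htr := trdeg_su h
  have hbas : IsTranscendenceBasis ℂ Z' := by
    have h1 : AlgebraicIndependent ℂ Z' := by
      rw [hZ']
      exact hX'.ind.map' (f := (fixedField G).val) (fixedField G).val.injective
    exact h1.isTranscendenceBasis_of_trdeg_le_of_finite (by rw [htr]; simp)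
  obtain ⟨D', hD''⟩ := Pool.Agent.W602.GT.exists_dual hbas
  have hD' : ∀ i j, D' i (Z' j) = if i = j then 1 else 0 := by
    intro i j
    have h1 := congrFun (congrFun hD'' i) j
    rw [Matrix.of_apply, Matrix.one_apply] at h1
    exact h1
  have hone : bwK ε' pr D' u = 1 :=
    Pool.Agent.Q41.RC.bw_oneK ε' hj hε' hu1 fun i b => by rw [← hZu]; exact hD' i b
  -- the change of the frames
  let A : Matrix (Fin (n + 1)) (Fin (n + 1)) K := Matrix.of fun a b => DY a (Z' b)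
  have hDYA : DY = fun a => ∑ b, A a b • D' b := by
    funext a
    apply der_ext' hbas
    intro i
    rw [sum_der, Finset.sum_eq_single i]
    · rw [hD', if_pos rfl, mul_one]
      rfl
    · intro b _ hb
      rw [hD', if_neg hb, mul_zero]
    · intro hi
      exact absurd (Finset.mem_univ _) hi
  let M : Matrix (Fin (n + 1)) (Fin (n + 1)) K := Matrix.of fun i b => aeval Z' (pderiv i (Yp b))
  have hMdet : M.det = aeval Z' (Matrix.of fun i b => pderiv i (Yp b)).det := by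
    have h1 := RingHom.map_det (aeval Z' : MvPolynomial (Fin (n + 1)) ℂ →ₐ[ℂ] K).toRingHom
      (Matrix.of fun i b => pderiv i (Yp b))
    have h2 : M = (aeval Z' : MvPolynomial (Fin (n + 1)) ℂ →ₐ[ℂ] K).toRingHom.mapMatrix
        (Matrix.of fun i b => pderiv i (Yp b)) := by
      ext i b
      rfl
    rw [h2, ← h1]
    rfl
  have hAM : A * M = 1 := by
    ext a c
    rw [Matrix.mul_apply, Matrix.one_apply, ← hDY a c, Pool.Agent.Q41.RC.chainK]
    refine Finset.sum_congr rfl fun b _ => ?_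
    simp only [A, M, Matrix.of_apply]
    ring
  have hdd : A.det * M.det = 1 := by rw [← Matrix.det_mul, hAM, Matrix.det_one]
  have hA0 : A.det ≠ 0 := left_ne_zero_of_mul (by rw [hdd]; exact one_ne_zero)
  have hM0 : M.det ≠ 0 := right_ne_zero_of_mul (by rw [hdd]; exact one_ne_zero)
  have hAord : P.ord A.det = 0 := by
    have h1 := congrArg P.ord hdd
    rw [P.ord_mul hA0 hM0, P.ord_one, hMdet, hdet, add_zero] at h1
    exact h1
  have h1 : bwK ε' pr DY u = A.det := by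
    rw [hDYA, Pool.Agent.Q41.RC.bwK_lin, hone, mul_one]
  have h2 : bwK ε' pr (fun b => cc b • DY b) u = (∏ b, cc b) * A.det := by
    have h3 : (fun b => cc b • DY b) = fun i => ∑ b, Matrix.diagonal cc i b • DY b := by
      funext i
      rw [Finset.sum_eq_single i]
      · rw [Matrix.diagonal_apply_eq]
      · intro b _ hb
        rw [Matrix.diagonal_apply_ne _ (Ne.symm hb), zero_smul]
      · intro hi
        exact absurd (Finset.mem_univ _) hi
    rw [h3, Pool.Agent.Q41.RC.bwK_lin, Matrix.det_diagonal, h1]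
  have hcc0 : (∏ b, cc b) ≠ 0 := Finset.prod_ne_zero_iff.2 fun b _ => hcc b
  have h3 : bwK ε' pr (fun b => cc b • DY b) u ≠ 0 := by
    rw [h2]
    exact mul_ne_zero hcc0 hA0
  obtain ⟨h4, h5⟩ := bw_chart_ord ε ε' pr (fun b => cc b • DY b) u P h3
  have h6 : bwK ε pr (fun b => cc b • DY b) y =
      (∏ i, y (j (pr i))) * bwK ε pr (fun b => cc b • DY b) u := by
    conv_lhs => rw [hyu]
    exact Pool.Agent.Q41.RC.bwK_scale ε pr _ (fun l => y (j l)) (fun l => h.cov.y_ne _) u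
  have h7 : (∏ i, y (j (pr i))) ≠ 0 := Finset.prod_ne_zero_iff.2 fun i _ => h.cov.y_ne _
  refine ⟨by rw [h6]; exact mul_ne_zero h7 h4, ?_⟩
  rw [h6, P.ord_mul h7 h4, h5, h2, P.ord_mul hcc0 hA0, hAord, add_zero,
    ord_prod' P Finset.univ _ fun i _ => h.cov.y_ne _, ord_prod' P Finset.univ _ fun b _ => hcc b]

/-- the section on another frame -/
theorem sec_frame [DecidableEq ρ] (h : Su pr o δ F m a y z ε G X D0) {N : ℕ}
    {ω : (Fin (n + 1) → Derivation ℂ K K) → K} (hω : IsPluriForm ℂ K (n + 1) N ω)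
    (dd : Fin (n + 1) → Derivation ℂ K K) : ω dd = bwK ε pr dd y ^ N * ω D0 := by
  classical
  let A : Matrix (Fin (n + 1)) (Fin (n + 1)) K := Matrix.of fun a b => dd a (y (ε (Sum.inr b)))
  have hA : dd = fun a => ∑ b, A a b • D0 b := by
    funext a
    apply der_ext' h.bas
    intro i
    rw [sum_der, Finset.sum_eq_single i]
    · rw [h.dual, if_pos rfl, mul_one]
      rfl
    · intro b _ hb
      rw [h.dual, if_neg hb, mul_zero]
    · intro hi
      exact absurd (Finset.mem_univ _) hi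
  have hone : bwK ε pr D0 y = 1 := Pool.Agent.Q41.RC.bw_oneK ε h.cov.ho h.eps h.cov.hy h.dual
  have h1 : bwK ε pr dd y = A.det := by
    conv_lhs => rw [hA]
    rw [Pool.Agent.Q41.RC.bwK_lin, hone, mul_one]
  rw [h1]
  conv_lhs => rw [hA]
  exact hω A D0

end

end Pool.Agent.Q41.AB
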