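import Pool.Agent.Q41.AB.Tp

/-!
The test places: the main statement.
-/

set_option autoImplicit false
set_option linter.overlappingInstances false
set_option linter.unusedSectionVars false
set_option maxHeartbeats 1000000

open FF MvPolynomial IntermediateField Pool.Agent.W603.LV Pool.Agent.W619.PQ
open Pool.Agent.W619.TW Pool.Agent.W602.GT Pool.Agent.TH122.AB Pool.Agent.TH756.PN

namespace Pool.Agent.Q41.AB

open Pool.Agent.Q41.RC (MH IsPt SNC DatK IsCov CovK bwK)
open Pool.Agent.Q57.TP (SecD)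
open Pool.Agent.Y169.CH (mord log_mono div_mono exists_mono mord_monomial)

section

variable {K ρ σ κ J : Type} [Field K] [Algebra ℂ K] [Fintype ρ] [Fintype σ] [Fintype κ]
  {pr : σ → ρ} {o : ρ → σ} {δ : κ → ρ → ℕ} {F : κ → MvPolynomial σ ℂ} {m : J → ℕ}
    {a : J → κ → ℕ} {y : σ → K} {z : J → K} {n : ℕ} {ε : ρ ⊕ Fin (n + 1) ≃ σ}
    {G : Subgroup (K ≃ₐ[ℂ] K)} {X : Fin (n + 1) → IntermediateField.fixedField G}
    {D0 : Fin (n + 1) → Derivation ℂ K K}

/-- two exponents whose weights differ by one -/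
theorem prim_pair {κ : Type} [Fintype κ] {lam : κ → ℕ} {x : κ → ℤ} (hx : ∑ c, x c * lam c = 1)
    {Jf : Finset κ} {c : Fin (n + 1) → Option κ} (hc : CovK Jf c)
    (hinj : ∀ b b' e, c b = some e → c b' = some e → b = b') (hlam : ∀ e, e ∉ Jf → lam e = 0) :
    ∃ a b : Fin (n + 1) →₀ ℕ,
      Pool.Agent.Y169.CH.wt (fun b => (c b).elim 0 lam) a =
        Pool.Agent.Y169.CH.wt (fun b => (c b).elim 0 lam) b + 1 := by
  classical
  refine ⟨Finsupp.equivFunOnFinite.symm fun b => (c b).elim 0 fun e => (x e).toNat,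
    Finsupp.equivFunOnFinite.symm fun b => (c b).elim 0 fun e => (- x e).toNat, ?_⟩
  unfold Pool.Agent.Y169.CH.wt
  have h1 : ∀ f : κ → ℕ, ∑ b, ((c b).elim 0 lam) *
      (Finsupp.equivFunOnFinite.symm fun b => (c b).elim 0 f) b = ∑ e, lam e * f e := by
    intro f
    rw [← sum_sel hc hinj (f := fun e => lam e * f e) fun e he => by rw [hlam e he, zero_mul]]
    refine Finset.sum_congr rfl fun b _ => ?_
    rw [Finsupp.coe_equivFunOnFinite_symm]
    rcases c b with _ | e
    · rfl
    · rfl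
  rw [h1, h1]
  have h2 : (((∑ e, lam e * (x e).toNat : ℕ) : ℤ)) = ((∑ e, lam e * (- x e).toNat + 1 : ℕ) : ℤ) := by
    push_cast
    rw [← hx, ← Finset.sum_add_distrib]
    refine Finset.sum_congr rfl fun e _ => ?_
    have h3 : max (x e) 0 - max (- x e) 0 = x e := by
      rcases le_total 0 (x e) with h | h
      · rw [max_eq_left h, max_eq_right (by omega)]
        ring
      · rw [max_eq_right h, max_eq_left (by omega)]
        ring
    have h4 : (lam e : ℤ) * max (x e) 0 = lam e * max (- x e) 0 + x e * lam e := by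
      have h5 : max (x e) 0 = max (- x e) 0 + x e := by linarith
      rw [h5]
      ring
    rw [Int.toNat_eq_max, Int.toNat_eq_max]
    exact h4
  exact_mod_cast h2

/-- products over the selected hypersurfaces -/
theorem prod_sel {κ M : Type} [Fintype κ] [CommMonoid M] {d : ℕ} {J : Finset κ}
    {c : Fin d → Option κ} (hc : CovK J c) (hinj : ∀ b b' e, c b = some e → c b' = some e → b = b')
    {f : κ → M} (hf : ∀ e, e ∉ J → f e = 1) :
    ∏ b, (c b).elim 1 f = ∏ e, f e := by
  classical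
  have h1 : ∀ e : J, ∃ b, c b = some e.1 := fun e => hc.1 e.1 e.2
  choose φ hφ using h1
  have h2 : ∏ e, f e = ∏ e : J, f e.1 := by
    rw [Finset.prod_coe_sort J f]
    symm
    exact Finset.prod_subset (Finset.subset_univ _) fun e _ he => hf e he
  rw [h2]
  symm
  refine Finset.prod_of_injOn φ (fun a _ b _ hab => ?_) (fun a _ => Finset.mem_coe.2
    (Finset.mem_univ _)) ?_ fun e _ => by rw [hφ]; rfl
  · have h3 := hφ a
    rw [hab, hφ] at h3
    exact Subtype.ext (Option.some.inj h3).symm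
  · intro b _ hb
    rcases hcb : c b with _ | e
    · rfl
    · exfalso
      apply hb
      exact ⟨⟨e, hc.2 b e hcb⟩, Finset.mem_coe.2 (Finset.mem_univ _),
        hinj _ _ e (hφ _) hcb⟩

/-- **The test places.** -/
theorem test_su (tor : S_Tor) (locC : S_LocC) (ram : S_Ram) [Fintype J] [Finite G]
    (h : Su pr o δ F m a y z ε G X D0) (hS : SNC pr F) {ρv : κ → ℕ} (hρ0 : ρv ≠ 0)
    (hdvd : ∀ i, m i ∣ ∑ c, a i c * ρv c) {q : σ → ℂ} {j : ρ → σ} (hj : ∀ l, pr (j l) = l)
    (hqj : ∀ l, q (j l) = 1)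
    (hq1 : ∀ c, ρv c ≠ 0 → eval q (F c) = 0) (hq2 : ∀ c, ρv c = 0 → eval q (F c) ≠ 0) :
    ∃ (v : Place ℂ (fixedField G)) (w : Place ℂ K) (e N : ℕ), Over w v e ∧ 0 < N ∧ e ∣ N ∧
      ∀ P : Place ℂ K, Over P v e → ∀ (α : ρ → ℤ) (v' : κ → ℕ), DatK P pr F δ y α v' →
        (∀ c, N * v' c = e * ρv c) ∧
        (∀ δb : Place ℂ K → ℚ, δb P = 0 → ∀ (S' : Finset K) (N' : ℕ)
          (ω : (Fin (n + 1) → Derivation ℂ K K) → K), SecD (n + 1) δb S' N' ω →
          ω D0 * Lm F y N' = 0 ∨ ∃ s ∈ S', s ≠ 0 ∧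
            P.ord s + N' * ∑ l, sg pr δ l * α l + N' ≤ P.ord (ω D0 * Lm F y N')) ∧
        ∀ (D : ρ → ℕ) (T g : MvPolynomial σ ℂ) (r : ℕ) (TT : Finset (κ → ℕ))
          (Pc : (κ → ℕ) → MvPolynomial σ ℂ), MH pr D T → eval q g ≠ 0 →
          g * T = ∑ a ∈ TT, Pc a * ∏ c, F c ^ a c →
          (∀ a ∈ TT, r ≤ wt ρv a ∧ ∀ c, ρv c = 0 → a c = 0) →
          (∃ a ∈ TT, wt ρv a = r ∧ eval q (Pc a) ≠ 0) → aeval y T ≠ 0 →
          (N : ℤ) * (P.ord (aeval y T) - ∑ l, D l * α l) = e * r := by
  classical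
  obtain ⟨ε', hε'⟩ := exists_chart ε hj
  obtain ⟨X', hX'⟩ : ∃ X' : Fin (n + 1) → fixedField G,
    X' = fun b => yf ε X (ε' (Sum.inr b)) / yf ε X (j (pr (ε' (Sum.inr b)))) := ⟨_, rfl⟩
  have hgX' : Gens (k := ℂ) X' := by
    rw [hX']
    exact chart_gens h hε' hj
  obtain ⟨u, hu⟩ : ∃ u : σ → K, u = fun i => y i / y (j (pr i)) := ⟨_, rfl⟩
  have hXu : ∀ b, (X' b : K) = u (ε' (Sum.inr b)) := by
    intro b
    rw [hX', hu]
    change (((yf ε X (ε' (Sum.inr b)) / yf ε X (j (pr (ε' (Sum.inr b)))) : fixedField G)) : K) =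
      y (ε' (Sum.inr b)) / y (j (pr (ε' (Sum.inr b))))
    rw [← yf_coe h, ← yf_coe h]
    rfl
  have hu1 : ∀ l, u (ε' (Sum.inl l)) = 1 := by
    intro l
    rw [hu, hε']
    dsimp only
    rw [hj, div_self (h.cov.y_ne _)]
  have haeu : ∀ R : MvPolynomial σ ℂ, aeval u R = ((aeval X' (deh ε' R) : fixedField G) : K) :=
    ae_chart hu1 hXu
  have hq' : ∀ l, q (ε' (Sum.inl l)) = 1 := fun l => by rw [hε', hqj]
  obtain ⟨q'', hq''⟩ : ∃ q'' : Fin (n + 1) → ℂ, q'' = fun i => q (ε' (Sum.inr i)) := ⟨_, rfl⟩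
  have heval : ∀ R : MvPolynomial σ ℂ, eval q'' (deh ε' R) = eval q R := by
    intro R
    rw [hq'']
    exact eval_chart hq' R
  obtain ⟨Jf, hJf⟩ : ∃ Jf : Finset κ, Jf = Finset.univ.filter fun c => ρv c ≠ 0 := ⟨_, rfl⟩
  have hJm : ∀ c, c ∈ Jf ↔ ρv c ≠ 0 := by
    intro c
    rw [hJf, Finset.mem_filter]
    simp
  obtain ⟨c, hc, hinj, hvan, hdet⟩ := locC pr δ F h.cov.hF hS ε' (fun l => by rw [hε', hj]) q hq'
    Jf fun e he => hq1 e ((hJm e).1 he)
  rw [← hq''] at hvan hdet
  obtain ⟨N, lam, x, hN, hlam, hx⟩ := exists_prim hρ0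
  have hlamJ : ∀ e, e ∉ Jf → lam e = 0 := by
    intro e he
    have h1 : ρv e = 0 := by
      by_contra h1
      exact he ((hJm e).2 h1)
    rw [hlam] at h1
    rcases Nat.mul_eq_zero.1 h1 with h2 | h2
    · omega
    · exact h2
  obtain ⟨lam', hlam'⟩ : ∃ lam' : Fin (n + 1) → ℕ, lam' = fun b => (c b).elim 0 lam := ⟨_, rfl⟩
  obtain ⟨Yp, hYp⟩ : ∃ Yp : Fin (n + 1) → MvPolynomial (Fin (n + 1)) ℂ,
    Yp = fun b => yc ε' F q c b := ⟨_, rfl⟩
  obtain ⟨ν, hdeg, hν0, hν1, hνY, hνlead⟩ := tor q'' (fun b => yc ε' F q c b) hvan hdet lam'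
  rw [← hYp] at hνY
  obtain ⟨a0, b0, hab⟩ := prim_pair hx hc hinj hlamJ
  rw [← hlam'] at hab
  obtain ⟨v, hv⟩ := exists_place hgX' hdeg (by
    have h1 : ∀ s : Fin (n + 1) →₀ ℕ, (monomial s (1 : ℂ)) ≠ 0 := fun s => by
      rw [Ne, monomial_eq_zero]
      exact one_ne_zero
    refine ⟨aeval Yp (monomial a0 (1 : ℂ)), aeval Yp (monomial b0 (1 : ℂ)), (hνY _ (h1 _)).1,
      (hνY _ (h1 _)).1, ?_⟩
    rw [(hνY _ (h1 _)).2, (hνY _ (h1 _)).2, mord_monomial, mord_monomial, hab]
    push_cast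
    ring)
  obtain ⟨w, e, hw, hram⟩ := ram h.cov ε h.eps G X h.gens h.coe v
  have hepos : 0 < e := hw.1
  have hFne : ∀ c, deh ε' (F c) ≠ 0 := by
    intro c h0
    have h1 := haeu (F c)
    rw [h0, map_zero] at h1
    have h2 : aeval y (F c) = (∏ l, y (j l) ^ δ c l) * aeval u (F c) := by
      rw [← (h.cov.hF c).scale (fun l => y (j l)) u]
      congr 2
      funext i
      rw [hu]
      dsimp only
      rw [mul_div_cancel₀ _ (h.cov.y_ne _)]
    rw [h1] at h2
    apply h.cov.hFy c
    rw [h2]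
    simp
  have hνF : ∀ c, ν (deh ε' (F c)) = lam c := by
    intro e
    by_cases he : e ∈ Jf
    · obtain ⟨b, hb⟩ := hc.1 e he
      have h1 := (hνY (MvPolynomial.X b) (X_ne_zero _)).2
      rw [aeval_X, hYp] at h1
      dsimp only at h1
      have h2 : yc ε' F q c b = deh ε' (F e) := by
        unfold yc
        rw [hb]
        rfl
      rw [h2] at h1
      rw [h1]
      have h5 : (MvPolynomial.X b : MvPolynomial (Fin (n + 1)) ℂ) =
        monomial (Finsupp.single b 1) 1 := rfl
      rw [h5, mord_monomial]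
      have h6 : Pool.Agent.Y169.CH.wt lam' (Finsupp.single b 1) = lam e := by
        unfold Pool.Agent.Y169.CH.wt
        rw [Finset.sum_eq_single b]
        · rw [hlam']
          dsimp only
          rw [hb]
          simp
        · intro c _ hc
          rw [Finsupp.single_apply, if_neg (Ne.symm hc), mul_zero]
        · intro h
          exact absurd (Finset.mem_univ _) h
      rw [h6]
    · rw [hlamJ e he]
      rw [hν1]
      · rfl
      · rw [heval]
        exact hq2 e (by
          by_contra h1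
          exact he ((hJm e).2 h1))
  -- the orders of the polynomials in `u`
  have hordu : ∀ (P : Place ℂ K), Over P v e → ∀ R : MvPolynomial σ ℂ, deh ε' R ≠ 0 →
      P.ord (aeval u R) = e * ν (deh ε' R) := by
    intro P hP R hR
    rw [haeu]
    have h1 := hP.2 (aeval X' (deh ε' R))
    change P.ord ((aeval X' (deh ε' R) : fixedField G) : K) = _ at h1
    rw [h1, hv _ hR]
  have hune : ∀ i, deh ε' (MvPolynomial.X i : MvPolynomial σ ℂ) ≠ 0 := by
    intro i h0
    have h1 := haeu (MvPolynomial.X i)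
    rw [h0, map_zero, aeval_X, hu] at h1
    exact (div_ne_zero (h.cov.y_ne i) (h.cov.y_ne _)) h1
  have hregu : ∀ (P : Place ℂ K), Over P v e → ∀ i, 0 ≤ P.ord (y i / y (j (pr i))) := by
    intro P hP i
    have h1 := hordu P hP (MvPolynomial.X i) (hune i)
    rw [aeval_X, hu] at h1
    dsimp only at h1
    rw [h1]
    exact mul_nonneg (by positivity) (hν0 _ (hune i))
  have hvv : ∀ (P : Place ℂ K), Over P v e → ∀ (α : ρ → ℤ) (v' : κ → ℕ),
      DatK P pr F δ y α v' → ∀ c, v' c = e * lam c := by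
    intro P hP α v' hd c
    obtain ⟨h1, h2⟩ := dat_chart h hd hj (hregu P hP)
    have h3 := (h2 (δ c) (F c) (h.cov.hF c) (h.cov.hFy c)).2
    have h4 := hordu P hP (F c) (hFne c)
    rw [hu] at h4
    rw [hd.hv, h4, hνF] at h3
    have h5 : (v' c : ℤ) = e * lam c := by linarith
    exact_mod_cast h5
  have heN : e ∣ N := by
    obtain ⟨α, v', hd⟩ := h.cov.exists_dat w
    obtain ⟨lam1, h1, h2⟩ := hram α v' hd
    have h3 : lam1 = lam := by
      funext c
      have h4 := hvv w hw α v' hd c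
      rw [h1] at h4
      exact Nat.eq_of_mul_eq_mul_left hepos h4
    refine h2 N fun i => ?_
    rw [h3]
    have h4 : N * ∑ c, a i c * lam c = ∑ c, a i c * ρv c := by
      rw [Finset.mul_sum]
      refine Finset.sum_congr rfl fun c _ => ?_
      rw [hlam c]
      ring
    rw [h4]
    exact hdvd i
  refine ⟨v, w, e, N, hw, hN, heN, fun P hP α v' hd => ⟨fun c => ?_, ?_, ?_⟩⟩
  · rw [hvv P hP α v' hd c, hlam c]
    ring
  · intro δb hδb S' N' ω hω
    obtain ⟨Z', hZ'⟩ : ∃ Z' : Fin (n + 1) → K, Z' = fun b => (X' b : K) := ⟨_, rfl⟩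
    have haeZ : ∀ R : MvPolynomial (Fin (n + 1)) ℂ, aeval Z' R =
        ((aeval X' R : fixedField G) : K) := by
      intro R
      rw [hZ']
      exact MvPolynomial.aeval_algebraMap_apply K X' R
    have hordZ : ∀ R : MvPolynomial (Fin (n + 1)) ℂ, R ≠ 0 →
        aeval Z' R ≠ 0 ∧ P.ord (aeval Z' R) = e * ν R := by
      intro R hR
      have h1 := hP.2 (aeval X' R)
      change P.ord ((aeval X' R : fixedField G) : K) = _ at h1
      rw [haeZ, h1, hv _ hR]
      refine ⟨?_, rfl⟩
      have := hgX'.ne hR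
      simpa using this
    obtain ⟨Y', hY'⟩ : ∃ Y' : Fin (n + 1) → K, Y' = fun b => aeval Z' (Yp b) := ⟨_, rfl⟩
    have hYR : ∀ R : MvPolynomial (Fin (n + 1)) ℂ, aeval Y' R = aeval Z' (aeval Yp R) := by
      intro R
      rw [hY', ← AlgHom.comp_apply, MvPolynomial.comp_aeval]
    have hind : AlgebraicIndependent ℂ Y' := by
      rw [algebraicIndependent_iff]
      intro R hR
      by_contra hR0
      rw [hYR] at hR
      exact (hordZ _ (hνY R hR0).1).1 hR
    have hPY : ∀ R : MvPolynomial (Fin (n + 1)) ℂ, R ≠ 0 →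
        P.ord (aeval Y' R) = e * mord lam' R := by
      intro R hR
      rw [hYR, (hordZ _ (hνY R hR).1).2, (hνY R hR).2]
    obtain ⟨b1, hb1⟩ : ∃ b, lam' b ≠ 0 := by
      by_contra hcon
      push Not at hcon
      have h1 : ∑ b, (c b).elim 0 lam = ∑ e, lam e := sum_sel hc hinj hlamJ
      have h2 : ∑ b, (c b).elim 0 lam = 0 := by
        refine Finset.sum_eq_zero fun b _ => ?_
        have := hcon b
        rw [hlam'] at this
        exact this
      rw [h2] at h1
      have h3 : ∀ e, lam e = 0 := fun e =>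
        (Finset.sum_eq_zero_iff.1 h1.symm) e (Finset.mem_univ _)
      rw [Finset.sum_eq_zero fun c _ => by rw [h3]; simp] at hx
      omega
    obtain ⟨hdiv, DY, hDY, hlog⟩ := log_frame h hind lam' hb1 ⟨a0, b0, hab⟩ hepos hPY
    obtain ⟨cc, hcc⟩ : ∃ cc : Fin (n + 1) → K, cc = fun b => if lam' b = 0 then 1 else Y' b :=
      ⟨_, rfl⟩
    have hY'ne : ∀ b, Y' b ≠ 0 := hind.ne_zero
    have hcc0 : ∀ b, cc b ≠ 0 := by
      intro b
      rw [hcc]
      dsimp only
      split_ifs
      · exact one_ne_zero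
      · exact hY'ne b
    have hordY : ∀ b, P.ord (Y' b) = e * lam' b := by
      intro b
      have h1 := hPY (MvPolynomial.X b) (X_ne_zero _)
      rw [aeval_X] at h1
      have h5 : (MvPolynomial.X b : MvPolynomial (Fin (n + 1)) ℂ) =
        monomial (Finsupp.single b 1) 1 := rfl
      rw [h1, h5, mord_monomial]
      have h6 : Pool.Agent.Y169.CH.wt lam' (Finsupp.single b 1) = lam' b := by
        unfold Pool.Agent.Y169.CH.wt
        rw [Finset.sum_eq_single b]
        · simp
        · intro c _ hc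
          rw [Finsupp.single_apply, if_neg (Ne.symm hc), mul_zero]
        · intro h
          exact absurd (Finset.mem_univ _) h
      rw [h6]
    have hordcc : ∀ b, P.ord (cc b) = e * lam' b := by
      intro b
      rw [hcc]
      dsimp only
      split_ifs with hb
      · rw [P.ord_one, hb]
        simp
      · exact hordY b
    have hdetp : eval q'' (Matrix.of fun i b => pderiv i (Yp b)).det ≠ 0 := by
      have h1 := RingHom.map_det (eval q'') (Matrix.of fun i b => pderiv i (Yp b))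
      rw [h1]
      have h2 : (eval q'').mapMatrix (Matrix.of fun i b => pderiv i (Yp b)) =
          Matrix.of fun i b => eval q'' (pderiv i (yc ε' F q c b)) := by
        ext i b
        rw [RingHom.mapMatrix_apply, Matrix.map_apply, Matrix.of_apply, Matrix.of_apply, hYp]
      rw [h2]
      exact hdet
    have hdet1 : P.ord (aeval (fun b => (X' b : K)) (Matrix.of fun i b => pderiv i (Yp b)).det) =
        0 := by
      have h1 : (Matrix.of fun i b => pderiv i (Yp b)).det ≠ 0 := by
        intro h0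
        rw [h0, map_zero] at hdetp
        exact hdetp rfl
      rw [← hZ', (hordZ _ h1).2, hν1 _ hdetp, mul_zero]
    obtain ⟨hbw0, hbw⟩ := bw_frame h hε' hj hgX' (fun b => by rw [hXu, hu]) Yp hdet1
      (DY := DY) (fun b i => by
        have h1 := hDY b i
        rw [hY', hZ'] at h1
        exact h1) hcc0
    have hjac := Pool.Agent.Q57.TP.jacLd (trdeg_su h) (fin_su h) hdiv (fun b => cc b • DY b)
      (fun b z => by
        rw [hcc]
        exact hlog b z) S' N' (fun P => (δb P : ℝ)) ω hω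
    have hsec := sec_frame h hω.1 (fun b => cc b • DY b)
    have hsum : P.ord (bwK ε pr (fun b => cc b • DY b) y) =
        ∑ i, α (pr i) + ∑ c, (v' c : ℤ) := by
      rw [hbw]
      congr 1
      · refine Finset.sum_congr rfl fun i _ => ?_
        rw [(dat_chart h hd hj (hregu P hP)).1]
      · have h1 : ∑ b, (c b).elim 0 (fun e' => (e : ℤ) * lam e') = ∑ e', (e : ℤ) * lam e' :=
          sum_sel hc hinj fun e' he' => by rw [hlamJ e' he']; simp
        have h2 : ∀ b, P.ord (cc b) = (c b).elim 0 (fun e' => (e : ℤ) * lam e') := by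
          intro b
          rw [hordcc, hlam']
          dsimp only
          rcases c b with _ | e'
          · simp
          · rfl
        rw [Finset.sum_congr rfl fun b _ => h2 b, h1]
        refine Finset.sum_congr rfl fun e' _ => ?_
        rw [hvv P hP α v' hd e']
        push_cast
        ring
    have h3 := sec_of_key h hd (x := ω D0) (N := N') (S' := S')
      (t := ((∑ c, (v' c : ℤ) - 1 : ℤ) : ℝ)) (u := 1) le_rfl (by
        by_cases hz : ω D0 = 0
        · exact Or.inl hz
        right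
        have hne : ω (fun b => cc b • DY b) ≠ 0 := by
          rw [hsec]
          exact mul_ne_zero (pow_ne_zero _ hbw0) hz
        obtain ⟨s, hs, hs0, hle⟩ := hjac.resolve_left hne
        refine ⟨s, hs, hs0, ?_⟩
        rw [hsec, P.ord_mul (pow_ne_zero _ hbw0) hz, P.ord_pow, hsum, hδb] at hle
        push_cast at hle ⊢
        linarith)
    refine h3.imp id ?_
    rintro ⟨s, hs, hs0, hle⟩
    exact ⟨s, hs, hs0, by rwa [mul_one] at hle⟩
  · intro D T g r TT Pc hT hg hgT hTT hlead hT0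
    obtain ⟨h1, h2⟩ := dat_chart h hd hj (hregu P hP)
    obtain ⟨h3, h4⟩ := h2 D T hT hT0
    have hTd : deh ε' T ≠ 0 := by
      intro h0
      have h5 := haeu T
      rw [h0, map_zero, hu] at h5
      exact h3 h5
    have h5 := hordu P hP T hTd
    rw [hu] at h5
    rw [h4, h5]
    -- the weights
    have hwt : ∀ a : κ → ℕ, wt ρv a = N * wt lam a := by
      intro a
      unfold wt
      rw [Finset.mul_sum]
      refine Finset.sum_congr rfl fun c _ => ?_
      rw [hlam c]
      ring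
    obtain ⟨Φ, hΦ⟩ : ∃ Φ : (κ → ℕ) → Fin (n + 1) → ℕ, Φ = fun a b => (c b).elim 0 a := ⟨_, rfl⟩
    have hwt' : ∀ a : κ → ℕ, ∑ b, lam' b * Φ a b = wt lam a := by
      intro a
      have h6 : ∑ b, (c b).elim 0 (fun e' => lam e' * a e') = ∑ e', lam e' * a e' :=
        sum_sel hc hinj fun e' he' => by rw [hlamJ e' he', zero_mul]
      have h7 : ∀ b, lam' b * Φ a b = (c b).elim 0 (fun e' => lam e' * a e') := by
        intro b
        rw [hlam', hΦ]
        dsimp only
        rcases c b with _ | e'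
        · rfl
        · rfl
      rw [Finset.sum_congr rfl fun b _ => h7 b, h6]
      unfold wt
      exact Finset.sum_congr rfl fun e' _ => mul_comm _ _
    choose! φ hφ using hc.1
    obtain ⟨Ψ, hΨ⟩ : ∃ Ψ : (Fin (n + 1) → ℕ) → κ → ℕ,
      Ψ = fun s e' => if e' ∈ Jf then s (φ e') else 0 := ⟨_, rfl⟩
    have hΨΦ : ∀ a ∈ TT, Ψ (Φ a) = a := by
      intro a ha
      funext e'
      rw [hΨ, hΦ]
      dsimp only
      split_ifs with he'
      · rw [hφ e' he']
        rfl
      · symm
        refine (hTT a ha).2 e' ?_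
        by_contra h6
        exact he' ((hJm e').2 h6)
    have hprod : ∀ a ∈ TT, ∏ b, Yp b ^ Φ a b = ∏ e', deh ε' (F e') ^ a e' := by
      intro a ha
      have h6 : ∏ b, (c b).elim 1 (fun e' => deh ε' (F e') ^ a e') =
          ∏ e', deh ε' (F e') ^ a e' := prod_sel hc hinj fun e' he' => by
        rw [(hTT a ha).2 e' (by
          by_contra h6
          exact he' ((hJm e').2 h6)), pow_zero]
      rw [← h6]
      refine Finset.prod_congr rfl fun b _ => ?_
      rw [hYp, hΦ]
      dsimp only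
      unfold yc
      rcases c b with _ | e'
      · simp
      · rfl
    have hsum : deh ε' g * deh ε' T =
        ∑ s ∈ TT.image Φ, deh ε' (Pc (Ψ s)) * ∏ b, Yp b ^ s b := by
      rw [← map_mul, hgT, map_sum, Finset.sum_image]
      · refine Finset.sum_congr rfl fun a ha => ?_
        rw [hΨΦ a ha, map_mul, map_prod, hprod a ha]
        simp only [map_pow]
      · intro a ha b hb hab
        rw [← hΨΦ a ha, ← hΨΦ b hb, hab]
    obtain ⟨a1, ha1, ha1r, ha1q⟩ := hlead
    rw [hYp] at hsum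
    obtain ⟨h6, h7⟩ := hνlead (wt lam a1) (TT.image Φ) (fun s => deh ε' (Pc (Ψ s))) (by
      intro s hs
      obtain ⟨a, ha, rfl⟩ := Finset.mem_image.1 hs
      refine ⟨?_, fun b hb => ?_⟩
      · rw [hwt']
        have h8 := (hTT a ha).1
        rw [← ha1r, hwt, hwt] at h8
        exact Nat.le_of_mul_le_mul_left h8 hN
      · rw [hΦ]
        dsimp only
        rw [hlam'] at hb
        dsimp only at hb
        rcases hcb : c b with _ | e'
        · rfl
        · exfalso
          rw [hcb] at hb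
          have h8 := (hJm e').1 (hc.2 b e' hcb)
          apply h8
          have h9 : lam e' = 0 := hb
          rw [hlam e', h9, mul_zero]) ⟨Φ a1, Finset.mem_image_of_mem _ ha1, hwt' a1, by
        rw [hΨΦ a1 ha1, heval]
        exact ha1q⟩
    dsimp only at hsum
    rw [← hsum] at h6 h7
    have hgd : deh ε' g ≠ 0 := left_ne_zero_of_mul h6
    rw [hdeg.mul _ _ hgd hTd, hν1 _ (by rw [heval]; exact hg), zero_add] at h7
    rw [h7, ← ha1r, hwt]
    push_cast
    ring

end

end Pool.Agent.Q41.AB
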